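import Pool.Agent.H906.PC.Nonvan

/-! # Semiampleness of the canonical bundle for diagonal groups -/

open Filter Topology Matrix
open scoped MatrixGroups Classical ComplexOrder

namespace Pool.Agent.H906.PC

variable {A B : Type*} [Fintype A] [Fintype B]

/-- sections of the `l`-th power of the canonical bundle of the quotient by `Γ` -/
def IsSec (Γ : Subgroup (Grp A B)) (l : ℕ) (F : Pt A B → ℂ) : Prop :=
  DifferentiableOn ℂ F (Dom A B) ∧ ∀ γ ∈ Γ, ∀ y ∈ Dom A B, F (act γ y) * jac γ y ^ l = F y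

/-- discreteness of the hyperbolic part -/
theorem disc_fst {Γ : Subgroup (Grp A B)} (hG : Good Γ (fun _ => False)) :
    ∀ᶠ g in 𝓝 (1 : A → SL(2, ℝ)), g ∈ Γ.map (MonoidHom.fst _ _) → g = 1 := by
  have h1 := disc hG
  have hcont : Continuous fun (g : A → SL(2, ℝ)) (p : {i : A // ¬ False}) => g p.1 :=
    continuous_pi fun p => continuous_apply _
  have h2 := hcont.continuousAt (x := 1)
  have h3 : ∀ᶠ g in 𝓝 (1 : A → SL(2, ℝ)), (fun p : {i : A // ¬ False} => g p.1) ∈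
      res (fun _ => False) '' (Γ : Set (Grp A B)) → (fun p : {i : A // ¬ False} => g p.1) = 1 :=
    h2.eventually h1
  filter_upwards [h3] with g hg hgm
  obtain ⟨γ, hγ, rfl⟩ := hgm
  have h4 := hg ⟨γ, hγ, rfl⟩
  funext i
  exact congrFun h4 ⟨i, fun h => h⟩

theorem jac_pow {Γ : Subgroup (Grp A B)} {m : ℕ}
    (hm : ∀ γ ∈ Γ, ∀ j, lin (γ.2 j) ^ m = 1) {l : ℕ} (hl : m ∣ l) {γ : Grp A B} (hγ : γ ∈ Γ)
    (x : Pt A B) : jac γ x ^ l = ((∏ i, den (γ.1 i) (x (Sum.inl i))) ^ (2 * l))⁻¹ := by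
  obtain ⟨c, rfl⟩ := hl
  have h1 : (∏ j, lin (γ.2 j)) ^ (m * c) = 1 := by
    rw [pow_mul, ← Finset.prod_pow, Finset.prod_eq_one fun j _ => hm γ hγ j, one_pow]
  rw [jac_eq, mul_pow, h1, mul_one, inv_pow, ← pow_mul]

theorem IsSec.pow {Γ : Subgroup (Grp A B)} {l : ℕ} {F : Pt A B → ℂ} (hF : IsSec Γ l F) (n : ℕ) :
    IsSec Γ (l * n) (fun x => F x ^ n) := by
  refine ⟨hF.1.pow n, fun γ hγ y hy => ?_⟩
  rw [pow_mul, ← mul_pow, hF.2 γ hγ y hy]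

/-- from points to the whole compact quotient -/
theorem globalise {Γ : Subgroup (Grp A B)} (hcc : Cocompact Γ)
    (h : ∀ x ∈ Dom A B, ∃ l, 0 < l ∧ ∃ F, IsSec Γ l F ∧ F x ≠ 0) :
    ∃ l, 0 < l ∧ ∀ x ∈ Dom A B, ∃ F, IsSec Γ l F ∧ F x ≠ 0 := by
  obtain ⟨K, hK, hKc, hcov⟩ := hcc
  choose! l hl0 F hF hFx using h
  have hU : ∀ x ∈ K, {y | F x y ≠ 0} ∈ 𝓝[K] x := by
    intro x hx
    have h1 : ContinuousWithinAt (F x) K x :=
      (((hF x (hK hx)).1.continuousOn).mono hK) x hx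
    exact h1 (isOpen_ne.mem_nhds (hFx x (hK hx)))
  obtain ⟨t, ht, hcov2⟩ := hKc.elim_nhdsWithin_subcover (fun x => {y | F x y ≠ 0}) hU
  refine ⟨∏ x ∈ t, l x, Finset.prod_pos fun x hx => hl0 x (hK (ht x hx)), fun x hx => ?_⟩
  obtain ⟨γ, hγ, hγK⟩ := hcov x hx
  obtain ⟨z, hz, hzx⟩ := Set.mem_iUnion₂.1 (hcov2 hγK)
  have hzD := hK (ht z hz)
  have h1 := (hF z hzD).pow (∏ y ∈ t.erase z, l y)
  rw [Finset.mul_prod_erase _ _ hz] at h1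
  refine ⟨_, h1, ?_⟩
  have h2 : F z (act γ x) ≠ 0 := hzx
  have h3 := (hF z hzD).2 γ hγ x hx
  have h4 : jac γ x ≠ 0 := Finset.prod_ne_zero_iff.2 fun k _ => der_ne_zero γ hx k
  have h5 : F z x ≠ 0 := by
    rw [← h3]; exact mul_ne_zero h2 (pow_ne_zero _ h4)
  exact pow_ne_zero _ h5

theorem semiample_of_uni {Γ : Subgroup (Grp A B)} (hpd : ProperlyDiscontinuous Γ)
    (hcc : Cocompact Γ) (hU : Uni Γ) (hU' : ∀ h : Grp A B, Uni (cj h Γ)) :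
    ∃ l, 0 < l ∧ ∀ x ∈ Dom A B, ∃ F, IsSec Γ l F ∧ F x ≠ 0 := by
  have hG := good hpd hcc hU'
  obtain ⟨-, m, hm0, hm⟩ := lin_pow hG hU
  refine globalise hcc fun x hx => ?_
  obtain ⟨l, hl0, hml, hdiff, hne⟩ := exists_nonzero (disc_fst hG) hx hm0
  refine ⟨l, hl0, _, ⟨hdiff, fun γ hγ y hy => ?_⟩, hne⟩
  have hmem : γ.1 ∈ Γ.map (MonoidHom.fst (A → SL(2, ℝ)) (B → ℂ ≃ᵃ[ℂ] ℂ)) :=
    Subgroup.mem_map.2 ⟨γ, hγ, rfl⟩
  rw [jac_pow hm hml hγ, FF_act _ _ hmem hy]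
  have h0 : (∏ i, den (γ.1 i) (y (Sum.inl i))) ≠ 0 :=
    Finset.prod_ne_zero_iff.2 fun i _ => den_ne_zero _ (hy i)
  rw [mul_assoc, mul_inv_cancel₀ (pow_ne_zero _ h0), mul_one]

/-- **Abundance for diagonal groups.** -/
theorem semiample {Γ : Subgroup (Grp A B)} (hpd : ProperlyDiscontinuous Γ) (hcc : Cocompact Γ)
    {g : Pt A B → Matrix (A ⊕ B) (A ⊕ B) ℂ} (hg : IsKahler Γ g) :
    ∃ l, 0 < l ∧ ∀ x ∈ Dom A B, ∃ F, IsSec Γ l F ∧ F x ≠ 0 :=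
  semiample_of_uni hpd hcc (uni_of_kahler hg) fun h => uni_of_kahler (kahler_cj hg h)

end Pool.Agent.H906.PC
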