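import Pool.Agent.H906.PC.Defs

/-! # Automorphisms of `ℂ` and of the upper half-plane -/

open Filter Topology Set Matrix
open scoped MatrixGroups

namespace Pool.Agent.H906.PC

/-- an injective entire function with entire inverse is affine -/
theorem aut_C {f g : ℂ → ℂ} (hf : Differentiable ℂ f) (hg : Differentiable ℂ g)
    (hgf : ∀ z, g (f z) = z) : ∃ c b : ℂ, c ≠ 0 ∧ ∀ z, f z = c * z + b := by
  set F : ℂ → ℂ := fun z => f z - f 0 with hF
  have hFd : Differentiable ℂ F := hf.sub_const _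
  have hF0 : F 0 = 0 := by simp [hF]
  have hFne : ∀ z, z ≠ 0 → F z ≠ 0 := by
    intro z hz h
    apply hz
    have : f z = f 0 := sub_eq_zero.1 h
    rw [← hgf z, this, hgf]
  have hFder : deriv F 0 ≠ 0 := by
    intro h
    have h1 : HasDerivAt f 0 0 := by
      have := (hf 0).hasDerivAt
      have h2 : deriv F 0 = deriv f 0 := by
        rw [hF]; exact deriv_sub_const (f := f) (x := (0 : ℂ)) (f 0)
      rw [← h2, h] at this
      exact this
    have h2 := (hg (f 0)).hasDerivAt.comp (0 : ℂ) h1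
    have h3 : (g ∘ f) = id := by funext z; exact hgf z
    rw [h3, mul_zero] at h2
    have h4 := h2.unique (hasDerivAt_id (0 : ℂ))
    exact zero_ne_one h4
  set h : ℂ → ℂ := dslope F 0 with hh
  have hhd : Differentiable ℂ h := by
    rw [← differentiableOn_univ]
    exact (Complex.differentiableOn_dslope (univ_mem)).2 hFd.differentiableOn
  have hhF : ∀ z, z * h z = F z := by
    intro z
    have := sub_smul_dslope F 0 z
    rw [sub_zero, smul_eq_mul, hF0, sub_zero] at this
    exact this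
  have hhne : ∀ z, h z ≠ 0 := by
    intro z
    by_cases hz : z = 0
    · subst hz
      rw [hh, dslope_same]; exact hFder
    · intro h0
      apply hFne z hz
      rw [← hhF z, h0, mul_zero]
  set k : ℂ → ℂ := fun z => (h z)⁻¹ with hk
  have hkd : Differentiable ℂ k := fun z => (hhd z).inv (hhne z)
  -- growth
  obtain ⟨R, hR⟩ : ∃ R : ℝ, ∀ z, R < ‖z‖ → 1 ≤ ‖F z‖ := by
    have hc : IsCompact (g '' Metric.closedBall (f 0) 1) :=
      (isCompact_closedBall _ _).image hg.continuous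
    obtain ⟨R, hR⟩ := hc.isBounded.subset_closedBall 0
    refine ⟨R, fun z hz => ?_⟩
    by_contra hlt
    push Not at hlt
    have h1 : f z ∈ Metric.closedBall (f 0) 1 := by
      rw [Metric.mem_closedBall, dist_eq_norm]; exact hlt.le
    have h2 := hR ⟨f z, h1, rfl⟩
    rw [hgf, mem_closedBall_zero_iff] at h2
    linarith
  have hkb : ∀ z, R < ‖z‖ → ‖k z‖ ≤ ‖z‖ := by
    intro z hz
    have h1 := hR z hz
    rw [← hhF z, norm_mul] at h1
    rw [hk, norm_inv]
    have h2 : 0 < ‖h z‖ := norm_pos_iff.2 (hhne z)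
    rw [inv_le_iff_one_le_mul₀ h2]
    exact h1
  set p : ℂ → ℂ := dslope k 0 with hp
  have hpd : Differentiable ℂ p := by
    rw [← differentiableOn_univ]
    exact (Complex.differentiableOn_dslope (univ_mem)).2 hkd.differentiableOn
  have hpk : ∀ z, z * p z = k z - k 0 := by
    intro z
    have := sub_smul_dslope k 0 z
    rw [sub_zero, smul_eq_mul] at this
    exact this
  have hpb : Bornology.IsBounded (range p) := by
    set R' := max R 1 with hR'
    have hc : IsCompact (p '' Metric.closedBall 0 R') :=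
      (isCompact_closedBall _ _).image hpd.continuous
    obtain ⟨M, hM⟩ := hc.isBounded.exists_norm_le
    refine isBounded_iff_forall_norm_le.2 ⟨max M (1 + ‖k 0‖), ?_⟩
    rintro _ ⟨z, rfl⟩
    by_cases hz : ‖z‖ ≤ R'
    · exact (hM _ ⟨z, by simpa using hz, rfl⟩).trans (le_max_left _ _)
    · push Not at hz
      refine le_trans ?_ (le_max_right _ _)
      have hz1 : 1 < ‖z‖ := (le_max_right _ _).trans_lt hz
      have hz2 : R < ‖z‖ := (le_max_left _ _).trans_lt hz
      have h1 : ‖z‖ * ‖p z‖ ≤ ‖z‖ + ‖k 0‖ := by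
        rw [← norm_mul, hpk z]
        exact (norm_sub_le _ _).trans (by linarith [hkb z hz2])
      have h2 : ‖z‖ * ‖p z‖ ≤ ‖z‖ * (1 + ‖k 0‖) := by
        nlinarith [norm_nonneg (k 0)]
      exact le_of_mul_le_mul_left h2 (by linarith)
  have hpc : ∀ z, p z = p 0 := fun z => hpd.apply_eq_apply_of_bounded hpb z 0
  have hp0 : p 0 = 0 := by
    by_contra hne
    have h1 := hpk (-(k 0) / p 0)
    rw [hpc (-(k 0) / p 0), div_mul_cancel₀ _ hne] at h1
    have h2 : k (-(k 0) / p 0) = 0 := by linear_combination -h1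
    exact inv_ne_zero (hhne _) h2
  have hkc : ∀ z, k z = k 0 := by
    intro z
    have h1 := hpk z
    rw [hpc, hp0, mul_zero] at h1
    linear_combination -h1
  have hhc : ∀ z, h z = h 0 := fun z => inv_injective (hkc z)
  refine ⟨h 0, f 0, hhne 0, fun z => ?_⟩
  have h1 := hhF z
  rw [hhc] at h1
  have h2 : F z = f z - f 0 := rfl
  rw [h2] at h1
  linear_combination -h1

theorem aut_C' {f g : ℂ → ℂ} (hf : Differentiable ℂ f) (hg : Differentiable ℂ g)
    (hgf : ∀ z, g (f z) = z) : ∃ e : ℂ ≃ᵃ[ℂ] ℂ, ∀ z, f z = e z := by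
  obtain ⟨c, b, hc, h⟩ := aut_C hf hg hgf
  refine ⟨((LinearEquiv.smulOfUnit (Units.mk0 c hc)).toAffineEquiv).trans
    (AffineEquiv.constVAdd ℂ ℂ b), fun z => ?_⟩
  rw [h z]
  change c * z + b = b + c * z
  ring

/-- Cayley transform -/
noncomputable def cay (z : ℂ) : ℂ := (z - Complex.I) / (z + Complex.I)

/-- inverse Cayley transform -/
noncomputable def cayi (w : ℂ) : ℂ := Complex.I * (1 + w) / (1 - w)

theorem add_I_ne {z : ℂ} (hz : 0 < z.im) : z + Complex.I ≠ 0 := by
  intro h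
  have := congrArg Complex.im h
  simp at this
  linarith

theorem one_sub_ne {w : ℂ} (hw : ‖w‖ < 1) : 1 - w ≠ 0 := by
  intro h
  have : w = 1 := by linear_combination -h
  rw [this] at hw
  simp at hw

theorem cay_mem {z : ℂ} (hz : 0 < z.im) : ‖cay z‖ < 1 := by
  have h0 : 0 < ‖z + Complex.I‖ := norm_pos_iff.2 (add_I_ne hz)
  rw [cay, norm_div, div_lt_one h0]
  apply lt_of_pow_lt_pow_left₀ 2 (norm_nonneg _)
  rw [← Complex.normSq_eq_norm_sq, ← Complex.normSq_eq_norm_sq, Complex.normSq_apply,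
    Complex.normSq_apply]
  simp
  nlinarith

theorem cayi_im {w : ℂ} (hw : ‖w‖ < 1) : 0 < (cayi w).im := by
  have h0 := one_sub_ne hw
  have h1 : 0 < Complex.normSq (1 - w) := Complex.normSq_pos.2 h0
  have h2 : Complex.normSq w < 1 := by
    rw [Complex.normSq_eq_norm_sq]
    nlinarith [norm_nonneg w]
  rw [Complex.normSq_apply] at h2
  rw [cayi, Complex.div_im]
  rw [← sub_div]
  apply div_pos _ h1
  simp
  nlinarith

theorem cayi_cay {z : ℂ} (hz : 0 < z.im) : cayi (cay z) = z := by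
  have h0 := add_I_ne hz
  have h1 := one_sub_ne (cay_mem hz)
  rw [cayi, div_eq_iff h1, cay]
  field_simp
  ring_nf

theorem cay_cayi {w : ℂ} (hw : ‖w‖ < 1) : cay (cayi w) = w := by
  have h0 := one_sub_ne hw
  have h1 := add_I_ne (cayi_im hw)
  rw [cay, div_eq_iff h1, cayi]
  field_simp
  ring

theorem cay_I : cay Complex.I = 0 := by simp [cay]

theorem cayi_zero : cayi 0 = Complex.I := by simp [cayi]

theorem cay_diff {z : ℂ} (hz : 0 < z.im) : DifferentiableAt ℂ cay z := by
  unfold cay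
  exact (differentiableAt_id.sub_const _).div (differentiableAt_id.add_const _) (add_I_ne hz)

theorem cayi_diff {w : ℂ} (hw : ‖w‖ < 1) : DifferentiableAt ℂ cayi w := by
  unfold cayi
  exact ((differentiableAt_id.const_add 1).const_mul _).div (differentiableAt_id.const_sub 1)
    (one_sub_ne hw)

theorem cay_eq_zero {z : ℂ} (hz : 0 < z.im) (h : cay z = 0) : z = Complex.I := by
  rw [← cayi_cay hz, h, cayi_zero]

theorem schwarz_H {F : ℂ → ℂ} (hF : ∀ z : ℂ, 0 < z.im → DifferentiableAt ℂ F z)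
    (hm : ∀ z : ℂ, 0 < z.im → 0 < (F z).im) (h0 : F Complex.I = Complex.I) :
    DifferentiableOn ℂ (fun w => cay (F (cayi w))) (Metric.ball 0 1) ∧
    MapsTo (fun w => cay (F (cayi w))) (Metric.ball 0 1) (Metric.closedBall 0 1) ∧
    ∀ w, ‖w‖ < 1 → ‖cay (F (cayi w))‖ ≤ ‖w‖ := by
  have h1 : DifferentiableOn ℂ (fun w => cay (F (cayi w))) (Metric.ball 0 1) := by
    intro w hw
    rw [mem_ball_zero_iff] at hw
    refine DifferentiableAt.differentiableWithinAt ?_
    have a1 := cayi_im hw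
    exact (cay_diff (hm _ a1)).comp w ((hF _ a1).comp w (cayi_diff hw))
  have h2 : MapsTo (fun w => cay (F (cayi w))) (Metric.ball 0 1) (Metric.closedBall 0 1) := by
    intro w hw
    rw [mem_ball_zero_iff] at hw
    rw [mem_closedBall_zero_iff]
    exact (cay_mem (hm _ (cayi_im hw))).le
  refine ⟨h1, h2, fun w hw => ?_⟩
  exact Complex.norm_le_norm_of_mapsTo_ball (f := fun w => cay (F (cayi w))) h1 h2
    (by simp only [cayi_zero, h0, cay_I]) hw

/-- rotations about `i` -/
noncomputable def rot (t : ℝ) : SL(2, ℝ) :=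
  ⟨!![Real.cos t, Real.sin t; -Real.sin t, Real.cos t], by
    rw [Matrix.det_fin_two_of]; nlinarith [Real.sin_sq_add_cos_sq t]⟩

theorem mob_rot (t : ℝ) {z : ℂ} (hz : 0 < z.im) :
    cay (mob (rot t) z) = Complex.exp (2 * t * Complex.I) * cay z := by
  have hd := den_ne_zero (rot t) hz
  have h1 := add_I_ne (mob_im_pos (rot t) hz)
  have h2 := add_I_ne hz
  have e1 : Complex.exp (2 * t * Complex.I) =
      (Complex.cos t + Complex.sin t * Complex.I) ^ 2 := by
    rw [← Complex.exp_mul_I, ← Complex.exp_nat_mul]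
    congr 1
    push_cast; ring
  rw [cay, div_eq_iff h1, e1, cay]
  have h3 := Complex.sin_sq_add_cos_sq (t : ℂ)
  have h4 := Complex.I_sq
  have hden : den (rot t) z = -Complex.sin t * z + Complex.cos t := by
    simp [rot, den]
  have hmob : mob (rot t) z = (Complex.cos t * z + Complex.sin t) / den (rot t) z := by
    simp [rot, mob]
  rw [hmob]
  rw [hden] at hd ⊢
  set c := Complex.cos (t : ℂ)
  set s := Complex.sin (t : ℂ)
  have h5 : (c * z + s - Complex.I * (-s * z + c)) = (c + s * Complex.I) * (z - Complex.I) := by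
    linear_combination s * h4
  have h6 : (c * z + s + Complex.I * (-s * z + c)) = (c - s * Complex.I) * (z + Complex.I) := by
    linear_combination s * h4
  have h7 : (c + s * Complex.I) * (c - s * Complex.I) = 1 := by
    linear_combination h3 - s ^ 2 * h4
  have h8 : (c * z + s) / (-s * z + c) - Complex.I =
      (c + s * Complex.I) * (z - Complex.I) / (-s * z + c) := by
    rw [← h5, div_sub' hd]; ring
  have h9 : (c * z + s) / (-s * z + c) + Complex.I =
      (c - s * Complex.I) * (z + Complex.I) / (-s * z + c) := by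
    rw [← h6, div_add' _ _ _ hd]
  rw [h8, h9]
  have h10 : (c + s * Complex.I) ^ 2 * ((z - Complex.I) / (z + Complex.I)) *
      ((c - s * Complex.I) * (z + Complex.I) / (-s * z + c)) =
      ((c + s * Complex.I) * (c - s * Complex.I)) * ((c + s * Complex.I) * (z - Complex.I)) /
        (-s * z + c) := by
    field_simp
  rw [h10, h7, one_mul]

/-- transitivity -/
theorem exists_mob {w : ℂ} (hw : 0 < w.im) : ∃ q : SL(2, ℝ), mob q Complex.I = w := by
  have hs : 0 < Real.sqrt w.im := Real.sqrt_pos.2 hw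
  refine ⟨⟨!![Real.sqrt w.im, w.re / Real.sqrt w.im; 0, (Real.sqrt w.im)⁻¹], by
    rw [Matrix.det_fin_two_of]; field_simp; simp⟩, ?_⟩
  have h1 : (Real.sqrt w.im : ℂ) ≠ 0 := by exact_mod_cast hs.ne'
  have h2 : (Real.sqrt w.im : ℂ) * (Real.sqrt w.im : ℂ) = (w.im : ℂ) := by
    exact_mod_cast Real.mul_self_sqrt hw.le
  simp only [mob, den, Matrix.of_apply, Matrix.cons_val', Matrix.cons_val_zero,
    Matrix.cons_val_one, Matrix.cons_val_fin_one, Complex.ofReal_zero, Complex.ofReal_inv,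
    Complex.ofReal_div]
  field_simp
  rw [sq, h2]
  linear_combination Complex.re_add_im w

theorem mob_inv_mob (q : SL(2, ℝ)) {z : ℂ} (hz : 0 < z.im) : mob q⁻¹ (mob q z) = z := by
  rw [← mob_mul _ _ hz, inv_mul_cancel, mob_one]

theorem mob_mob_inv (q : SL(2, ℝ)) {z : ℂ} (hz : 0 < z.im) : mob q (mob q⁻¹ z) = z := by
  rw [← mob_mul _ _ hz, mul_inv_cancel, mob_one]

/-- a holomorphic automorphism of `H` is a Möbius transformation -/
theorem aut_H {f g : ℂ → ℂ} (hf : ∀ z : ℂ, 0 < z.im → DifferentiableAt ℂ f z)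
    (hg : ∀ z : ℂ, 0 < z.im → DifferentiableAt ℂ g z)
    (hfm : ∀ z : ℂ, 0 < z.im → 0 < (f z).im) (hgm : ∀ z : ℂ, 0 < z.im → 0 < (g z).im)
    (hgf : ∀ z : ℂ, 0 < z.im → g (f z) = z) (hfg : ∀ z : ℂ, 0 < z.im → f (g z) = z) :
    ∃ q : SL(2, ℝ), ∀ z : ℂ, 0 < z.im → f z = mob q z := by
  have hI : 0 < (Complex.I).im := by simp
  obtain ⟨q, hq⟩ := exists_mob (hfm _ hI)
  -- normalise
  set F : ℂ → ℂ := fun z => mob q⁻¹ (f z) with hF
  set G : ℂ → ℂ := fun z => g (mob q z) with hG
  have hFd : ∀ z : ℂ, 0 < z.im → DifferentiableAt ℂ F z := fun z hz =>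
    (hasDerivAt_mob q⁻¹ (hfm z hz)).differentiableAt.comp z (hf z hz)
  have hGd : ∀ z : ℂ, 0 < z.im → DifferentiableAt ℂ G z := fun z hz =>
    (hg _ (mob_im_pos q hz)).comp z (hasDerivAt_mob q hz).differentiableAt
  have hFm : ∀ z : ℂ, 0 < z.im → 0 < (F z).im := fun z hz => mob_im_pos _ (hfm z hz)
  have hGm : ∀ z : ℂ, 0 < z.im → 0 < (G z).im := fun z hz => hgm _ (mob_im_pos q hz)
  have hGF : ∀ z : ℂ, 0 < z.im → G (F z) = z := by
    intro z hz
    simp only [hF, hG]
    rw [mob_mob_inv q (hfm z hz), hgf z hz]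
  have hF0 : F Complex.I = Complex.I := by
    simp only [hF]
    rw [← hq, mob_inv_mob q hI]
  have hG0 : G Complex.I = Complex.I := by
    have := hGF _ hI
    rwa [hF0] at this
  obtain ⟨d1, m1, s1⟩ := schwarz_H hFd hFm hF0
  obtain ⟨-, -, s2⟩ := schwarz_H hGd hGm hG0
  have hnorm : ∀ w, ‖w‖ < 1 → ‖cay (F (cayi w))‖ = ‖w‖ := by
    intro w hw
    refine le_antisymm (s1 w hw) ?_
    have h1 := s2 (cay (F (cayi w))) (cay_mem (hFm _ (cayi_im hw)))
    rw [cayi_cay (hFm _ (cayi_im hw)), hGF _ (cayi_im hw), cay_cayi hw] at h1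
    exact h1
  have h00 : cay (F (cayi 0)) = 0 := by
    simp only [cayi_zero, hF0, cay_I]
  have hhalf : ‖(1 / 2 : ℂ)‖ < 1 := by norm_num
  have hds : ‖dslope (fun w => cay (F (cayi w))) 0 (1 / 2)‖ = 1 / 1 := by
    rw [dslope_of_ne _ (by norm_num), slope_def_module, h00, sub_zero, sub_zero, norm_smul,
      hnorm _ hhalf]
    norm_num
  have haff := Complex.affine_of_mapsTo_ball_of_norm_dslope_eq_div
    (f := fun w => cay (F (cayi w))) (c := 0) (R₁ := 1) (R₂ := 1) (z₀ := 1 / 2) d1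
    (by rw [h00]; exact m1) (by rw [mem_ball_zero_iff]; exact hhalf) hds
  set c := dslope (fun w => cay (F (cayi w))) 0 (1 / 2) with hc
  have hc1 : ‖c‖ = 1 := by rw [hds]; norm_num
  obtain ⟨θ, hθ⟩ := (Complex.norm_eq_one_iff c).1 hc1
  refine ⟨q * rot (θ / 2), fun z hz => ?_⟩
  rw [mob_mul _ _ hz]
  have h1 : F z = mob (rot (θ / 2)) z := by
    have h2 := haff (x := cay z) (by rw [mem_ball_zero_iff]; exact cay_mem hz)
    simp only [cayi_zero, hF0, cay_I, zero_add, sub_zero, smul_eq_mul] at h2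
    rw [cayi_cay hz] at h2
    have h3 := mob_rot (θ / 2) hz
    have h4 : Complex.exp (2 * ((θ / 2 : ℝ) : ℂ) * Complex.I) = c := by
      rw [← hθ]; congr 1; push_cast; ring
    rw [h4, mul_comm c, ← h2] at h3
    rw [← cayi_cay (hFm z hz), ← h3, cayi_cay (mob_im_pos _ hz)]
  rw [← h1]
  simp only [hF]
  rw [mob_mob_inv q (hfm z hz)]

end Pool.Agent.H906.PC
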