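import Pool.Agent.H906.PC.Ext2
import Pool.Agent.H906.PC.Aut

/-! # Groups preserving the splitting of the tangent bundle of `H^A × ℂ^B` -/

set_option linter.unusedSectionVars false

open Filter Topology Matrix
open scoped MatrixGroups Classical ComplexOrder

namespace Pool.Agent.H906.PC

variable {A B : Type*} [Fintype A] [Fintype B]
variable {Δ : Type*} [Group Δ] {ρ : Δ → Pt A B → Pt A B}

/-- The subgroup `Δ0` preserves the `n` coordinate line subbundles of the tangent bundle. -/
def Splits (ρ : Δ → Pt A B → Pt A B) (Δ0 : Subgroup Δ) : Prop :=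
  ∀ δ ∈ Δ0, ∀ x ∈ Dom A B, ∀ k i, k ≠ i → Jm (ρ δ) x k i = 0

theorem fderiv_eq_sum {f : Pt A B → Pt A B} {x : Pt A B} (v : Pt A B) (k : A ⊕ B) :
    fderiv ℂ f x v k = ∑ i, Jm f x k i * v i := by
  have h2 : v = ∑ j, v j • (Pi.single j (1 : ℂ) : Pt A B) := by
    funext l
    simp [Finset.sum_apply, Pi.single_apply]
  conv_lhs => rw [h2]
  rw [map_sum, Finset.sum_apply]
  refine Finset.sum_congr rfl fun j _ => ?_
  rw [map_smul, Pi.smul_apply, smul_eq_mul, mul_comm]
  rfl

theorem depends {f : Pt A B → Pt A B} (hf : DifferentiableOn ℂ f (Dom A B))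
    (hs : ∀ x ∈ Dom A B, ∀ k i, k ≠ i → Jm f x k i = 0) {x y : Pt A B} (hx : x ∈ Dom A B)
    (hy : y ∈ Dom A B) {k : A ⊕ B} (hk : x k = y k) : f x k = f y k := by
  set p : ℝ → Pt A B := fun t => x + (t : ℂ) • (y - x) with hp
  have hmem : ∀ t ∈ Set.Icc (0 : ℝ) 1, p t ∈ Dom A B := by
    intro t ht i
    have h1 := hx i
    have h2 := hy i
    have h3 : (p t (Sum.inl i)).im =
        (1 - t) * (x (Sum.inl i)).im + t * (y (Sum.inl i)).im := by
      simp [hp]; ring
    rw [h3]
    rcases eq_or_lt_of_le ht.1 with h | h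
    · rw [← h]; simpa using h1
    · have : 0 ≤ 1 - t := by linarith [ht.2]
      have := mul_nonneg this h1.le
      have := mul_pos h h2
      linarith
  have hpd : ∀ t : ℝ, HasDerivAt p (y - x) t := by
    intro t
    have h1 : HasDerivAt (fun t : ℝ => (t : ℂ)) 1 t := Complex.ofRealCLM.hasDerivAt
    have h2 := (h1.smul_const (y - x)).const_add x
    rw [one_smul] at h2
    exact h2
  have hder : ∀ t ∈ Set.Icc (0 : ℝ) 1, HasDerivAt (fun t => f (p t) k) 0 t := by
    intro t ht
    have h1 := ((hf.differentiableAt (isOpen_dom.mem_nhds (hmem t ht))).hasFDerivAt).restrictScalars ℝ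
    have h2 := h1.comp_hasDerivAt t (hpd t)
    have h3 := hasDerivAt_pi.1 h2 k
    have h4 : (fderiv ℂ f (p t)).restrictScalars ℝ (y - x) k = 0 := by
      change fderiv ℂ f (p t) (y - x) k = 0
      rw [fderiv_eq_sum]
      refine Finset.sum_eq_zero fun i _ => ?_
      by_cases hik : k = i
      · subst hik
        rw [Pi.sub_apply, hk, sub_self, mul_zero]
      · rw [hs _ (hmem t ht) k i hik, zero_mul]
    rw [h4] at h3
    exact h3
  have h5 := constant_of_has_deriv_right_zero (a := (0 : ℝ)) (b := 1)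
    (f := fun t => f (p t) k)
    (fun t ht => (hder t ht).continuousAt.continuousWithinAt)
    (fun t ht => (hder t ⟨ht.1, ht.2.le⟩).hasDerivWithinAt) 1 (by simp)
  have h6 : p 1 = y := by simp [hp]
  have h7 : p 0 = x := by simp [hp]
  simp only [h6, h7] at h5
  exact h5.symm

theorem update_mem_inl (i : A) {t : ℂ} (ht : 0 < t.im) :
    Function.update (base A B) (Sum.inl i) t ∈ Dom A B := by
  intro i'
  by_cases h' : i' = i
  · subst h'; simpa using ht
  · have : Function.update (base A B) (Sum.inl i) t (Sum.inl i') = Complex.I := by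
      rw [Function.update_of_ne (by simpa using h')]; rfl
    rw [this]; simp

theorem update_mem_inr (j : B) (t : ℂ) :
    Function.update (base A B) (Sum.inr j) t ∈ Dom A B := by
  intro i'
  have : Function.update (base A B) (Sum.inr j) t (Sum.inl i') = Complex.I := by
    rw [Function.update_of_ne (by simp)]; rfl
  rw [this]; simp

theorem diag_of_splits {f g : Pt A B → Pt A B} (hf : DifferentiableOn ℂ f (Dom A B))
    (hg : DifferentiableOn ℂ g (Dom A B)) (hfm : ∀ x ∈ Dom A B, f x ∈ Dom A B)
    (hgm : ∀ x ∈ Dom A B, g x ∈ Dom A B) (hgf : ∀ x ∈ Dom A B, g (f x) = x)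
    (hfg : ∀ x ∈ Dom A B, f (g x) = x)
    (hfs : ∀ x ∈ Dom A B, ∀ k i, k ≠ i → Jm f x k i = 0)
    (hgs : ∀ x ∈ Dom A B, ∀ k i, k ≠ i → Jm g x k i = 0) :
    ∃ γ : Grp A B, ∀ x ∈ Dom A B, f x = act γ x := by
  have hupd : ∀ (k : A ⊕ B) (t : ℂ), HasDerivAt (fun t => Function.update (base A B) k t)
      (Pi.single k 1) t := by
    intro k t
    rw [hasDerivAt_pi]
    intro l
    by_cases hl : l = k
    · subst hl; simpa using hasDerivAt_id' t
    · simpa [Function.update_of_ne hl, hl] using hasDerivAt_const t (base A B l)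
  have hdiff : ∀ (h : Pt A B → Pt A B), DifferentiableOn ℂ h (Dom A B) → ∀ (k : A ⊕ B) (t : ℂ),
      Function.update (base A B) k t ∈ Dom A B →
      DifferentiableAt ℂ (fun t => h (Function.update (base A B) k t) k) t := by
    intro h hh k t ht
    have h1 := hh.differentiableAt (isOpen_dom.mem_nhds ht)
    exact (differentiableAt_pi.1 (h1.comp t (hupd k t).differentiableAt)) k
  -- components
  have hcomp : ∀ (k : A ⊕ B) (t : ℂ), Function.update (base A B) k t ∈ Dom A B →
      ∀ (hz : Function.update (base A B) k (f (Function.update (base A B) k t) k) ∈ Dom A B),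
      g (Function.update (base A B) k (f (Function.update (base A B) k t) k)) k = t := by
    intro k t ht hz
    rw [depends hg hgs hz (hfm _ ht) (k := k) (by simp), hgf _ ht]
    simp
  have hcomp' : ∀ (k : A ⊕ B) (t : ℂ), Function.update (base A B) k t ∈ Dom A B →
      ∀ (hz : Function.update (base A B) k (g (Function.update (base A B) k t) k) ∈ Dom A B),
      f (Function.update (base A B) k (g (Function.update (base A B) k t) k)) k = t := by
    intro k t ht hz
    rw [depends hf hfs hz (hgm _ ht) (k := k) (by simp), hfg _ ht]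
    simp
  have hA : ∀ i : A, ∃ q : SL(2, ℝ), ∀ z : ℂ, 0 < z.im →
      f (Function.update (base A B) (Sum.inl i) z) (Sum.inl i) = mob q z := by
    intro i
    refine aut_H (g := fun z => g (Function.update (base A B) (Sum.inl i) z) (Sum.inl i))
      (fun z hz => hdiff f hf _ z (update_mem_inl i hz))
      (fun z hz => hdiff g hg _ z (update_mem_inl i hz))
      (fun z hz => hfm _ (update_mem_inl i hz) i) (fun z hz => hgm _ (update_mem_inl i hz) i)
      (fun z hz => ?_) (fun z hz => ?_)
    · exact hcomp _ z (update_mem_inl i hz) (update_mem_inl i (hfm _ (update_mem_inl i hz) i))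
    · exact hcomp' _ z (update_mem_inl i hz) (update_mem_inl i (hgm _ (update_mem_inl i hz) i))
  have hB : ∀ j : B, ∃ e : ℂ ≃ᵃ[ℂ] ℂ, ∀ z : ℂ,
      f (Function.update (base A B) (Sum.inr j) z) (Sum.inr j) = e z := by
    intro j
    exact aut_C' (g := fun z => g (Function.update (base A B) (Sum.inr j) z) (Sum.inr j))
      (fun z => hdiff f hf _ z (update_mem_inr j z))
      (fun z => hdiff g hg _ z (update_mem_inr j z))
      (fun z => hcomp _ z (update_mem_inr j z) (update_mem_inr j _))
  choose q hq using hA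
  choose e he using hB
  refine ⟨(q, e), fun x hx => ?_⟩
  funext k
  rcases k with i | j
  · rw [act_inl, ← hq i _ (hx i)]
    exact depends hf hfs hx (update_mem_inl i (hx i)) (by simp)
  · rw [act_inr, ← he j]
    exact depends hf hfs hx (update_mem_inr j _) (by simp)

theorem exists_act (hρ : HolAction ρ) {Δ0 : Subgroup Δ} (hs : Splits ρ Δ0) :
    ∀ δ ∈ Δ0, ∃ γ : Grp A B, ∀ x ∈ Dom A B, ρ δ x = act γ x := by
  intro δ hδ
  refine diag_of_splits (hρ.hol δ) (hρ.hol δ⁻¹) (hρ.maps δ) (hρ.maps δ⁻¹) (fun x hx => ?_)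
    (fun x hx => ?_) (hs δ hδ) (hs δ⁻¹ (Δ0.inv_mem hδ))
  · rw [← hρ.mul _ _ x hx, inv_mul_cancel, hρ.one x hx]
  · rw [← hρ.mul _ _ x hx, mul_inv_cancel, hρ.one x hx]

end Pool.Agent.H906.PC
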