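import Pool.Agent.H906.PC.Weak7
import Pool.Agent.H906.PC.Split

/-! # Semiampleness for quotients carrying a positive definite closed current -/

set_option linter.unusedSectionVars false

open Filter Topology Matrix MeasureTheory
open scoped MatrixGroups Classical ComplexOrder ContDiff

namespace Pool.Agent.H906.PC

variable {A B : Type*} [Fintype A] [Fintype B]
variable {Δ : Type*} [Group Δ] {ρ : Δ → Pt A B → Pt A B}

/-- closed positive currents with locally integrable coefficients, positive definite almost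
everywhere -/
structure IsCurrentForm (T : Pt A B → Matrix (A ⊕ B) (A ⊕ B) ℂ) : Prop where
  int : ∀ K ⊆ Dom A B, IsCompact K → ∀ i j, IntegrableOn (fun x => T x i j) K
  pos : ∀ᵐ x, x ∈ Dom A B → (T x).PosDef
  closed : ∀ χ, IsTest χ → ∀ i j k, ∫ x, T x j k * wd i χ x = ∫ x, T x i k * wd j χ x

/-- invariance almost everywhere -/
def InvFormAE (ρ : Δ → Pt A B → Pt A B) (T : Pt A B → Matrix (A ⊕ B) (A ⊕ B) ℂ) : Prop :=
  ∀ δ, ∀ᵐ x, x ∈ Dom A B → (Jm (ρ δ) x)ᵀ * T (ρ δ x) * (Jm (ρ δ) x).map star = T x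

theorem isCurrent_diagGroup (hρ : HolAction ρ) (Δ0 : Subgroup Δ)
    {T : Pt A B → Matrix (A ⊕ B) (A ⊕ B) ℂ} (hT : IsCurrentForm T) (hinv : InvFormAE ρ T) :
    IsCurrent (diagGroup hρ Δ0) T := by
  refine ⟨hT.int, hT.pos, hT.closed, ?_⟩
  rintro γ ⟨δ, hδ, hγ⟩
  filter_upwards [hinv δ] with x h1' hx i j
  have h1 := h1' hx
  rw [Jm_congr hγ hx, Jm_act γ hx, hγ x hx, Matrix.diagonal_transpose, Matrix.diagonal_map
    (by simp)] at h1
  have h2 := congrFun (congrFun h1 i) j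
  rw [Matrix.mul_diagonal, Matrix.diagonal_mul] at h2
  rw [← h2]
  ring

theorem semiampleC (hρ : HolAction ρ) (hpd : PDAction ρ) (hcc : CCAction ρ)
    {Δ0 : Subgroup Δ} (hfi : Δ0.FiniteIndex)
    (hdiag : ∀ δ ∈ Δ0, ∃ γ : Grp A B, ∀ x ∈ Dom A B, ρ δ x = act γ x)
    {T : Pt A B → Matrix (A ⊕ B) (A ⊕ B) ℂ} (hT : IsCurrentForm T) (hinv : InvFormAE ρ T) :
    ∃ l, 0 < l ∧ ∀ x ∈ Dom A B, ∃ F, IsPluri ρ l F ∧ F x ≠ 0 :=
  semiample_of_uni' hρ hpd hcc hfi hdiag (uni_of_current (isCurrent_diagGroup hρ Δ0 hT hinv))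
    fun h => uni_of_current (current_cj (isCurrent_diagGroup hρ Δ0 hT hinv) h)

end Pool.Agent.H906.PC
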