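import Pool.Agent.H906.PC.Latt

/-! # The nontrivial characters and the real span of the lattice -/

open Filter Topology Matrix
open scoped MatrixGroups Classical

namespace Pool.Agent.H906.PC

variable {A B : Type*} [Fintype A] [Fintype B]

/-- multiplications preserving the span of the lattice and the translations -/
noncomputable def SS {Γ : Subgroup (Grp A B)} {R : A → Prop} (hG : Good Γ R) :
    Subalgebra ℝ (Pt A B) where
  carrier := {c | (∀ v ∈ VV hG, c * v ∈ VV hG) ∧ ∀ t ∈ TT R B, c * t ∈ TT R B}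
  mul_mem' := by
    rintro a b ⟨ha, ha'⟩ ⟨hb, hb'⟩
    exact ⟨fun v hv => by rw [mul_assoc]; exact ha _ (hb v hv),
      fun v hv => by rw [mul_assoc]; exact ha' _ (hb' v hv)⟩
  add_mem' := by
    rintro a b ⟨ha, ha'⟩ ⟨hb, hb'⟩
    exact ⟨fun v hv => by rw [add_mul]; exact (VV hG).add_mem (ha v hv) (hb v hv),
      fun v hv => by rw [add_mul]; exact (TT R B).add_mem (ha' v hv) (hb' v hv)⟩
  algebraMap_mem' := by
    intro r
    have e : ∀ v : Pt A B, algebraMap ℝ (Pt A B) r * v = r • v := fun v => by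
      rw [Algebra.algebraMap_eq_smul_one, smul_mul_assoc, one_mul]
    refine ⟨fun v hv => ?_, fun v hv => ?_⟩
    · rw [e]; exact (VV hG).smul_mem r hv
    · rw [e]; exact (TT R B).smul_mem r hv

theorem dd_mem_SS {Γ : Subgroup (Grp A B)} {R : A → Prop} (hG : Good Γ R) {γ : Grp A B}
    (hγ : γ ∈ Γ) : dd R γ ∈ SS hG := by
  refine ⟨fun v hv => ?_, fun t ht i => ?_⟩
  · refine Submodule.span_induction (p := fun v _ => dd R γ * v ∈ VV hG) ?_ ?_ ?_ ?_ hv
    · intro t ht
      exact LL_le_VV hG (conj_rel hG hγ ht)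
    · simp
    · intro a b _ _ ha hb
      rw [mul_add]; exact (VV hG).add_mem ha hb
    · intro c a _ ha
      rw [mul_smul_comm]; exact (VV hG).smul_mem c ha
  · refine ⟨?_, fun h => ?_⟩
    · by_cases hi : R i
      · simp only [Pi.mul_apply, dd, Sum.elim_inl, hi, if_true]
        rw [← Complex.ofReal_pow, Complex.im_ofReal_mul, (ht i).1, mul_zero]
      · simp [(ht i).2 hi]
    · simp [(ht i).2 h]

/-- the ideal of those multiplications which make the cocycle of translations a coboundary -/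
def JJ {Γ : Subgroup (Grp A B)} {R : A → Prop} (hG : Good Γ R) : Set (Pt A B) :=
  {c | c ∈ SS hG ∧ ∃ o ∈ TT R B, ∀ ν ∈ Ker R Γ, c * tt R ν - (1 - dd R ν) * o ∈ VV hG}

theorem JJ_add {Γ : Subgroup (Grp A B)} {R : A → Prop} (hG : Good Γ R) {a b : Pt A B}
    (ha : a ∈ JJ hG) (hb : b ∈ JJ hG) : a + b ∈ JJ hG := by
  obtain ⟨ha, o, ho, h1⟩ := ha
  obtain ⟨hb, o', ho', h2⟩ := hb
  refine ⟨(SS hG).add_mem ha hb, o + o', (TT R B).add_mem ho ho', fun ν hν => ?_⟩
  have := (VV hG).add_mem (h1 ν hν) (h2 ν hν)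
  convert this using 1
  ring

theorem JJ_mul {Γ : Subgroup (Grp A B)} {R : A → Prop} (hG : Good Γ R) {a b : Pt A B}
    (ha : a ∈ SS hG) (hb : b ∈ JJ hG) : a * b ∈ JJ hG := by
  obtain ⟨hb, o', ho', h2⟩ := hb
  refine ⟨(SS hG).mul_mem ha hb, a * o', ha.2 _ ho', fun ν hν => ?_⟩
  have := ha.1 _ (h2 ν hν)
  convert this using 1
  ring

theorem JJ_dd {Γ : Subgroup (Grp A B)} {R : A → Prop} (hG : Good Γ R) {μ : Grp A B}
    (hμ : μ ∈ Ker R Γ) : dd R μ - 1 ∈ JJ hG := by
  refine ⟨(SS hG).sub_mem (dd_mem_SS hG (ker_le hμ)) (SS hG).one_mem, - tt R μ,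
    (TT R B).neg_mem (tt_mem μ), fun ν hν => ?_⟩
  have := LL_le_VV hG (comm_rel hG hμ hν)
  convert this using 1
  ring

/-- the coordinate `k` has a nontrivial character -/
def NT (Γ : Subgroup (Grp A B)) (R : A → Prop) (k : A ⊕ B) : Prop :=
  ∃ ν ∈ Ker R Γ, dd R ν k ≠ 1

/-- the projection to the coordinates with a nontrivial character -/
noncomputable def e2 (Γ : Subgroup (Grp A B)) (R : A → Prop) : Pt A B :=
  fun k => if NT Γ R k then 1 else 0

theorem e2_mem {Γ : Subgroup (Grp A B)} {R : A → Prop} (hG : Good Γ R) : e2 Γ R ∈ JJ hG := by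
  have hsel : ∀ k : A ⊕ B, ∃ m : Pt A B, m ∈ SS hG ∧ 1 - m ∈ JJ hG ∧
      (∀ l, ¬ NT Γ R l → m l = 1) ∧ (NT Γ R k → m k = 0) := by
    intro k
    by_cases hk : NT Γ R k
    · obtain ⟨ν, hν, hk⟩ := hk
      set α := dd R ν k with hα
      have hn : Complex.normSq (1 - α) ≠ 0 := by
        rw [Complex.normSq_eq_zero.ne]; exact sub_ne_zero.2 (Ne.symm hk)
      have hS := dd_mem_SS hG (ker_le hν)
      set q : Pt A B := (Complex.normSq (1 - α))⁻¹ •
        (dd R ν ^ 2 - (2 * α.re) • dd R ν + (Complex.normSq α) • (1 : Pt A B)) with hq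
      have e1 : 1 - q = ((Complex.normSq (1 - α))⁻¹ •
          ((2 * α.re - 1) • (1 : Pt A B) - dd R ν)) * (dd R ν - 1) := by
        have h1 : (1 : Pt A B) = (Complex.normSq (1 - α))⁻¹ • (Complex.normSq (1 - α) • 1) := by
          rw [smul_smul, inv_mul_cancel₀ hn, one_smul]
        have h2 : Complex.normSq (1 - α) = 1 - 2 * α.re + Complex.normSq α := by
          simp [Complex.normSq_apply]; ring
        rw [smul_mul_assoc]
        nth_rewrite 1 [h1]
        rw [hq, ← smul_sub]
        congr 1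
        rw [h2]
        funext l
        simp only [Pi.sub_apply, Pi.smul_apply, Pi.add_apply, Pi.mul_apply, Pi.one_apply,
          Pi.pow_apply, Complex.real_smul]
        push_cast
        ring
      refine ⟨q, ?_, ?_, ?_, ?_⟩
      · exact (SS hG).smul_mem ((SS hG).add_mem ((SS hG).sub_mem ((SS hG).pow_mem hS 2)
          ((SS hG).smul_mem hS _)) ((SS hG).smul_mem (SS hG).one_mem _)) _
      · rw [e1]
        exact JJ_mul hG ((SS hG).smul_mem ((SS hG).sub_mem ((SS hG).smul_mem (SS hG).one_mem _)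
          hS) _) (JJ_dd hG hν)
      · intro l hl
        have : dd R ν l = 1 := by
          by_contra h; exact hl ⟨ν, hν, h⟩
        have h2 := congrFun e1 l
        simp only [Pi.sub_apply, Pi.mul_apply, Pi.one_apply, this, sub_self, mul_zero] at h2
        linear_combination -h2
      · intro _
        rw [hq]
        simp only [Pi.sub_apply, Pi.smul_apply, Pi.add_apply, Pi.one_apply,
          Pi.pow_apply, Complex.real_smul, ← hα]
        have : α ^ 2 - ((2 * α.re : ℝ) : ℂ) * α + (Complex.normSq α : ℂ) * 1 = 0 := by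
          have h3 : (Complex.normSq α : ℂ) = α * (starRingEnd ℂ) α := by
            rw [Complex.mul_conj]
          have h4 : ((2 * α.re : ℝ) : ℂ) = α + (starRingEnd ℂ) α := by
            rw [Complex.add_conj]
          rw [h3, h4]; ring
        rw [this, mul_zero]
    · refine ⟨1, (SS hG).one_mem, ?_, fun _ _ => rfl, fun h => absurd h hk⟩
      rw [sub_self]
      exact ⟨(SS hG).zero_mem, 0, (TT R B).zero_mem, fun ν _ => by simp⟩
  choose m hm1 hm2 hm3 hm4 using hsel
  have hprod : ∀ s : Finset (A ⊕ B), ∏ k ∈ s, m k ∈ SS hG ∧ 1 - ∏ k ∈ s, m k ∈ JJ hG := by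
    intro s
    induction s using Finset.induction_on with
    | empty =>
      refine ⟨by rw [Finset.prod_empty]; exact (SS hG).one_mem, ?_⟩
      rw [Finset.prod_empty, sub_self]
      exact ⟨(SS hG).zero_mem, 0, (TT R B).zero_mem, fun ν _ => by simp⟩
    | insert k s hk ih =>
      rw [Finset.prod_insert hk]
      refine ⟨(SS hG).mul_mem (hm1 k) ih.1, ?_⟩
      have : 1 - m k * ∏ l ∈ s, m l = (1 - m k) + m k * (1 - ∏ l ∈ s, m l) := by ring
      rw [this]
      exact JJ_add hG (hm2 k) (JJ_mul hG (hm1 k) ih.2)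
  have he : e2 Γ R = 1 - ∏ k, m k := by
    funext l
    simp only [e2, Pi.sub_apply, Pi.one_apply, Finset.prod_apply]
    by_cases hl : NT Γ R l
    · rw [if_pos hl, Finset.prod_eq_zero (f := fun c => m c l) (Finset.mem_univ l) (hm4 l hl),
        sub_zero]
    · rw [if_neg hl, Finset.prod_eq_one (f := fun c => m c l) fun k _ => hm3 k l hl, sub_self]
  rw [he]
  exact (hprod Finset.univ).2

end Pool.Agent.H906.PC
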