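import Pool.Agent.H906.PC.Claim

/-! # Averages over the span of the lattice -/

open Filter Topology Matrix MeasureTheory
open scoped MatrixGroups Classical Interval

namespace Pool.Agent.H906.PC

variable {A B : Type*} [Fintype A] [Fintype B]

omit [Fintype A] [Fintype B] in
theorem add_mem_dom {R : A → Prop} {x t : Pt A B} (hx : x ∈ Dom A B) (ht : t ∈ TT R B) :
    x + t ∈ Dom A B := by
  intro i
  have := (ht i).1
  simp only [Pi.add_apply, Complex.add_im, this, add_zero]
  exact hx i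

/-- differentiable with continuous derivative on `Dom` -/
structure D1 (f : Pt A B → ℂ) : Prop where
  diff : ∀ x ∈ Dom A B, DifferentiableAt ℝ f x
  cont : ContinuousOn (fderiv ℝ f) (Dom A B)

theorem D1.of_contDiffOn {f : Pt A B → ℂ} (hf : ContDiffOn ℝ 1 f (Dom A B)) : D1 f := by
  refine ⟨fun x hx => ?_, ?_⟩
  · exact (hf.differentiableOn (by norm_num)).differentiableAt (isOpen_dom.mem_nhds hx)
  · exact hf.continuousOn_fderiv_of_isOpen isOpen_dom le_rfl

omit [Fintype A] [Fintype B] in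
theorem D1.continuousOn {f : Pt A B → ℂ} (hf : D1 f) : ContinuousOn f (Dom A B) :=
  fun x hx => (hf.diff x hx).continuousAt.continuousWithinAt

section avg1
variable {R : A → Prop} {G : Type*} [NormedAddCommGroup G] [NormedSpace ℝ G]

omit [NormedSpace ℝ G] in
theorem local_bound {h : Pt A B → G} (hh : ContinuousOn h (Dom A B)) {μ : Pt A B}
    (hμ : μ ∈ TT R B) {x0 : Pt A B} (hx0 : x0 ∈ Dom A B) :
    ∃ s ∈ 𝓝 x0, s ⊆ Dom A B ∧ ∃ M : ℝ, ∀ x ∈ s, ∀ c ∈ Set.Icc (0 : ℝ) 1, ‖h (x + c • μ)‖ ≤ M := by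
  obtain ⟨ε, hε, hball⟩ := Metric.isOpen_iff.1 (isOpen_dom (A := A) (B := B)) x0 hx0
  have hsub : Metric.closedBall x0 (ε / 2) ⊆ Dom A B :=
    (Metric.closedBall_subset_ball (by linarith)).trans hball
  set K := (fun p : Pt A B × ℝ => p.1 + p.2 • μ) '' (Metric.closedBall x0 (ε / 2) ×ˢ Set.Icc (0 : ℝ) 1)
    with hK
  have hKc : IsCompact K := ((isCompact_closedBall _ _).prod isCompact_Icc).image (by fun_prop)
  have hKD : K ⊆ Dom A B := by
    rintro _ ⟨⟨x, c⟩, ⟨hx, _⟩, rfl⟩
    exact add_mem_dom (hsub hx) ((TT R B).smul_mem c hμ)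
  obtain ⟨M, hM⟩ := hKc.exists_bound_of_continuousOn (hh.mono hKD)
  refine ⟨Metric.closedBall x0 (ε / 2), Metric.closedBall_mem_nhds _ (by linarith), hsub, M,
    fun x hx c hc => hM _ ⟨(x, c), ⟨hx, hc⟩, rfl⟩⟩

omit [Fintype A] [Fintype B] [NormedSpace ℝ G] in
theorem continuous_line {h : Pt A B → G} (hh : ContinuousOn h (Dom A B)) {μ : Pt A B}
    (hμ : μ ∈ TT R B) {x : Pt A B} (hx : x ∈ Dom A B) : Continuous fun c : ℝ => h (x + c • μ) := by
  rw [← continuousOn_univ]
  exact hh.comp (by fun_prop) fun c _ => add_mem_dom hx ((TT R B).smul_mem c hμ)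

theorem continuousOn_avg {h : Pt A B → G} (hh : ContinuousOn h (Dom A B)) {μ : Pt A B}
    (hμ : μ ∈ TT R B) : ContinuousOn (fun x => ∫ c in (0 : ℝ)..1, h (x + c • μ)) (Dom A B) := by
  intro x0 hx0
  obtain ⟨s, hs, hsD, M, hM⟩ := local_bound hh hμ hx0
  refine ContinuousAt.continuousWithinAt ?_
  refine intervalIntegral.continuousAt_of_dominated_interval (bound := fun _ => M) ?_ ?_ ?_ ?_
  · filter_upwards [hs] with x hx
    exact (continuous_line hh hμ (hsD hx)).aestronglyMeasurable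
  · filter_upwards [hs] with x hx
    refine Eventually.of_forall fun c hc => ?_
    rw [Set.uIoc_of_le zero_le_one] at hc
    exact hM x hx c ⟨hc.1.le, hc.2⟩
  · exact intervalIntegrable_const
  · refine Eventually.of_forall fun c _ => ?_
    have h1 : ContinuousAt h (x0 + c • μ) :=
      hh.continuousAt (isOpen_dom.mem_nhds (add_mem_dom hx0 ((TT R B).smul_mem c hμ)))
    exact ContinuousAt.comp (g := h) (f := fun x => x + c • μ) h1 (by fun_prop)

/-- the average over a segment -/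
noncomputable def avg1 (μ : Pt A B) (f : Pt A B → ℂ) (x : Pt A B) : ℂ :=
  ∫ c in (0 : ℝ)..1, f (x + c • μ)

theorem hasFDerivAt_avg1 {f : Pt A B → ℂ} (hf : D1 f) {μ : Pt A B} (hμ : μ ∈ TT R B)
    {x0 : Pt A B} (hx0 : x0 ∈ Dom A B) :
    HasFDerivAt (avg1 μ f) (∫ c in (0 : ℝ)..1, fderiv ℝ f (x0 + c • μ)) x0 := by
  obtain ⟨s, hs, hsD, M, hM⟩ := local_bound hf.cont hμ hx0
  refine intervalIntegral.hasFDerivAt_integral_of_dominated_of_fderiv_le
    (F := fun x c => f (x + c • μ)) (F' := fun x c => fderiv ℝ f (x + c • μ))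
    (bound := fun _ => M) hs ?_ ?_ ?_ ?_ ?_ ?_
  · filter_upwards [hs] with x hx
    exact (continuous_line hf.continuousOn hμ (hsD hx)).aestronglyMeasurable
  · exact (continuous_line hf.continuousOn hμ hx0).intervalIntegrable _ _
  · exact (continuous_line hf.cont hμ hx0).aestronglyMeasurable
  · refine Eventually.of_forall fun c hc x hx => ?_
    rw [Set.uIoc_of_le zero_le_one] at hc
    exact hM x hx c ⟨hc.1.le, hc.2⟩
  · exact intervalIntegrable_const
  · refine Eventually.of_forall fun c _ x hx => ?_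
    have h1 := (hf.diff (x + c • μ) (add_mem_dom (hsD hx) ((TT R B).smul_mem c hμ))).hasFDerivAt
    have h2 : HasFDerivAt (fun x : Pt A B => x + c • μ) (ContinuousLinearMap.id ℝ (Pt A B)) x :=
      (hasFDerivAt_id x).add_const _
    exact h1.comp x h2

theorem D1.avg1 {f : Pt A B → ℂ} (hf : D1 f) {μ : Pt A B} (hμ : μ ∈ TT R B) :
    D1 (avg1 μ f) := by
  refine ⟨fun x hx => (hasFDerivAt_avg1 hf hμ hx).differentiableAt, ?_⟩
  refine (continuousOn_avg hf.cont hμ).congr fun x hx => ?_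
  exact (hasFDerivAt_avg1 hf hμ hx).fderiv

theorem wd_avg1 {f : Pt A B → ℂ} (hf : D1 f) {μ : Pt A B} (hμ : μ ∈ TT R B)
    {x : Pt A B} (hx : x ∈ Dom A B) (k : A ⊕ B) :
    wd k (Pool.Agent.H906.PC.avg1 μ f) x = Pool.Agent.H906.PC.avg1 μ (wd k f) x := by
  have hint : IntervalIntegrable (fun c : ℝ => fderiv ℝ f (x + c • μ)) volume 0 1 :=
    (continuous_line hf.cont hμ hx).intervalIntegrable _ _
  have happ : ∀ v : Pt A B, (∫ c in (0 : ℝ)..1, fderiv ℝ f (x + c • μ)) v =
      ∫ c in (0 : ℝ)..1, fderiv ℝ f (x + c • μ) v := fun v =>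
    ContinuousLinearMap.intervalIntegral_apply hint v
  have hc : ∀ v : Pt A B, IntervalIntegrable (fun c : ℝ => fderiv ℝ f (x + c • μ) v) volume 0 1 :=
    fun v => ((continuous_line hf.cont hμ hx).clm_apply continuous_const).intervalIntegrable _ _
  unfold wd
  rw [(hasFDerivAt_avg1 hf hμ hx).fderiv, happ, happ]
  unfold Pool.Agent.H906.PC.avg1
  rw [← intervalIntegral.integral_const_mul, ← intervalIntegral.integral_sub (hc _)
    ((hc _).const_mul _), ← intervalIntegral.integral_div]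

end avg1

/-- iterated averages -/
noncomputable def avgL : List (Pt A B) → (Pt A B → ℂ) → Pt A B → ℂ
  | [], f => f
  | μ :: l, f => avg1 μ (avgL l f)

variable {R : A → Prop}

theorem avgL_D1 {f : Pt A B → ℂ} (hf : D1 f) :
    ∀ {l : List (Pt A B)}, (∀ μ ∈ l, μ ∈ TT R B) → D1 (avgL l f)
  | [], _ => hf
  | μ :: l, h => (avgL_D1 hf fun ν hν => h ν (List.mem_cons_of_mem _ hν)).avg1
      (h μ List.mem_cons_self)

omit [Fintype A] [Fintype B] in
theorem avgL_congr {f g : Pt A B → ℂ} (hfg : ∀ x ∈ Dom A B, f x = g x) :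
    ∀ {l : List (Pt A B)}, (∀ μ ∈ l, μ ∈ TT R B) → ∀ x ∈ Dom A B, avgL l f x = avgL l g x
  | [], _, x, hx => hfg x hx
  | μ :: l, h, x, hx => by
    unfold avgL avg1
    refine intervalIntegral.integral_congr fun c _ => ?_
    exact avgL_congr hfg (fun ν hν => h ν (List.mem_cons_of_mem _ hν)) _
      (add_mem_dom hx ((TT R B).smul_mem c (h μ List.mem_cons_self)))

theorem wd_avgL {f : Pt A B → ℂ} (hf : D1 f) (k : A ⊕ B) :
    ∀ {l : List (Pt A B)}, (∀ μ ∈ l, μ ∈ TT R B) → ∀ x ∈ Dom A B,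
      wd k (avgL l f) x = avgL l (wd k f) x
  | [], _, x, _ => rfl
  | μ :: l, h, x, hx => by
    have hl : ∀ ν ∈ l, ν ∈ TT R B := fun ν hν => h ν (List.mem_cons_of_mem _ hν)
    have hμ := h μ List.mem_cons_self
    change wd k (avg1 μ (avgL l f)) x = avg1 μ (avgL l (wd k f)) x
    rw [wd_avg1 (avgL_D1 hf hl) hμ hx]
    unfold avg1
    refine intervalIntegral.integral_congr fun c _ => ?_
    exact wd_avgL hf k hl _ (add_mem_dom hx ((TT R B).smul_mem c hμ))

theorem avgL_periodic {f : Pt A B → ℂ} {lam : Pt A B} (hlam : lam ∈ TT R B)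
    (hf : ∀ x ∈ Dom A B, f (x + lam) = f x) :
    ∀ {l : List (Pt A B)}, (∀ μ ∈ l, μ ∈ TT R B) → ∀ x ∈ Dom A B,
      avgL l f (x + lam) = avgL l f x
  | [], _, x, hx => hf x hx
  | μ :: l, h, x, hx => by
    have hl : ∀ ν ∈ l, ν ∈ TT R B := fun ν hν => h ν (List.mem_cons_of_mem _ hν)
    have hμ := h μ List.mem_cons_self
    change avg1 μ (avgL l f) _ = avg1 μ (avgL l f) x
    unfold avg1
    refine intervalIntegral.integral_congr fun c _ => ?_
    have := avgL_periodic hlam hf hl (x + c • μ) (add_mem_dom hx ((TT R B).smul_mem c hμ))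
    rw [← this]
    congr 1
    abel

theorem avgL_shift {f : Pt A B → ℂ} : ∀ {l : List (Pt A B)}, (∀ μ ∈ l, μ ∈ TT R B) →
    (∀ μ ∈ l, ∀ x ∈ Dom A B, f (x + μ) = f x) → ∀ μ ∈ l, ∀ a : ℝ, ∀ x ∈ Dom A B,
      avgL l f (x + a • μ) = avgL l f x
  | [], _, _, μ, hμ => absurd hμ List.not_mem_nil
  | ν :: l, h, hf, μ, hμ => by
    intro a x hx
    have hl : ∀ ν ∈ l, ν ∈ TT R B := fun ν hν => h ν (List.mem_cons_of_mem _ hν)
    have hν := h ν List.mem_cons_self
    change avg1 ν (avgL l f) _ = avg1 ν (avgL l f) x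
    unfold avg1
    rcases List.mem_cons.1 hμ with rfl | hμ'
    · have hper : Function.Periodic (fun c : ℝ => avgL l f (x + c • μ)) 1 := by
        intro c
        have := avgL_periodic hν (hf μ List.mem_cons_self) hl (x + c • μ)
          (add_mem_dom hx ((TT R B).smul_mem c hν))
        simp only
        rw [← this]
        congr 1
        rw [add_smul, one_smul, add_assoc]
      have h1 := hper.intervalIntegral_add_eq a 0
      rw [zero_add] at h1
      rw [← h1]
      have h2 := intervalIntegral.integral_comp_add_left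
        (fun c : ℝ => avgL l f (x + c • μ)) (a := 0) (b := 1) a
      rw [add_zero] at h2
      rw [← h2]
      refine intervalIntegral.integral_congr fun c _ => ?_
      congr 1
      rw [add_smul, add_assoc]
    · refine intervalIntegral.integral_congr fun c _ => ?_
      have := avgL_shift hl (fun μ hμ => hf μ (List.mem_cons_of_mem _ hμ)) μ hμ' a (x + c • ν)
        (add_mem_dom hx ((TT R B).smul_mem c hν))
      rw [← this]
      congr 1
      abel

theorem avgL_span {f : Pt A B → ℂ} {l : List (Pt A B)} (hl : ∀ μ ∈ l, μ ∈ TT R B)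
    (hf : ∀ μ ∈ l, ∀ x ∈ Dom A B, f (x + μ) = f x) {v : Pt A B}
    (hv : v ∈ Submodule.span ℝ {μ | μ ∈ l}) :
    v ∈ TT R B ∧ ∀ x ∈ Dom A B, avgL l f (x + v) = avgL l f x := by
  refine Submodule.span_induction (p := fun v _ => v ∈ TT R B ∧
    ∀ x ∈ Dom A B, avgL l f (x + v) = avgL l f x) ?_ ?_ ?_ ?_ hv
  · intro μ hμ
    refine ⟨hl μ hμ, fun x hx => ?_⟩
    have := avgL_shift hl hf μ hμ 1 x hx
    rwa [one_smul] at this
  · exact ⟨(TT R B).zero_mem, fun x _ => by rw [add_zero]⟩
  · rintro v w - - ⟨hv, hv'⟩ ⟨hw, hw'⟩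
    refine ⟨(TT R B).add_mem hv hw, fun x hx => ?_⟩
    rw [← add_assoc, hw' _ (add_mem_dom hx hv), hv' x hx]
  · intro c v hvs _
    -- a direct induction for scalar multiples
    have : ∀ v ∈ Submodule.span ℝ {μ | μ ∈ l}, ∀ c : ℝ, c • v ∈ TT R B ∧
        ∀ x ∈ Dom A B, avgL l f (x + c • v) = avgL l f x := by
      intro v hv
      refine Submodule.span_induction (p := fun v _ => ∀ c : ℝ, c • v ∈ TT R B ∧
        ∀ x ∈ Dom A B, avgL l f (x + c • v) = avgL l f x) ?_ ?_ ?_ ?_ hv
      · intro μ hμ c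
        exact ⟨(TT R B).smul_mem c (hl μ hμ), avgL_shift hl hf μ hμ c⟩
      · intro c
        rw [smul_zero]
        exact ⟨(TT R B).zero_mem, fun x _ => by rw [add_zero]⟩
      · intro v w _ _ hv hw c
        rw [smul_add]
        refine ⟨(TT R B).add_mem (hv c).1 (hw c).1, fun x hx => ?_⟩
        rw [← add_assoc, (hw c).2 _ (add_mem_dom hx (hv c).1), (hv c).2 x hx]
      · intro a v _ hv c
        rw [smul_smul]
        exact hv (c * a)
    exact this v hvs c

/-- the values of the averages -/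
theorem avgL_bound {f : Pt A B → ℂ} (hf : ContinuousOn f (Dom A B)) {m M : ℝ}
    (W : Submodule ℝ (Pt A B)) (hW : W ≤ TT R B) :
    ∀ {l : List (Pt A B)}, (∀ μ ∈ l, μ ∈ W) → ∀ x ∈ Dom A B,
    (∀ v ∈ W, (f (x + v)).im = 0 ∧ m ≤ (f (x + v)).re ∧ (f (x + v)).re ≤ M) →
      (avgL l f x).im = 0 ∧ m ≤ (avgL l f x).re ∧ (avgL l f x).re ≤ M
  | [], _, x, _, h => by simpa [avgL] using h 0 W.zero_mem
  | μ :: l, h, x, hx, hb => by
    have hl : ∀ ν ∈ l, ν ∈ W := fun ν hν => h ν (List.mem_cons_of_mem _ hν)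
    have hμ := h μ List.mem_cons_self
    have hcont : ∀ l' : List (Pt A B), (∀ ν ∈ l', ν ∈ W) → ContinuousOn (avgL l' f) (Dom A B) := by
      intro l' hl'
      induction l' with
      | nil => exact hf
      | cons ν l' ih =>
        exact continuousOn_avg (ih fun ρ hρ => hl' ρ (List.mem_cons_of_mem _ hρ))
          (hW (hl' ν List.mem_cons_self))
    have ih : ∀ c : ℝ, (avgL l f (x + c • μ)).im = 0 ∧ m ≤ (avgL l f (x + c • μ)).re ∧
        (avgL l f (x + c • μ)).re ≤ M := by
      intro c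
      refine avgL_bound hf W hW hl _ (add_mem_dom hx (hW (W.smul_mem c hμ))) fun v hv => ?_
      rw [add_assoc]
      exact hb _ (W.add_mem (W.smul_mem c hμ) hv)
    have hline : Continuous fun c : ℝ => avgL l f (x + c • μ) :=
      continuous_line (hcont l hl) (hW hμ) hx
    have hint : IntervalIntegrable (fun c : ℝ => avgL l f (x + c • μ)) volume 0 1 :=
      hline.intervalIntegrable _ _
    change (∫ c in (0 : ℝ)..1, avgL l f (x + c • μ)).im = 0 ∧
      m ≤ (∫ c in (0 : ℝ)..1, avgL l f (x + c • μ)).re ∧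
      (∫ c in (0 : ℝ)..1, avgL l f (x + c • μ)).re ≤ M
    have him : (∫ c in (0 : ℝ)..1, avgL l f (x + c • μ)).im =
        ∫ c in (0 : ℝ)..1, (avgL l f (x + c • μ)).im := by
      have := Complex.imCLM.intervalIntegral_comp_comm hint
      exact this.symm
    have hre : (∫ c in (0 : ℝ)..1, avgL l f (x + c • μ)).re =
        ∫ c in (0 : ℝ)..1, (avgL l f (x + c • μ)).re := by
      have := Complex.reCLM.intervalIntegral_comp_comm hint
      exact this.symm
    have hrint : IntervalIntegrable (fun c : ℝ => (avgL l f (x + c • μ)).re) volume 0 1 :=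
      (Complex.continuous_re.comp hline).intervalIntegrable _ _
    rw [him, hre]
    refine ⟨?_, ?_, ?_⟩
    · rw [intervalIntegral.integral_congr (g := fun _ => (0 : ℝ)) fun c _ => (ih c).1]
      simp
    · have := intervalIntegral.integral_mono_on (zero_le_one) (intervalIntegrable_const (c := m))
        hrint fun c _ => (ih c).2.1
      simpa using this
    · have := intervalIntegral.integral_mono_on (zero_le_one) hrint
        (intervalIntegrable_const (c := M)) fun c _ => (ih c).2.2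
      simpa using this

end Pool.Agent.H906.PC
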