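import Pool.Agent.H906.PC.Alg

/-! # The coordinates with nontrivial characters belong to the span of the lattice -/

open Filter Topology Matrix
open scoped MatrixGroups Classical

namespace Pool.Agent.H906.PC

variable {A B : Type*} [Fintype A] [Fintype B]

/-- a finite subset of the lattice spans -/
theorem exists_spanning {Γ : Subgroup (Grp A B)} {R : A → Prop} (hG : Good Γ R) :
    ∃ s : Finset (Pt A B), (∀ t ∈ s, t ∈ LL hG) ∧ Submodule.span ℝ (s : Set (Pt A B)) = VV hG := by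
  obtain ⟨b, hb1, hb2, hb3⟩ := exists_linearIndependent ℝ (LL hG : Set (Pt A B))
  have hfin : b.Finite := hb3.setFinite
  refine ⟨hfin.toFinset, fun t ht => hb1 (by simpa using ht), ?_⟩
  rw [Set.Finite.coe_toFinset]
  exact hb2

/-- every vector of the span can be moved to a bounded set by the lattice -/
theorem exists_reduce {Γ : Subgroup (Grp A B)} {R : A → Prop} (hG : Good Γ R) :
    ∃ r : ℝ, 0 ≤ r ∧ ∀ v ∈ VV hG, ∃ lam ∈ Ker R Γ, dd R lam = 1 ∧ ‖v + tt R lam‖ ≤ r := by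
  obtain ⟨s, hs1, hs2⟩ := exists_spanning hG
  refine ⟨∑ t ∈ s, ‖t‖, Finset.sum_nonneg fun _ _ => norm_nonneg _, fun v hv => ?_⟩
  rw [← hs2, Submodule.mem_span_finset] at hv
  obtain ⟨c, -, rfl⟩ := hv
  have hmem : - ∑ t ∈ s, (⌊c t⌋) • t ∈ LL hG :=
    (LL hG).neg_mem ((LL hG).sum_mem fun t ht => (LL hG).zsmul_mem (hs1 t ht) _)
  obtain ⟨lam, h1, h2, h3⟩ := hmem
  refine ⟨lam, h1, h2, ?_⟩
  rw [h3]
  have : (∑ t ∈ s, c t • t) + - ∑ t ∈ s, (⌊c t⌋) • t = ∑ t ∈ s, (Int.fract (c t)) • t := by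
    rw [← sub_eq_add_neg, ← Finset.sum_sub_distrib]
    refine Finset.sum_congr rfl fun t _ => ?_
    rw [← Int.cast_smul_eq_zsmul ℝ, ← sub_smul]
    rfl
  rw [this]
  refine (norm_sum_le _ _).trans (Finset.sum_le_sum fun t _ => ?_)
  rw [norm_smul, Real.norm_eq_abs, abs_of_nonneg (Int.fract_nonneg _)]
  exact mul_le_of_le_one_left (norm_nonneg _) (Int.fract_lt_one _).le

/-- pigeonhole -/
theorem pigeon {E : Type*} [NormedAddCommGroup E] [NormedSpace ℝ E] [FiniteDimensional ℝ E]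
    (W : Submodule ℝ E) {D : Set E} (hD : D.Finite) (r : ℝ)
    (h : ∀ n : ℕ, ∃ d ∈ D, ∃ v ∈ W, ‖(n : ℝ) • d + v‖ ≤ r) : ∃ d ∈ D, d ∈ W := by
  choose d hd v hv hr using h
  have : ∃ d0 ∈ D, ∀ N : ℕ, ∃ n, N ≤ n ∧ d n = d0 := by
    by_contra hcon
    push Not at hcon
    choose! N hN using hcon
    obtain ⟨M, hM⟩ : ∃ M, ∀ d0 ∈ D, N d0 ≤ M := by
      obtain ⟨M, hM⟩ := (hD.image N).bddAbove
      exact ⟨M, fun d0 h0 => hM ⟨d0, h0, rfl⟩⟩
    exact hN (d M) (hd M) M (hM _ (hd M)) rfl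
  obtain ⟨d0, hd0, hinf⟩ := this
  refine ⟨d0, hd0, ?_⟩
  have hcl : IsClosed (W : Set E) := W.closed_of_finiteDimensional
  have hmem : d0 ∈ closure (W : Set E) := by
    rw [Metric.mem_closure_iff]
    intro ε hε
    obtain ⟨N, hN⟩ := exists_nat_gt (|r| / ε)
    obtain ⟨n, hn, hdn⟩ := hinf (N + 1)
    have hn0 : (0 : ℝ) < n := by
      have : 0 < n := by omega
      exact_mod_cast this
    refine ⟨-((n : ℝ)⁻¹ • v n), W.neg_mem (W.smul_mem _ (hv n)), ?_⟩
    rw [dist_eq_norm, sub_neg_eq_add]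
    have e : d0 + (n : ℝ)⁻¹ • v n = (n : ℝ)⁻¹ • ((n : ℝ) • d n + v n) := by
      rw [smul_add, smul_smul, inv_mul_cancel₀ hn0.ne', one_smul, hdn]
    rw [e, norm_smul, norm_inv, Real.norm_of_nonneg hn0.le, inv_mul_lt_iff₀ hn0]
    have hNn : (N : ℝ) < n := by exact_mod_cast (by omega : N < n)
    calc _ ≤ r := hr n
      _ ≤ |r| := le_abs_self r
      _ = (|r| / ε) * ε := by field_simp
      _ < N * ε := by gcongr
      _ ≤ n * ε := by gcongr
  rwa [hcl.closure_eq] at hmem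

omit [Fintype A] [Fintype B] in
theorem e2_mul_e2 (Γ : Subgroup (Grp A B)) (R : A → Prop) : e2 Γ R * e2 Γ R = e2 Γ R := by
  funext k
  by_cases hk : NT Γ R k <;> simp [e2, hk]

theorem norm_e2_mul_le (Γ : Subgroup (Grp A B)) (R : A → Prop) (y : Pt A B) :
    ‖e2 Γ R * y‖ ≤ ‖y‖ := by
  rw [pi_norm_le_iff_of_nonneg (norm_nonneg _)]
  intro k
  by_cases hk : NT Γ R k
  · simpa [e2, hk] using norm_le_pi_norm y k
  · simp [e2, hk]

theorem norm_sub_e2_mul_le (Γ : Subgroup (Grp A B)) (R : A → Prop) (y : Pt A B) :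
    ‖(1 - e2 Γ R) * y‖ ≤ ‖y‖ := by
  rw [pi_norm_le_iff_of_nonneg (norm_nonneg _)]
  intro k
  by_cases hk : NT Γ R k
  · simp [e2, hk]
  · simpa [e2, hk] using norm_le_pi_norm y k

omit [Fintype A] [Fintype B] in
theorem sub_e2_mul_dd {Γ : Subgroup (Grp A B)} {R : A → Prop} {ν : Grp A B} (hν : ν ∈ Ker R Γ) :
    (1 - e2 Γ R) * dd R ν = 1 - e2 Γ R := by
  funext k
  by_cases hk : NT Γ R k
  · simp [e2, hk]
  · have : dd R ν k = 1 := by
      by_contra h; exact hk ⟨ν, hν, h⟩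
    simp [e2, hk, this]

omit [Fintype A] [Fintype B] in
/-- points of the slice -/
theorem base_add_mem {R : A → Prop} {t : Pt A B} (ht : t ∈ TT R B) :
    base A B + t ∈ Dom A B ∧ ∀ i, ¬ R i → (base A B + t) (Sum.inl i) = Complex.I := by
  refine ⟨fun i => ?_, fun i hi => ?_⟩
  · simp [base, (ht i).1]
  · simp [base, (ht i).2 hi]

theorem norm_base_le : ‖base A B‖ ≤ 1 := by
  rw [pi_norm_le_iff_of_nonneg zero_le_one]
  intro k
  rcases k with i | j
  · simp [base]
  · simp [base]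

/-- the imaginary parts of `act ν (base + t)` and the norm of `dd ν * base` -/
theorem dd_base {Γ : Subgroup (Grp A B)} {R : A → Prop} (hG : Good Γ R) {ν : Grp A B}
    (hν : ν ∈ Ker R Γ) {t : Pt A B} (ht : t ∈ TT R B) {r : ℝ} (hr : 1 ≤ r)
    (hK : act ν (base A B + t) ∈ Kex A B r) :
    ‖dd R ν * base A B‖ ≤ r ∧ ∀ s ∈ TT R B, ∀ i, r⁻¹ ≤ ((dd R ν * base A B + s) (Sum.inl i)).im := by
  have him : ∀ i, (act ν (base A B + t) (Sum.inl i)).im = (dd R ν (Sum.inl i)).re := by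
    intro i
    rw [act_ker hG hν]
    have h1 := ((SS hG).mul_mem (dd_mem_SS hG (ker_le hν)) (SS hG).one_mem).2 t ht i
    have h2 := (tt_mem (R := R) ν : tt R ν ∈ TT R B) i
    rw [mul_one] at h1
    have h1' : (dd R ν (Sum.inl i) * t (Sum.inl i)).im = 0 := h1.1
    rw [mul_add]
    simp only [Pi.add_apply, Complex.add_im, h1', h2.1, add_zero, Pi.mul_apply, base, Sum.elim_inl]
    simp
  have hre : ∀ i, (dd R ν (Sum.inl i)).im = 0 ∧ 0 ≤ (dd R ν (Sum.inl i)).re := by
    intro i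
    by_cases hi : R i
    · simp only [dd, Sum.elim_inl, hi, if_true]
      rw [← Complex.ofReal_pow]
      exact ⟨Complex.ofReal_im _, by rw [Complex.ofReal_re]; positivity⟩
    · rw [dd_P ν hi]; simp
  have hle : ∀ i, (dd R ν (Sum.inl i)).re ≤ r := by
    intro i
    rw [← him i]
    refine (Complex.im_le_norm _).trans ?_
    exact (norm_le_pi_norm _ _).trans hK.2
  constructor
  · rw [pi_norm_le_iff_of_nonneg (by linarith)]
    intro k
    rcases k with i | j
    · have : dd R ν (Sum.inl i) = ((dd R ν (Sum.inl i)).re : ℂ) := by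
        apply Complex.ext <;> simp [(hre i).1]
      simp only [Pi.mul_apply, base, Sum.elim_inl, norm_mul, Complex.norm_I, mul_one]
      rw [this, Complex.norm_real, Real.norm_of_nonneg (hre i).2]
      exact hle i
    · simp only [Pi.mul_apply, base, Sum.elim_inr, mul_zero, norm_zero]
      linarith
  · intro s hs i
    have h1 := (hs i).1
    simp only [Pi.add_apply, Complex.add_im, h1, add_zero, Pi.mul_apply, base, Sum.elim_inl]
    have h3 := hK.1 i
    rw [him i] at h3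
    simpa using h3

/-- The coordinates with nontrivial characters belong to the span of the lattice. -/
theorem e2_mul_mem {Γ : Subgroup (Grp A B)} {R : A → Prop} (hG : Good Γ R) {e : Pt A B}
    (he : e ∈ TT R B) : e2 Γ R * e ∈ VV hG := by
  obtain ⟨he2S, o1, ho1, hcob1⟩ := e2_mem hG
  -- normalise `o`
  set o := e2 Γ R * o1 with hodef
  have ho : o ∈ TT R B := he2S.2 _ ho1
  have hoo : (1 - e2 Γ R) * o = 0 := by
    rw [hodef, ← mul_assoc, sub_mul, one_mul, e2_mul_e2, sub_self, zero_mul]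
  have hcob : ∀ ν ∈ Ker R Γ, e2 Γ R * tt R ν - (1 - dd R ν) * o ∈ VV hG := by
    intro ν hν
    have h1 := he2S.1 _ (hcob1 ν hν)
    have : e2 Γ R * (e2 Γ R * tt R ν - (1 - dd R ν) * o1) =
        e2 Γ R * e2 Γ R * tt R ν - (1 - dd R ν) * (e2 Γ R * o1) := by ring
    rw [this, e2_mul_e2] at h1
    exact h1
  set f := e2 Γ R * e with hf
  have hfT : f ∈ TT R B := he2S.2 _ he
  have hf0 : (1 - e2 Γ R) * f = 0 := by
    rw [hf, ← mul_assoc, sub_mul, one_mul, e2_mul_e2, sub_self, zero_mul]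
  have hf1 : e2 Γ R * f = f := by rw [hf, ← mul_assoc, e2_mul_e2]
  have ho1' : e2 Γ R * o = o := by rw [hodef, ← mul_assoc, e2_mul_e2]
  obtain ⟨K0, hK0, hK0c, hslice⟩ := slice_cocompact hG
  obtain ⟨r, hr1, hKr⟩ := exists_Kex hK0c hK0
  obtain ⟨rL, hrL, hred⟩ := exists_reduce hG
  set r' := 3 * r + 1 + ‖o‖ + rL with hr'
  have hr'1 : 1 ≤ r' := by have := norm_nonneg o; linarith
  have hrr' : r ≤ r' := by have := norm_nonneg o; linarith
  have hr'0 : 0 < r' := by linarith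
  have hfin := hG.pd (Kex A B r') (Kex_subset hr'0) (isCompact_Kex r')
  set F := {γ : Grp A B | γ ∈ Γ ∧ (act γ '' Kex A B r' ∩ Kex A B r').Nonempty} with hF
  have hD : ((fun γ => dd R γ * f) '' F).Finite := hfin.image _
  have hobase : base A B + o ∈ Kex A B r' := by
    refine ⟨fun i => ?_, ?_⟩
    · have : ((base A B + o) (Sum.inl i)).im = 1 := by simp [base, (ho i).1]
      rw [this]
      exact inv_le_one_of_one_le₀ hr'1
    · refine (norm_add_le _ _).trans ?_
      have := norm_base_le (A := A) (B := B)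
      linarith
  have hmain : ∀ n : ℕ, ∃ d ∈ (fun γ => dd R γ * f) '' F, ∃ v ∈ VV hG,
      ‖(n : ℝ) • d + v‖ ≤ 2 * r + ‖o‖ := by
    intro n
    have htn : o + (n : ℝ) • f ∈ TT R B := (TT R B).add_mem ho ((TT R B).smul_mem _ hfT)
    obtain ⟨ν, hν, hνK⟩ := hslice (base A B + (o + (n : ℝ) • f)) (base_add_mem htn).1
      (base_add_mem htn).2
    have hνK' := hKr hνK
    obtain ⟨hb1, hb2⟩ := dd_base hG hν htn hr1 hνK'
    have hu := hcob ν hν
    set u := e2 Γ R * tt R ν - (1 - dd R ν) * o with hudef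
    -- the component without nontrivial characters
    have hc1 : (1 - e2 Γ R) * tt R ν = (1 - e2 Γ R) * (act ν (base A B + (o + (n : ℝ) • f)) -
        dd R ν * base A B) := by
      rw [act_ker hG hν]
      have : (1 - e2 Γ R) * (dd R ν * (base A B + (o + (n : ℝ) • f)) + tt R ν -
          dd R ν * base A B) = ((1 - e2 Γ R) * dd R ν) * (o + (n : ℝ) • f) +
          (1 - e2 Γ R) * tt R ν := by ring
      rw [this, sub_e2_mul_dd hν, mul_add, hoo, mul_smul_comm, hf0, smul_zero]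
      simp
    have hc2 : ‖(1 - e2 Γ R) * tt R ν‖ ≤ 2 * r := by
      rw [hc1]
      refine (norm_sub_e2_mul_le _ _ _).trans ((norm_sub_le _ _).trans ?_)
      have := hνK'.2
      linarith
    obtain ⟨lam, hlam, hlam1, hlam2⟩ := hred u hu
    have hactb : act (lam * ν) (base A B + o) =
        dd R ν * base A B + (o + ((1 - e2 Γ R) * tt R ν + (u + tt R lam))) := by
      rw [act_mul _ _ (base_add_mem ho).1, act_ker hG hν, act_ker hG hlam, hlam1, hudef]
      ring
    have hmemF : lam * ν ∈ F := by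
      refine ⟨Γ.mul_mem (ker_le hlam) (ker_le hν), act (lam * ν) (base A B + o),
        ⟨_, hobase, rfl⟩, ?_⟩
      rw [hactb]
      have hT : o + ((1 - e2 Γ R) * tt R ν + (u + tt R lam)) ∈ TT R B := by
        refine (TT R B).add_mem ho ((TT R B).add_mem ?_ ((TT R B).add_mem (VV_le_TT hG hu)
          (tt_mem lam)))
        rw [sub_mul, one_mul]
        exact (TT R B).sub_mem (tt_mem ν) (he2S.2 _ (tt_mem ν))
      refine ⟨fun i => ?_, ?_⟩
      · refine le_trans ?_ (hb2 _ hT i)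
        exact inv_anti₀ (by linarith) hrr'
      · refine (norm_add_le _ _).trans ?_
        have h1 := norm_add_le o ((1 - e2 Γ R) * tt R ν + (u + tt R lam))
        have h2 := norm_add_le ((1 - e2 Γ R) * tt R ν) (u + tt R lam)
        linarith
    refine ⟨dd R (lam * ν) * f, ⟨_, hmemF, rfl⟩, u, hu, ?_⟩
    have hdd : dd R (lam * ν) = dd R ν := by rw [dd_mul hG (ker_le hν), hlam1, one_mul]
    rw [hdd]
    have e1 : (n : ℝ) • (dd R ν * f) + u = e2 Γ R * (act ν (base A B + (o + (n : ℝ) • f)) -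
        dd R ν * base A B) - o := by
      rw [act_ker hG hν]
      have e3 : e2 Γ R * (dd R ν * (base A B + (o + (n : ℝ) • f)) + tt R ν -
          dd R ν * base A B) = dd R ν * (e2 Γ R * o) + dd R ν * (e2 Γ R * ((n : ℝ) • f)) +
          e2 Γ R * tt R ν := by ring
      rw [e3, ho1', mul_smul_comm, hf1, mul_smul_comm, hudef]
      ring
    rw [e1]
    refine (norm_sub_le _ _).trans ?_
    have h1 := norm_e2_mul_le Γ R (act ν (base A B + (o + (n : ℝ) • f)) - dd R ν * base A B)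
    have h2 := norm_sub_le (act ν (base A B + (o + (n : ℝ) • f))) (dd R ν * base A B)
    have h3 := hνK'.2
    linarith
  obtain ⟨d, ⟨γ, hγ, rfl⟩, hdV⟩ := pigeon (VV hG) hD _ hmain
  have h1 := (dd_mem_SS hG (Γ.inv_mem hγ.1)).1 _ hdV
  have h2 : dd R γ⁻¹ * (dd R γ * f) = f := by
    rw [← mul_assoc, dd_inv_mul hG hγ.1, one_mul]
  simp only at h1
  rwa [h2] at h1

end Pool.Agent.H906.PC
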