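import Pool.Agent.H906.PC.Nil

/-! # Conjugation, and the absence of invariant lines in the Kähler case -/

open Filter Topology Matrix
open scoped MatrixGroups Classical ComplexOrder

namespace Pool.Agent.H906.PC

variable {A B : Type*} [Fintype A] [Fintype B]

/-- the conjugate group -/
noncomputable def cj (h : Grp A B) (Γ : Subgroup (Grp A B)) : Subgroup (Grp A B) :=
  Γ.map (MulAut.conj h).toMonoidHom

omit [Fintype A] [Fintype B] in
theorem mem_cj {h : Grp A B} {Γ : Subgroup (Grp A B)} {γ : Grp A B} :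
    γ ∈ cj h Γ ↔ ∃ δ ∈ Γ, h * δ * h⁻¹ = γ := by
  simp [cj]

omit [Fintype A] [Fintype B] in
theorem act_conj (h γ : Grp A B) {x : Pt A B} (hx : x ∈ Dom A B) :
    act (h * γ * h⁻¹) x = act h (act γ (act h⁻¹ x)) := by
  rw [act_mul _ _ hx, act_mul _ _ (act_mem _ hx)]

omit [Fintype A] [Fintype B] in
theorem pd_cj {Γ : Subgroup (Grp A B)} (hpd : ProperlyDiscontinuous Γ) (h : Grp A B) :
    ProperlyDiscontinuous (cj h Γ) := by
  intro K hK hKc
  have hK' : act h⁻¹ '' K ⊆ Dom A B := by rintro _ ⟨x, hx, rfl⟩; exact act_mem _ (hK hx)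
  have hKc' : IsCompact (act h⁻¹ '' K) := hKc.image_of_continuousOn ((continuousOn_act _).mono hK)
  refine ((hpd _ hK' hKc').image fun γ => h * γ * h⁻¹).subset ?_
  rintro γ ⟨hγ, y, ⟨x, hx, rfl⟩, hy⟩
  obtain ⟨δ, hδ, rfl⟩ := mem_cj.1 hγ
  refine ⟨δ, ⟨hδ, act δ (act h⁻¹ x), ⟨_, ⟨x, hx, rfl⟩, rfl⟩, ?_⟩, rfl⟩
  refine ⟨_, hy, ?_⟩
  rw [act_conj h δ (hK hx), act_inv_act _ (act_mem _ (act_mem _ (hK hx)))]

omit [Fintype A] [Fintype B] in
theorem cc_cj {Γ : Subgroup (Grp A B)} (hcc : Cocompact Γ) (h : Grp A B) :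
    Cocompact (cj h Γ) := by
  obtain ⟨K, hK, hKc, hcov⟩ := hcc
  refine ⟨act h '' K, ?_, hKc.image_of_continuousOn ((continuousOn_act _).mono hK), ?_⟩
  · rintro _ ⟨x, hx, rfl⟩; exact act_mem _ (hK hx)
  · intro x hx
    obtain ⟨γ, hγ, hγK⟩ := hcov (act h⁻¹ x) (act_mem _ hx)
    refine ⟨h * γ * h⁻¹, mem_cj.2 ⟨γ, hγ, rfl⟩, ?_⟩
    rw [act_conj h γ hx]
    exact ⟨_, hγK, rfl⟩

/-- the derivative of a holomorphic function of one coordinate -/
theorem hasFDerivAt_coord {φ : ℂ → ℂ} {φ' : ℂ} {x : Pt A B} {k : A ⊕ B}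
    (h : HasDerivAt φ φ' (x k)) :
    HasFDerivAt (fun y : Pt A B => φ (y k))
      ((ContinuousLinearMap.mul ℝ ℂ φ').comp (ContinuousLinearMap.proj k)) x := by
  have h1 : HasFDerivAt φ (ContinuousLinearMap.mul ℝ ℂ φ') (x k) := by
    have := h.hasFDerivAt.restrictScalars ℝ
    have e : (ContinuousLinearMap.toSpanSingleton ℂ φ').restrictScalars ℝ =
        ContinuousLinearMap.mul ℝ ℂ φ' := by
      ext; simp [mul_comm]
    rw [← e]
    exact this
  exact h1.comp x (hasFDerivAt_apply k x)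

/-- the component functions of `act` -/
noncomputable def comp1 (h : Grp A B) : A ⊕ B → ℂ → ℂ :=
  Sum.elim (fun i => mob (h.1 i)) (fun j w => h.2 j w)

omit [Fintype A] [Fintype B] in
theorem act_apply (h : Grp A B) (x : Pt A B) (k : A ⊕ B) : act h x k = comp1 h k (x k) := by
  rcases k with i | j <;> rfl

omit [Fintype A] [Fintype B] in
theorem hasDerivAt_comp1 (h : Grp A B) {x : Pt A B} (hx : x ∈ Dom A B) (k : A ⊕ B) :
    HasDerivAt (comp1 h k) (der h x k) (x k) := by
  rcases k with i | j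
  · exact hasDerivAt_mob _ (hx i)
  · change HasDerivAt (fun w => h.2 j w) (lin (h.2 j)) (x (Sum.inr j))
    have : (fun w => h.2 j w) = fun w => lin (h.2 j) * w + h.2 j 0 := by
      funext w; exact aff_apply _ _
    rw [this]
    simpa using ((hasDerivAt_id (x (Sum.inr j))).const_mul (lin (h.2 j))).add_const (h.2 j 0)

theorem hasFDerivAt_act (h : Grp A B) {x : Pt A B} (hx : x ∈ Dom A B) :
    HasFDerivAt (act h) (ContinuousLinearMap.pi fun k =>
      ((ContinuousLinearMap.mul ℝ ℂ (der h x k)).comp (ContinuousLinearMap.proj k))) x := by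
  rw [hasFDerivAt_pi]
  intro k
  have := hasFDerivAt_coord (x := x) (k := k) (hasDerivAt_comp1 h hx k)
  refine this.congr_of_eventuallyEq (Eventually.of_forall fun y => ?_)
  exact act_apply h y k

omit [Fintype A] [Fintype B] in
/-- a real linear map on a complex line -/
theorem clm_single (D : Pt A B →L[ℝ] ℂ) (k : A ⊕ B) (δ : ℂ) :
    (D (Pi.single k δ) - Complex.I * D (Pi.single k (δ * Complex.I))) / 2 =
      (D (Pi.single k 1) - Complex.I * D (Pi.single k Complex.I)) / 2 * δ := by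
  have h1 : (Pi.single k δ : Pt A B) = δ.re • (Pi.single k 1 : Pt A B) +
        δ.im • (Pi.single k Complex.I : Pt A B) := by
    rw [← Pi.single_smul, ← Pi.single_smul, ← Pi.single_add]
    congr 1
    apply Complex.ext <;> simp
  have h2 : (Pi.single k (δ * Complex.I) : Pt A B) = (-δ.im) • (Pi.single k 1 : Pt A B) +
        δ.re • (Pi.single k Complex.I : Pt A B) := by
    rw [← Pi.single_smul, ← Pi.single_smul, ← Pi.single_add]
    congr 1
    apply Complex.ext <;> simp
  have h3 : δ = (δ.re : ℂ) + δ.im * Complex.I := (Complex.re_add_im δ).symm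
  rw [h1, h2, map_add, map_add, map_smul, map_smul, map_smul, map_smul]
  simp only [Complex.real_smul]
  conv_rhs => rw [h3]
  push_cast
  linear_combination ((1 / 2 : ℂ) * δ.im * D (Pi.single k Complex.I)) * Complex.I_sq

theorem wd_comp_act (h : Grp A B) {x : Pt A B} (hx : x ∈ Dom A B) {f : Pt A B → ℂ}
    (hf : DifferentiableAt ℝ f (act h x)) (k : A ⊕ B) :
    wd k (fun y => f (act h y)) x = wd k f (act h x) * der h x k := by
  have h1 := hf.hasFDerivAt.comp x (hasFDerivAt_act h hx)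
  have h2 : fderiv ℝ (fun y => f (act h y)) x = _ := h1.fderiv
  unfold wd
  rw [h2]
  have h3 : ∀ c : ℂ, (ContinuousLinearMap.pi fun k =>
      ((ContinuousLinearMap.mul ℝ ℂ (der h x k)).comp (ContinuousLinearMap.proj k)) :
        Pt A B →L[ℝ] Pt A B) (Pi.single k c) = Pi.single k (der h x k * c) := by
    intro c
    funext l
    by_cases hl : l = k
    · subst hl; simp
    · simp [hl]
  simp only [ContinuousLinearMap.comp_apply]
  rw [h3, h3, mul_one, clm_single]

theorem wd_mul {f g : Pt A B → ℂ} {x : Pt A B} (hf : DifferentiableAt ℝ f x)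
    (hg : DifferentiableAt ℝ g x) (k : A ⊕ B) :
    wd k (fun y => f y * g y) x = wd k f x * g x + f x * wd k g x := by
  have h1 : fderiv ℝ (fun y => f y * g y) x = f x • fderiv ℝ g x + g x • fderiv ℝ f x :=
    fderiv_fun_mul hf hg
  unfold wd
  rw [h1]
  simp only [_root_.add_apply, _root_.smul_apply, smul_eq_mul]
  ring

/-- the derivatives of `act`, as functions of one coordinate -/
noncomputable def der1 (h : Grp A B) : A ⊕ B → ℂ → ℂ :=
  Sum.elim (fun i z => 1 / (den (h.1 i) z) ^ 2) (fun j _ => lin (h.2 j))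

omit [Fintype A] [Fintype B] in
theorem der_apply (h : Grp A B) (x : Pt A B) (k : A ⊕ B) : der h x k = der1 h k (x k) := by
  rcases k with i | j <;> rfl

omit [Fintype A] [Fintype B] in
theorem exists_hasDerivAt_der1 (h : Grp A B) {x : Pt A B} (hx : x ∈ Dom A B) (k : A ⊕ B) :
    ∃ d, HasDerivAt (der1 h k) d (x k) := by
  rcases k with i | j
  · have h0 := den_ne_zero (h.1 i) (hx i)
    have h1 : DifferentiableAt ℂ (den (h.1 i)) (x (Sum.inl i)) := by
      unfold den; fun_prop
    have h2 : DifferentiableAt ℂ (fun z => 1 / (den (h.1 i) z) ^ 2) (x (Sum.inl i)) :=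
      (differentiableAt_const _).div (h1.pow 2) (pow_ne_zero 2 h0)
    exact ⟨_, h2.hasDerivAt⟩
  · exact ⟨0, hasDerivAt_const _ _⟩

/-- `∂_k` of a function of another coordinate, and of an antiholomorphic function -/
theorem wd_der (h : Grp A B) {x : Pt A B} (hx : x ∈ Dom A B) {k l : A ⊕ B} (hkl : k ≠ l) :
    wd k (fun y => der h y l) x = 0 := by
  obtain ⟨d, hd⟩ := exists_hasDerivAt_der1 h hx l
  have h1 := hasFDerivAt_coord (x := x) (k := l) hd
  have h2 : (fun y : Pt A B => der h y l) = fun y => der1 h l (y l) := by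
    funext y; exact der_apply h y l
  unfold wd
  rw [h2, h1.fderiv]
  simp [hkl.symm]

theorem differentiableAt_der (h : Grp A B) {x : Pt A B} (hx : x ∈ Dom A B) (l : A ⊕ B) :
    DifferentiableAt ℝ (fun y => der h y l) x := by
  obtain ⟨d, hd⟩ := exists_hasDerivAt_der1 h hx l
  have h1 := hasFDerivAt_coord (x := x) (k := l) hd
  have h2 : (fun y : Pt A B => der h y l) = fun y => der1 h l (y l) := by
    funext y; exact der_apply h y l
  rw [h2]; exact h1.differentiableAt

theorem hasFDerivAt_star_der (h : Grp A B) {x : Pt A B} {l : A ⊕ B} {d : ℂ}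
    (hd : HasDerivAt (der1 h l) d (x l)) :
    HasFDerivAt (fun y : Pt A B => star (der h y l))
      ((Complex.conjCLE : ℂ →L[ℝ] ℂ).comp
        ((ContinuousLinearMap.mul ℝ ℂ d).comp (ContinuousLinearMap.proj l))) x := by
  have h1 := hasFDerivAt_coord (x := x) (k := l) hd
  have h2 : (fun y : Pt A B => star (der h y l)) = fun y => Complex.conjCLE (der1 h l (y l)) := by
    funext y; rw [der_apply h y l]; rfl
  rw [h2]
  exact (Complex.conjCLE.hasFDerivAt).comp x h1

theorem wd_star_der (h : Grp A B) {x : Pt A B} (hx : x ∈ Dom A B) (k l : A ⊕ B) :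
    wd k (fun y => star (der h y l)) x = 0 := by
  obtain ⟨d, hd⟩ := exists_hasDerivAt_der1 h hx l
  unfold wd
  rw [(hasFDerivAt_star_der h hd).fderiv]
  by_cases hkl : l = k
  · subst hkl
    simp
    linear_combination ((starRingEnd ℂ) d) * Complex.I_sq
  · simp [hkl]

theorem differentiableAt_star_der (h : Grp A B) {x : Pt A B} (hx : x ∈ Dom A B) (l : A ⊕ B) :
    DifferentiableAt ℝ (fun y => star (der h y l)) x := by
  obtain ⟨d, hd⟩ := exists_hasDerivAt_der1 h hx l
  exact (hasFDerivAt_star_der h hd).differentiableAt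

/-- the transported metric -/
noncomputable def gcj (h : Grp A B) (g : Pt A B → Matrix (A ⊕ B) (A ⊕ B) ℂ) (x : Pt A B) :
    Matrix (A ⊕ B) (A ⊕ B) ℂ :=
  Matrix.of fun i j => g (act h⁻¹ x) i j * der h⁻¹ x i * star (der h⁻¹ x j)

theorem contDiffOn_den (h : Grp A B) (i : A) :
    ContDiffOn ℝ 1 (fun x : Pt A B => (den (h.1 i) (x (Sum.inl i)))⁻¹) (Dom A B) := by
  have h1 : ContDiff ℝ 1 fun x : Pt A B => x (Sum.inl i) := contDiff_apply _ _ _
  have h2 : ContDiffOn ℝ 1 (fun x : Pt A B => den (h.1 i) (x (Sum.inl i))) (Dom A B) := by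
    unfold den
    exact ((contDiff_const.mul h1).add contDiff_const).contDiffOn
  exact h2.inv fun x hx => den_ne_zero _ (hx i)

theorem contDiffOn_act (h : Grp A B) : ContDiffOn ℝ 1 (act h) (Dom A B) := by
  rw [contDiffOn_pi]
  intro k
  rcases k with i | j
  · have h1 : ContDiff ℝ 1 fun x : Pt A B => x (Sum.inl i) := contDiff_apply _ _ _
    have h2 : ContDiffOn ℝ 1 (fun x : Pt A B =>
        (((h.1 i).1 0 0 : ℂ) * x (Sum.inl i) + (h.1 i).1 0 1) * (den (h.1 i) (x (Sum.inl i)))⁻¹)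
        (Dom A B) :=
      ((contDiff_const.mul h1).add contDiff_const).contDiffOn.mul (contDiffOn_den h i)
    refine h2.congr fun x _ => ?_
    rw [act_inl, mob, div_eq_mul_inv]
  · have : (fun x : Pt A B => act h x (Sum.inr j)) =
        fun x => lin (h.2 j) * x (Sum.inr j) + h.2 j 0 := by
      funext x; exact aff_apply _ _
    rw [this]
    exact ((contDiff_const.mul (contDiff_apply _ _ _)).add contDiff_const).contDiffOn

theorem contDiffOn_der (h : Grp A B) (k : A ⊕ B) :
    ContDiffOn ℝ 1 (fun x => der h x k) (Dom A B) := by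
  rcases k with i | j
  · refine ((contDiffOn_den h i).pow 2).congr fun x _ => ?_
    change 1 / (den (h.1 i) (x (Sum.inl i))) ^ 2 = ((den (h.1 i) (x (Sum.inl i)))⁻¹) ^ 2
    rw [one_div, inv_pow]
  · exact contDiffOn_const

theorem kahler_cj {Γ : Subgroup (Grp A B)} {g : Pt A B → Matrix (A ⊕ B) (A ⊕ B) ℂ}
    (hg : IsKahler Γ g) (h : Grp A B) : IsKahler (cj h Γ) (gcj h g) := by
  have hmaps : Set.MapsTo (act h⁻¹) (Dom A B) (Dom A B) := fun x hx => act_mem _ hx
  refine ⟨fun i j => ?_, fun x hx => ?_, fun x hx i j k => ?_, ?_⟩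
  · have h1 : ContDiffOn ℝ 1 (fun x => g (act h⁻¹ x) i j) (Dom A B) :=
      (hg.smooth i j).comp (contDiffOn_act _) hmaps
    have h2 : ContDiffOn ℝ 1 (fun x => star (der h⁻¹ x j)) (Dom A B) :=
      Complex.conjCLE.contDiff.comp_contDiffOn (contDiffOn_der h⁻¹ j)
    exact (h1.mul (contDiffOn_der _ i)).mul h2
  · have h1 := hg.pos _ (act_mem h⁻¹ hx)
    have h2 : gcj h g x = (Matrix.diagonal (der h⁻¹ x)) * g (act h⁻¹ x) *
        (Matrix.diagonal (der h⁻¹ x))ᴴ := by
      ext i j
      simp only [gcj, Matrix.of_apply, Matrix.diagonal_conjTranspose, Matrix.mul_diagonal,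
        Matrix.diagonal_mul, Pi.star_apply]
      ring
    rw [h2]
    refine h1.mul_mul_conjTranspose_same ?_
    intro v w hvw
    funext k
    have := congrFun hvw k
    simp only [Matrix.vecMul_diagonal] at this
    exact mul_right_cancel₀ (der_ne_zero _ hx k) this
  · by_cases hij : i = j
    · subst hij; rfl
    · have hd : ∀ a b, DifferentiableAt ℝ (fun y => g y a b) (act h⁻¹ x) := fun a b =>
        ((hg.smooth a b).differentiableOn (by norm_num)).differentiableAt
          (isOpen_dom.mem_nhds (act_mem _ hx))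
      have hd' : ∀ a b, DifferentiableAt ℝ (fun y => g (act h⁻¹ y) a b) x := fun a b =>
        (hd a b).comp x (hasFDerivAt_act h⁻¹ hx).differentiableAt
      have key : ∀ a b c, a ≠ b → wd a (fun y => gcj h g y b c) x =
          wd a (fun y => g y b c) (act h⁻¹ x) * der h⁻¹ x a * der h⁻¹ x b *
            star (der h⁻¹ x c) := by
        intro a b c hab
        have e : (fun y => gcj h g y b c) = fun y => (g (act h⁻¹ y) b c * der h⁻¹ y b) *
            star (der h⁻¹ y c) := rfl
        have w1 := wd_mul (f := fun y => g (act h⁻¹ y) b c * der h⁻¹ y b)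
          (g := fun y => star (der h⁻¹ y c)) ((hd' b c).mul (differentiableAt_der _ hx b))
          (differentiableAt_star_der _ hx c) a
        have w2 := wd_mul (f := fun y => g (act h⁻¹ y) b c) (g := fun y => der h⁻¹ y b)
          (hd' b c) (differentiableAt_der _ hx b) a
        have w3 := wd_comp_act h⁻¹ hx (hd b c) a
        rw [e, w1, wd_star_der _ hx, mul_zero, add_zero, w2, wd_der _ hx hab, mul_zero, add_zero,
          w3]
      rw [key i j k hij, key j i k (Ne.symm hij), hg.closed _ (act_mem _ hx) i j k]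
      ring
  · intro γ hγ x hx i j
    obtain ⟨δ, hδ, rfl⟩ := mem_cj.1 hγ
    have hy : act h⁻¹ (act (h * δ * h⁻¹) x) = act δ (act h⁻¹ x) := by
      rw [act_conj h δ hx, act_inv_act _ (act_mem _ (act_mem _ hx))]
    have hder : ∀ k, der h⁻¹ (act (h * δ * h⁻¹) x) k * der (h * δ * h⁻¹) x k =
        der δ (act h⁻¹ x) k * der h⁻¹ x k := by
      intro k
      have e3 : h⁻¹ * (h * δ * h⁻¹) = δ * h⁻¹ := by group
      rw [← der_mul _ _ hx, ← der_mul _ _ hx, e3]
    have h1 := hg.inv δ hδ (act h⁻¹ x) (act_mem _ hx) i j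
    have e1 := hder i
    have e2 := congrArg star (hder j)
    rw [star_mul', star_mul'] at e2
    change g (act h⁻¹ (act (h * δ * h⁻¹) x)) i j * der h⁻¹ (act (h * δ * h⁻¹) x) i *
      star (der h⁻¹ (act (h * δ * h⁻¹) x) j) * der (h * δ * h⁻¹) x i *
      star (der (h * δ * h⁻¹) x j) = g (act h⁻¹ x) i j * der h⁻¹ x i * star (der h⁻¹ x j)
    rw [hy, ← h1]
    linear_combination (g (act δ (act h⁻¹ x)) i j * star (der h⁻¹ (act (h * δ * h⁻¹) x) j) *
      star (der (h * δ * h⁻¹) x j)) * e1 + (g (act δ (act h⁻¹ x)) i j * der δ (act h⁻¹ x) i *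
      der h⁻¹ x i) * e2

/-- In the Kähler case no component of `Γ` has an invariant line. -/
theorem good {Γ : Subgroup (Grp A B)} (hpd : ProperlyDiscontinuous Γ) (hcc : Cocompact Γ)
    (hg : ∀ h : Grp A B, Uni (cj h Γ)) :
    Good Γ (fun _ => False) := by
  refine ⟨hpd, hcc, fun _ h => h.elim, fun i _ hline => ?_⟩
  have hsel : ∀ i : A, ∃ h : SL(2, ℝ), (HasLine Γ i → ∀ γ ∈ Γ, (h * γ.1 i * h⁻¹).1 1 0 = 0) ∧
      (¬ HasLine Γ i → h = 1) := by
    intro i
    by_cases hi : HasLine Γ i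
    · obtain ⟨h, hh⟩ := exists_tri hcc i hi
      exact ⟨h, fun _ => hh, fun h' => absurd hi h'⟩
    · exact ⟨1, fun h' => absurd h' hi, fun _ => rfl⟩
  choose h1 hh1 hh2 using hsel
  set h : Grp A B := (h1, 1) with hh
  have hG : Good (cj h Γ) (HasLine Γ) := by
    refine ⟨pd_cj hpd h, cc_cj hcc h, fun i hi γ hγ => ?_, fun i hi => ?_⟩
    · obtain ⟨δ, hδ, rfl⟩ := mem_cj.1 hγ
      exact hh1 i hi δ hδ
    · rintro ⟨X, hX1, hX2, hX3⟩
      refine hi ⟨X, hX1, hX2, fun γ hγ => ?_⟩
      have := hX3 (h * γ * h⁻¹) (mem_cj.2 ⟨γ, hγ, rfl⟩)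
      have e : (h * γ * h⁻¹).1 i = γ.1 i := by
        change h1 i * γ.1 i * (h1 i)⁻¹ = γ.1 i
        rw [hh2 i hi]; simp
      rwa [e] at this
  exact not_R hG (hg h) i hline

end Pool.Agent.H906.PC
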