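import Pool.Agent.H906.PC.Conj

/-! # Summation over discrete subgroups of `SL(2,ℝ)^A` -/

open Filter Topology Matrix
open scoped MatrixGroups Classical

namespace Pool.Agent.H906.PC

attribute [local instance] Matrix.normedAddCommGroup Matrix.normedSpace

variable {A : Type*} [Fintype A]

/-- the size of an element of `SL(2,ℝ)^A` -/
noncomputable def nn (q : A → SL(2, ℝ)) : ℝ := ‖fun i => (q i).1‖

theorem entry_le (q : A → SL(2, ℝ)) (i : A) (a b : Fin 2) : |(q i).1 a b| ≤ nn q := by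
  have h1 : ‖(q i).1‖ ≤ nn q := norm_le_pi_norm (fun i => (q i).1) i
  exact (Matrix.norm_entry_le_entrywise_sup_norm _).trans h1

theorem nn_nonneg (q : A → SL(2, ℝ)) : 0 ≤ nn q := norm_nonneg _

theorem entry_inv_le (q : A → SL(2, ℝ)) (i : A) (a b : Fin 2) :
    |((q i)⁻¹).1 a b| ≤ nn q := by
  have : ((q i)⁻¹).1 = (q i).1.adjugate := rfl
  rw [this, Matrix.adjugate_fin_two]
  fin_cases a <;> fin_cases b
  · exact entry_le q i 1 1
  · change |-(q i).1 0 1| ≤ _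
    rw [abs_neg]; exact entry_le q i 0 1
  · change |-(q i).1 1 0| ≤ _
    rw [abs_neg]; exact entry_le q i 1 0
  · exact entry_le q i 0 0

theorem exists_eps {H : Subgroup (A → SL(2, ℝ))}
    (hd : ∀ᶠ g in 𝓝 (1 : A → SL(2, ℝ)), g ∈ H → g = 1) :
    ∃ ε > 0, ∀ g ∈ H, (∀ i a b, |(g i).1 a b - (1 : Mat) a b| < ε) → g = 1 := by
  have hind : IsInducing (fun (g : A → SL(2, ℝ)) (i : A) => (g i).1) := by
    have h1 : ∀ _ : A, IsInducing (fun g : SL(2, ℝ) => g.1) := fun _ => IsInducing.subtypeVal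
    exact IsInducing.piMap h1
  rw [hind.nhds_eq_comap, Filter.eventually_comap] at hd
  obtain ⟨ε, hε, h⟩ := Metric.eventually_nhds_iff.1 hd
  refine ⟨ε, hε, fun g hg hclose => h (y := fun i => (g i).1) ?_ g rfl hg⟩
  rw [dist_pi_lt_iff hε]
  intro i
  rw [dist_eq_norm, Matrix.norm_lt_iff hε]
  intro a b
  exact hclose i a b

theorem close_eq {H : Subgroup (A → SL(2, ℝ))} {ε : ℝ}
    (hε : ∀ g ∈ H, (∀ i a b, |(g i).1 a b - (1 : Mat) a b| < ε) → g = 1)
    {q q' : A → SL(2, ℝ)} (hq : q ∈ H) (hq' : q' ∈ H) {K δ : ℝ} (hK : 0 < K)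
    (hqK : nn q ≤ K) (hδ : 2 * K * δ ≤ ε)
    (hclose : ∀ i a b, |(q' i).1 a b - (q i).1 a b| < δ) : q = q' := by
  have h1 : q⁻¹ * q' = 1 := by
    refine hε _ (H.mul_mem (H.inv_mem hq) hq') fun i a b => ?_
    have hinv : (((q i)⁻¹ : SL(2, ℝ)) * q i).1 a b = (1 : Mat) a b := by
      rw [inv_mul_cancel]; rfl
    change |((q i)⁻¹ * q' i).1 a b - (1 : Mat) a b| < ε
    rw [← hinv, coe_mul_apply, coe_mul_apply]
    have e : ((q i)⁻¹).1 a 0 * (q' i).1 0 b + ((q i)⁻¹).1 a 1 * (q' i).1 1 b -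
        (((q i)⁻¹).1 a 0 * (q i).1 0 b + ((q i)⁻¹).1 a 1 * (q i).1 1 b) =
        ((q i)⁻¹).1 a 0 * ((q' i).1 0 b - (q i).1 0 b) +
        ((q i)⁻¹).1 a 1 * ((q' i).1 1 b - (q i).1 1 b) := by ring
    rw [e]
    refine (abs_add_le _ _).trans_lt ?_
    rw [abs_mul, abs_mul]
    have h2 : ∀ c, |((q i)⁻¹).1 a c| * |(q' i).1 c b - (q i).1 c b| ≤
        K * |(q' i).1 c b - (q i).1 c b| := fun c =>
      mul_le_mul_of_nonneg_right ((entry_inv_le q i a c).trans hqK) (abs_nonneg _)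
    have h3 : ∀ c, K * |(q' i).1 c b - (q i).1 c b| < K * δ := fun c =>
      mul_lt_mul_of_pos_left (hclose i c b) hK
    have := h2 0
    have := h2 1
    have := h3 0
    have := h3 1
    linarith
  exact (inv_mul_eq_one.1 h1)

theorem summable_int : Summable fun n : ℤ => ((1 + |(n : ℝ)|) ^ 2)⁻¹ := by
  have h1 : Summable fun n : ℕ => (((1 : ℝ) + n) ^ 2)⁻¹ := by
    have := (summable_nat_add_iff 1).2 (Real.summable_nat_pow_inv.2 (show 1 < 2 by norm_num))
    refine this.congr fun n => ?_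
    push_cast
    rw [add_comm]
  refine Summable.of_nat_of_neg ?_ ?_
  · refine h1.congr fun n => ?_
    simp
  · refine h1.congr fun n => ?_
    simp

theorem summable_pi {f : ℤ → ℝ} (hf0 : ∀ n, 0 ≤ f n) (hf : Summable f) (n : ℕ) :
    Summable fun v : Fin n → ℤ => ∏ i, f (v i) := by
  induction n with
  | zero => exact summable_of_hasFiniteSupport (Set.toFinite _)
  | succ n ih =>
    have hg0 : (0 : (Fin n → ℤ) → ℝ) ≤ fun v => ∏ i, f (v i) :=
      fun v => Finset.prod_nonneg fun i _ => hf0 _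
    have hf0' : (0 : ℤ → ℝ) ≤ f := hf0
    have h1 := Summable.mul_of_nonneg (f := f) (g := fun v : Fin n → ℤ => ∏ i, f (v i)) hf ih
      hf0' hg0
    have h2 : (fun v : Fin (n + 1) → ℤ => ∏ i, f (v i)) ∘ (Fin.consEquiv fun _ : Fin (n + 1) => ℤ) =
        fun p : ℤ × (Fin n → ℤ) => f p.1 * ∏ i, f (p.2 i) := by
      funext p
      change ∏ i, f ((Fin.cons p.1 p.2 : Fin (n + 1) → ℤ) i) = _
      rw [Fin.prod_univ_succ]
      simp
    rw [← (Fin.consEquiv fun _ : Fin (n + 1) => ℤ).summable_iff, h2]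
    exact h1

theorem summable_pi' {E : Type*} [Fintype E] {f : ℤ → ℝ} (hf0 : ∀ n, 0 ≤ f n)
    (hf : Summable f) : Summable fun v : E → ℤ => ∏ e, f (v e) := by
  have h1 := summable_pi hf0 hf (Fintype.card E)
  have h2 : (fun v : E → ℤ => ∏ e, f (v e)) =
      (fun v : Fin (Fintype.card E) → ℤ => ∏ i, f (v i)) ∘
        (Equiv.arrowCongr (Fintype.equivFin E) (Equiv.refl ℤ)) := by
    funext v
    simp only [Function.comp_apply]
    rw [← (Fintype.equivFin E).prod_comp]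
    simp
  rw [h2, Equiv.summable_iff]
  exact h1

/-- Some power of the size is summable over a discrete subgroup. -/
theorem summable_nn {H : Subgroup (A → SL(2, ℝ))}
    (hd : ∀ᶠ g in 𝓝 (1 : A → SL(2, ℝ)), g ∈ H → g = 1) :
    ∃ s : ℕ, Summable fun q : H => ((1 + nn (q : A → SL(2, ℝ))) ^ s)⁻¹ := by
  obtain ⟨ε, hε, hsep⟩ := exists_eps hd
  obtain ⟨M, hM⟩ := exists_nat_gt (2 / ε)
  have hM0 : (0 : ℝ) < M := lt_trans (by positivity) hM
  have hM1 : (1 : ℝ) ≤ M := by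
    have : 0 < M := by exact_mod_cast hM0
    exact_mod_cast this
  set E := A × Fin 2 × Fin 2
  set n := Fintype.card E with hn
  set k : H → ℕ := fun q => ⌊nn (q : A → SL(2, ℝ))⌋₊ with hk
  set v : H → E → ℤ := fun q e => ⌊((q : A → SL(2, ℝ)) e.1).1 e.2.1 e.2.2 * (M * (k q + 1))⌋
    with hv
  have hk1 : ∀ q : H, nn (q : A → SL(2, ℝ)) < k q + 1 := fun q => Nat.lt_floor_add_one _
  have hk2 : ∀ q : H, (k q : ℝ) ≤ nn (q : A → SL(2, ℝ)) := fun q => Nat.floor_le (nn_nonneg _)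
  have hinj : Function.Injective fun q : H => (k q, v q) := by
    intro q q' h
    simp only [Prod.mk.injEq] at h
    obtain ⟨h1, h2⟩ := h
    apply Subtype.ext
    have hpos : (0 : ℝ) < M * (k q + 1) := by positivity
    refine close_eq hsep q.2 q'.2 (K := k q + 1) (δ := 1 / (M * (k q + 1))) (by positivity)
      (hk1 q).le ?_ ?_
    · have : 2 * ((k q : ℝ) + 1) * (1 / (M * (k q + 1))) = 2 / M := by field_simp
      rw [this, div_le_iff₀ hM0]
      rw [div_lt_iff₀ hε] at hM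
      linarith
    · intro i a b
      have h3 := congrFun h2 (i, a, b)
      simp only [hv] at h3
      rw [← h1] at h3
      have h4 := Int.abs_sub_lt_one_of_floor_eq_floor h3
      rw [← sub_mul, abs_mul, abs_of_pos hpos] at h4
      rw [lt_div_iff₀ hpos, abs_sub_comm]
      exact h4
  have hvb : ∀ q e, 1 + |(v q e : ℝ)| ≤ 3 * M * ((k q : ℝ) + 1) ^ 2 := by
    intro q e
    have h1 : |((q : A → SL(2, ℝ)) e.1).1 e.2.1 e.2.2 * (M * (k q + 1))| ≤
        (k q + 1) * (M * (k q + 1)) := by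
      rw [abs_mul, abs_of_pos (show (0 : ℝ) < M * (k q + 1) by positivity)]
      exact mul_le_mul_of_nonneg_right ((entry_le _ _ _ _).trans (hk1 q).le) (by positivity)
    have h2 := Int.floor_le (((q : A → SL(2, ℝ)) e.1).1 e.2.1 e.2.2 * (M * (k q + 1)))
    have h3 := Int.lt_floor_add_one (((q : A → SL(2, ℝ)) e.1).1 e.2.1 e.2.2 * (M * (k q + 1)))
    rw [abs_le] at h1
    have h4 : |(v q e : ℝ)| ≤ (k q + 1) * (M * (k q + 1)) + 1 := by
      rw [abs_le]
      constructor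
      · simp only [hv]; linarith
      · simp only [hv]; linarith
    have h5 : (1 : ℝ) ≤ M * ((k q : ℝ) + 1) ^ 2 := by
      have : (1 : ℝ) ≤ ((k q : ℝ) + 1) ^ 2 := by
        have : (0 : ℝ) ≤ k q := Nat.cast_nonneg _
        nlinarith
      nlinarith
    nlinarith
  have hu : Summable fun p : ℕ × (E → ℤ) =>
      (((1 : ℝ) + p.1) ^ 2)⁻¹ * ∏ e, ((1 + |(p.2 e : ℝ)|) ^ 2)⁻¹ := by
    have hf : Summable fun n : ℕ => (((1 : ℝ) + n) ^ 2)⁻¹ := by
      have := (summable_nat_add_iff 1).2 (Real.summable_nat_pow_inv.2 (show 1 < 2 by norm_num))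
      refine this.congr fun n => ?_
      push_cast
      rw [add_comm]
    have hg := summable_pi' (E := E) (f := fun n : ℤ => ((1 + |(n : ℝ)|) ^ 2)⁻¹)
      (fun n => by positivity) summable_int
    exact Summable.mul_of_nonneg (f := fun n : ℕ => (((1 : ℝ) + n) ^ 2)⁻¹)
      (g := fun v : E → ℤ => ∏ e, ((1 + |(v e : ℝ)|) ^ 2)⁻¹) hf hg
      (fun n => by positivity) (fun v => Finset.prod_nonneg fun e _ => by positivity)
  have hu' := (hu.comp_injective hinj).mul_left ((3 * (M : ℝ)) ^ (2 * n))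
  refine ⟨2 + 4 * n, Summable.of_nonneg_of_le (fun q => ?_) (fun q => ?_) hu'⟩
  · have := nn_nonneg (q : A → SL(2, ℝ)); positivity
  · simp only [Function.comp_apply]
    have hK : (0 : ℝ) < 1 + k q := by positivity
    have h1 : (1 + (k q : ℝ)) ^ (2 + 4 * n) ≤ (1 + nn (q : A → SL(2, ℝ))) ^ (2 + 4 * n) :=
      pow_le_pow_left₀ hK.le (by linarith [hk2 q]) _
    have h2 : ∏ e, (1 + |(v q e : ℝ)|) ^ 2 ≤ (3 * M * ((k q : ℝ) + 1) ^ 2) ^ (2 * n) := by
      calc ∏ e, (1 + |(v q e : ℝ)|) ^ 2 ≤ ∏ _e : E, (3 * M * ((k q : ℝ) + 1) ^ 2) ^ 2 := by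
            refine Finset.prod_le_prod (fun e _ => by positivity) fun e _ => ?_
            exact pow_le_pow_left₀ (by positivity) (hvb q e) 2
        _ = (3 * M * ((k q : ℝ) + 1) ^ 2) ^ (2 * n) := by
            rw [Finset.prod_const, Finset.card_univ, ← pow_mul]
    have h3 : 0 < ∏ e, (1 + |(v q e : ℝ)|) ^ 2 := Finset.prod_pos fun e _ => by positivity
    rw [Finset.prod_inv_distrib, ← mul_inv, ← div_eq_mul_inv, inv_le_comm₀ (by
      have := nn_nonneg (q : A → SL(2, ℝ)); positivity) (by positivity), inv_div]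
    refine le_trans ?_ h1
    rw [div_le_iff₀ (by positivity)]
    calc (1 + (k q : ℝ)) ^ 2 * ∏ e, (1 + |(v q e : ℝ)|) ^ 2
        ≤ (1 + (k q : ℝ)) ^ 2 * (3 * M * ((k q : ℝ) + 1) ^ 2) ^ (2 * n) := by gcongr
      _ = (1 + (k q : ℝ)) ^ (2 + 4 * n) * (3 * (M : ℝ)) ^ (2 * n) := by
        rw [mul_pow, ← pow_mul, pow_add, add_comm (k q : ℝ) 1]
        ring_nf

end Pool.Agent.H906.PC
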