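import Pool.Agent.H906.PC.Mob

/-! # Compact quotients of `H^A × ℂ^B` by groups of diagonal automorphisms: definitions

`Dom A B` is the product of the upper half-planes `0 < Im (x i)`, `i ∈ A`, and of `ℂ^B`. The group
`Grp A B = SL(2,ℝ)^A × Aff(ℂ)^B` acts on it coordinate by coordinate. -/

open Filter Topology Matrix
open scoped MatrixGroups ComplexOrder

namespace Pool.Agent.H906.PC

/-- The space `ℂ^A × ℂ^B`. -/
abbrev Pt (A B : Type*) := A ⊕ B → ℂ

/-- The complex manifold `H^A × ℂ^B`, `H` the upper half-plane. -/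
def Dom (A B : Type*) : Set (Pt A B) := {x | ∀ i : A, 0 < (x (Sum.inl i)).im}

/-- The group `SL(2,ℝ)^A × Aff(ℂ)^B`. -/
abbrev Grp (A B : Type*) := (A → SL(2, ℝ)) × (B → (ℂ ≃ᵃ[ℂ] ℂ))

variable {A B : Type*}

/-- The diagonal action: Möbius transformations on `H`, affine transformations on `ℂ`. -/
noncomputable def act (γ : Grp A B) (x : Pt A B) : Pt A B :=
  Sum.elim (fun i => mob (γ.1 i) (x (Sum.inl i))) (fun j => γ.2 j (x (Sum.inr j)))

/-- The derivative of an affine transformation of `ℂ`. -/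
noncomputable def lin (e : ℂ ≃ᵃ[ℂ] ℂ) : ℂ := e.linear 1

/-- The derivatives of the components of `act γ` at `x`. -/
noncomputable def der (γ : Grp A B) (x : Pt A B) : Pt A B :=
  Sum.elim (fun i => 1 / (den (γ.1 i) (x (Sum.inl i))) ^ 2) (fun j => lin (γ.2 j))

theorem aff_apply (e : ℂ ≃ᵃ[ℂ] ℂ) (w : ℂ) : e w = lin e * w + e 0 := by
  have h := e.map_vadd 0 w
  simp only [vadd_eq_add, add_zero] at h
  rw [h]
  congr 1
  have : e.linear w = e.linear (w • (1 : ℂ)) := by simp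
  rw [this, map_smul, smul_eq_mul, lin, mul_comm]

theorem lin_ne_zero (e : ℂ ≃ᵃ[ℂ] ℂ) : lin e ≠ 0 := by
  unfold lin
  intro h
  have := e.linear.map_eq_zero_iff.1 h
  exact one_ne_zero this

theorem lin_mul (e f : ℂ ≃ᵃ[ℂ] ℂ) : lin (e * f) = lin e * lin f := by
  have h0 := aff_apply (e * f) 1
  have h1 : (e * f) 1 = e (f 1) := rfl
  have h2 : (e * f) 0 = e (f 0) := rfl
  rw [h1, h2, aff_apply e (f 1), aff_apply e (f 0), aff_apply f 1] at h0
  linear_combination -h0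

theorem lin_one : lin (1 : ℂ ≃ᵃ[ℂ] ℂ) = 1 := rfl

theorem lin_inv (e : ℂ ≃ᵃ[ℂ] ℂ) : lin e⁻¹ = (lin e)⁻¹ := by
  have := lin_mul e⁻¹ e
  rw [inv_mul_cancel, lin_one] at this
  exact eq_inv_of_mul_eq_one_left this.symm

theorem act_inl (γ : Grp A B) (x : Pt A B) (i : A) :
    act γ x (Sum.inl i) = mob (γ.1 i) (x (Sum.inl i)) := rfl

theorem act_inr (γ : Grp A B) (x : Pt A B) (j : B) :
    act γ x (Sum.inr j) = γ.2 j (x (Sum.inr j)) := rfl

theorem act_mem (γ : Grp A B) {x : Pt A B} (hx : x ∈ Dom A B) : act γ x ∈ Dom A B :=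
  fun i => mob_im_pos (γ.1 i) (hx i)

theorem act_one (x : Pt A B) : act 1 x = x := by
  funext k
  rcases k with i | j
  · exact mob_one _
  · rfl

theorem act_mul (γ δ : Grp A B) {x : Pt A B} (hx : x ∈ Dom A B) :
    act (γ * δ) x = act γ (act δ x) := by
  funext k
  rcases k with i | j
  · exact mob_mul _ _ (hx i)
  · rfl

theorem act_inv_act (γ : Grp A B) {x : Pt A B} (hx : x ∈ Dom A B) :
    act γ⁻¹ (act γ x) = x := by
  rw [← act_mul _ _ hx, inv_mul_cancel, act_one]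

theorem act_act_inv (γ : Grp A B) {x : Pt A B} (hx : x ∈ Dom A B) :
    act γ (act γ⁻¹ x) = x := by
  rw [← act_mul _ _ hx, mul_inv_cancel, act_one]

theorem der_mul (γ δ : Grp A B) {x : Pt A B} (hx : x ∈ Dom A B) (k : A ⊕ B) :
    der (γ * δ) x k = der γ (act δ x) k * der δ x k := by
  rcases k with i | j
  · change 1 / (den (γ.1 i * δ.1 i) (x (Sum.inl i))) ^ 2 =
      1 / (den (γ.1 i) (mob (δ.1 i) (x (Sum.inl i)))) ^ 2 * (1 / (den (δ.1 i) (x (Sum.inl i))) ^ 2)
    rw [den_mul _ _ (hx i)]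
    have h1 := den_ne_zero (δ.1 i) (hx i)
    have h2 := den_ne_zero (γ.1 i) (mob_im_pos (δ.1 i) (hx i))
    field_simp
  · exact lin_mul _ _

theorem der_ne_zero (γ : Grp A B) {x : Pt A B} (hx : x ∈ Dom A B) (k : A ⊕ B) :
    der γ x k ≠ 0 := by
  rcases k with i | j
  · exact one_div_ne_zero (pow_ne_zero 2 (den_ne_zero _ (hx i)))
  · exact lin_ne_zero _

section
variable [Fintype A] [Fintype B]

/-- The Jacobian determinant of `act γ` at `x`. -/
noncomputable def jac (γ : Grp A B) (x : Pt A B) : ℂ := ∏ k, der γ x k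

omit [Fintype B] in
theorem isOpen_dom : IsOpen (Dom A B) := by
  have : Dom A B = ⋂ i : A, {x | 0 < (x (Sum.inl i)).im} := by
    ext x; simp [Dom]
  rw [this]
  exact isOpen_iInter_of_finite fun i =>
    isOpen_lt continuous_const (Complex.continuous_im.comp (continuous_apply _))

/-- The action on `Dom` is properly discontinuous (fixed points are allowed). -/
def ProperlyDiscontinuous (Γ : Subgroup (Grp A B)) : Prop :=
  ∀ K ⊆ Dom A B, IsCompact K → {γ : Grp A B | γ ∈ Γ ∧ (act γ '' K ∩ K).Nonempty}.Finite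

/-- The quotient of `Dom` is compact. -/
def Cocompact (Γ : Subgroup (Grp A B)) : Prop :=
  ∃ K ⊆ Dom A B, IsCompact K ∧ ∀ x ∈ Dom A B, ∃ γ ∈ Γ, act γ x ∈ K

/-- The derivative `∂ f / ∂ x_k = (∂ f / ∂ Re x_k - i ∂ f / ∂ Im x_k) / 2`. -/
noncomputable def wd [DecidableEq (A ⊕ B)] (k : A ⊕ B) (f : Pt A B → ℂ) (x : Pt A B) : ℂ :=
  (fderiv ℝ f x (Pi.single k 1) - Complex.I * fderiv ℝ f x (Pi.single k Complex.I)) / 2

/-- `ω = i ∑ g_{jk} d x_j ∧ d \bar x_k` is a Kähler form on the quotient of `Dom` by `Γ`: the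
matrix `g` is of class `C^1` and positive definite, `ω` is closed and invariant under `Γ`. -/
structure IsKahler [DecidableEq (A ⊕ B)] (Γ : Subgroup (Grp A B))
    (g : Pt A B → Matrix (A ⊕ B) (A ⊕ B) ℂ) : Prop where
  smooth : ∀ i j, ContDiffOn ℝ 1 (fun x => g x i j) (Dom A B)
  pos : ∀ x ∈ Dom A B, (g x).PosDef
  closed : ∀ x ∈ Dom A B, ∀ i j k, wd i (fun y => g y j k) x = wd j (fun y => g y i k) x
  inv : ∀ γ ∈ Γ, ∀ x ∈ Dom A B, ∀ i j,
    g (act γ x) i j * der γ x i * star (der γ x j) = g x i j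

end

end Pool.Agent.H906.PC
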