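import Pool.Agent.H906.PC.Defs

/-! # Discreteness of the projection to the hyperbolic factors -/

open Filter Topology Matrix
open scoped MatrixGroups

namespace Pool.Agent.H906.PC

variable {A B : Type*}

/-- A line of traceless matrices is invariant under the `i`-th component of `Γ`. -/
def HasLine (Γ : Subgroup (Grp A B)) (i : A) : Prop :=
  ∃ X : Mat, X ≠ 0 ∧ X.trace = 0 ∧ ∀ γ ∈ Γ, Par ((γ.1 i).1 * X * ((γ.1 i)⁻¹).1) X

/-- The situation after conjugation: the components `i` with `R i` are upper triangular, and the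
other ones have no invariant line. -/
structure Good [Fintype A] [Fintype B] (Γ : Subgroup (Grp A B)) (R : A → Prop) : Prop where
  pd : ProperlyDiscontinuous Γ
  cc : Cocompact Γ
  tri : ∀ i, R i → ∀ γ ∈ Γ, (γ.1 i).1 1 0 = 0
  noline : ∀ i, ¬ R i → ¬ HasLine Γ i

/-- the projection to the factors without `R` -/
def res (R : A → Prop) : Grp A B →* ({i : A // ¬ R i} → SL(2, ℝ)) where
  toFun γ i := γ.1 i
  map_one' := rfl
  map_mul' _ _ := rfl

/-- the base point -/
noncomputable def base (A B : Type*) : Pt A B := Sum.elim (fun _ => Complex.I) (fun _ => 0)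

theorem base_mem : base A B ∈ Dom A B := fun _ => by simp [base]

theorem continuous_val (i j : Fin 2) : Continuous fun g : SL(2, ℝ) => g.1 i j :=
  (continuous_subtype_val (p := fun M : Mat => M.det = 1)).matrix_elem i j

theorem continuous_den (z : ℂ) : Continuous fun g : SL(2, ℝ) => den g z := by
  have h10 := continuous_val 1 0
  have h11 := continuous_val 1 1
  unfold den
  fun_prop

theorem continuous_mob {z : ℂ} (hz : 0 < z.im) : Continuous fun g : SL(2, ℝ) => mob g z := by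
  have h00 := continuous_val 0 0
  have h01 := continuous_val 0 1
  unfold mob
  exact Continuous.div (by fun_prop) (continuous_den z) fun g => den_ne_zero g hz

theorem closedBall_subset [Fintype A] [Fintype B] :
    Metric.closedBall (base A B) (1 / 2) ⊆ Dom A B := by
  intro x hx i
  have h1 : dist (x (Sum.inl i)) (base A B (Sum.inl i)) ≤ 1 / 2 :=
    (dist_le_pi_dist x (base A B) (Sum.inl i)).trans hx
  have h2 : |(x (Sum.inl i) - Complex.I).im| ≤ 1 / 2 := by
    refine (Complex.abs_im_le_norm _).trans ?_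
    rw [← dist_eq_norm]
    exact h1
  have h3 : (x (Sum.inl i) - Complex.I).im = (x (Sum.inl i)).im - 1 := by simp
  rw [h3, abs_le] at h2
  linarith [h2.1]

/-- Elements acting only on the factors without `R` form a discrete set. -/
theorem disc_two [Fintype A] [Fintype B] {Γ : Subgroup (Grp A B)} (hpd : ProperlyDiscontinuous Γ)
    (R : A → Prop) :
    ∀ᶠ g in 𝓝 (1 : {i : A // ¬ R i} → SL(2, ℝ)),
      g ∈ res R '' {γ : Grp A B | γ ∈ Γ ∧ (∀ i, R i → γ.1 i = 1) ∧ γ.2 = 1} → g = 1 := by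
  classical
  set K := Metric.closedBall (base A B) (1 / 2) with hK
  have hKc : IsCompact K := isCompact_closedBall _ _
  have hS := hpd K closedBall_subset hKc
  set S := {γ : Grp A B | γ ∈ Γ ∧ (act γ '' K ∩ K).Nonempty} with hSdef
  let F : ({i : A // ¬ R i} → SL(2, ℝ)) → Pt A B := fun g =>
    Sum.elim (fun i => if h : ¬ R i then mob (g ⟨i, h⟩) Complex.I else Complex.I) (fun _ => 0)
  have hF : Continuous F := by
    refine continuous_pi fun k => ?_
    rcases k with i | j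
    · by_cases h : ¬ R i
      · have : (fun g => F g (Sum.inl i)) = fun g => mob (g ⟨i, h⟩) Complex.I := by
          funext g; simp only [F, Sum.elim_inl]; rw [dif_pos h]
        rw [this]
        exact (continuous_mob (by simp)).comp (continuous_apply _)
      · have : (fun g => F g (Sum.inl i)) = fun g => Complex.I := by
          funext g; simp only [F, Sum.elim_inl]; rw [dif_neg h]
        rw [this]
        exact continuous_const
    · exact continuous_const
  have hF1 : F 1 = base A B := by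
    funext k
    rcases k with i | j
    · by_cases h : ¬ R i
      · simp only [F, Sum.elim_inl, base]; rw [dif_pos h]; exact mob_one _
      · simp only [F, Sum.elim_inl, base]; rw [dif_neg h]
    · rfl
  have hV : ∀ᶠ g in 𝓝 (1 : {i : A // ¬ R i} → SL(2, ℝ)), F g ∈ K := by
    have : K ∈ 𝓝 (F 1) := by
      rw [hF1]; exact Metric.closedBall_mem_nhds _ (by norm_num)
    exact hF.continuousAt.eventually this
  have hW : ∀ᶠ g in 𝓝 (1 : {i : A // ¬ R i} → SL(2, ℝ)), g ∉ (res R '' S) \ {1} := by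
    have hfin : ((res R '' S) \ {1}).Finite := (hS.image _).subset Set.sdiff_subset
    exact hfin.isClosed.isOpen_compl.mem_nhds (by simp)
  filter_upwards [hV, hW] with g h1 h2 h3
  obtain ⟨γ, ⟨hγ, hR, h2'⟩, rfl⟩ := h3
  by_contra hne
  apply h2
  refine ⟨⟨γ, ⟨hγ, ⟨F (res R γ), ⟨base A B, Metric.mem_closedBall_self (by norm_num), ?_⟩, h1⟩⟩,
    rfl⟩, hne⟩
  funext k
  rcases k with i | j
  · by_cases h : ¬ R i
    · simp only [F, Sum.elim_inl, act_inl, base]; rw [dif_pos h]; rfl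
    · have h' : R i := not_not.1 h
      simp only [F, Sum.elim_inl, act_inl, base]; rw [dif_neg h, hR i h']; exact mob_one _
  · simp only [F, Sum.elim_inr, act_inr, base, h2']; rfl

/-- upper triangular with diagonal entries of square one -/
theorem comm_of_unip {g h : SL(2, ℝ)} (hg : g.1 1 0 = 0) (hh : h.1 1 0 = 0)
    (hg2 : g.1 0 0 ^ 2 = 1) (hh2 : h.1 0 0 ^ 2 = 1) : g * h = h * g := by
  have dg := det_eq g
  have dh := det_eq h
  rw [hg] at dg
  rw [hh] at dh
  have eg : g.1 1 1 = g.1 0 0 := by linear_combination g.1 0 0 * dg - g.1 1 1 * hg2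
  have eh : h.1 1 1 = h.1 0 0 := by linear_combination h.1 0 0 * dh - h.1 1 1 * hh2
  apply Subtype.ext
  ext i j
  rw [coe_mul_apply, coe_mul_apply]
  fin_cases i <;> fin_cases j
  · simp only [Fin.zero_eta, Fin.isValue]
    rw [hg, hh]; ring
  · simp only [Fin.zero_eta, Fin.mk_one, Fin.isValue]
    rw [eg, eh]; ring
  · simp only [Fin.zero_eta, Fin.mk_one, Fin.isValue]
    rw [hg, hh]; ring
  · simp only [Fin.mk_one, Fin.isValue]
    rw [hg, hh]; ring

theorem inv_10 {g : SL(2, ℝ)} (hg : g.1 1 0 = 0) : (g⁻¹).1 1 0 = 0 := by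
  have : (g⁻¹).1 = g.1.adjugate := rfl
  rw [this, Matrix.adjugate_fin_two]
  simp [hg]

theorem inv_00 (g : SL(2, ℝ)) : (g⁻¹).1 0 0 = g.1 1 1 := by
  have : (g⁻¹).1 = g.1.adjugate := rfl
  rw [this, Matrix.adjugate_fin_two]
  simp

theorem mul_10 {g h : SL(2, ℝ)} (hg : g.1 1 0 = 0) (hh : h.1 1 0 = 0) : (g * h).1 1 0 = 0 := by
  rw [coe_mul_apply, hg, hh]; ring

theorem mul_00 {g h : SL(2, ℝ)} (hh : h.1 1 0 = 0) :
    (g * h).1 0 0 = g.1 0 0 * h.1 0 0 := by
  rw [coe_mul_apply, hh]; ring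

/-- elements with trivial dilations -/
def Unip (R : A → Prop) (Γ : Subgroup (Grp A B)) : Set (Grp A B) :=
  {γ | γ ∈ Γ ∧ (∀ i, R i → (γ.1 i).1 0 0 ^ 2 = 1) ∧ ∀ j, lin (γ.2 j) = 1}

theorem aff_comm {e f : ℂ ≃ᵃ[ℂ] ℂ} (he : lin e = 1) (hf : lin f = 1) : e * f = f * e := by
  ext w
  have h1 : (e * f) w = e (f w) := rfl
  have h2 : (f * e) w = f (e w) := rfl
  rw [h1, h2, aff_apply e (f w), aff_apply f w, aff_apply f (e w), aff_apply e w, he, hf]
  ring

theorem cm_mem {G : Type*} [Group G] (Γ : Subgroup G) {g h : G} (hg : g ∈ Γ) (hh : h ∈ Γ) :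
    cm g h ∈ Γ := Γ.mul_mem (Γ.mul_mem (Γ.mul_mem hg hh) (Γ.inv_mem hg)) (Γ.inv_mem hh)

theorem cm_one_of_comm {G : Type*} [Group G] {g h : G} (hc : g * h = h * g) : cm g h = 1 := by
  unfold cm
  rw [hc]; group

theorem unip_conj [Fintype A] [Fintype B] {Γ : Subgroup (Grp A B)} {R : A → Prop} (hG : Good Γ R)
    {h x : Grp A B} (hh : h ∈ Γ) (hx : x ∈ Unip R Γ) : h * x * h⁻¹ ∈ Unip R Γ := by
  obtain ⟨hx1, hx2, hx3⟩ := hx
  refine ⟨Γ.mul_mem (Γ.mul_mem hh hx1) (Γ.inv_mem hh), fun i hi => ?_, fun j => ?_⟩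
  · have t1 := hG.tri i hi h hh
    have t2 := hG.tri i hi x hx1
    have d := det_eq (h.1 i)
    rw [t1] at d
    change ((h.1 i * x.1 i * (h.1 i)⁻¹ : SL(2, ℝ))).1 0 0 ^ 2 = 1
    rw [mul_00 (inv_10 t1), mul_00 t2, inv_00]
    have e : (h.1 i).1 0 0 * (h.1 i).1 1 1 = 1 := by linarith
    calc _ = ((h.1 i).1 0 0 * (h.1 i).1 1 1) ^ 2 * (x.1 i).1 0 0 ^ 2 := by ring
      _ = 1 := by rw [e, hx2 i hi]; norm_num
  · change lin (h.2 j * x.2 j * (h.2 j)⁻¹) = 1
    rw [lin_mul, lin_mul, lin_inv, hx3 j]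
    have := lin_ne_zero (h.2 j)
    field_simp

theorem cm_mem_unip [Fintype A] [Fintype B] {Γ : Subgroup (Grp A B)} {R : A → Prop} (hG : Good Γ R)
    {h x : Grp A B} (hh : h ∈ Γ) (hx : x ∈ Γ) : cm h x ∈ Unip R Γ := by
  refine ⟨cm_mem Γ hh hx, fun i hi => ?_, fun j => ?_⟩
  · have t1 := hG.tri i hi h hh
    have t2 := hG.tri i hi x hx
    have d := det_eq (h.1 i)
    have d2 := det_eq (x.1 i)
    rw [t1] at d
    rw [t2] at d2
    change ((h.1 i * x.1 i * (h.1 i)⁻¹ * (x.1 i)⁻¹ : SL(2, ℝ))).1 0 0 ^ 2 = 1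
    rw [mul_00 (inv_10 t2), mul_00 (inv_10 t1), mul_00 t2, inv_00, inv_00]
    have e : (h.1 i).1 0 0 * (h.1 i).1 1 1 = 1 := by linarith
    have e2 : (x.1 i).1 0 0 * (x.1 i).1 1 1 = 1 := by linarith
    calc _ = ((h.1 i).1 0 0 * (h.1 i).1 1 1) ^ 2 * ((x.1 i).1 0 0 * (x.1 i).1 1 1) ^ 2 := by ring
      _ = 1 := by rw [e, e2]; norm_num
  · change lin (h.2 j * x.2 j * (h.2 j)⁻¹ * (x.2 j)⁻¹) = 1
    rw [lin_mul, lin_mul, lin_mul, lin_inv, lin_inv]
    have := lin_ne_zero (h.2 j)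
    have := lin_ne_zero (x.2 j)
    field_simp

/-- The projection of `Γ` to the factors without `R` is discrete. -/
theorem disc [Fintype A] [Fintype B] {Γ : Subgroup (Grp A B)} {R : A → Prop} (hG : Good Γ R) :
    ∀ᶠ g in 𝓝 (1 : {i : A // ¬ R i} → SL(2, ℝ)), g ∈ res R '' (Γ : Set (Grp A B)) → g = 1 := by
  apply discrete_of _ (res R '' (Unip R Γ)) _ ?_ ?_ (disc_two hG.pd R) ?_
  · rintro _ ⟨h, hh, rfl⟩ _ ⟨x, hx, rfl⟩
    have hc := unip_conj hG hh hx
    refine ⟨cm (h * x * h⁻¹) x, ⟨cm_mem Γ hc.1 hx.1, fun i hi => ?_, ?_⟩, ?_⟩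
    · exact cm_one_of_comm (comm_of_unip (hG.tri i hi _ hc.1) (hG.tri i hi _ hx.1)
        (hc.2.1 i hi) (hx.2.1 i hi))
    · funext j
      exact cm_one_of_comm (aff_comm (hc.2.2 j) (hx.2.2 j))
    · simp [cm]
  · rintro _ ⟨h, hh, rfl⟩ _ ⟨x, hx, rfl⟩
    exact ⟨cm h x, cm_mem_unip hG hh hx, by simp [cm]⟩
  · rintro ⟨i, hi⟩ ⟨X, h1, h2, h3⟩
    exact hG.noline i hi ⟨X, h1, h2, fun γ hγ => h3 _ ⟨γ, hγ, rfl⟩⟩

end Pool.Agent.H906.PC
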