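import Pool.Agent.H906.PC.Main

/-! # Groups which act diagonally up to finite index -/

open Filter Topology Matrix
open scoped MatrixGroups Classical ComplexOrder

namespace Pool.Agent.H906.PC

variable {A B : Type*} [Fintype A] [Fintype B]

/-- An action of `Δ` on `Dom = H^A × ℂ^B` by holomorphic transformations. -/
structure HolAction {Δ : Type*} [Group Δ] (ρ : Δ → Pt A B → Pt A B) : Prop where
  maps : ∀ δ, ∀ x ∈ Dom A B, ρ δ x ∈ Dom A B
  one : ∀ x ∈ Dom A B, ρ 1 x = x
  mul : ∀ δ ε, ∀ x ∈ Dom A B, ρ (δ * ε) x = ρ δ (ρ ε x)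
  hol : ∀ δ, DifferentiableOn ℂ (ρ δ) (Dom A B)

/-- The Jacobian matrix of a map. -/
noncomputable def Jm (f : Pt A B → Pt A B) (x : Pt A B) : Matrix (A ⊕ B) (A ⊕ B) ℂ :=
  Matrix.of fun k i => fderiv ℂ f x (Pi.single i 1) k

/-- A Kähler form `i ∑ g_{jk} d x_j ∧ d \bar x_k` on `Dom`: the matrix is of class `C^1` and
positive definite, and the form is closed. -/
structure IsKahlerForm (g : Pt A B → Matrix (A ⊕ B) (A ⊕ B) ℂ) : Prop where
  smooth : ∀ i j, ContDiffOn ℝ 1 (fun x => g x i j) (Dom A B)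
  pos : ∀ x ∈ Dom A B, (g x).PosDef
  closed : ∀ x ∈ Dom A B, ∀ i j k, wd i (fun y => g y j k) x = wd j (fun y => g y i k) x

/-- a global section of the `l`-th power of the canonical bundle of `Dom / Δ` -/
def IsPluri {Δ : Type*} (ρ : Δ → Pt A B → Pt A B) (l : ℕ) (F : Pt A B → ℂ) : Prop :=
  DifferentiableOn ℂ F (Dom A B) ∧
    ∀ δ, ∀ y ∈ Dom A B, F (ρ δ y) * (Jm (ρ δ) y).det ^ l = F y

section
variable {Δ : Type*} [Group Δ] {ρ : Δ → Pt A B → Pt A B}

theorem hasFDerivAt_act' (h : Grp A B) {x : Pt A B} (hx : x ∈ Dom A B) :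
    HasFDerivAt (𝕜 := ℂ) (act h) (ContinuousLinearMap.pi fun k =>
      ((ContinuousLinearMap.mul ℂ ℂ (der h x k)).comp (ContinuousLinearMap.proj k))) x := by
  rw [hasFDerivAt_pi]
  intro k
  have h1 : HasFDerivAt (comp1 h k) (ContinuousLinearMap.mul ℂ ℂ (der h x k)) (x k) := by
    have := (hasDerivAt_comp1 h hx k).hasFDerivAt
    have e : ContinuousLinearMap.toSpanSingleton ℂ (der h x k) =
        ContinuousLinearMap.mul ℂ ℂ (der h x k) := by
      ext; simp
    rw [← e]; exact this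
  have h3 : HasFDerivAt (𝕜 := ℂ) (fun y : Pt A B => y k) (ContinuousLinearMap.proj k) x :=
    hasFDerivAt_apply k x
  have h2 := HasFDerivAt.comp (g := comp1 h k) x h1 h3
  refine h2.congr_of_eventuallyEq (Eventually.of_forall fun y => ?_)
  exact act_apply h y k

theorem Jm_act (h : Grp A B) {x : Pt A B} (hx : x ∈ Dom A B) :
    Jm (act h) x = Matrix.diagonal (der h x) := by
  ext k i
  rw [Jm, Matrix.of_apply, (hasFDerivAt_act' h hx).fderiv]
  by_cases hik : k = i
  · subst hik; simp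
  · simp [hik]

theorem Jm_congr {f g : Pt A B → Pt A B} (hfg : ∀ x ∈ Dom A B, f x = g x) {x : Pt A B}
    (hx : x ∈ Dom A B) : Jm f x = Jm g x := by
  have : fderiv ℂ f x = fderiv ℂ g x := by
    apply Filter.EventuallyEq.fderiv_eq
    filter_upwards [isOpen_dom.mem_nhds hx] with y hy
    exact hfg y hy
  unfold Jm
  rw [this]

theorem Jm_comp {f g : Pt A B → Pt A B} {x : Pt A B} (hg : DifferentiableAt ℂ g x)
    (hf : DifferentiableAt ℂ f (g x)) : Jm (fun y => f (g y)) x = Jm f (g x) * Jm g x := by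
  have h1 : fderiv ℂ (fun y => f (g y)) x = (fderiv ℂ f (g x)).comp (fderiv ℂ g x) :=
    fderiv_fun_comp x hf hg
  ext k i
  rw [Jm, Matrix.of_apply, h1, ContinuousLinearMap.comp_apply, Matrix.mul_apply]
  have h2 : fderiv ℂ g x (Pi.single i 1) = ∑ j, (fderiv ℂ g x (Pi.single i 1) j) •
      (Pi.single j (1 : ℂ) : Pt A B) := by
    funext l
    simp [Finset.sum_apply, Pi.single_apply]
  rw [h2, map_sum, Finset.sum_apply]
  refine Finset.sum_congr rfl fun j _ => ?_
  rw [map_smul, Pi.smul_apply, smul_eq_mul, mul_comm]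
  rfl

theorem HolAction.diff (hρ : HolAction ρ) (δ : Δ) {x : Pt A B} (hx : x ∈ Dom A B) :
    DifferentiableAt ℂ (ρ δ) x := (hρ.hol δ).differentiableAt (isOpen_dom.mem_nhds hx)

theorem HolAction.Jm_mul (hρ : HolAction ρ) (δ ε : Δ) {x : Pt A B} (hx : x ∈ Dom A B) :
    Jm (ρ (δ * ε)) x = Jm (ρ δ) (ρ ε x) * Jm (ρ ε) x := by
  rw [Jm_congr (fun y hy => hρ.mul δ ε y hy) hx]
  exact Jm_comp (hρ.diff ε hx) (hρ.diff δ (hρ.maps ε x hx))

theorem HolAction.det_ne_zero (hρ : HolAction ρ) (δ : Δ) {x : Pt A B} (hx : x ∈ Dom A B) :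
    (Jm (ρ δ) x).det ≠ 0 := by
  have h1 := hρ.Jm_mul δ⁻¹ δ hx
  rw [inv_mul_cancel] at h1
  have h2 : Jm (ρ 1) x = 1 := by
    rw [Jm_congr (g := fun y => y) (fun y hy => hρ.one y hy) hx]
    ext k i
    rw [Jm, Matrix.of_apply, fderiv_fun_id]
    by_cases hik : k = i
    · subst hik; simp
    · simp [hik]
  rw [h2] at h1
  have h3 := congrArg Matrix.det h1
  rw [Matrix.det_one, Matrix.det_mul] at h3
  exact right_ne_zero_of_mul (h3 ▸ one_ne_zero)

/-- the group of the diagonal transformations -/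
def diagGroup (hρ : HolAction ρ) (Δ0 : Subgroup Δ) : Subgroup (Grp A B) where
  carrier := {γ | ∃ δ ∈ Δ0, ∀ x ∈ Dom A B, ρ δ x = act γ x}
  mul_mem' := by
    rintro a b ⟨δ, hδ, h1⟩ ⟨ε, hε, h2⟩
    refine ⟨δ * ε, Δ0.mul_mem hδ hε, fun x hx => ?_⟩
    rw [hρ.mul δ ε x hx, h2 x hx, h1 _ (act_mem _ hx), act_mul _ _ hx]
  one_mem' := ⟨1, Δ0.one_mem, fun x hx => by rw [hρ.one x hx, act_one]⟩
  inv_mem' := by
    rintro a ⟨δ, hδ, h1⟩
    refine ⟨δ⁻¹, Δ0.inv_mem hδ, fun x hx => ?_⟩
    have h2 : ρ δ⁻¹ (ρ δ (act a⁻¹ x)) = act a⁻¹ x := by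
      rw [← hρ.mul _ _ _ (act_mem _ hx), inv_mul_cancel, hρ.one _ (act_mem _ hx)]
    rw [h1 _ (act_mem _ hx), act_act_inv _ hx] at h2
    exact h2

/-- the kernel of the diagonal action is finite -/
theorem kernel_finite : {γ : Grp A B | ∀ x ∈ Dom A B, act γ x = x}.Finite := by
  have h1 : ∀ γ : Grp A B, (∀ x ∈ Dom A B, act γ x = x) →
      (∀ i, γ.1 i = 1 ∨ γ.1 i = -1) ∧ γ.2 = 1 := by
    intro γ hγ
    constructor
    · intro i
      have key : ∀ t : ℝ, 0 < t → mob (γ.1 i) (t * Complex.I) = t * Complex.I := by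
        intro t ht
        have hx : Function.update (base A B) (Sum.inl i) ((t : ℂ) * Complex.I) ∈ Dom A B := by
          intro i'
          by_cases h' : i' = i
          · subst h'; simpa using ht
          · have : Function.update (base A B) (Sum.inl i) ((t : ℂ) * Complex.I) (Sum.inl i') =
                Complex.I := by
              rw [Function.update_of_ne (by simpa using h')]; rfl
            rw [this]; simp
        have h2 := congrFun (hγ _ hx) (Sum.inl i)
        rw [act_inl, Function.update_self] at h2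
        exact h2
      have hden : ∀ t : ℝ, 0 < t → ((γ.1 i).1 0 0 : ℂ) * (t * Complex.I) + (γ.1 i).1 0 1 =
          (t * Complex.I) * (((γ.1 i).1 1 0 : ℂ) * (t * Complex.I) + (γ.1 i).1 1 1) := by
        intro t ht
        have h3 := key t ht
        have h4 : den (γ.1 i) (t * Complex.I) ≠ 0 := den_ne_zero _ (by simpa using ht)
        unfold mob at h3
        rw [div_eq_iff h4] at h3
        exact h3
      have a1 := congrArg Complex.re (hden 1 one_pos)
      have a2 := congrArg Complex.im (hden 1 one_pos)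
      have a3 := congrArg Complex.re (hden 2 two_pos)
      simp at a1 a2 a3
      have hc : (γ.1 i).1 1 0 = 0 := by linarith
      have hb : (γ.1 i).1 0 1 = 0 := by linarith
      have d := det_eq (γ.1 i)
      rw [hb, a2] at d
      have h5 : ((γ.1 i).1 1 1 - 1) * ((γ.1 i).1 1 1 + 1) = 0 := by linarith
      rcases mul_eq_zero.1 h5 with h6 | h6
      · left
        ext a b
        fin_cases a <;> fin_cases b <;> simp [hb, hc] <;> linarith
      · right
        ext a b
        fin_cases a <;> fin_cases b <;> simp [hb, hc] <;> linarith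
    · funext j
      ext w
      have hx : Function.update (base A B) (Sum.inr j) w ∈ Dom A B := by
        intro i'
        have : Function.update (base A B) (Sum.inr j) w (Sum.inl i') = Complex.I := by
          rw [Function.update_of_ne (by simp)]; rfl
        rw [this]; simp
      have h2 := congrFun (hγ _ hx) (Sum.inr j)
      rw [act_inr, Function.update_self] at h2
      exact h2
  have hfin : (Set.univ.pi fun _ : A => ({1, -1} : Set SL(2, ℝ))).Finite :=
    Set.Finite.pi fun _ => Set.toFinite _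
  refine (hfin.prod (Set.finite_singleton (1 : B → (ℂ ≃ᵃ[ℂ] ℂ)))).subset ?_
  intro γ hγ
  obtain ⟨h2, h3⟩ := h1 γ hγ
  refine ⟨fun i _ => ?_, h3⟩
  rcases h2 i with h | h
  · left; exact h
  · right; exact h

end

end Pool.Agent.H906.PC
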