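import Pool.Agent.H906.PC.Series

/-! # Partial derivatives of holomorphic functions of several variables are holomorphic -/

open Filter Topology Set MeasureTheory
open scoped Real

namespace Pool.Agent.H906.PC

variable {E : Type*} [NormedAddCommGroup E] [NormedSpace ℂ E]

theorem holo_bound {f : E → ℂ} {U : Set E} (hU : IsOpen U) (hf : DifferentiableOn ℂ f U)
    {x : E} (hx : x ∈ U) : ∃ r > 0, ∃ M, Metric.ball x r ⊆ U ∧
      ∀ y ∈ Metric.ball x r, ‖f y‖ ≤ M := by
  have h1 : ∀ᶠ y in 𝓝 x, y ∈ U ∧ ‖f y‖ < ‖f x‖ + 1 := by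
    refine Filter.Eventually.and (hU.mem_nhds hx) ?_
    have h2 : ContinuousAt (fun y => ‖f y‖) x :=
      ((hf.differentiableAt (hU.mem_nhds hx)).continuousAt).norm
    exact h2.eventually (gt_mem_nhds (by linarith))
  obtain ⟨r, hr, h2⟩ := Metric.eventually_nhds_iff_ball.1 h1
  exact ⟨r, hr, ‖f x‖ + 1, fun y hy => (h2 y hy).1, fun y hy => (h2 y hy).2.le⟩

theorem fderiv_cont {f : E → ℂ} {U : Set E} (hU : IsOpen U) (hf : DifferentiableOn ℂ f U) :
    ContinuousOn (fderiv ℂ f) U := by
  intro x hx
  refine ContinuousAt.continuousWithinAt ?_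
  obtain ⟨r, hr, M, hrU, hM⟩ := holo_bound hU hf hx
  have hM0 : 0 ≤ M := (norm_nonneg _).trans (hM x (Metric.mem_ball_self hr))
  have hfb : DifferentiableOn ℂ f (Metric.ball x r) := hf.mono hrU
  -- Lipschitz on the half ball
  have hL : ∀ y ∈ Metric.ball x (r / 2), ∀ z ∈ Metric.ball x (r / 2),
      ‖f z - f y‖ ≤ M * (4 / r) * ‖z - y‖ := by
    intro y hy z hz
    refine Convex.norm_image_sub_le_of_norm_fderiv_le (𝕜 := ℂ) (fun w hw => ?_)
      (fun w hw => cauchy_bound hr hfb hM w hw) (convex_ball x (r / 2)) hy hz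
    exact hfb.differentiableAt (Metric.isOpen_ball.mem_nhds
      (Metric.ball_subset_ball (by linarith) hw))
  rw [Metric.continuousAt_iff]
  intro ε hε
  set L := M * (4 / r) with hLdef
  have hL0 : 0 ≤ L := by positivity
  refine ⟨min (r / 4) (ε / (L * (16 / r) + 1)), by positivity, fun {y} hy => ?_⟩
  have hy1 : dist y x < r / 4 := hy.trans_le (min_le_left _ _)
  have hy2 : dist y x < ε / (L * (16 / r) + 1) := hy.trans_le (min_le_right _ _)
  set v := y - x with hv
  have hvn : ‖v‖ = dist y x := by rw [dist_eq_norm]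
  have hmem : ∀ z ∈ Metric.ball x (r / 4), z + v ∈ Metric.ball x (r / 2) := by
    intro z hz
    rw [Metric.mem_ball, dist_eq_norm] at hz ⊢
    have : z + v - x = (z - x) + v := by abel
    rw [this]
    have := norm_add_le (z - x) v
    rw [hvn] at this
    linarith
  have hsub : Metric.ball x (r / 4) ⊆ Metric.ball x r := Metric.ball_subset_ball (by linarith)
  have hsub2 : Metric.ball x (r / 2) ⊆ Metric.ball x r := Metric.ball_subset_ball (by linarith)
  have hdiffv : ∀ z ∈ Metric.ball x (r / 4), HasFDerivAt (𝕜 := ℂ) (fun z => f (z + v))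
      (fderiv ℂ f (z + v)) z := by
    intro z hz
    have h1 := (hfb.differentiableAt (Metric.isOpen_ball.mem_nhds
      (hsub2 (hmem z hz)))).hasFDerivAt
    have h2 := h1.comp z ((hasFDerivAt_id z).add_const v)
    rw [ContinuousLinearMap.comp_id] at h2
    exact h2
  have hdiff0 : ∀ z ∈ Metric.ball x (r / 4), HasFDerivAt (𝕜 := ℂ) f (fderiv ℂ f z) z := by
    intro z hz
    exact (hfb.differentiableAt (Metric.isOpen_ball.mem_nhds (hsub hz))).hasFDerivAt
  have hx4 : x ∈ Metric.ball x (r / 4) := Metric.mem_ball_self (by positivity)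
  have h3 := cauchy_bound (f := fun z => f (z + v) - f z) (x0 := x) (ρ := r / 4)
    (M := L * ‖v‖) (by positivity)
    (fun z hz => ((hdiffv z hz).sub (hdiff0 z hz)).differentiableAt.differentiableWithinAt)
    (fun z hz => by
      have := hL z (Metric.ball_subset_ball (by linarith) hz) (z + v) (hmem z hz)
      simpa using this) x (Metric.mem_ball_self (by positivity))
  have h3' : HasFDerivAt (𝕜 := ℂ) (fun z => f (z + v) - f z)
      (fderiv ℂ f (x + v) - fderiv ℂ f x) x := (hdiffv x hx4).sub (hdiff0 x hx4)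
  rw [h3'.fderiv] at h3
  have h4 : x + v = y := by rw [hv]; abel
  rw [h4] at h3
  rw [dist_eq_norm]
  have h5 : L * ‖v‖ * (4 / (r / 4)) = (L * (16 / r)) * dist y x := by
    rw [hvn]; field_simp; ring
  rw [h5] at h3
  have h6 : (L * (16 / r) + 1) * dist y x < ε := by
    rw [lt_div_iff₀ (by positivity)] at hy2
    linarith
  have h7 : 0 ≤ dist y x := dist_nonneg
  linarith

theorem fderiv_apply_diff {f : E → ℂ} {U : Set E} (hU : IsOpen U) (hf : DifferentiableOn ℂ f U)
    (e : E) : DifferentiableOn ℂ (fun x => fderiv ℂ f x e) U := by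
  intro x0 hx0
  refine DifferentiableAt.differentiableWithinAt ?_
  obtain ⟨r, hr, M, hrU, hM⟩ := holo_bound hU hf hx0
  have hM0 : 0 ≤ M := (norm_nonneg _).trans (hM x0 (Metric.mem_ball_self hr))
  have hfb : DifferentiableOn ℂ f (Metric.ball x0 r) := hf.mono hrU
  have hcont := fderiv_cont Metric.isOpen_ball hfb
  set R := r / (4 * (‖e‖ + 1)) with hR
  have hR0 : 0 < R := by positivity
  have hRe : R * ‖e‖ ≤ r / 4 := by
    have h1 : R * (‖e‖ + 1) = r / 4 := by rw [hR]; field_simp
    nlinarith [norm_nonneg e]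
  have hmem : ∀ x ∈ Metric.ball x0 (r / 4), ∀ ζ ∈ Metric.closedBall (0 : ℂ) R,
      x + ζ • e ∈ Metric.ball x0 (r / 2) := by
    intro x hx ζ hζ
    rw [mem_closedBall_zero_iff] at hζ
    rw [Metric.mem_ball, dist_eq_norm] at hx ⊢
    have h1 : x + ζ • e - x0 = (x - x0) + ζ • e := by abel
    rw [h1]
    have h2 := norm_add_le (x - x0) (ζ • e)
    have h3 : ‖ζ • e‖ ≤ r / 4 := by
      rw [norm_smul]
      exact (mul_le_mul_of_nonneg_right hζ (norm_nonneg e)).trans hRe
    linarith
  have hsub2 : Metric.ball x0 (r / 2) ⊆ Metric.ball x0 r := Metric.ball_subset_ball (by linarith)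
  set c : ℝ → ℂ := fun θ => (2 * π * Complex.I : ℂ)⁻¹ * (deriv (circleMap 0 R) θ *
    ((circleMap 0 R θ - 0) ^ 2)⁻¹) with hc
  have hcne : ∀ θ, circleMap 0 R θ - 0 ≠ 0 := fun θ => by
    rw [sub_zero]; exact circleMap_ne_center hR0.ne'
  have hccont : Continuous c := by
    rw [hc]
    refine continuous_const.mul (Continuous.mul ?_ ?_)
    · have : deriv (circleMap (0 : ℂ) R) = fun θ => circleMap 0 R θ * Complex.I := by
        funext θ; exact deriv_circleMap 0 R θ
      rw [this]
      exact (continuous_circleMap 0 R).mul continuous_const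
    · exact (((continuous_circleMap 0 R).sub continuous_const).pow 2).inv₀
        fun θ => pow_ne_zero 2 (hcne θ)
  have hζmem : ∀ θ, circleMap 0 R θ ∈ Metric.closedBall (0 : ℂ) R := fun θ =>
    circleMap_mem_closedBall 0 hR0.le θ
  have hball : Metric.ball x0 (r / 4) ∈ 𝓝 x0 := Metric.ball_mem_nhds x0 (by positivity)
  have hpath : ∀ x : E, Continuous fun θ : ℝ => x + circleMap 0 R θ • e := fun x =>
    continuous_const.add ((continuous_circleMap 0 R).smul continuous_const)
  have hFcont : ∀ x ∈ Metric.ball x0 (r / 4),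
      Continuous fun θ : ℝ => c θ * f (x + circleMap 0 R θ • e) := by
    intro x hx
    refine hccont.mul ?_
    exact hfb.continuousOn.comp_continuous (hpath x) fun θ => hsub2 (hmem x hx _ (hζmem θ))
  have hF'cont : ∀ x ∈ Metric.ball x0 (r / 4),
      Continuous fun θ : ℝ => c θ • fderiv ℂ f (x + circleMap 0 R θ • e) := by
    intro x hx
    refine hccont.smul ?_
    exact hcont.comp_continuous (hpath x) fun θ => hsub2 (hmem x hx _ (hζmem θ))
  have key : HasFDerivAt (𝕜 := ℂ)
      (fun x => ∫ θ in (0 : ℝ)..2 * π, c θ * f (x + circleMap 0 R θ • e))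
      (∫ θ in (0 : ℝ)..2 * π, c θ • fderiv ℂ f (x0 + circleMap 0 R θ • e)) x0 := by
    refine intervalIntegral.hasFDerivAt_integral_of_dominated_of_fderiv_le
      (F' := fun x θ => c θ • fderiv ℂ f (x + circleMap 0 R θ • e))
      (bound := fun θ => ‖c θ‖ * (M * (4 / r))) hball ?_ ?_ ?_ ?_ ?_ ?_
    · filter_upwards [hball] with x hx
      exact (hFcont x hx).aestronglyMeasurable
    · exact (hFcont x0 (Metric.mem_ball_self (by positivity))).intervalIntegrable _ _
    · exact (hF'cont x0 (Metric.mem_ball_self (by positivity))).aestronglyMeasurable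
    · refine Eventually.of_forall fun θ _ x hx => ?_
      rw [norm_smul]
      exact mul_le_mul_of_nonneg_left (cauchy_bound hr hfb hM _ (hmem x hx _ (hζmem θ)))
        (norm_nonneg _)
    · exact (hccont.norm.mul continuous_const).intervalIntegrable _ _
    · refine Eventually.of_forall fun θ _ x hx => ?_
      have h1 := (hfb.differentiableAt (Metric.isOpen_ball.mem_nhds
        (hsub2 (hmem x hx _ (hζmem θ))))).hasFDerivAt
      have h2 := h1.comp x ((hasFDerivAt_id x).add_const (circleMap 0 R θ • e))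
      have h3 := h2.const_smul (c θ)
      rw [ContinuousLinearMap.comp_id] at h3
      exact h3
  refine (key.congr_of_eventuallyEq ?_).differentiableAt
  filter_upwards [hball] with x hx
  -- Cauchy formula for the derivative
  set U' : Set ℂ := {ζ | x + ζ • e ∈ Metric.ball x0 r} with hU'
  have hline : ∀ t : ℂ, HasDerivAt (fun t : ℂ => x + t • e) e t := fun t => by
    simpa using ((hasDerivAt_id t).smul_const e).const_add x
  have hU'o : IsOpen U' := Metric.isOpen_ball.preimage
    (continuous_const.add (continuous_id.smul continuous_const))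
  have hd : ∀ t ∈ U', HasDerivAt (fun t : ℂ => f (x + t • e)) (fderiv ℂ f (x + t • e) e) t := by
    intro t ht
    exact ((hfb.differentiableAt (Metric.isOpen_ball.mem_nhds ht)).hasFDerivAt).comp_hasDerivAt
      t (hline t)
  have h1 := Complex.cderiv_eq_deriv (f := fun t : ℂ => f (x + t • e)) (z := 0) (r := R) hU'o
    (fun t ht => (hd t ht).differentiableAt.differentiableWithinAt) hR0
    (fun t ht => hsub2 (hmem x hx t ht))
  have h0 : (0 : ℂ) ∈ U' := hsub2 (hmem x hx 0 (Metric.mem_closedBall_self hR0.le))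
  rw [(hd 0 h0).deriv, zero_smul, add_zero] at h1
  rw [← h1, Complex.cderiv, circleIntegral, smul_eq_mul, ← intervalIntegral.integral_const_mul]
  refine intervalIntegral.integral_congr fun θ _ => ?_
  simp only [hc, smul_eq_mul]
  ring

end Pool.Agent.H906.PC
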