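import Pool.Agent.H906.PC.Ext
import Pool.Agent.H906.PC.Osg

/-! # Groups which act diagonally up to finite index: reduction to the diagonal case -/

set_option linter.unusedSectionVars false

open Filter Topology Matrix
open scoped MatrixGroups Classical ComplexOrder

namespace Pool.Agent.H906.PC

variable {A B : Type*} [Fintype A] [Fintype B]
variable {Δ : Type*} [Group Δ] {ρ : Δ → Pt A B → Pt A B}

/-- the action on `Dom` is properly discontinuous -/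
def PDAction (ρ : Δ → Pt A B → Pt A B) : Prop :=
  ∀ K ⊆ Dom A B, IsCompact K → {δ : Δ | (ρ δ '' K ∩ K).Nonempty}.Finite

/-- the quotient of `Dom` is compact -/
def CCAction (ρ : Δ → Pt A B → Pt A B) : Prop :=
  ∃ K ⊆ Dom A B, IsCompact K ∧ ∀ x ∈ Dom A B, ∃ δ, ρ δ x ∈ K

theorem mem_diagGroup {hρ : HolAction ρ} {Δ0 : Subgroup Δ} {γ : Grp A B} :
    γ ∈ diagGroup hρ Δ0 ↔ ∃ δ ∈ Δ0, ∀ x ∈ Dom A B, ρ δ x = act γ x := Iff.rfl

theorem pd_diagGroup (hρ : HolAction ρ) (Δ0 : Subgroup Δ) (hpd : PDAction ρ) :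
    ProperlyDiscontinuous (diagGroup hρ Δ0) := by
  intro K hK hKc
  have h1 := hpd K hK hKc
  have h2 : ∀ δ : Δ, {γ : Grp A B | ∀ x ∈ Dom A B, ρ δ x = act γ x}.Finite := by
    intro δ
    by_cases hne : ∃ γ0 : Grp A B, ∀ x ∈ Dom A B, ρ δ x = act γ0 x
    · obtain ⟨γ0, hγ0⟩ := hne
      refine (kernel_finite.image fun γ => γ0 * γ).subset ?_
      intro γ hγ
      refine ⟨γ0⁻¹ * γ, fun x hx => ?_, by group⟩
      rw [act_mul _ _ hx, ← hγ x hx, hγ0 x hx, act_inv_act _ hx]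
    · refine Set.Finite.subset Set.finite_empty ?_
      intro γ hγ
      exact hne ⟨γ, hγ⟩
  refine (h1.biUnion fun δ _ => h2 δ).subset ?_
  rintro γ ⟨⟨δ, hδ, hδγ⟩, y, ⟨x, hx, rfl⟩, hy⟩
  refine Set.mem_iUnion₂.2 ⟨δ, ⟨act γ x, ⟨x, hx, hδγ x (hK hx)⟩, hy⟩, hδγ⟩

theorem cc_diagGroup (hρ : HolAction ρ) {Δ0 : Subgroup Δ} [Δ0.FiniteIndex] (hcc : CCAction ρ)
    (hdiag : ∀ δ ∈ Δ0, ∃ γ : Grp A B, ∀ x ∈ Dom A B, ρ δ x = act γ x) :
    Cocompact (diagGroup hρ Δ0) := by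
  obtain ⟨K, hK, hKc, hcov⟩ := hcc
  refine ⟨⋃ q : Δ ⧸ Δ0, ρ (q.out)⁻¹ '' K, ?_, ?_, ?_⟩
  · refine Set.iUnion_subset fun q => ?_
    rintro _ ⟨x, hx, rfl⟩
    exact hρ.maps _ x (hK hx)
  · exact isCompact_iUnion fun q => hKc.image_of_continuousOn
      (((hρ.hol _).continuousOn).mono hK)
  · intro x hx
    obtain ⟨δ, hδ⟩ := hcov x hx
    have h1 : ((δ : Δ ⧸ Δ0).out)⁻¹ * δ ∈ Δ0 := by
      rw [← QuotientGroup.eq]; simp
    obtain ⟨γ, hγ⟩ := hdiag _ h1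
    refine ⟨γ, ⟨_, h1, hγ⟩, ?_⟩
    rw [← hγ x hx, hρ.mul _ _ x hx]
    exact Set.mem_iUnion.2 ⟨(δ : Δ ⧸ Δ0), ⟨_, hδ, rfl⟩⟩

/-- invariance of the hermitian form with matrix `g` -/
def InvForm (ρ : Δ → Pt A B → Pt A B) (g : Pt A B → Matrix (A ⊕ B) (A ⊕ B) ℂ) : Prop :=
  ∀ δ, ∀ x ∈ Dom A B, (Jm (ρ δ) x)ᵀ * g (ρ δ x) * (Jm (ρ δ) x).map star = g x

theorem isKahler_diagGroup (hρ : HolAction ρ) (Δ0 : Subgroup Δ)
    {g : Pt A B → Matrix (A ⊕ B) (A ⊕ B) ℂ} (hg : IsKahlerForm g) (hinv : InvForm ρ g) :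
    IsKahler (diagGroup hρ Δ0) g := by
  refine ⟨hg.smooth, hg.pos, hg.closed, ?_⟩
  rintro γ ⟨δ, hδ, hγ⟩ x hx i j
  have h1 := hinv δ x hx
  rw [Jm_congr hγ hx, Jm_act γ hx, hγ x hx, Matrix.diagonal_transpose, Matrix.diagonal_map
    (by simp)] at h1
  have h2 := congrFun (congrFun h1 i) j
  rw [Matrix.mul_diagonal, Matrix.diagonal_mul] at h2
  rw [← h2]
  ring

/-- the sections of the `l`-th power of the canonical bundle -/
def secSub (Γ : Subgroup (Grp A B)) (l : ℕ) : Submodule ℂ (Pt A B → ℂ) where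
  carrier := {F | IsSec Γ l F}
  add_mem' := by
    rintro F G ⟨h1, h2⟩ ⟨h3, h4⟩
    refine ⟨h1.add h3, fun γ hγ y hy => ?_⟩
    simp only [Pi.add_apply]
    rw [add_mul, h2 γ hγ y hy, h4 γ hγ y hy]
  zero_mem' := ⟨differentiableOn_const (c := (0 : ℂ)), fun γ hγ y hy => by simp⟩
  smul_mem' := by
    rintro c F ⟨h1, h2⟩
    refine ⟨h1.const_smul c, fun γ hγ y hy => ?_⟩
    simp only [Pi.smul_apply, smul_eq_mul]
    rw [mul_assoc, h2 γ hγ y hy]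

theorem exists_common {Γ : Subgroup (Grp A B)} {l : ℕ}
    (h : ∀ x ∈ Dom A B, ∃ F, IsSec Γ l F ∧ F x ≠ 0) {ι : Type*} [Finite ι] (p : ι → Pt A B)
    (hp : ∀ i, p i ∈ Dom A B) : ∃ F, IsSec Γ l F ∧ ∀ i, F (p i) ≠ 0 := by
  cases nonempty_fintype ι
  let W : ι → Submodule ℂ (secSub Γ l) := fun i =>
    { carrier := {F | F.1 (p i) = 0}
      add_mem' := by
        intro F G hF hG
        have h1 : F.1 (p i) = 0 := hF
        have h2 : G.1 (p i) = 0 := hG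
        change F.1 (p i) + G.1 (p i) = 0
        rw [h1, h2, add_zero]
      zero_mem' := rfl
      smul_mem' := by
        intro c F hF
        have h1 : F.1 (p i) = 0 := hF
        change c * F.1 (p i) = 0
        rw [h1, mul_zero] }
  have h1 := Subspace.biUnion_ne_univ_of_top_notMem (s := Finset.univ.image W) (by
    intro hmem
    obtain ⟨i, -, hi⟩ := Finset.mem_image.1 hmem
    obtain ⟨F, hF, hFne⟩ := h (p i) (hp i)
    have : (⟨F, hF⟩ : secSub Γ l) ∈ W i := by rw [hi]; trivial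
    exact hFne this)
  obtain ⟨F, hF⟩ := (Set.ne_univ_iff_exists_notMem _).1 h1
  refine ⟨F.1, F.2, fun i hi => hF ?_⟩
  exact Set.mem_iUnion₂.2 ⟨W i, Finset.mem_image.2 ⟨i, Finset.mem_univ _, rfl⟩, hi⟩

/-- the action of `Δ` on functions of weight `l` -/
noncomputable def slash (ρ : Δ → Pt A B → Pt A B) (l : ℕ) (F : Pt A B → ℂ) (δ : Δ) :
    Pt A B → ℂ := fun x => F (ρ δ x) * (Jm (ρ δ) x).det ^ l

theorem slash_mul (hρ : HolAction ρ) (l : ℕ) (F : Pt A B → ℂ) (δ ε : Δ) {x : Pt A B}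
    (hx : x ∈ Dom A B) : slash ρ l F (δ * ε) x = slash ρ l F δ (ρ ε x) *
      (Jm (ρ ε) x).det ^ l := by
  unfold slash
  rw [hρ.mul δ ε x hx, hρ.Jm_mul δ ε hx, Matrix.det_mul, mul_pow, mul_assoc]

theorem diffOn_prod {E : Type*} [NormedAddCommGroup E] [NormedSpace ℂ E] {ι : Type*}
    (s : Finset ι) {f : ι → E → ℂ} {U : Set E} (h : ∀ i, DifferentiableOn ℂ (f i) U) :
    DifferentiableOn ℂ (fun x => ∏ i ∈ s, f i x) U := by
  induction s using Finset.induction_on with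
  | empty => simp only [Finset.prod_empty]; exact differentiableOn_const _
  | insert a s ha ih =>
    simp only [Finset.prod_insert ha]
    exact (h a).mul ih

theorem Jm_entry_diff (hρ : HolAction ρ) (δ : Δ) (k i : A ⊕ B) :
    DifferentiableOn ℂ (fun x => Jm (ρ δ) x k i) (Dom A B) := by
  have h1 : DifferentiableOn ℂ (fun x => ρ δ x k) (Dom A B) :=
    fun x hx => (differentiableAt_pi.1 (hρ.diff δ hx) k).differentiableWithinAt
  refine (fderiv_apply_diff isOpen_dom h1 (Pi.single i 1)).congr fun x hx => ?_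
  rw [Jm, Matrix.of_apply]
  have h2 : HasFDerivAt (𝕜 := ℂ) (fun x => ρ δ x k)
      ((ContinuousLinearMap.proj k).comp (fderiv ℂ (ρ δ) x)) x := by
    have := (hρ.diff δ hx).hasFDerivAt
    rw [hasFDerivAt_pi'] at this
    exact this k
  rw [h2.fderiv]
  rfl

theorem slash_diff (hρ : HolAction ρ) {l : ℕ} {F : Pt A B → ℂ}
    (hF : DifferentiableOn ℂ F (Dom A B)) (δ : Δ) :
    DifferentiableOn ℂ (slash ρ l F δ) (Dom A B) := by
  refine DifferentiableOn.mul (hF.comp (hρ.hol δ) fun x hx => hρ.maps δ x hx) ?_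
  refine DifferentiableOn.pow ?_ l
  have : (fun x => (Jm (ρ δ) x).det) = fun x => ∑ σ : Equiv.Perm (A ⊕ B),
      ((Equiv.Perm.sign σ : ℤ) : ℂ) * ∏ i, Jm (ρ δ) x (σ i) i := by
    funext x
    rw [Matrix.det_apply']
  rw [this]
  refine DifferentiableOn.fun_sum fun σ _ => DifferentiableOn.const_mul ?_ _
  exact diffOn_prod _ fun i => Jm_entry_diff hρ δ (σ i) i

theorem pluri_of_sec (hρ : HolAction ρ) {Δ0 : Subgroup Δ} [Fintype (Δ ⧸ Δ0)]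
    (hdiag : ∀ δ ∈ Δ0, ∃ γ : Grp A B, ∀ x ∈ Dom A B, ρ δ x = act γ x) {l : ℕ}
    {F : Pt A B → ℂ} (hF : IsSec (diagGroup hρ Δ0) l F) :
    IsPluri ρ (l * Fintype.card (Δ ⧸ Δ0))
      (fun x => ∏ q : Δ ⧸ Δ0, slash ρ l F (q.out)⁻¹ x) := by
  have h0 : ∀ δ ∈ Δ0, ∀ x ∈ Dom A B, slash ρ l F δ x = F x := by
    intro δ hδ x hx
    obtain ⟨γ, hγ⟩ := hdiag δ hδ
    have h1 := hF.2 γ ⟨δ, hδ, hγ⟩ x hx
    unfold slash
    rw [hγ x hx, Jm_congr hγ hx, Jm_act γ hx, Matrix.det_diagonal]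
    exact h1
  have h0' : ∀ δ ∈ Δ0, ∀ ε, ∀ x ∈ Dom A B, slash ρ l F (δ * ε) x = slash ρ l F ε x := by
    intro δ hδ ε x hx
    rw [slash_mul hρ l F δ ε hx, h0 δ hδ _ (hρ.maps ε x hx)]
    rfl
  refine ⟨diffOn_prod _ fun q => slash_diff hρ hF.1 _, ?_⟩
  intro ε y hy
  rw [pow_mul, ← Finset.card_univ, ← Finset.prod_const, ← Finset.prod_mul_distrib]
  have h2 : ∀ q : Δ ⧸ Δ0, slash ρ l F (q.out)⁻¹ (ρ ε y) * (Jm (ρ ε) y).det ^ l =
      slash ρ l F ((ε⁻¹ • q : Δ ⧸ Δ0).out)⁻¹ y := by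
    intro q
    rw [← slash_mul hρ l F _ ε hy]
    have h3 : (q.out)⁻¹ * ε * (ε⁻¹ • q : Δ ⧸ Δ0).out ∈ Δ0 := by
      have h4 : ((ε⁻¹ * q.out : Δ) : Δ ⧸ Δ0) = ε⁻¹ • q := by
        rw [← smul_eq_mul, ← MulAction.Quotient.smul_coe]
        simp
      have h5 : (ε⁻¹ * q.out)⁻¹ * (ε⁻¹ • q : Δ ⧸ Δ0).out ∈ Δ0 := by
        rw [← QuotientGroup.eq, h4]; simp
      have h6 : (ε⁻¹ * q.out)⁻¹ = (q.out)⁻¹ * ε := by group
      rw [h6] at h5
      exact h5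
    have h7 := h0' _ h3 ((ε⁻¹ • q : Δ ⧸ Δ0).out)⁻¹ y hy
    rw [mul_inv_cancel_right] at h7
    exact h7
  rw [Finset.prod_congr rfl fun q _ => h2 q]
  exact Fintype.prod_equiv (MulAction.toPerm ε⁻¹) _ _ fun q => rfl

theorem semiample_of_uni' (hρ : HolAction ρ) (hpd : PDAction ρ) (hcc : CCAction ρ)
    {Δ0 : Subgroup Δ} (hfi : Δ0.FiniteIndex)
    (hdiag : ∀ δ ∈ Δ0, ∃ γ : Grp A B, ∀ x ∈ Dom A B, ρ δ x = act γ x)
    (hU : Uni (diagGroup hρ Δ0)) (hU' : ∀ h : Grp A B, Uni (cj h (diagGroup hρ Δ0))) :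
    ∃ l, 0 < l ∧ ∀ x ∈ Dom A B, ∃ F, IsPluri ρ l F ∧ F x ≠ 0 := by
  have := hfi
  let _ : Fintype (Δ ⧸ Δ0) := Fintype.ofFinite _
  obtain ⟨l, hl0, hl⟩ := semiample_of_uni (pd_diagGroup hρ Δ0 hpd) (cc_diagGroup hρ hcc hdiag)
    hU hU'
  refine ⟨l * Fintype.card (Δ ⧸ Δ0), Nat.mul_pos hl0 Fintype.card_pos, fun x hx => ?_⟩
  obtain ⟨F, hF, hne⟩ := exists_common hl (fun q : Δ ⧸ Δ0 => ρ (q.out)⁻¹ x)
    fun q => hρ.maps _ x hx
  refine ⟨_, pluri_of_sec hρ hdiag hF, ?_⟩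
  refine Finset.prod_ne_zero_iff.2 fun q _ => ?_
  exact mul_ne_zero (hne q) (pow_ne_zero _ (hρ.det_ne_zero _ hx))

theorem semiample' (hρ : HolAction ρ) (hpd : PDAction ρ) (hcc : CCAction ρ)
    {Δ0 : Subgroup Δ} (hfi : Δ0.FiniteIndex)
    (hdiag : ∀ δ ∈ Δ0, ∃ γ : Grp A B, ∀ x ∈ Dom A B, ρ δ x = act γ x)
    {g : Pt A B → Matrix (A ⊕ B) (A ⊕ B) ℂ} (hg : IsKahlerForm g) (hinv : InvForm ρ g) :
    ∃ l, 0 < l ∧ ∀ x ∈ Dom A B, ∃ F, IsPluri ρ l F ∧ F x ≠ 0 :=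
  semiample_of_uni' hρ hpd hcc hfi hdiag (uni_of_kahler (isKahler_diagGroup hρ Δ0 hg hinv))
    fun h => uni_of_kahler (kahler_cj (isKahler_diagGroup hρ Δ0 hg hinv) h)

end Pool.Agent.H906.PC
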