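import Pool.Agent.H906.PC.Unit

/-! # There is no boundary fixed point, and the linear parts form a finite group -/

open Filter Topology Matrix MeasureTheory
open scoped MatrixGroups Classical ComplexOrder

namespace Pool.Agent.H906.PC

variable {A B : Type*} [Fintype A] [Fintype B]

theorem LL_finite {Γ : Subgroup (Grp A B)} {R : A → Prop} (hG : Good Γ R) (r : ℝ) :
    {t : Pt A B | t ∈ LL hG ∧ ‖t‖ ≤ r}.Finite := by
  set r' := |r| + 1 with hr'
  have hr'1 : 1 ≤ r' := by have := abs_nonneg r; linarith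
  have hfin := hG.pd (Kex A B r') (Kex_subset (by linarith)) (isCompact_Kex r')
  refine (hfin.image (tt R)).subset ?_
  rintro t ⟨⟨lam, hlam, hlam1, rfl⟩, ht⟩
  refine ⟨lam, ⟨ker_le hlam, act lam (base A B), ⟨base A B, ?_, rfl⟩, ?_⟩, rfl⟩
  · refine ⟨fun i => ?_, ?_⟩
    · have : ((base A B) (Sum.inl i)).im = 1 := by simp [base]
      rw [this]; exact inv_le_one_of_one_le₀ hr'1
    · have := norm_base_le (A := A) (B := B)
      linarith
  · rw [act_ker hG hlam, hlam1, one_mul]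
    refine ⟨fun i => ?_, ?_⟩
    · have h1 := ((tt_mem lam : tt R lam ∈ TT R B) i).1
      have : ((base A B + tt R lam) (Sum.inl i)).im = 1 := by simp [base, h1]
      rw [this]; exact inv_le_one_of_one_le₀ hr'1
    · refine (norm_add_le _ _).trans ?_
      have := norm_base_le (A := A) (B := B)
      have := le_abs_self r
      linarith

/-- elements of the kernel contracting all the components with `R` -/
theorem exists_contract {Γ : Subgroup (Grp A B)} {R : A → Prop} (hG : Good Γ R) :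
    ∃ ν ∈ Ker R Γ, ∀ i, R i → ∃ d : ℝ, dd R ν (Sum.inl i) = d ∧ 0 < d ∧ d ≤ 1 / 2 := by
  obtain ⟨K0, hK0, hK0c, hslice⟩ := slice_cocompact hG
  obtain ⟨r, hr1, hKr⟩ := exists_Kex hK0c hK0
  set x : Pt A B := Sum.elim (fun i => if R i then ((2 * r : ℝ) : ℂ) * Complex.I else Complex.I)
    (fun _ => 0) with hx
  have hxD : x ∈ Dom A B := by
    intro i
    by_cases hi : R i
    · simp only [hx, Sum.elim_inl, hi, if_true, Complex.im_ofReal_mul, Complex.I_im, mul_one]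
      linarith
    · simp [hx, hi]
  obtain ⟨ν, hν, hνK⟩ := hslice x hxD (by intro i hi; simp [hx, hi])
  refine ⟨ν, hν, fun i hi => ?_⟩
  have hνK' := hKr hνK
  have ha : (0 : ℝ) < (ν.1 i).1 0 0 ^ 2 := by
    have d := det_eq (ν.1 i)
    rw [hG.tri i hi ν (ker_le hν)] at d
    have : (ν.1 i).1 0 0 ≠ 0 := by
      intro h; rw [h] at d; simp at d
    positivity
  refine ⟨(ν.1 i).1 0 0 ^ 2, by simp [dd, hi], ha, ?_⟩
  have him : (act ν x (Sum.inl i)).im = (ν.1 i).1 0 0 ^ 2 * (2 * r) := by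
    rw [act_ker hG hν]
    have h2 := ((tt_mem ν : tt R ν ∈ TT R B) i).1
    simp only [Pi.add_apply, Complex.add_im, h2, add_zero, Pi.mul_apply]
    simp only [dd, hx, Sum.elim_inl, hi, if_true]
    rw [← Complex.ofReal_pow, ← mul_assoc, ← Complex.ofReal_mul, Complex.im_ofReal_mul,
      Complex.I_im, mul_one]
  have h3 : (act ν x (Sum.inl i)).im ≤ r :=
    (Complex.im_le_norm _).trans ((norm_le_pi_norm _ _).trans hνK'.2)
  rw [him] at h3
  nlinarith

theorem single_mem_VV {Γ : Subgroup (Grp A B)} {R : A → Prop} (hG : Good Γ R) {k : A ⊕ B}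
    (hk : NT Γ R k) {c : ℂ} (hc : (Pi.single k c : Pt A B) ∈ TT R B) :
    (Pi.single k c : Pt A B) ∈ VV hG := by
  have := e2_mul_mem hG hc
  have e : e2 Γ R * (Pi.single k c : Pt A B) = Pi.single k c := by
    funext l
    by_cases hl : l = k
    · subst hl; simp [e2, hk]
    · simp [hl]
  rwa [e] at this

omit [Fintype A] [Fintype B] in
theorem single_inr_mem {R : A → Prop} (j : B) (c : ℂ) :
    (Pi.single (Sum.inr j) c : Pt A B) ∈ TT R B := by
  intro i
  simp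

omit [Fintype A] [Fintype B] in
theorem single_inl_mem {R : A → Prop} {i : A} (hi : R i) :
    (Pi.single (Sum.inl i) 1 : Pt A B) ∈ TT R B := by
  intro i'
  by_cases h : i' = i
  · subst h; simp [hi]
  · simp [h]

/-- the characters are unitary on the kernel, except for the contractions -/
theorem norm_dd_le {Γ : Subgroup (Grp A B)} {R : A → Prop} (hG : Good Γ R)
    (hg : Uni Γ) {ν : Grp A B} (hν : ν ∈ Ker R Γ)
    (j : B) : ‖dd R ν (Sum.inr j)‖ = 1 := by
  by_cases hj : NT Γ R (Sum.inr j)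
  · exact hg _ hG j (fun c => single_mem_VV hG hj (single_inr_mem j c)) _ (ker_le hν)
  · have : dd R ν (Sum.inr j) = 1 := by
      by_contra h; exact hj ⟨ν, hν, h⟩
    rw [this, norm_one]

theorem dd_pow {Γ : Subgroup (Grp A B)} {R : A → Prop} (hG : Good Γ R) {γ : Grp A B}
    (hγ : γ ∈ Γ) (n : ℕ) : dd R (γ ^ n) = dd R γ ^ n := by
  induction n with
  | zero => rw [pow_zero, pow_zero, dd_one]
  | succ n ih => rw [pow_succ, pow_succ, dd_mul hG hγ, ih]

/-- there is no component with a boundary fixed point -/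
theorem not_R {Γ : Subgroup (Grp A B)} {R : A → Prop} (hG : Good Γ R)
    (hg : Uni Γ) (i : A) : ¬ R i := by
  intro hi
  obtain ⟨ν, hν, hcon⟩ := exists_contract hG
  obtain ⟨d, hd, hd0, hd1⟩ := hcon i hi
  have hNT : NT Γ R (Sum.inl i) := by
    refine ⟨ν, hν, ?_⟩
    rw [hd]
    intro h
    have : d = 1 := by exact_mod_cast h
    linarith
  have hsV := single_mem_VV hG hNT (single_inl_mem (R := R) hi)
  have hnorm : ∀ t ∈ TT R B, ∀ n : ℕ, ‖dd R ν ^ n * t‖ ≤ ‖t‖ := by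
    intro t ht n
    rw [pi_norm_le_iff_of_nonneg (norm_nonneg _)]
    intro k
    simp only [Pi.mul_apply, Pi.pow_apply, norm_mul, norm_pow]
    refine le_trans ?_ (norm_le_pi_norm t k)
    rcases k with i' | j
    · by_cases hi' : R i'
      · obtain ⟨d', hd', hd0', hd1'⟩ := hcon i' hi'
        rw [hd', Complex.norm_real, Real.norm_of_nonneg hd0'.le]
        exact mul_le_of_le_one_left (norm_nonneg _) (pow_le_one₀ hd0'.le (by linarith))
      · rw [(ht i').2 hi']; simp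
    · rw [norm_dd_le hG hg hν j, one_pow, one_mul]
  have hzero : ∀ t ∈ LL hG, t (Sum.inl i) = 0 := by
    intro t ht
    have hmem : ∀ n : ℕ, dd R ν ^ n * t ∈ {t : Pt A B | t ∈ LL hG ∧ ‖t‖ ≤ ‖t‖ ∧ True} := by
      intro n
      refine ⟨?_, le_rfl, trivial⟩
      rw [← dd_pow hG (ker_le hν)]
      exact conj_rel hG (Γ.pow_mem (ker_le hν) n) ht
    have hmaps : ∀ n : ℕ, dd R ν ^ n * t ∈ {s : Pt A B | s ∈ LL hG ∧ ‖s‖ ≤ ‖t‖} := fun n =>
      ⟨(hmem n).1, hnorm t (VV_le_TT hG (LL_le_VV hG ht)) n⟩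
    obtain ⟨n, -, m, -, hnm, heq⟩ := Set.infinite_univ.exists_ne_map_eq_of_mapsTo
      (f := fun n : ℕ => dd R ν ^ n * t) (fun n _ => hmaps n) (LL_finite hG ‖t‖)
    have h1 := congrFun heq (Sum.inl i)
    simp only [Pi.mul_apply, Pi.pow_apply, hd] at h1
    by_contra ht0
    have h2 := mul_right_cancel₀ ht0 h1
    have h3 : d ^ n = d ^ m := by exact_mod_cast h2
    exact hnm (pow_right_injective₀ hd0 (by linarith) h3)
  have hV0 : ∀ v ∈ VV hG, v (Sum.inl i) = 0 := by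
    intro v hv
    refine Submodule.span_induction (p := fun v _ => v (Sum.inl i) = 0) ?_ ?_ ?_ ?_ hv
    · intro t ht; exact hzero t ht
    · rfl
    · intro v w _ _ hv hw; simp [hv, hw]
    · intro c v _ hv; simp [hv]
  have := hV0 _ hsV
  simp at this

theorem norm_dd_mul {R : A → Prop} (hR : ∀ i, ¬ R i) {γ : Grp A B}
    (hj : ∀ j, ‖dd R γ (Sum.inr j)‖ = 1) (t : Pt A B) : ‖dd R γ * t‖ ≤ ‖t‖ := by
  rw [pi_norm_le_iff_of_nonneg (norm_nonneg _)]
  intro k
  simp only [Pi.mul_apply, norm_mul]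
  refine le_trans (le_of_eq ?_) (norm_le_pi_norm t k)
  rcases k with i' | j
  · rw [dd_P γ (hR i')]; simp
  · rw [hj j, one_mul]

/-- finiteness of a set of dilations -/
theorem dd_finite {Γ : Subgroup (Grp A B)} {R : A → Prop} (hG : Good Γ R) (hR : ∀ i, ¬ R i)
    (S : Set (Grp A B)) (hS : S ⊆ Γ) (hun : ∀ γ ∈ S, ∀ j, ‖dd R γ (Sum.inr j)‖ = 1)
    (hinj : ∀ γ ∈ S, ∀ δ ∈ S, ∀ j, dd R γ (Sum.inr j) ≠ dd R δ (Sum.inr j) →
      (Pi.single (Sum.inr j) 1 : Pt A B) ∈ VV hG) :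
    (dd R '' S).Finite := by
  obtain ⟨s, hs1, hs2⟩ := exists_spanning hG
  have hfin : (Set.univ.pi fun t : s => {u : Pt A B | u ∈ LL hG ∧ ‖u‖ ≤ ‖(t : Pt A B)‖}).Finite :=
    Set.Finite.pi fun t => LL_finite hG _
  refine Set.Finite.of_finite_image (f := fun c : Pt A B => fun t : s => c * (t : Pt A B)) ?_ ?_
  · refine hfin.subset ?_
    rintro _ ⟨_, ⟨γ, hγ, rfl⟩, rfl⟩ t _
    exact ⟨conj_rel hG (hS hγ) (hs1 _ t.2), norm_dd_mul hR (hun γ hγ) _⟩
  · rintro _ ⟨γ, hγ, rfl⟩ _ ⟨δ, hδ, rfl⟩ heq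
    have h1 : ∀ v ∈ VV hG, dd R γ * v = dd R δ * v := by
      intro v hv
      rw [← hs2] at hv
      refine Submodule.span_induction (p := fun v _ => dd R γ * v = dd R δ * v) ?_ ?_ ?_ ?_ hv
      · intro t ht; exact congrFun heq ⟨t, ht⟩
      · simp
      · intro v w _ _ hv hw; rw [mul_add, mul_add, hv, hw]
      · intro c v _ hv; rw [mul_smul_comm, mul_smul_comm, hv]
    funext k
    rcases k with i | j
    · rw [dd_P γ (hR i), dd_P δ (hR i)]
    · by_contra hne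
      have h2 := congrFun (h1 _ (hinj γ hγ δ hδ j hne)) (Sum.inr j)
      simp at h2
      exact hne h2

/-- the translations form a full lattice -/
theorem VV_eq_TT {Γ : Subgroup (Grp A B)} {R : A → Prop} (hG : Good Γ R)
    (hg : Uni Γ) {e : Pt A B} (he : e ∈ TT R B) :
    e ∈ VV hG := by
  have hR := not_R hG hg
  have hfinD : (dd R '' (Ker R Γ : Set (Grp A B))).Finite := by
    refine dd_finite hG hR _ ker_le (fun γ hγ j => norm_dd_le hG hg hγ j) ?_
    intro γ hγ δ hδ j hne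
    refine single_mem_VV hG ?_ (single_inr_mem j 1)
    by_contra hNT
    have h1 : ∀ ν ∈ Ker R Γ, dd R ν (Sum.inr j) = 1 := by
      intro ν hν
      by_contra h; exact hNT ⟨ν, hν, h⟩
    exact hne (by rw [h1 γ hγ, h1 δ hδ])
  obtain ⟨K0, hK0, hK0c, hslice⟩ := slice_cocompact hG
  obtain ⟨r, hr1, hKr⟩ := exists_Kex hK0c hK0
  have hsel : ∀ d : Pt A B, ∃ ν : Grp A B, d ∈ dd R '' (Ker R Γ : Set (Grp A B)) →
      ν ∈ Ker R Γ ∧ dd R ν = d := by
    intro d
    by_cases h : d ∈ dd R '' (Ker R Γ : Set (Grp A B))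
    · obtain ⟨ν, hν, hν2⟩ := h
      exact ⟨ν, fun _ => ⟨hν, hν2⟩⟩
    · exact ⟨1, fun h' => absurd h' h⟩
  choose ρ hρ using hsel
  obtain ⟨M, hM⟩ : ∃ M : ℝ, ∀ d ∈ dd R '' (Ker R Γ : Set (Grp A B)), ‖tt R (ρ d)‖ ≤ M := by
    obtain ⟨M, hM⟩ := (hfinD.image fun d => ‖tt R (ρ d)‖).bddAbove
    exact ⟨M, fun d hd => hM ⟨d, hd, rfl⟩⟩
  have hmain : ∀ n : ℕ, ∃ d ∈ (fun c => c * e) '' (dd R '' (Ker R Γ : Set (Grp A B))),
      ∃ v ∈ VV hG, ‖(n : ℝ) • d + v‖ ≤ r + 1 + M := by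
    intro n
    have htn : (n : ℝ) • e ∈ TT R B := (TT R B).smul_mem _ he
    obtain ⟨ν, hν, hνK⟩ := hslice _ (base_add_mem htn).1 (base_add_mem htn).2
    have hνK' := hKr hνK
    have hmem : dd R ν ∈ dd R '' (Ker R Γ : Set (Grp A B)) := ⟨ν, hν, rfl⟩
    obtain ⟨hρ1, hρ2⟩ := hρ _ hmem
    set lam := ν * (ρ (dd R ν))⁻¹ with hlam
    have hlamK : lam ∈ Ker R Γ := (Ker R Γ).mul_mem hν ((Ker R Γ).inv_mem hρ1)
    have hlam1 : dd R lam = 1 := by
      rw [hlam, dd_mul hG (Γ.inv_mem (ker_le hρ1))]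
      have := dd_inv_mul hG (ker_le hρ1)
      rw [hρ2] at this
      rw [mul_comm]; exact this
    have hνe : ν = lam * ρ (dd R ν) := by rw [hlam]; group
    have htt : tt R ν = tt R (ρ (dd R ν)) + tt R lam := by
      conv_lhs => rw [hνe]
      rw [tt_mul hG hlamK hρ1, hlam1, one_mul]
    refine ⟨dd R ν * e, ⟨_, hmem, rfl⟩, tt R lam, LL_le_VV hG ⟨lam, hlamK, hlam1, rfl⟩, ?_⟩
    have e1 : (n : ℝ) • (dd R ν * e) + tt R lam = act ν (base A B + (n : ℝ) • e) -
        dd R ν * base A B - tt R (ρ (dd R ν)) := by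
      rw [act_ker hG hν, htt, mul_add, mul_smul_comm]
      ring
    rw [e1]
    have h1 := norm_sub_le (act ν (base A B + (n : ℝ) • e) - dd R ν * base A B)
      (tt R (ρ (dd R ν)))
    have h2 := norm_sub_le (act ν (base A B + (n : ℝ) • e)) (dd R ν * base A B)
    have h3 := norm_dd_mul hR (fun j => norm_dd_le hG hg hν j) (base A B)
    have h4 := norm_base_le (A := A) (B := B)
    have h5 := hM _ hmem
    have h6 := hνK'.2
    linarith
  obtain ⟨_, ⟨_, ⟨ν, hν, rfl⟩, rfl⟩, hdV⟩ := pigeon (VV hG) (hfinD.image _) _ hmain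
  have h1 := (dd_mem_SS hG (Γ.inv_mem (ker_le hν))).1 _ hdV
  have h2 : dd R ν⁻¹ * (dd R ν * e) = e := by
    rw [← mul_assoc, dd_inv_mul hG (ker_le hν), one_mul]
  simp only at h1
  rwa [h2] at h1

/-- The linear parts of the elements of `Γ` form a finite group. -/
theorem lin_pow {Γ : Subgroup (Grp A B)} {R : A → Prop} (hG : Good Γ R)
    (hg : Uni Γ) :
    (dd R '' (Γ : Set (Grp A B))).Finite ∧
      ∃ m : ℕ, 0 < m ∧ ∀ γ ∈ Γ, ∀ j, lin (γ.2 j) ^ m = 1 := by
  have hR := not_R hG hg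
  have hun : ∀ γ ∈ Γ, ∀ j, ‖dd R γ (Sum.inr j)‖ = 1 := fun γ hγ j =>
    hg _ hG j (fun c => VV_eq_TT hG hg (single_inr_mem j c)) _ hγ
  have hfin : (dd R '' (Γ : Set (Grp A B))).Finite :=
    dd_finite hG hR _ (fun _ h => h) hun fun γ _ δ _ j _ => VV_eq_TT hG hg (single_inr_mem j 1)
  refine ⟨hfin, (hfin.toFinset.card).factorial, Nat.factorial_pos _, fun γ hγ j => ?_⟩
  have hmaps : ∀ n ∈ Finset.range (hfin.toFinset.card + 1), dd R γ ^ n ∈ hfin.toFinset := by
    intro n _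
    rw [Set.Finite.mem_toFinset, ← dd_pow hG hγ]
    exact ⟨γ ^ n, Γ.pow_mem hγ n, rfl⟩
  obtain ⟨a, ha, b, hb, hab, heq⟩ := Finset.exists_ne_map_eq_of_card_lt_of_maps_to
    (by simp) hmaps
  have key : ∀ a b : ℕ, a < b → b < hfin.toFinset.card + 1 → dd R γ ^ a = dd R γ ^ b →
      lin (γ.2 j) ^ (hfin.toFinset.card).factorial = 1 := by
    intro a b hab hb heq
    have h1 := congrFun heq (Sum.inr j)
    change lin (γ.2 j) ^ a = lin (γ.2 j) ^ b at h1
    have h2 : lin (γ.2 j) ^ (b - a) = 1 := by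
      have h3 : lin (γ.2 j) ^ b = lin (γ.2 j) ^ a * lin (γ.2 j) ^ (b - a) := by
        rw [← pow_add]; congr 1; omega
      rw [h3] at h1
      have h4 : lin (γ.2 j) ^ a ≠ 0 := pow_ne_zero _ (lin_ne_zero _)
      exact (mul_eq_left₀ h4).1 h1.symm
    obtain ⟨c, hc⟩ := Nat.dvd_factorial (show 0 < b - a by omega)
      (show b - a ≤ hfin.toFinset.card by omega)
    rw [hc, pow_mul, h2, one_pow]
  rcases lt_or_gt_of_ne hab with h | h
  · exact key a b h (Finset.mem_range.1 hb) heq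
  · exact key b a h (Finset.mem_range.1 ha) heq.symm

end Pool.Agent.H906.PC
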