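import Pool.Agent.H906.PC.Slice

/-! # The translations in the kernel -/

open Filter Topology Matrix
open scoped MatrixGroups Classical

namespace Pool.Agent.H906.PC

variable {A B : Type*}

/-- the dilations (of the components with `R` and of the flat components) -/
noncomputable def dd (R : A → Prop) (γ : Grp A B) : Pt A B :=
  Sum.elim (fun i => if R i then ((γ.1 i).1 0 0 : ℂ) ^ 2 else 1) (fun j => lin (γ.2 j))

/-- the translation parts -/
noncomputable def tt (R : A → Prop) (γ : Grp A B) : Pt A B :=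
  Sum.elim (fun i => if R i then ((γ.1 i).1 0 0 : ℂ) * (γ.1 i).1 0 1 else 0) (fun j => γ.2 j 0)

/-- the space of translations -/
def TT (R : A → Prop) (B : Type*) : Submodule ℝ (Pt A B) where
  carrier := {t | ∀ i, (t (Sum.inl i)).im = 0 ∧ (¬ R i → t (Sum.inl i) = 0)}
  add_mem' := by
    intro s t hs ht i
    refine ⟨?_, fun h => ?_⟩
    · simp [(hs i).1, (ht i).1]
    · simp [(hs i).2 h, (ht i).2 h]
  zero_mem' := fun i => ⟨by simp, fun _ => rfl⟩
  smul_mem' := by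
    intro c t ht i
    refine ⟨?_, fun h => ?_⟩
    · simp [(ht i).1]
    · simp [(ht i).2 h]

theorem mob_of_tri {g : SL(2, ℝ)} (hg : g.1 1 0 = 0) (z : ℂ) :
    mob g z = (g.1 0 0 : ℂ) ^ 2 * z + (g.1 0 0 : ℂ) * g.1 0 1 := by
  have d := det_eq g
  rw [hg] at d
  have h1 : (g.1 0 0 : ℂ) * g.1 1 1 = 1 := by
    have : g.1 0 0 * g.1 1 1 = 1 := by linarith
    exact_mod_cast this
  have h2 : (g.1 1 1 : ℂ) ≠ 0 := right_ne_zero_of_mul_eq_one h1
  unfold mob den
  rw [hg]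
  simp only [Complex.ofReal_zero, zero_mul, zero_add]
  rw [div_eq_iff h2]
  linear_combination (-(g.1 0 0 : ℂ) * z - g.1 0 1) * h1

/-- the coordinates on which everything acts by affine transformations -/
theorem act_aff [Fintype A] [Fintype B] {Γ : Subgroup (Grp A B)} {R : A → Prop} (hG : Good Γ R)
    {γ : Grp A B} (hγ : γ ∈ Γ) (x : Pt A B) (k : A ⊕ B) (hk : ∀ i, k = Sum.inl i → R i) :
    act γ x k = dd R γ k * x k + tt R γ k := by
  rcases k with i | j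
  · have hi := hk i rfl
    rw [act_inl, mob_of_tri (hG.tri i hi γ hγ)]
    simp [dd, tt, hi]
  · exact aff_apply _ _

theorem dd_P {R : A → Prop} (γ : Grp A B) {i : A} (hi : ¬ R i) : dd R γ (Sum.inl i) = 1 := by
  simp [dd, hi]

theorem tt_P {R : A → Prop} (γ : Grp A B) {i : A} (hi : ¬ R i) : tt R γ (Sum.inl i) = 0 := by
  simp [tt, hi]

theorem mem_ker {R : A → Prop} {Γ : Subgroup (Grp A B)} {ν : Grp A B} (h : ν ∈ Ker R Γ) :
    ν ∈ Γ ∧ ∀ i, ¬ R i → ν.1 i = 1 := by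
  obtain ⟨h1, h2⟩ := Subgroup.mem_inf.1 h
  refine ⟨h1, fun i hi => ?_⟩
  rw [MonoidHom.mem_ker] at h2
  exact congrFun h2 ⟨i, hi⟩

theorem ker_le {R : A → Prop} {Γ : Subgroup (Grp A B)} : Ker R Γ ≤ Γ := inf_le_left

theorem act_ker [Fintype A] [Fintype B] {Γ : Subgroup (Grp A B)} {R : A → Prop} (hG : Good Γ R)
    {ν : Grp A B} (hν : ν ∈ Ker R Γ) (x : Pt A B) : act ν x = dd R ν * x + tt R ν := by
  funext k
  by_cases hk : ∀ i, k = Sum.inl i → R i
  · exact act_aff hG (mem_ker hν).1 x k hk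
  · push Not at hk
    obtain ⟨i, rfl, hi⟩ := hk
    rw [act_inl, (mem_ker hν).2 i hi, mob_one]
    simp [dd_P ν hi, tt_P ν hi]

theorem dd_mul [Fintype A] [Fintype B] {Γ : Subgroup (Grp A B)} {R : A → Prop} (hG : Good Γ R)
    {γ δ : Grp A B} (hδ : δ ∈ Γ) : dd R (γ * δ) = dd R γ * dd R δ := by
  funext k
  rcases k with i | j
  · by_cases hi : R i
    · have : ((γ.1 i * δ.1 i : SL(2, ℝ))).1 0 0 = (γ.1 i).1 0 0 * (δ.1 i).1 0 0 :=
        mul_00 (hG.tri i hi δ hδ)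
      simp only [dd, Sum.elim_inl, hi, if_true, Pi.mul_apply]
      change (((γ.1 i * δ.1 i : SL(2, ℝ)).1 0 0 : ℝ) : ℂ) ^ 2 = _
      rw [this]
      push_cast
      ring
    · simp [dd, hi]
  · exact lin_mul _ _

theorem dd_one (R : A → Prop) : dd R (1 : Grp A B) = 1 := by
  funext k
  rcases k with i | j
  · by_cases hi : R i <;> simp [dd, hi]
  · rfl

theorem dd_inv_mul [Fintype A] [Fintype B] {Γ : Subgroup (Grp A B)} {R : A → Prop} (hG : Good Γ R)
    {γ : Grp A B} (hγ : γ ∈ Γ) : dd R γ⁻¹ * dd R γ = 1 := by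
  rw [← dd_mul hG hγ, inv_mul_cancel, dd_one]

theorem tt_mem [Fintype A] [Fintype B] {R : A → Prop} (γ : Grp A B) : tt R γ ∈ TT R B := by
  intro i
  refine ⟨?_, fun h => tt_P γ h⟩
  by_cases hi : R i
  · simp only [tt, Sum.elim_inl, hi, if_true]
    rw [← Complex.ofReal_mul]; simp
  · rw [tt_P γ hi]; simp

theorem tt_mul [Fintype A] [Fintype B] {Γ : Subgroup (Grp A B)} {R : A → Prop} (hG : Good Γ R)
    {ν μ : Grp A B} (hν : ν ∈ Ker R Γ) (hμ : μ ∈ Ker R Γ) :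
    tt R (ν * μ) = dd R ν * tt R μ + tt R ν := by
  have h1 := act_mul ν μ (base_mem (A := A) (B := B))
  rw [act_ker hG ((Ker R Γ).mul_mem hν hμ), act_ker hG hμ, act_ker hG hν,
    dd_mul hG (ker_le hμ)] at h1
  linear_combination h1

theorem tt_one (R : A → Prop) : tt R (1 : Grp A B) = 0 := by
  funext k
  rcases k with i | j
  · by_cases hi : R i <;> simp [tt, hi]
  · rfl

/-- the lattice of translations -/
def LL [Fintype A] [Fintype B] {Γ : Subgroup (Grp A B)} {R : A → Prop} (hG : Good Γ R) :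
    AddSubgroup (Pt A B) where
  carrier := {t | ∃ lam ∈ Ker R Γ, dd R lam = 1 ∧ tt R lam = t}
  add_mem' := by
    rintro _ _ ⟨a, ha, ha1, rfl⟩ ⟨b, hb, hb1, rfl⟩
    refine ⟨a * b, (Ker R Γ).mul_mem ha hb, ?_, ?_⟩
    · rw [dd_mul hG (ker_le hb), ha1, hb1, one_mul]
    · rw [tt_mul hG ha hb, ha1, one_mul, add_comm]
  zero_mem' := ⟨1, (Ker R Γ).one_mem, dd_one R, tt_one R⟩
  neg_mem' := by
    rintro _ ⟨a, ha, ha1, rfl⟩
    have h1 : dd R a⁻¹ = 1 := by
      have := dd_inv_mul hG (ker_le ha)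
      rwa [ha1, mul_one] at this
    refine ⟨a⁻¹, (Ker R Γ).inv_mem ha, h1, ?_⟩
    have := tt_mul hG ((Ker R Γ).inv_mem ha) ha
    rw [inv_mul_cancel, tt_one, h1, one_mul] at this
    linear_combination -this

/-- the real span of the lattice -/
noncomputable def VV [Fintype A] [Fintype B] {Γ : Subgroup (Grp A B)} {R : A → Prop}
    (hG : Good Γ R) : Submodule ℝ (Pt A B) := Submodule.span ℝ (LL hG : Set (Pt A B))

theorem LL_le_VV [Fintype A] [Fintype B] {Γ : Subgroup (Grp A B)} {R : A → Prop}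
    (hG : Good Γ R) {t : Pt A B} (ht : t ∈ LL hG) : t ∈ VV hG := Submodule.subset_span ht

theorem VV_le_TT [Fintype A] [Fintype B] {Γ : Subgroup (Grp A B)} {R : A → Prop}
    (hG : Good Γ R) : VV hG ≤ TT R B := by
  refine Submodule.span_le.2 ?_
  rintro _ ⟨a, _, _, rfl⟩
  exact tt_mem a

theorem comm_rel [Fintype A] [Fintype B] {Γ : Subgroup (Grp A B)} {R : A → Prop}
    (hG : Good Γ R) {ν μ : Grp A B} (hν : ν ∈ Ker R Γ) (hμ : μ ∈ Ker R Γ) :
    (dd R ν - 1) * tt R μ - (dd R μ - 1) * tt R ν ∈ LL hG := by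
  have hc : cm ν μ ∈ Ker R Γ := cm_mem _ hν hμ
  have e : ν * μ = cm ν μ * (μ * ν) := by unfold cm; group
  have hd : dd R (cm ν μ) = 1 := by
    have h1 := congrArg (dd R) e
    rw [dd_mul hG (ker_le hμ), dd_mul hG (Γ.mul_mem (ker_le hμ) (ker_le hν)),
      dd_mul hG (ker_le hν)] at h1
    have i1 := dd_inv_mul hG (ker_le hν)
    have i2 := dd_inv_mul hG (ker_le hμ)
    have h2 : dd R (cm ν μ) * (dd R μ * dd R ν) * (dd R μ⁻¹ * dd R ν⁻¹) =
        dd R ν * dd R μ * (dd R μ⁻¹ * dd R ν⁻¹) := by rw [h1]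
    have e1 : dd R (cm ν μ) * (dd R μ * dd R ν) * (dd R μ⁻¹ * dd R ν⁻¹) =
        dd R (cm ν μ) * (dd R μ⁻¹ * dd R μ) * (dd R ν⁻¹ * dd R ν) := by ring
    have e2 : dd R ν * dd R μ * (dd R μ⁻¹ * dd R ν⁻¹) =
        (dd R μ⁻¹ * dd R μ) * (dd R ν⁻¹ * dd R ν) := by ring
    rw [e1, e2, i1, i2] at h2
    simpa using h2
  refine ⟨cm ν μ, hc, hd, ?_⟩
  have h1 := congrArg (tt R) e
  rw [tt_mul hG hν hμ, tt_mul hG hc ((Ker R Γ).mul_mem hμ hν), hd, tt_mul hG hμ hν] at h1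
  linear_combination -h1

theorem conj_rel [Fintype A] [Fintype B] {Γ : Subgroup (Grp A B)} {R : A → Prop}
    (hG : Good Γ R) {γ : Grp A B} (hγ : γ ∈ Γ) {t : Pt A B} (ht : t ∈ LL hG) :
    dd R γ * t ∈ LL hG := by
  obtain ⟨a, ha, ha1, rfl⟩ := ht
  have hmem : γ * a * γ⁻¹ ∈ Ker R Γ := by
    refine Subgroup.mem_inf.2 ⟨Γ.mul_mem (Γ.mul_mem hγ (ker_le ha)) (Γ.inv_mem hγ), ?_⟩
    have := (Subgroup.mem_inf.1 ha).2
    rw [MonoidHom.mem_ker] at this ⊢
    rw [map_mul, map_mul, this, mul_one, ← map_mul, mul_inv_cancel, map_one]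
  have hd : dd R (γ * a * γ⁻¹) = 1 := by
    rw [dd_mul hG (Γ.inv_mem hγ), dd_mul hG (ker_le ha), ha1, mul_one]
    have := dd_inv_mul hG (Γ.inv_mem hγ)
    rwa [inv_inv] at this
  refine ⟨_, hmem, hd, ?_⟩
  funext k
  by_cases hk : ∀ i, k = Sum.inl i → R i
  · have h1 := congrFun (act_ker hG hmem (base A B)) k
    rw [act_mul _ _ base_mem, act_mul _ _ (act_mem _ base_mem),
      act_aff hG hγ _ k hk, act_ker hG ha, hd] at h1
    have h2 : act γ (act γ⁻¹ (base A B)) k = base A B k := by rw [act_act_inv _ base_mem]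
    rw [act_aff hG hγ _ k hk] at h2
    simp only [Pi.add_apply, Pi.mul_apply, Pi.one_apply, ha1] at h1 ⊢
    linear_combination -h1 + h2
  · push Not at hk
    obtain ⟨i, rfl, hi⟩ := hk
    simp [tt_P _ hi]

/-- an exhaustion of `Dom` by compact sets -/
def Kex (A B : Type*) [Fintype A] [Fintype B] (r : ℝ) : Set (Pt A B) :=
  {x | (∀ i : A, r⁻¹ ≤ (x (Sum.inl i)).im) ∧ ‖x‖ ≤ r}

theorem isCompact_Kex [Fintype A] [Fintype B] (r : ℝ) : IsCompact (Kex A B r) := by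
  have hc : IsClosed (Kex A B r) := by
    have : Kex A B r = (⋂ i : A, {x : Pt A B | r⁻¹ ≤ (x (Sum.inl i)).im}) ∩ {x | ‖x‖ ≤ r} := by
      ext x; simp [Kex]
    rw [this]
    refine IsClosed.inter (isClosed_iInter fun i => ?_) (isClosed_le continuous_norm continuous_const)
    exact isClosed_le continuous_const (Complex.continuous_im.comp (continuous_apply _))
  refine (isCompact_closedBall (0 : Pt A B) r).of_isClosed_subset hc fun x hx => ?_
  rw [mem_closedBall_zero_iff]; exact hx.2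

theorem Kex_subset [Fintype A] [Fintype B] {r : ℝ} (hr : 0 < r) : Kex A B r ⊆ Dom A B :=
  fun _ hx i => (inv_pos.2 hr).trans_le (hx.1 i)

theorem exists_Kex [Fintype A] [Fintype B] {K : Set (Pt A B)} (hK : IsCompact K)
    (hKD : K ⊆ Dom A B) : ∃ r, 1 ≤ r ∧ K ⊆ Kex A B r := by
  obtain ⟨M, hM⟩ := hK.isBounded.exists_norm_le
  have h1 : ∀ i : A, ∃ ε : ℝ, 0 < ε ∧ ∀ x ∈ K, ε ≤ (x (Sum.inl i)).im := by
    intro i
    rcases K.eq_empty_or_nonempty with rfl | hne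
    · exact ⟨1, one_pos, fun x hx => absurd hx (Set.notMem_empty x)⟩
    · obtain ⟨x0, hx0, hmin⟩ := hK.exists_isMinOn hne
        (f := fun x : Pt A B => (x (Sum.inl i)).im)
        (Complex.continuous_im.comp (continuous_apply _)).continuousOn
      exact ⟨_, hKD hx0 i, fun x hx => hmin hx⟩
  choose ε hε hε2 using h1
  refine ⟨1 + |M| + ∑ i, (ε i)⁻¹, ?_, ?_⟩
  · have : 0 ≤ ∑ i, (ε i)⁻¹ := Finset.sum_nonneg fun i _ => (inv_pos.2 (hε i)).le
    linarith [abs_nonneg M]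
  · intro x hx
    have hs : 0 ≤ ∑ i, (ε i)⁻¹ := Finset.sum_nonneg fun i _ => (inv_pos.2 (hε i)).le
    refine ⟨fun i => ?_, ?_⟩
    · refine le_trans ?_ (hε2 i x hx)
      rw [inv_le_comm₀ (by linarith [abs_nonneg M]) (hε i)]
      have : (ε i)⁻¹ ≤ ∑ i, (ε i)⁻¹ :=
        Finset.single_le_sum (f := fun i => (ε i)⁻¹) (fun i _ => (inv_pos.2 (hε i)).le)
          (Finset.mem_univ i)
      linarith [abs_nonneg M]
    · have := hM x hx
      linarith [le_abs_self M]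

theorem Kex_mono [Fintype A] [Fintype B] {r s : ℝ} (hr : 0 < r) (hrs : r ≤ s) :
    Kex A B r ⊆ Kex A B s := fun _ hx =>
  ⟨fun i => (inv_anti₀ hr hrs).trans (hx.1 i), hx.2.trans hrs⟩

end Pool.Agent.H906.PC
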