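import Pool.Agent.H906.PC.Sl2

/-! # Möbius transformations of the upper half-plane, in coordinates -/

open Filter Topology Matrix
open scoped MatrixGroups

namespace Pool.Agent.H906.PC

/-- the denominator `c z + d` -/
noncomputable def den (g : SL(2, ℝ)) (z : ℂ) : ℂ := (g.1 1 0 : ℂ) * z + (g.1 1 1 : ℂ)

/-- the Möbius transformation `(a z + b) / (c z + d)` -/
noncomputable def mob (g : SL(2, ℝ)) (z : ℂ) : ℂ :=
  ((g.1 0 0 : ℂ) * z + (g.1 0 1 : ℂ)) / den g z

theorem det_eq (g : SL(2, ℝ)) : g.1 0 0 * g.1 1 1 - g.1 0 1 * g.1 1 0 = 1 := by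
  have := g.2
  rw [Matrix.det_fin_two] at this
  exact this

theorem den_ne_zero (g : SL(2, ℝ)) {z : ℂ} (hz : 0 < z.im) : den g z ≠ 0 := by
  intro h
  have h1 := congrArg Complex.im h
  have h2 := congrArg Complex.re h
  simp [den] at h1 h2
  have h3 := det_eq g
  rcases h1 with h1 | h1
  · rw [h1] at h2 h3
    simp at h2
    rw [h2] at h3
    simp at h3
  · exact hz.ne' h1

theorem mob_im (g : SL(2, ℝ)) {z : ℂ} (hz : 0 < z.im) :
    (mob g z).im = z.im / Complex.normSq (den g z) := by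
  have h0 := den_ne_zero g hz
  have h3 := det_eq g
  have hn : Complex.normSq (den g z) ≠ 0 := by simpa using h0
  unfold mob
  rw [Complex.div_im]
  field_simp
  simp only [den, Complex.add_im, Complex.mul_im, Complex.ofReal_re, Complex.ofReal_im,
    Complex.add_re, Complex.mul_re]
  linear_combination z.im * h3

theorem mob_im_pos (g : SL(2, ℝ)) {z : ℂ} (hz : 0 < z.im) : 0 < (mob g z).im := by
  rw [mob_im g hz]
  exact div_pos hz (Complex.normSq_pos.2 (den_ne_zero g hz))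

theorem coe_mul_apply (g h : SL(2, ℝ)) (i j : Fin 2) :
    (g * h).1 i j = g.1 i 0 * h.1 0 j + g.1 i 1 * h.1 1 j := by
  have : (g * h).1 = g.1 * h.1 := rfl
  rw [this, Matrix.mul_apply, Fin.sum_univ_two]

theorem den_mul (g h : SL(2, ℝ)) {z : ℂ} (hz : 0 < z.im) :
    den (g * h) z = den g (mob h z) * den h z := by
  have h0 := den_ne_zero h hz
  have e : mob h z * den h z = (h.1 0 0 : ℂ) * z + (h.1 0 1 : ℂ) := by
    unfold mob; field_simp
  have : den g (mob h z) * den h z = (g.1 1 0 : ℂ) * (mob h z * den h z) + g.1 1 1 * den h z := by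
    unfold den; ring
  rw [this, e]
  unfold den
  rw [coe_mul_apply, coe_mul_apply]
  push_cast
  ring

theorem mob_mul (g h : SL(2, ℝ)) {z : ℂ} (hz : 0 < z.im) :
    mob (g * h) z = mob g (mob h z) := by
  have h0 := den_ne_zero h hz
  have h1 := den_ne_zero g (mob_im_pos h hz)
  have h2 := den_mul g h hz
  have e : mob h z * den h z = (h.1 0 0 : ℂ) * z + (h.1 0 1 : ℂ) := by
    unfold mob; field_simp
  have e2 : mob g (mob h z) = ((g.1 0 0 : ℂ) * mob h z + (g.1 0 1 : ℂ)) / den g (mob h z) := rfl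
  rw [e2]
  unfold mob at *
  rw [h2, div_eq_div_iff (mul_ne_zero h1 h0) h1, coe_mul_apply, coe_mul_apply]
  push_cast
  rw [mul_comm (den g _) (den h z), ← mul_assoc]
  congr 1
  have : ((g.1 0 0 : ℂ) * (((h.1 0 0 : ℂ) * z + (h.1 0 1 : ℂ)) / den h z) + (g.1 0 1 : ℂ)) * den h z
      = (g.1 0 0 : ℂ) * ((((h.1 0 0 : ℂ) * z + (h.1 0 1 : ℂ)) / den h z) * den h z) +
        (g.1 0 1 : ℂ) * den h z := by ring
  rw [this, e]
  unfold den
  ring

theorem den_one (z : ℂ) : den 1 z = 1 := by simp [den]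

theorem mob_one (z : ℂ) : mob 1 z = z := by simp [mob, den]

theorem hasDerivAt_mob (g : SL(2, ℝ)) {z : ℂ} (hz : 0 < z.im) :
    HasDerivAt (mob g) (1 / (den g z) ^ 2) z := by
  have h0 := den_ne_zero g hz
  have h1 : HasDerivAt (fun w : ℂ => (g.1 0 0 : ℂ) * w + (g.1 0 1 : ℂ)) (g.1 0 0 : ℂ) z := by
    simpa using ((hasDerivAt_id z).const_mul (g.1 0 0 : ℂ)).add_const (g.1 0 1 : ℂ)
  have h2 : HasDerivAt (den g) (g.1 1 0 : ℂ) z := by
    unfold den
    simpa using ((hasDerivAt_id z).const_mul (g.1 1 0 : ℂ)).add_const (g.1 1 1 : ℂ)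
  have h3 := h1.div h2 h0
  have hd : ((g.1 0 0 : ℂ) * g.1 1 1 - g.1 0 1 * g.1 1 0) = 1 := by
    exact_mod_cast det_eq g
  have e : (1 : ℂ) / den g z ^ 2 = ((g.1 0 0 : ℂ) * den g z -
      ((g.1 0 0 : ℂ) * z + (g.1 0 1 : ℂ)) * (g.1 1 0 : ℂ)) / den g z ^ 2 := by
    congr 1
    unfold den
    linear_combination -hd
  rw [e]
  exact h3

/-- the quadratic form of a matrix -/
noncomputable def qf (X : Mat) (z : ℂ) : ℂ :=
  (X 1 0 : ℂ) * z ^ 2 + ((X 1 1 : ℂ) - X 0 0) * z - X 0 1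

theorem qf_conj (g : SL(2, ℝ)) (X : Mat) {z : ℂ} (hz : 0 < z.im) :
    qf (g.1 * X * (g⁻¹).1) (mob g z) * (den g z) ^ 2 = qf X z := by
  have h0 := den_ne_zero g hz
  have e : mob g z * den g z = (g.1 0 0 : ℂ) * z + (g.1 0 1 : ℂ) := by
    unfold mob; field_simp
  have h1 : qf (g.1 * X * (g⁻¹).1) (mob g z) * (den g z) ^ 2 =
      (((g.1 * X * (g⁻¹).1 : Mat) 1 0 : ℝ) : ℂ) * (mob g z * den g z) ^ 2 +
      ((((g.1 * X * (g⁻¹).1 : Mat) 1 1 : ℝ) : ℂ) - ((g.1 * X * (g⁻¹).1 : Mat) 0 0 : ℝ)) *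
        (mob g z * den g z) * den g z - ((g.1 * X * (g⁻¹).1 : Mat) 0 1 : ℝ) * (den g z) ^ 2 := by
    unfold qf; ring
  rw [h1, e]
  have hinv : (g⁻¹).1 = !![g.1 1 1, - g.1 0 1; - g.1 1 0, g.1 0 0] := by
    have : (g⁻¹).1 = g.1.adjugate := rfl
    rw [this, Matrix.adjugate_fin_two]
  rw [hinv]
  have hd : ((g.1 0 0 : ℂ) * g.1 1 1 - g.1 0 1 * g.1 1 0) = 1 := by
    exact_mod_cast det_eq g
  simp only [Matrix.mul_apply, Fin.sum_univ_two, den, qf, Matrix.of_apply, Matrix.cons_val',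
    Matrix.cons_val_zero, Matrix.cons_val_one, Matrix.cons_val_fin_one]
  push_cast
  have hd2 : ((g.1 0 0 : ℂ) * g.1 1 1 - g.1 0 1 * g.1 1 0) ^ 2 = 1 := by rw [hd]; norm_num
  linear_combination ((X 1 0 : ℂ) * z ^ 2 + ((X 1 1 : ℂ) - X 0 0) * z - X 0 1) *
    (((g.1 0 0 : ℂ) * g.1 1 1 - g.1 0 1 * g.1 1 0) + 1) * hd

/-- the function `|q_X| / Im` -/
noncomputable def fX (X : Mat) (z : ℂ) : ℝ := ‖qf X z‖ / z.im

theorem fX_conj (g : SL(2, ℝ)) (X : Mat) {z : ℂ} (hz : 0 < z.im) :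
    fX (g.1 * X * (g⁻¹).1) (mob g z) = fX X z := by
  have h0 := den_ne_zero g hz
  have h1 := qf_conj g X hz
  unfold fX
  rw [mob_im g hz, ← h1, norm_mul, norm_pow, Complex.normSq_eq_norm_sq]
  have : ‖den g z‖ ≠ 0 := by simpa using h0
  field_simp

theorem fX_neg (X : Mat) (z : ℂ) : fX (-X) z = fX X z := by
  unfold fX
  congr 1
  have : qf (-X) z = - qf X z := by
    unfold qf
    simp only [Matrix.neg_apply]
    push_cast
    ring
  rw [this, norm_neg]

theorem continuous_qf (X : Mat) : Continuous (qf X) := by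
  unfold qf; fun_prop

/-- `fX` is unbounded on the upper half-plane if `X` is traceless and not zero. -/
theorem fX_unbounded {X : Mat} (hX : X ≠ 0) (htr : X.trace = 0) (C : ℝ) :
    ∃ z : ℂ, 0 < z.im ∧ C < fX X z := by
  -- a real point where the quadratic form does not vanish
  have h1 : ∃ x : ℝ, qf X (x : ℂ) ≠ 0 := by
    by_contra hcon
    push Not at hcon
    have e0 := hcon 0
    have e1 := hcon 1
    have e2 := hcon (-1)
    simp [qf] at e0 e1 e2
    have htr' : X 0 0 + X 1 1 = 0 := by simpa [Matrix.trace, Fin.sum_univ_two] using htr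
    have e0' : X 0 1 = 0 := e0
    have e1' : X 1 0 + (X 1 1 - X 0 0) - X 0 1 = 0 := by exact_mod_cast e1
    have e2' : X 1 0 + (X 0 0 - X 1 1) - X 0 1 = 0 := by exact_mod_cast e2
    apply hX
    ext i j
    fin_cases i <;> fin_cases j <;> simp <;> linarith
  obtain ⟨x, hx⟩ := h1
  have hpos : 0 < ‖qf X (x : ℂ)‖ := norm_pos_iff.2 hx
  have hcont : Tendsto (fun t : ℝ => ‖qf X ((x : ℂ) + t * Complex.I)‖) (𝓝[>] 0)
      (𝓝 ‖qf X (x : ℂ)‖) := by
    have : Continuous fun t : ℝ => ‖qf X ((x : ℂ) + t * Complex.I)‖ :=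
      ((continuous_qf X).comp (by fun_prop)).norm
    have h2 := this.tendsto 0
    simp only [Complex.ofReal_zero, zero_mul, add_zero] at h2
    exact h2.mono_left nhdsWithin_le_nhds
  have hinv : Tendsto (fun t : ℝ => t⁻¹) (𝓝[>] 0) atTop := tendsto_inv_nhdsGT_zero
  have hprod := hcont.pos_mul_atTop hpos hinv
  have hev := (hprod.eventually_gt_atTop C).and (self_mem_nhdsWithin)
  obtain ⟨t, ht, ht0⟩ := hev.exists
  have ht0' : 0 < t := ht0
  refine ⟨(x : ℂ) + t * Complex.I, ?_, ?_⟩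
  · simpa using ht0'
  · unfold fX
    simpa [div_eq_mul_inv] using ht

end Pool.Agent.H906.PC
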