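import Pool.Agent.H906.PC.Fin

/-! # Invariant lines in `sl_2` -/

open Filter Topology Matrix
open scoped MatrixGroups Classical

namespace Pool.Agent.H906.PC

variable {A B : Type*} [Fintype A] [Fintype B]

omit [Fintype A] [Fintype B] in
theorem no_pm {Γ : Subgroup (Grp A B)} (hcc : Cocompact Γ) (i : A) {X : Mat} (hX : X ≠ 0)
    (htr : X.trace = 0)
    (h : ∀ γ ∈ Γ, (γ.1 i).1 * X * ((γ.1 i)⁻¹).1 = X ∨ (γ.1 i).1 * X * ((γ.1 i)⁻¹).1 = -X) :
    False := by
  obtain ⟨K, hK, hKc, hcov⟩ := hcc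
  have hcont : ContinuousOn (fun x : Pt A B => fX X (x (Sum.inl i))) K := by
    unfold fX
    refine ContinuousOn.div ?_ ?_ ?_
    · exact ((continuous_qf X).comp (continuous_apply _)).norm.continuousOn
    · exact (Complex.continuous_im.comp (continuous_apply _)).continuousOn
    · intro x hx; exact (hK hx i).ne'
  obtain ⟨C, hC⟩ := hKc.exists_bound_of_continuousOn hcont
  obtain ⟨z, hz, hzC⟩ := fX_unbounded hX htr C
  set x : Pt A B := Function.update (base A B) (Sum.inl i) z with hx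
  have hxD : x ∈ Dom A B := by
    intro i'
    by_cases h' : i' = i
    · subst h'; simpa [hx] using hz
    · have : x (Sum.inl i') = Complex.I := by
        rw [hx, Function.update_of_ne (by simpa using h')]; rfl
      rw [this]; simp
  obtain ⟨γ, hγ, hγK⟩ := hcov x hxD
  have h1 := hC _ hγK
  have h2 : fX X (act γ x (Sum.inl i)) = fX X z := by
    have h3 := fX_conj (γ.1 i) X hz
    have h4 : act γ x (Sum.inl i) = mob (γ.1 i) z := by
      rw [act_inl, hx, Function.update_self]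
    rw [h4]
    rcases h γ hγ with h5 | h5
    · rwa [h5] at h3
    · rwa [h5, fX_neg] at h3
  rw [h2] at h1
  linarith [le_abs_self (fX X z), Real.norm_eq_abs (fX X z)]

theorem conj_eq_smul {g : SL(2, ℝ)} {X : Mat} (hX : X ≠ 0)
    (h : Par (g.1 * X * (g⁻¹).1) X) : ∃ c : ℝ, c ≠ 0 ∧ g.1 * X * (g⁻¹).1 = c • X := by
  have hne : ∃ k l, X k l ≠ 0 := by
    by_contra hcon
    push Not at hcon
    exact hX (by ext k l; exact hcon k l)
  obtain ⟨k, l, hkl⟩ := hne
  have hh : g.1 * (g⁻¹).1 = 1 := congrArg Subtype.val (mul_inv_cancel g)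
  have hh' : (g⁻¹).1 * g.1 = 1 := congrArg Subtype.val (inv_mul_cancel g)
  have e : g.1 * X * (g⁻¹).1 = ((g.1 * X * (g⁻¹).1) k l / X k l) • X := by
    ext i j
    rw [Matrix.smul_apply, smul_eq_mul, div_mul_eq_mul_div, eq_div_iff hkl]
    exact h i j k l
  refine ⟨(g.1 * X * (g⁻¹).1) k l / X k l, ?_, e⟩
  intro h0
  rw [h0, zero_smul] at e
  apply hX
  calc X = ((g⁻¹).1 * g.1) * X * ((g⁻¹).1 * g.1) := by rw [hh']; simp
    _ = (g⁻¹).1 * (g.1 * X * (g⁻¹).1) * g.1 := by simp only [Matrix.mul_assoc]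
    _ = 0 := by rw [e]; simp

omit [Fintype A] [Fintype B] in
theorem det_zero {Γ : Subgroup (Grp A B)} (hcc : Cocompact Γ) (i : A) {X : Mat} (hX : X ≠ 0)
    (htr : X.trace = 0) (h : ∀ γ ∈ Γ, Par ((γ.1 i).1 * X * ((γ.1 i)⁻¹).1) X) : X.det = 0 := by
  by_contra hdet
  refine no_pm hcc i hX htr fun γ hγ => ?_
  obtain ⟨c, hc, e⟩ := conj_eq_smul hX (h γ hγ)
  have h1 : (γ.1 i).1.det = 1 := (γ.1 i).2
  have h2 : ((γ.1 i)⁻¹).1.det = 1 := ((γ.1 i)⁻¹).2
  have h3 := congrArg Matrix.det e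
  rw [Matrix.det_mul, Matrix.det_mul, h1, h2, one_mul, mul_one, Matrix.det_smul] at h3
  simp only [Fintype.card_fin] at h3
  have h4 : c ^ 2 = 1 := by
    have : (c ^ 2 - 1) * X.det = 0 := by linarith
    rcases mul_eq_zero.1 this with h5 | h5
    · linarith
    · exact absurd h5 hdet
  have h6 : c = 1 ∨ c = -1 := by
    have : (c - 1) * (c + 1) = 0 := by linarith [h4, sq c]
    rcases mul_eq_zero.1 this with h5 | h5
    · left; linarith
    · right; linarith
  rcases h6 with h5 | h5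
  · left; rw [e, h5, one_smul]
  · right; rw [e, h5, neg_smul, one_smul]

omit [Fintype A] [Fintype B] in
/-- conjugation to upper triangular form -/
theorem exists_tri {Γ : Subgroup (Grp A B)} (hcc : Cocompact Γ) (i : A) (hline : HasLine Γ i) :
    ∃ h : SL(2, ℝ), ∀ γ ∈ Γ, (h * γ.1 i * h⁻¹).1 1 0 = 0 := by
  obtain ⟨X, hX, htr, hpar⟩ := hline
  have hdet := det_zero hcc i hX htr hpar
  rw [Matrix.det_fin_two] at hdet
  have htr' : X 0 0 + X 1 1 = 0 := by simpa [Matrix.trace, Fin.sum_univ_two] using htr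
  have hx11 : X 1 1 = - X 0 0 := by linarith
  -- kernel vector
  obtain ⟨v0, v1, hv, hk0, hk1, hker⟩ : ∃ v0 v1 : ℝ, 0 < v0 ^ 2 + v1 ^ 2 ∧
      X 0 0 * v0 + X 0 1 * v1 = 0 ∧ X 1 0 * v0 + X 1 1 * v1 = 0 ∧
      ∀ u0 u1 : ℝ, X 0 0 * u0 + X 0 1 * u1 = 0 → X 1 0 * u0 + X 1 1 * u1 = 0 →
        v0 * u1 - v1 * u0 = 0 := by
    by_cases hw : X 1 0 = 0
    · have hx0 : X 0 0 = 0 := by
        rw [hw, hx11] at hdet
        have : X 0 0 * X 0 0 = 0 := by linarith
        exact mul_self_eq_zero.1 this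
      have hy : X 0 1 ≠ 0 := by
        intro hy
        apply hX
        ext k l
        fin_cases k <;> fin_cases l <;> simp [hw, hx0, hy, hx11]
      refine ⟨1, 0, by norm_num, by rw [hx0]; ring, by rw [hw]; ring, fun u0 u1 h1 _ => ?_⟩
      rw [hx0] at h1
      have : u1 = 0 := by
        have : X 0 1 * u1 = 0 := by linarith
        exact (mul_eq_zero.1 this).resolve_left hy
      rw [this]; ring
    · refine ⟨X 0 0, X 1 0, ?_, ?_, ?_, fun u0 u1 _ h2 => ?_⟩
      · have : 0 < X 1 0 ^ 2 := by positivity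
        have : 0 ≤ X 0 0 ^ 2 := sq_nonneg _
        linarith
      · rw [hx11] at hdet; linarith
      · rw [hx11]; ring
      · rw [hx11] at h2; linarith
  set n := Real.sqrt (v0 ^ 2 + v1 ^ 2) with hn
  have hn0 : 0 < n := Real.sqrt_pos.2 hv
  have hn2 : n ^ 2 = v0 ^ 2 + v1 ^ 2 := Real.sq_sqrt hv.le
  set h : SL(2, ℝ) := ⟨!![v0 / n, v1 / n; -v1 / n, v0 / n], by
    rw [Matrix.det_fin_two]
    simp only [Matrix.of_apply, Matrix.cons_val', Matrix.cons_val_zero, Matrix.cons_val_one,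
      Matrix.cons_val_fin_one]
    field_simp
    linarith⟩ with hh
  refine ⟨h, fun γ hγ => ?_⟩
  obtain ⟨c, hc, e⟩ := conj_eq_smul hX (hpar γ hγ)
  set g := γ.1 i with hg
  have hgi : (g⁻¹).1 * g.1 = 1 := congrArg Subtype.val (inv_mul_cancel g)
  have e2 : g.1 * X = c • (X * g.1) := by
    calc g.1 * X = g.1 * X * ((g⁻¹).1 * g.1) := by rw [hgi]; simp
      _ = (g.1 * X * (g⁻¹).1) * g.1 := by simp only [Matrix.mul_assoc]
      _ = c • (X * g.1) := by rw [e, Matrix.smul_mul]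
  have f0 := congrArg (fun M : Mat => M 0 0 * v0 + M 0 1 * v1) e2
  have f1 := congrArg (fun M : Mat => M 1 0 * v0 + M 1 1 * v1) e2
  simp only [Matrix.mul_apply, Fin.sum_univ_two, Matrix.smul_apply, smul_eq_mul] at f0 f1
  have k0 : X 0 0 * (g.1 0 0 * v0 + g.1 0 1 * v1) + X 0 1 * (g.1 1 0 * v0 + g.1 1 1 * v1) = 0 := by
    have : c * (X 0 0 * (g.1 0 0 * v0 + g.1 0 1 * v1) +
        X 0 1 * (g.1 1 0 * v0 + g.1 1 1 * v1)) = 0 := by
      linear_combination (-1 : ℝ) * f0 + g.1 0 0 * hk0 + g.1 0 1 * hk1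
    exact (mul_eq_zero.1 this).resolve_left hc
  have k1 : X 1 0 * (g.1 0 0 * v0 + g.1 0 1 * v1) + X 1 1 * (g.1 1 0 * v0 + g.1 1 1 * v1) = 0 := by
    have : c * (X 1 0 * (g.1 0 0 * v0 + g.1 0 1 * v1) +
        X 1 1 * (g.1 1 0 * v0 + g.1 1 1 * v1)) = 0 := by
      linear_combination (-1 : ℝ) * f1 + g.1 1 0 * hk0 + g.1 1 1 * hk1
    exact (mul_eq_zero.1 this).resolve_left hc
  have key := hker _ _ k0 k1
  have hinv : (h⁻¹).1 = !![h.1 1 1, - h.1 0 1; - h.1 1 0, h.1 0 0] := by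
    have : (h⁻¹).1 = h.1.adjugate := rfl
    rw [this, Matrix.adjugate_fin_two]
  rw [coe_mul_apply, coe_mul_apply, coe_mul_apply, hinv]
  have a00 : h.1 0 0 = v0 / n := rfl
  have a01 : h.1 0 1 = v1 / n := rfl
  have a10 : h.1 1 0 = -v1 / n := rfl
  have a11 : h.1 1 1 = v0 / n := rfl
  simp only [Matrix.of_apply, Matrix.cons_val', Matrix.cons_val_zero, Matrix.cons_val_one,
      Matrix.cons_val_fin_one, a00, a10, a11]
  field_simp
  linear_combination key

end Pool.Agent.H906.PC
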