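import Pool.Agent.H906.PC.Series

/-! # Non-vanishing of Poincaré series -/

open Filter Topology Matrix
open scoped MatrixGroups Classical

namespace Pool.Agent.H906.PC

theorem e1_one (t : ℂ) : e1 t 1 t = t - (starRingEnd ℂ) t := by
  simp [e1]; ring

theorem e1_fix {t : ℂ} (ht : 0 < t.im) {q : SL(2, ℝ)} (hq : mob q t = t) :
    e1 t q t = e1 t 1 t * den q t := by
  rw [e1_eq t q ht, hq, e1_one]

theorem e1_self {t : ℂ} (ht : 0 < t.im) (q : SL(2, ℝ)) :
    ‖e1 t q t‖ ^ 2 = ‖mob q t - t‖ ^ 2 * ‖den q t‖ ^ 2 + 4 * t.im ^ 2 := by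
  have h1 := mob_im q ht
  have hd : Complex.normSq (den q t) ≠ 0 := by
    rw [Complex.normSq_eq_zero.ne]; exact den_ne_zero q ht
  have h2 : (mob q t).im * ‖den q t‖ ^ 2 = t.im := by
    rw [h1, ← Complex.normSq_eq_norm_sq]; field_simp
  rw [e1_eq t q ht, norm_mul, mul_pow]
  have h3 : ‖mob q t - (starRingEnd ℂ) t‖ ^ 2 = ‖mob q t - t‖ ^ 2 + 4 * (mob q t).im * t.im := by
    rw [← Complex.normSq_eq_norm_sq, ← Complex.normSq_eq_norm_sq, Complex.normSq_apply,
      Complex.normSq_apply]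
    simp
    ring
  rw [h3, add_mul]
  have : 4 * (mob q t).im * t.im * ‖den q t‖ ^ 2 = 4 * ((mob q t).im * ‖den q t‖ ^ 2) * t.im := by
    ring
  rw [this, h2]
  ring

theorem e1_one_norm {t : ℂ} (ht : 0 < t.im) : ‖e1 t 1 t‖ ^ 2 = 4 * t.im ^ 2 := by
  have := e1_self ht 1
  rw [mob_one, sub_self] at this
  simpa using this

theorem ratio_le {t : ℂ} (ht : 0 < t.im) (q : SL(2, ℝ)) :
    ‖e1 t 1 t‖ * ‖e1 t q t‖⁻¹ ≤ 1 ∧ (mob q t ≠ t → ‖e1 t 1 t‖ * ‖e1 t q t‖⁻¹ < 1) := by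
  have h1 := e1_self ht q
  have h2 := e1_one_norm ht
  have hpos : 0 < ‖e1 t q t‖ := norm_pos_iff.2 (e1_ne_zero ht q ht)
  constructor
  · rw [← div_eq_mul_inv, div_le_one hpos]
    refine le_of_sq_le_sq ?_ hpos.le
    rw [h1, h2]
    have : 0 ≤ ‖mob q t - t‖ ^ 2 * ‖den q t‖ ^ 2 := by positivity
    linarith
  · intro hne
    rw [← div_eq_mul_inv, div_lt_one hpos]
    refine lt_of_pow_lt_pow_left₀ 2 hpos.le ?_
    rw [h1, h2]
    have h3 : 0 < ‖mob q t - t‖ := norm_pos_iff.2 (sub_ne_zero.2 hne)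
    have h4 : 0 < ‖den q t‖ := norm_pos_iff.2 (den_ne_zero q ht)
    have : 0 < ‖mob q t - t‖ ^ 2 * ‖den q t‖ ^ 2 := by positivity
    linarith

variable {A B : Type*} [Fintype A] [Fintype B]

/-- non-vanishing at a given point -/
theorem exists_nonzero {H : Subgroup (A → SL(2, ℝ))}
    (hd : ∀ᶠ g in 𝓝 (1 : A → SL(2, ℝ)), g ∈ H → g = 1) {x0 : Pt A B} (hx0 : x0 ∈ Dom A B)
    {m : ℕ} (hm : 0 < m) : ∃ l : ℕ, 0 < l ∧ m ∣ l ∧
      DifferentiableOn ℂ (FF (B := B) H (fun i => x0 (Sum.inl i)) l) (Dom A B) ∧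
      FF H (fun i => x0 (Sum.inl i)) l x0 ≠ 0 := by
  obtain ⟨s, hs⟩ := summable_nn hd
  set τ : A → ℂ := fun i => x0 (Sum.inl i) with hτdef
  have hτ : ∀ i, 0 < (τ i).im := hx0
  -- the ratios
  set a : H → ℂ := fun q => PP τ 1 x0 * (PP τ (q : A → SL(2, ℝ)) x0)⁻¹ with ha
  have hanorm : ∀ q : H, ‖a q‖ = ∏ i, (‖e1 (τ i) 1 (τ i)‖ *
      ‖e1 (τ i) ((q : A → SL(2, ℝ)) i) (τ i)‖⁻¹) := by
    intro q
    simp only [ha, norm_mul, norm_inv, PP, norm_prod, Finset.prod_mul_distrib,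
      Finset.prod_inv_distrib]
    rfl
  have ha1 : ∀ q : H, ‖a q‖ ≤ 1 := by
    intro q
    rw [hanorm]
    exact Finset.prod_le_one (fun i _ => by positivity) fun i _ => (ratio_le (hτ i) _).1
  have ha2 : ∀ q : H, (∃ i, mob ((q : A → SL(2, ℝ)) i) (τ i) ≠ τ i) → ‖a q‖ < 1 := by
    rintro q ⟨i, hi⟩
    rw [hanorm, ← Finset.mul_prod_erase _ _ (Finset.mem_univ i)]
    have h1 := (ratio_le (hτ i) ((q : A → SL(2, ℝ)) i)).2 hi
    have h2 : ∏ j ∈ Finset.univ.erase i, (‖e1 (τ j) 1 (τ j)‖ *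
        ‖e1 (τ j) ((q : A → SL(2, ℝ)) j) (τ j)‖⁻¹) ≤ 1 :=
      Finset.prod_le_one (fun i _ => by positivity) fun i _ => (ratio_le (hτ i) _).1
    calc _ ≤ ‖e1 (τ i) 1 (τ i)‖ * ‖e1 (τ i) ((q : A → SL(2, ℝ)) i) (τ i)‖⁻¹ * 1 :=
          mul_le_mul_of_nonneg_left h2 (by positivity)
      _ < 1 := by rw [mul_one]; exact h1
  -- the stabiliser
  let St : Subgroup H :=
    { carrier := {q | ∀ i, mob ((q : A → SL(2, ℝ)) i) (τ i) = τ i}
      mul_mem' := by
        intro p q hp hq i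
        change mob ((p : A → SL(2, ℝ)) i * (q : A → SL(2, ℝ)) i) (τ i) = τ i
        rw [mob_mul _ _ (hτ i), hq i, hp i]
      one_mem' := fun i => mob_one _
      inv_mem' := by
        intro p hp i
        change mob (((p : A → SL(2, ℝ)) i)⁻¹) (τ i) = τ i
        have h1 : mob (((p : A → SL(2, ℝ)) i)⁻¹) (mob ((p : A → SL(2, ℝ)) i) (τ i)) = τ i := by
          rw [← mob_mul _ _ (hτ i), inv_mul_cancel, mob_one]
        rwa [hp i] at h1 }
  have hSt : ∀ q : H, q ∉ St → ‖a q‖ < 1 := by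
    intro q hq
    apply ha2 q
    by_contra hcon
    push Not at hcon
    exact hq hcon
  -- domination
  obtain ⟨r, hr, hrK⟩ := exists_Kex (isCompact_singleton (x := x0)) (Set.singleton_subset_iff.2 hx0)
  have hx0r : ∀ i, r⁻¹ ≤ (x0 (Sum.inl i)).im ∧ ‖x0 (Sum.inl i)‖ ≤ r := fun i =>
    ⟨(hrK rfl).1 i, (norm_le_pi_norm x0 (Sum.inl i)).trans (hrK rfl).2⟩
  have hsum : ∀ l : ℕ, s ≤ 2 * l → Summable fun q : H => ‖a q‖ ^ (2 * l) := by
    intro l hl
    obtain ⟨u, hu, hub⟩ := term_bound (B := B) hs hl hr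
    refine Summable.of_nonneg_of_le (fun q => by positivity) (fun q => ?_)
      (hu.mul_left (‖PP τ 1 x0‖ ^ (2 * l)))
    have h1 := hub τ hx0r x0 hx0r q
    have h2 : ‖a q‖ ^ (2 * l) = ‖PP τ 1 x0‖ ^ (2 * l) *
        ‖((PP τ (q : A → SL(2, ℝ)) x0)⁻¹) ^ (2 * l)‖ := by
      rw [ha, norm_mul, mul_pow, norm_pow]
    rw [h2]
    exact mul_le_mul_of_nonneg_left h1 (by positivity)
  have hStfin : (St : Set H).Finite := by
    have h1 := (hsum s (by omega)).tendsto_cofinite_zero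
    have h2 := h1.eventually_lt_const (show (0 : ℝ) < 1 by norm_num)
    rw [Filter.eventually_cofinite] at h2
    refine h2.subset fun q hq => ?_
    simp only [Set.mem_setOf_eq, not_lt]
    have h3 : ‖a q‖ = 1 := by
      rw [hanorm]
      refine Finset.prod_eq_one fun i _ => ?_
      have h4 : mob ((q : A → SL(2, ℝ)) i) (τ i) = τ i := hq i
      have h5 := e1_self (hτ i) ((q : A → SL(2, ℝ)) i)
      rw [h4, sub_self, norm_zero] at h5
      have h6 := e1_one_norm (hτ i)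
      have h7 : ‖e1 (τ i) ((q : A → SL(2, ℝ)) i) (τ i)‖ = ‖e1 (τ i) 1 (τ i)‖ := by
        have h8 : ‖e1 (τ i) ((q : A → SL(2, ℝ)) i) (τ i)‖ ^ 2 = ‖e1 (τ i) 1 (τ i)‖ ^ 2 := by
          rw [h5, h6]; ring
        exact (pow_left_inj₀ (norm_nonneg _) (norm_nonneg _) two_ne_zero).1 h8
      rw [h7]
      exact mul_inv_cancel₀ (norm_ne_zero_iff.2 (e1_ne_zero (hτ i) _ (hτ i)))
    rw [h3, one_pow]
  have : Finite St := hStfin
  set c := Nat.card St with hc
  have hc0 : 0 < c := Nat.card_pos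
  -- the ratios on the stabiliser are roots of unity
  let D : St →* ℂ :=
    { toFun := fun q => ∏ i, den (((q : H) : A → SL(2, ℝ)) i) (τ i)
      map_one' := by
        refine Finset.prod_eq_one fun i _ => den_one _
      map_mul' := by
        intro p q
        rw [← Finset.prod_mul_distrib]
        refine Finset.prod_congr rfl fun i _ => ?_
        change den (((p : H) : A → SL(2, ℝ)) i * ((q : H) : A → SL(2, ℝ)) i) (τ i) = _
        have hq : mob (((q : H) : A → SL(2, ℝ)) i) (τ i) = τ i := q.2 i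
        rw [den_mul _ _ (hτ i), hq] }
  have hroot : ∀ q : H, q ∈ St → a q ^ c = 1 := by
    intro q hq
    have h1 : (D ⟨q, hq⟩) ^ c = 1 := by
      rw [← map_pow, hc, pow_card_eq_one', map_one]
    have h2 : a q = (D ⟨q, hq⟩)⁻¹ := by
      have h3 : PP τ (q : A → SL(2, ℝ)) x0 = PP τ 1 x0 * D ⟨q, hq⟩ := by
        change ∏ i, e1 (τ i) ((q : A → SL(2, ℝ)) i) (τ i) =
          (∏ i, e1 (τ i) ((1 : A → SL(2, ℝ)) i) (τ i)) * ∏ i, den ((q : A → SL(2, ℝ)) i) (τ i)
        rw [← Finset.prod_mul_distrib]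
        exact Finset.prod_congr rfl fun i _ => e1_fix (hτ i) (hq i)
      have h4 := PP_ne_zero hτ 1 hx0
      rw [ha]
      simp only
      rw [h3, mul_inv, ← mul_assoc, mul_inv_cancel₀ h4, one_mul]
    rw [h2, inv_pow, h1, inv_one]
  set N := m * c * (s + 1) with hN
  have hN0 : 0 < N := by positivity
  have hsN : s ≤ 2 * N := by
    have h1 : 1 ≤ m * c := Nat.succ_le_of_lt (by positivity)
    have h2 : s + 1 ≤ m * c * (s + 1) := Nat.le_mul_of_pos_left _ (by omega)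
    omega
  have hlim : Tendsto (fun n : ℕ => ∑' q : H, a q ^ (2 * (N * (n + 1)))) atTop
      (𝓝 (∑' q : H, if q ∈ St then (1 : ℂ) else 0)) := by
    refine tendsto_tsum_of_dominated_convergence (hsum N hsN) (fun q => ?_) ?_
    · by_cases hq : q ∈ St
      · have h1 : ∀ n : ℕ, a q ^ (2 * (N * (n + 1))) = 1 := by
          intro n
          have : 2 * (N * (n + 1)) = c * (2 * m * (s + 1) * (n + 1)) := by rw [hN]; ring
          rw [this, pow_mul, hroot q hq, one_pow]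
        simp only [h1, hq, if_true]
        exact tendsto_const_nhds
      · simp only [hq, if_false]
        have h1 := hSt q hq
        have h2 : Tendsto (fun n : ℕ => a q ^ n) atTop (𝓝 0) :=
          tendsto_pow_atTop_nhds_zero_of_norm_lt_one h1
        refine h2.comp (tendsto_atTop_mono (fun n => ?_) tendsto_id)
        change n ≤ 2 * (N * (n + 1))
        nlinarith
    · refine Eventually.of_forall fun n q => ?_
      rw [norm_pow]
      refine pow_le_pow_of_le_one (norm_nonneg _) (ha1 q) ?_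
      nlinarith
  have hcard : (∑' q : H, if q ∈ St then (1 : ℂ) else 0) ≠ 0 := by
    rw [tsum_eq_sum (s := hStfin.toFinset) (by
      intro q hq
      rw [if_neg]
      intro h
      exact hq (by simpa using h))]
    rw [Finset.sum_ite_of_true (by intro q hq; simpa using hq)]
    simp only [Finset.sum_const, nsmul_eq_mul, mul_one]
    have h1 : 0 < hStfin.toFinset.card := by
      rw [Finset.card_pos]
      exact ⟨1, by simpa using St.one_mem⟩
    exact_mod_cast h1.ne'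
  obtain ⟨n, hn⟩ := (hlim.eventually_ne hcard).exists
  refine ⟨N * (n + 1), by positivity, ?_, fun x hx => ?_, fun h0 => hn ?_⟩
  · exact ⟨c * (s + 1) * (n + 1), by rw [hN]; ring⟩
  · exact (FF_differentiable hs (by nlinarith) hτ hx).differentiableWithinAt
  · have h1 : ∑' q : H, a q ^ (2 * (N * (n + 1))) =
        (PP τ 1 x0) ^ (2 * (N * (n + 1))) * FF H τ (N * (n + 1)) x0 := by
      unfold FF
      rw [← tsum_mul_left]
      refine tsum_congr fun q => ?_
      rw [ha, ← mul_pow]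
    rw [h1, h0, mul_zero]

end Pool.Agent.H906.PC
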