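import Pool.Agent.H906.PC.Count

/-! # Poincaré series -/

open Filter Topology Matrix
open scoped MatrixGroups Classical

namespace Pool.Agent.H906.PC

/-- `(g z - \bar t) (c z + d)` -/
noncomputable def e1 (t : ℂ) (q : SL(2, ℝ)) (z : ℂ) : ℂ :=
  ((q.1 0 0 : ℂ) - (starRingEnd ℂ) t * q.1 1 0) * z + ((q.1 0 1 : ℂ) - (starRingEnd ℂ) t * q.1 1 1)

theorem e1_eq (t : ℂ) (q : SL(2, ℝ)) {z : ℂ} (hz : 0 < z.im) :
    e1 t q z = (mob q z - (starRingEnd ℂ) t) * den q z := by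
  have h0 := den_ne_zero q hz
  have e : mob q z * den q z = (q.1 0 0 : ℂ) * z + (q.1 0 1 : ℂ) := by
    unfold mob; field_simp
  rw [sub_mul, e]
  unfold e1 den
  ring

theorem mob_sub_ne_zero {t w : ℂ} (ht : 0 < t.im) (hw : 0 < w.im) :
    w - (starRingEnd ℂ) t ≠ 0 := by
  intro h
  have := congrArg Complex.im h
  simp at this
  linarith

theorem e1_ne_zero {t : ℂ} (ht : 0 < t.im) (q : SL(2, ℝ)) {z : ℂ} (hz : 0 < z.im) :
    e1 t q z ≠ 0 := by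
  rw [e1_eq t q hz]
  exact mul_ne_zero (mob_sub_ne_zero ht (mob_im_pos q hz)) (den_ne_zero q hz)

theorem e1_mul (t : ℂ) (q q0 : SL(2, ℝ)) {z : ℂ} (hz : 0 < z.im) :
    e1 t (q * q0) z = e1 t q (mob q0 z) * den q0 z := by
  rw [e1_eq _ _ hz, e1_eq _ _ (mob_im_pos q0 hz), mob_mul _ _ hz, den_mul _ _ hz]
  ring

/-- lower bounds for real linear forms -/
theorem lin_lower {z : ℂ} {r : ℝ} (hr : 1 ≤ r) (hz : r⁻¹ ≤ z.im) (hz2 : ‖z‖ ≤ r) (a b : ℝ) :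
    |a| ≤ (1 + (1 + r) * r) * ‖(a : ℂ) * z + b‖ ∧ |b| ≤ (1 + (1 + r) * r) * ‖(a : ℂ) * z + b‖ := by
  have hr0 : 0 < r := by linarith
  have him : (((a : ℂ) * z + b)).im = a * z.im := by simp
  have h1 : |a| * z.im ≤ ‖(a : ℂ) * z + b‖ := by
    have := Complex.abs_im_le_norm ((a : ℂ) * z + b)
    have hzp : 0 < z.im := (inv_pos.2 hr0).trans_le hz
    rwa [him, abs_mul, abs_of_pos hzp] at this
  have h2 : |a| ≤ r * ‖(a : ℂ) * z + b‖ := by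
    have h3 : |a| * r⁻¹ ≤ |a| * z.im := mul_le_mul_of_nonneg_left hz (abs_nonneg a)
    have h4 : |a| * r⁻¹ ≤ ‖(a : ℂ) * z + b‖ := h3.trans h1
    calc |a| = r * (|a| * r⁻¹) := by field_simp
      _ ≤ r * ‖(a : ℂ) * z + b‖ := mul_le_mul_of_nonneg_left h4 hr0.le
  have h5 : |b| ≤ ‖(a : ℂ) * z + b‖ + |a| * ‖z‖ := by
    have : (b : ℂ) = ((a : ℂ) * z + b) - (a : ℂ) * z := by ring
    have h6 : ‖(b : ℂ)‖ ≤ ‖(a : ℂ) * z + b‖ + ‖(a : ℂ) * z‖ := by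
      conv_lhs => rw [this]
      exact norm_sub_le _ _
    simpa using h6
  have hn := norm_nonneg ((a : ℂ) * z + b)
  constructor
  · nlinarith [mul_nonneg hn hr0.le, mul_nonneg (mul_nonneg hn hr0.le) hr0.le]
  · have h7 : |a| * ‖z‖ ≤ (r * ‖(a : ℂ) * z + b‖) * r :=
      mul_le_mul h2 hz2 (norm_nonneg _) (by positivity)
    nlinarith [mul_nonneg hn hr0.le, mul_nonneg (mul_nonneg hn hr0.le) hr0.le]

theorem e1_lower {t z : ℂ} {r : ℝ} (hr : 1 ≤ r) (hz : r⁻¹ ≤ z.im) (hz2 : ‖z‖ ≤ r)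
    (ht : r⁻¹ ≤ t.im) (ht2 : ‖t‖ ≤ r) (q : SL(2, ℝ)) (a b : Fin 2) :
    |q.1 a b| ≤ (1 + (1 + r) * r) ^ 2 * ‖e1 t q z‖ := by
  have hr0 : 0 < r := by linarith
  have hzp : 0 < z.im := (inv_pos.2 hr0).trans_le hz
  have htp : 0 < t.im := (inv_pos.2 hr0).trans_le ht
  set m1 : ℂ := (q.1 0 0 : ℂ) * z + (q.1 0 1 : ℂ) with hm1
  set m2 : ℂ := (q.1 1 0 : ℂ) * z + (q.1 1 1 : ℂ) with hm2
  have hm20 : m2 ≠ 0 := den_ne_zero q hzp
  have hw : m1 = mob q z * m2 := by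
    have : mob q z = m1 / m2 := rfl
    rw [this]; field_simp
  have he : e1 t q z = (mob q z - (starRingEnd ℂ) t) * m2 := e1_eq t q hzp
  have hwim := mob_im_pos q hzp
  have h1 : t.im ≤ ‖mob q z - (starRingEnd ℂ) t‖ := by
    have := Complex.im_le_norm (mob q z - (starRingEnd ℂ) t)
    simp at this
    linarith
  -- bound for `m2`
  have h2 : ‖m2‖ ≤ r * ‖e1 t q z‖ := by
    rw [he, norm_mul]
    have h3 : r⁻¹ * ‖m2‖ ≤ ‖mob q z - (starRingEnd ℂ) t‖ * ‖m2‖ :=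
      mul_le_mul_of_nonneg_right (ht.trans h1) (norm_nonneg _)
    calc ‖m2‖ = r * (r⁻¹ * ‖m2‖) := by field_simp
      _ ≤ _ := mul_le_mul_of_nonneg_left h3 hr0.le
  have h4 : ‖m1‖ ≤ ‖e1 t q z‖ + r * ‖m2‖ := by
    have : m1 = e1 t q z + (starRingEnd ℂ) t * m2 := by rw [he, hw]; ring
    rw [this]
    refine (norm_add_le _ _).trans ?_
    rw [norm_mul, Complex.norm_conj]
    have := mul_le_mul_of_nonneg_right ht2 (norm_nonneg m2)
    linarith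
  have hn := norm_nonneg (e1 t q z)
  have h5 : ‖m1‖ ≤ (1 + (1 + r) * r) * ‖e1 t q z‖ := by
    nlinarith [mul_nonneg hn hr0.le, mul_le_mul_of_nonneg_left h2 hr0.le]
  have h6 : ‖m2‖ ≤ (1 + (1 + r) * r) * ‖e1 t q z‖ := by
    nlinarith [mul_nonneg hn hr0.le, mul_nonneg (mul_nonneg hn hr0.le) hr0.le]
  have hk : (0 : ℝ) ≤ 1 + (1 + r) * r := by positivity
  have l1 := lin_lower hr hz hz2 (q.1 0 0) (q.1 0 1)
  have l2 := lin_lower hr hz hz2 (q.1 1 0) (q.1 1 1)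
  have f1 : (1 + (1 + r) * r) * ‖m1‖ ≤ (1 + (1 + r) * r) ^ 2 * ‖e1 t q z‖ := by
    rw [sq, mul_assoc]; exact mul_le_mul_of_nonneg_left h5 hk
  have f2 : (1 + (1 + r) * r) * ‖m2‖ ≤ (1 + (1 + r) * r) ^ 2 * ‖e1 t q z‖ := by
    rw [sq, mul_assoc]; exact mul_le_mul_of_nonneg_left h6 hk
  fin_cases a <;> fin_cases b
  · exact l1.1.trans f1
  · exact l1.2.trans f1
  · exact l2.1.trans f2
  · exact l2.2.trans f2

variable {A B : Type*} [Fintype A]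

/-- the kernel function -/
noncomputable def PP (τ : A → ℂ) (q : A → SL(2, ℝ)) (x : Pt A B) : ℂ :=
  ∏ i, e1 (τ i) (q i) (x (Sum.inl i))

theorem PP_ne_zero {τ : A → ℂ} (hτ : ∀ i, 0 < (τ i).im) (q : A → SL(2, ℝ)) {x : Pt A B}
    (hx : x ∈ Dom A B) : PP τ q x ≠ 0 :=
  Finset.prod_ne_zero_iff.2 fun i _ => e1_ne_zero (hτ i) (q i) (hx i)

attribute [local instance] Matrix.normedAddCommGroup Matrix.normedSpace

theorem half_le_norm (g : SL(2, ℝ)) : (1 : ℝ) ≤ 2 * ‖g.1‖ := by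
  have d := det_eq g
  have h : ∀ a b, |g.1 a b| ≤ ‖g.1‖ := fun a b => by
    simpa using Matrix.norm_entry_le_entrywise_sup_norm g.1 (i := a) (j := b)
  by_contra hcon
  push Not at hcon
  have h0 := norm_nonneg g.1
  have e1 : |g.1 0 0 * g.1 1 1| ≤ ‖g.1‖ * ‖g.1‖ := by
    rw [abs_mul]; exact mul_le_mul (h 0 0) (h 1 1) (abs_nonneg _) h0
  have e2 : |g.1 0 1 * g.1 1 0| ≤ ‖g.1‖ * ‖g.1‖ := by
    rw [abs_mul]; exact mul_le_mul (h 0 1) (h 1 0) (abs_nonneg _) h0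
  have := abs_le.1 e1
  have := abs_le.1 e2
  nlinarith

/-- the lower bound for the kernel function -/
theorem PP_lower {r : ℝ} (hr : 1 ≤ r) : ∃ C : ℝ, 0 < C ∧ ∀ (τ : A → ℂ),
    (∀ i, r⁻¹ ≤ (τ i).im ∧ ‖τ i‖ ≤ r) → ∀ (q : A → SL(2, ℝ)) (x : Pt A B),
    (∀ i, r⁻¹ ≤ (x (Sum.inl i)).im ∧ ‖x (Sum.inl i)‖ ≤ r) → 1 + nn q ≤ C * ‖PP τ q x‖ := by
  set k := (1 + (1 + r) * r) ^ 2 with hk
  have hk0 : 0 < k := by positivity
  refine ⟨2 * (2 * k) ^ (Fintype.card A), by positivity, fun τ hτ q x hx => ?_⟩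
  have h1 : ∀ i, ‖(q i).1‖ ≤ k * ‖e1 (τ i) (q i) (x (Sum.inl i))‖ := by
    intro i
    rw [Matrix.norm_le_iff (by positivity)]
    intro a b
    rw [Real.norm_eq_abs]
    exact e1_lower hr (hx i).1 (hx i).2 (hτ i).1 (hτ i).2 (q i) a b
  have h2 : ∀ i, 1 ≤ (2 * k) * ‖e1 (τ i) (q i) (x (Sum.inl i))‖ := by
    intro i
    have := half_le_norm (q i)
    have := h1 i
    linarith
  have hprod : ∀ s : Finset A, 1 ≤ ∏ i ∈ s, (2 * k) * ‖e1 (τ i) (q i) (x (Sum.inl i))‖ := by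
    intro s
    refine Finset.prod_induction _ (fun y : ℝ => 1 ≤ y) (fun a b ha hb => ?_) le_rfl
      fun i _ => h2 i
    exact one_le_mul_of_one_le_of_one_le ha hb
  have e : ∏ i, (2 * k) * ‖e1 (τ i) (q i) (x (Sum.inl i))‖ =
      (2 * k) ^ (Fintype.card A) * ‖PP τ q x‖ := by
    rw [Finset.prod_mul_distrib, Finset.prod_const, Finset.card_univ, PP, norm_prod]
  have h3 : nn q ≤ (2 * k) ^ (Fintype.card A) * ‖PP τ q x‖ := by
    unfold nn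
    rw [pi_norm_le_iff_of_nonneg (by positivity)]
    intro i
    rw [← e, ← Finset.mul_prod_erase _ _ (Finset.mem_univ i)]
    have h4 := hprod (Finset.univ.erase i)
    have h5 := h1 i
    have h6 : 0 ≤ k * ‖e1 (τ i) (q i) (x (Sum.inl i))‖ := by positivity
    nlinarith
  have h4 := hprod Finset.univ
  rw [e] at h4
  linarith

end Pool.Agent.H906.PC
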