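import Pool.Agent.H906.PC.Poinc

/-! # Poincaré series: convergence, automorphy and non-vanishing -/

open Filter Topology Matrix
open scoped MatrixGroups Classical

namespace Pool.Agent.H906.PC

variable {A B : Type*} [Fintype A] [Fintype B]

/-- Cauchy estimate -/
theorem cauchy_bound {E : Type*} [NormedAddCommGroup E] [NormedSpace ℂ E] {f : E → ℂ} {x0 : E}
    {ρ M : ℝ} (hρ : 0 < ρ) (hf : DifferentiableOn ℂ f (Metric.ball x0 ρ))
    (hM : ∀ y ∈ Metric.ball x0 ρ, ‖f y‖ ≤ M) (y : E) (hy : y ∈ Metric.ball x0 (ρ / 2)) :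
    ‖fderiv ℂ f y‖ ≤ M * (4 / ρ) := by
  have hM0 : 0 ≤ M := (norm_nonneg _).trans (hM x0 (Metric.mem_ball_self hρ))
  refine ContinuousLinearMap.opNorm_le_bound _ (by positivity) fun v => ?_
  by_cases hv : v = 0
  · subst hv; simp
  have hv0 : 0 < ‖v‖ := norm_pos_iff.2 hv
  set R := ρ / (4 * ‖v‖) with hR
  have hR0 : 0 < R := by positivity
  have hsub : ∀ t ∈ Metric.closedBall (0 : ℂ) R, y + t • v ∈ Metric.ball x0 ρ := by
    intro t ht
    rw [mem_closedBall_zero_iff] at ht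
    rw [Metric.mem_ball, dist_eq_norm] at hy ⊢
    have h1 : ‖y + t • v - x0‖ ≤ ‖y - x0‖ + ‖t • v‖ := by
      have : y + t • v - x0 = (y - x0) + t • v := by abel
      rw [this]; exact norm_add_le _ _
    have h2 : ‖t • v‖ ≤ ρ / 4 := by
      rw [norm_smul]
      calc ‖t‖ * ‖v‖ ≤ R * ‖v‖ := mul_le_mul_of_nonneg_right ht hv0.le
        _ = ρ / 4 := by rw [hR]; field_simp
    linarith
  have hline : ∀ t : ℂ, HasDerivAt (fun t : ℂ => y + t • v) v t := fun t => by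
    simpa using ((hasDerivAt_id t).smul_const v).const_add y
  have hdiff : ∀ t ∈ Metric.closedBall (0 : ℂ) R,
      HasDerivAt (fun t : ℂ => f (y + t • v)) (fderiv ℂ f (y + t • v) v) t := by
    intro t ht
    have h1 := (hf.differentiableAt (Metric.isOpen_ball.mem_nhds (hsub t ht))).hasFDerivAt
    exact h1.comp_hasDerivAt t (hline t)
  have hcl : DiffContOnCl ℂ (fun t : ℂ => f (y + t • v)) (Metric.ball 0 R) := by
    refine ⟨fun t ht => (hdiff t (Metric.ball_subset_closedBall ht)).differentiableAt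
      |>.differentiableWithinAt, ?_⟩
    rw [closure_ball _ hR0.ne']
    exact fun t ht => (hdiff t ht).continuousAt.continuousWithinAt
  have h1 := Complex.norm_deriv_le_of_forall_mem_sphere_norm_le hR0 hcl
    (C := M) fun t ht => hM _ (hsub t (Metric.sphere_subset_closedBall ht))
  have h2 := (hdiff 0 (Metric.mem_closedBall_self hR0.le)).deriv
  rw [h2, zero_smul, add_zero] at h1
  calc ‖fderiv ℂ f y v‖ ≤ M / R := h1
    _ = M * (4 / ρ) * ‖v‖ := by rw [hR]; field_simp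

theorem differentiableAt_PP (τ : A → ℂ) (q : A → SL(2, ℝ)) (x : Pt A B) :
    DifferentiableAt ℂ (fun x : Pt A B => PP τ q x) x := by
  have h : ∀ i, DifferentiableAt ℂ (fun x : Pt A B => e1 (τ i) (q i) (x (Sum.inl i))) x := by
    intro i
    unfold e1
    fun_prop
  have h2 : ∀ s : Finset A, DifferentiableAt ℂ
      (fun x : Pt A B => ∏ i ∈ s, e1 (τ i) (q i) (x (Sum.inl i))) x := by
    intro s
    induction s using Finset.induction_on with
    | empty => simp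
    | insert i s hi ih =>
      have e : (fun x : Pt A B => ∏ i ∈ insert i s, e1 (τ i) (q i) (x (Sum.inl i))) =
          fun x : Pt A B => e1 (τ i) (q i) (x (Sum.inl i)) *
            ∏ i ∈ s, e1 (τ i) (q i) (x (Sum.inl i)) := by
        funext x; rw [Finset.prod_insert hi]
      rw [e]
      exact (h i).mul ih
  exact h2 Finset.univ

/-- the Poincaré series of weight `l` -/
noncomputable def FF (H : Subgroup (A → SL(2, ℝ))) (τ : A → ℂ) (l : ℕ) (x : Pt A B) : ℂ :=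
  ∑' q : H, ((PP τ (q : A → SL(2, ℝ)) x)⁻¹) ^ (2 * l)

omit [Fintype B] in
/-- the domination of the terms -/
theorem term_bound {H : Subgroup (A → SL(2, ℝ))} {s l : ℕ}
    (hs : Summable fun q : H => ((1 + nn (q : A → SL(2, ℝ))) ^ s)⁻¹) (hl : s ≤ 2 * l) {r : ℝ}
    (hr : 1 ≤ r) : ∃ u : H → ℝ, Summable u ∧ ∀ (τ : A → ℂ),
    (∀ i, r⁻¹ ≤ (τ i).im ∧ ‖τ i‖ ≤ r) → ∀ (x : Pt A B),
    (∀ i, r⁻¹ ≤ (x (Sum.inl i)).im ∧ ‖x (Sum.inl i)‖ ≤ r) → ∀ q : H,
      ‖((PP τ (q : A → SL(2, ℝ)) x)⁻¹) ^ (2 * l)‖ ≤ u q := by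
  obtain ⟨C, hC, hlow⟩ := PP_lower (A := A) (B := B) hr
  refine ⟨_, hs.mul_left (C ^ (2 * l)), fun τ hτ x hx q => ?_⟩
  have h1 := hlow τ hτ q x hx
  have hn := nn_nonneg (q : A → SL(2, ℝ))
  have hP : 0 < ‖PP τ (q : A → SL(2, ℝ)) x‖ := by
    by_contra hcon
    have : ‖PP τ (q : A → SL(2, ℝ)) x‖ = 0 := le_antisymm (not_lt.1 hcon) (norm_nonneg _)
    rw [this] at h1
    linarith
  have h2 : ‖PP τ (q : A → SL(2, ℝ)) x‖⁻¹ ≤ C * (1 + nn (q : A → SL(2, ℝ)))⁻¹ := by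
    rw [inv_le_comm₀ hP (by positivity), mul_inv, inv_inv]
    rw [inv_mul_le_iff₀ hC]
    exact h1
  rw [norm_pow, norm_inv]
  calc (‖PP τ (q : A → SL(2, ℝ)) x‖⁻¹) ^ (2 * l)
      ≤ (C * (1 + nn (q : A → SL(2, ℝ)))⁻¹) ^ (2 * l) := pow_le_pow_left₀ (by positivity) h2 _
    _ = C ^ (2 * l) * ((1 + nn (q : A → SL(2, ℝ))) ^ (2 * l))⁻¹ := by rw [mul_pow, inv_pow]
    _ ≤ C ^ (2 * l) * ((1 + nn (q : A → SL(2, ℝ))) ^ s)⁻¹ := by
        refine mul_le_mul_of_nonneg_left ?_ (by positivity)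
        refine inv_anti₀ (by positivity) ?_
        exact pow_le_pow_right₀ (by linarith) hl

theorem FF_differentiable {H : Subgroup (A → SL(2, ℝ))} {s l : ℕ}
    (hs : Summable fun q : H => ((1 + nn (q : A → SL(2, ℝ))) ^ s)⁻¹) (hl : s ≤ 2 * l)
    {τ : A → ℂ} (hτ : ∀ i, 0 < (τ i).im) {x0 : Pt A B} (hx0 : x0 ∈ Dom A B) :
    DifferentiableAt ℂ (FF H τ l) x0 := by
  obtain ⟨ε, hε, hball⟩ := Metric.isOpen_iff.1 (isOpen_dom (A := A) (B := B)) x0 hx0
  have hsub : Metric.closedBall x0 (ε / 2) ⊆ Dom A B :=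
    (Metric.closedBall_subset_ball (by linarith)).trans hball
  -- a common exhaustion parameter
  have hτD : (Sum.elim τ (fun _ => 0) : Pt A B) ∈ Dom A B := fun i => hτ i
  obtain ⟨r, hr, hrK⟩ := exists_Kex ((isCompact_closedBall x0 (ε / 2)).union
    (isCompact_singleton (x := (Sum.elim τ (fun _ => 0) : Pt A B))))
    (Set.union_subset hsub (Set.singleton_subset_iff.2 hτD))
  have hτr : ∀ i, r⁻¹ ≤ (τ i).im ∧ ‖τ i‖ ≤ r := by
    intro i
    have h1 := hrK (Set.mem_union_right _ rfl)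
    exact ⟨h1.1 i, (norm_le_pi_norm (Sum.elim τ (fun _ => 0) : Pt A B) (Sum.inl i)).trans h1.2⟩
  have hxr : ∀ x ∈ Metric.ball x0 (ε / 2), ∀ i,
      r⁻¹ ≤ (x (Sum.inl i)).im ∧ ‖x (Sum.inl i)‖ ≤ r := by
    intro x hx i
    have h1 := hrK (Set.mem_union_left _ (Metric.ball_subset_closedBall hx))
    exact ⟨h1.1 i, (norm_le_pi_norm x (Sum.inl i)).trans h1.2⟩
  obtain ⟨u, hu, hub⟩ := term_bound (B := B) hs hl hr
  have hdiff : ∀ q : H, DifferentiableOn ℂ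
      (fun x : Pt A B => ((PP τ (q : A → SL(2, ℝ)) x)⁻¹) ^ (2 * l)) (Metric.ball x0 (ε / 2)) := by
    intro q x hx
    have hxD : x ∈ Dom A B := hsub (Metric.ball_subset_closedBall hx)
    exact (((differentiableAt_PP τ _ x).inv (PP_ne_zero hτ _ hxD)).pow _).differentiableWithinAt
  have hρ : 0 < ε / 2 := by linarith
  have key := hasFDerivAt_tsum_of_isPreconnected (𝕜 := ℂ)
    (f := fun (q : H) (x : Pt A B) => ((PP τ (q : A → SL(2, ℝ)) x)⁻¹) ^ (2 * l))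
    (f' := fun q x => fderiv ℂ (fun x : Pt A B => ((PP τ (q : A → SL(2, ℝ)) x)⁻¹) ^ (2 * l)) x)
    (u := fun q => u q * (4 / (ε / 2))) (s := Metric.ball x0 (ε / 2 / 2)) (x₀ := x0) (x := x0)
    (hu.mul_right _) Metric.isOpen_ball (convex_ball x0 _).isPreconnected ?_ ?_
    (Metric.mem_ball_self (by linarith)) ?_ (Metric.mem_ball_self (by linarith))
  · exact key.differentiableAt
  · intro q x hx
    have hx' : x ∈ Metric.ball x0 (ε / 2) := Metric.ball_subset_ball (by linarith) hx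
    exact ((hdiff q).differentiableAt (Metric.isOpen_ball.mem_nhds hx')).hasFDerivAt
  · intro q x hx
    exact cauchy_bound hρ (hdiff q) (fun y hy => hub τ hτr y (hxr y hy) q) x hx
  · exact Summable.of_norm_bounded hu fun q => hub τ hτr x0 (hxr x0 (Metric.mem_ball_self hρ)) q

omit [Fintype B] in
theorem PP_mul (τ : A → ℂ) (q : A → SL(2, ℝ)) (γ : Grp A B) {x : Pt A B} (hx : x ∈ Dom A B) :
    PP τ (q * γ.1) x = PP τ q (act γ x) * ∏ i, den (γ.1 i) (x (Sum.inl i)) := by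
  unfold PP
  rw [← Finset.prod_mul_distrib]
  refine Finset.prod_congr rfl fun i _ => ?_
  exact e1_mul _ _ _ (hx i)

omit [Fintype B] in
theorem FF_act {H : Subgroup (A → SL(2, ℝ))} (τ : A → ℂ) (l : ℕ) {γ : Grp A B} (hγ : γ.1 ∈ H)
    {x : Pt A B} (hx : x ∈ Dom A B) :
    FF H τ l (act γ x) = FF H τ l x * (∏ i, den (γ.1 i) (x (Sum.inl i))) ^ (2 * l) := by
  have h0 : (∏ i, den (γ.1 i) (x (Sum.inl i))) ≠ 0 :=
    Finset.prod_ne_zero_iff.2 fun i _ => den_ne_zero _ (hx i)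
  unfold FF
  rw [← (Equiv.mulRight (⟨γ.1, hγ⟩ : H)).tsum_eq (fun q : H =>
    ((PP τ (q : A → SL(2, ℝ)) x)⁻¹) ^ (2 * l)), ← tsum_mul_right]
  refine tsum_congr fun q => ?_
  have h1 : ((Equiv.mulRight (⟨γ.1, hγ⟩ : H) q : H) : A → SL(2, ℝ)) = (q : A → SL(2, ℝ)) * γ.1 := rfl
  rw [h1, PP_mul τ _ γ hx, mul_inv, mul_pow, mul_assoc, ← mul_pow, inv_mul_cancel₀ h0, one_pow,
    mul_one]

theorem jac_eq (γ : Grp A B) (x : Pt A B) :
    jac γ x = ((∏ i, den (γ.1 i) (x (Sum.inl i))) ^ 2)⁻¹ * ∏ j, lin (γ.2 j) := by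
  unfold jac
  rw [Fintype.prod_sum_type]
  congr 1
  rw [← Finset.prod_pow, ← Finset.prod_inv_distrib]
  refine Finset.prod_congr rfl fun i _ => ?_
  change 1 / (den (γ.1 i) (x (Sum.inl i))) ^ 2 = _
  rw [one_div]

end Pool.Agent.H906.PC
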