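import Mathlib

/-! # Discreteness of subgroups of a product of copies of `SL(2,ℝ)` -/

open Filter Topology Matrix
open scoped MatrixGroups

namespace Pool.Agent.H906.PC

attribute [local instance] Matrix.normedAddCommGroup Matrix.normedSpace

/-- real two by two matrices -/
abbrev Mat := Matrix (Fin 2) (Fin 2) ℝ

/-- two matrices are proportional -/
def Par (X Y : Mat) : Prop := ∀ i j k l, X i j * Y k l = X k l * Y i j

/-- the traceless part -/
noncomputable def tl (g : Mat) : Mat := g - (g.trace / 2) • (1 : Mat)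

theorem trace_tl (g : Mat) : (tl g).trace = 0 := by
  simp [tl, Matrix.trace_sub, Matrix.trace_smul]

theorem tl_conj (g : Mat) (h : SL(2, ℝ)) :
    tl ((h : Mat) * g * ((h⁻¹ : SL(2, ℝ)) : Mat)) = (h : Mat) * tl g * ((h⁻¹ : SL(2, ℝ)) : Mat) := by
  have hh : (h : Mat) * ((h⁻¹ : SL(2, ℝ)) : Mat) = 1 := congrArg Subtype.val (mul_inv_cancel h)
  have hh' : ((h⁻¹ : SL(2, ℝ)) : Mat) * (h : Mat) = 1 := congrArg Subtype.val (inv_mul_cancel h)
  have ht : ((h : Mat) * g * ((h⁻¹ : SL(2, ℝ)) : Mat)).trace = g.trace := by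
    rw [Matrix.trace_mul_comm, ← Matrix.mul_assoc, hh', Matrix.one_mul]
  unfold tl
  rw [ht, Matrix.mul_sub, Matrix.sub_mul]
  congr 1
  rw [Matrix.mul_smul, Matrix.mul_one, Matrix.smul_mul, hh]

theorem par_of_commute {g h : Mat} (hc : g * h = h * g) : Par (tl g) (tl h) := by
  have e00 := congrFun (congrFun hc 0) 0
  have e01 := congrFun (congrFun hc 0) 1
  have e10 := congrFun (congrFun hc 1) 0
  have e11 := congrFun (congrFun hc 1) 1
  simp only [Matrix.mul_apply, Fin.sum_univ_two] at e00 e01 e10 e11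
  intro i j k l
  fin_cases i <;> fin_cases j <;> fin_cases k <;> fin_cases l <;>
    simp [tl, Matrix.trace, Fin.sum_univ_two] <;> linarith

theorem Par.smul {X Y : Mat} (h : Par X Y) (c d : ℝ) : Par (c • X) (d • Y) := by
  intro i j k l
  have := h i j k l
  simp only [Matrix.smul_apply, smul_eq_mul]
  linear_combination c * d * this

theorem tl_eq_zero {g : SL(2, ℝ)} (h : tl (g : Mat) = 0) : g = 1 ∨ g = -1 := by
  have e00 := congrFun (congrFun h 0) 0
  have e01 := congrFun (congrFun h 0) 1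
  have e10 := congrFun (congrFun h 1) 0
  have e11 := congrFun (congrFun h 1) 1
  simp [tl, Matrix.trace, Fin.sum_univ_two] at e00 e01 e10 e11
  have hd : (g : Mat) 0 0 * (g : Mat) 1 1 - (g : Mat) 0 1 * (g : Mat) 1 0 = 1 := by
    have := g.det_coe
    rw [Matrix.det_fin_two] at this
    exact this
  have h1 : (g : Mat) 0 0 = (g : Mat) 1 1 := by linarith
  have e01' : (g : Mat) 0 1 = 0 := e01
  have e10' : (g : Mat) 1 0 = 0 := e10
  rw [h1, e01'] at hd
  have h2 : ((g : Mat) 1 1 - 1) * ((g : Mat) 1 1 + 1) = 0 := by linarith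
  rcases mul_eq_zero.1 h2 with h3 | h3
  · left
    ext i j
    fin_cases i <;> fin_cases j <;> simp [e01', e10'] <;> linarith
  · right
    ext i j
    fin_cases i <;> fin_cases j <;> simp [e01', e10'] <;> linarith

theorem isClosed_par (h : SL(2, ℝ)) :
    IsClosed {X : Mat | Par ((h : Mat) * X * ((h⁻¹ : SL(2, ℝ)) : Mat)) X ∧ X.trace = 0} := by
  have hc : Continuous fun X : Mat => (h : Mat) * X * ((h⁻¹ : SL(2, ℝ)) : Mat) := by fun_prop
  refine IsClosed.inter ?_ ?_
  · have hij : ∀ i j, Continuous fun X : Mat => ((h : Mat) * X * ((h⁻¹ : SL(2, ℝ)) : Mat)) i j :=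
      fun i j => hc.matrix_elem i j
    have hij' : ∀ i j, Continuous fun X : Mat => X i j := fun i j => continuous_id.matrix_elem i j
    have : {X : Mat | Par ((h : Mat) * X * ((h⁻¹ : SL(2, ℝ)) : Mat)) X} =
        ⋂ i, ⋂ j, ⋂ k, ⋂ l, {X : Mat | ((h : Mat) * X * ((h⁻¹ : SL(2, ℝ)) : Mat)) i j * X k l =
          ((h : Mat) * X * ((h⁻¹ : SL(2, ℝ)) : Mat)) k l * X i j} := by
      ext X; simp [Par]
    change IsClosed {X : Mat | Par ((h : Mat) * X * ((h⁻¹ : SL(2, ℝ)) : Mat)) X}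
    rw [this]
    exact isClosed_iInter fun i => isClosed_iInter fun j => isClosed_iInter fun k =>
      isClosed_iInter fun l => isClosed_eq ((hij i j).mul (hij' k l)) ((hij k l).mul (hij' i j))
  · exact isClosed_eq (Continuous.matrix_trace continuous_id) continuous_const

variable {P : Type*} [Finite P]

theorem exists_line (H Δ : Set (P → SL(2, ℝ)))
    (hΔ : ¬ ∀ᶠ g in 𝓝 (1 : P → SL(2, ℝ)), g ∈ Δ → g = 1)
    (hc : ∀ h ∈ H, ∀ᶠ x in 𝓝 (1 : P → SL(2, ℝ)), x ∈ Δ → ∀ i,
      Par ((h i : Mat) * tl (x i : Mat) * (((h i)⁻¹ : SL(2, ℝ)) : Mat)) (tl (x i : Mat))) :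
    ∃ i, ∃ X : Mat, X ≠ 0 ∧ X.trace = 0 ∧
      ∀ h ∈ H, Par ((h i : Mat) * X * (((h i)⁻¹ : SL(2, ℝ)) : Mat)) X := by
  have h1 : ∃ i, ∃ᶠ g in 𝓝 (1 : P → SL(2, ℝ)), g ∈ Δ ∧ g i ≠ 1 := by
    by_contra hcon
    rw [not_exists] at hcon
    have := Filter.eventually_all.2 (fun i => Filter.not_frequently.1 (hcon i))
    apply hΔ
    filter_upwards [this] with g hg hgΔ
    funext i
    by_contra hi
    exact (hg i) ⟨hgΔ, hi⟩
  obtain ⟨i, hi⟩ := h1
  refine ⟨i, ?_⟩
  set l := 𝓝 (1 : P → SL(2, ℝ)) ⊓ 𝓟 {g | g ∈ Δ ∧ g i ≠ 1} with hl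
  have : l.NeBot := by
    rw [hl]
    exact Filter.frequently_mem_iff_neBot.1 hi
  have hle : l ≤ 𝓝 1 := inf_le_left
  have hmem : ∀ᶠ g in l, g ∈ Δ ∧ g i ≠ 1 := by
    have : {g : P → SL(2, ℝ) | g ∈ Δ ∧ g i ≠ 1} ∈ l := Filter.mem_inf_of_right (Filter.mem_principal_self _)
    exact this
  have hne1 : ∀ᶠ g in l, g i ≠ -1 := by
    have hcont : Continuous fun g : P → SL(2, ℝ) => g i := continuous_apply i
    have hone : (1 : SL(2, ℝ)) ≠ -1 := by
      intro h
      have := congrArg (fun g : SL(2, ℝ) => (g : Mat) 0 0) h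
      simp at this
      norm_num at this
    have : ∀ᶠ g in 𝓝 (1 : P → SL(2, ℝ)), g i ≠ -1 := by
      have h2 : {x : SL(2, ℝ) | x ≠ -1} ∈ 𝓝 ((1 : P → SL(2, ℝ)) i) := by
        exact isOpen_ne.mem_nhds hone
      exact hcont.continuousAt.eventually h2
    exact hle this
  have hne0 : ∀ᶠ g in l, tl (g i : Mat) ≠ 0 := by
    filter_upwards [hmem, hne1] with g h2 h3 h4
    rcases tl_eq_zero h4 with h5 | h5
    · exact h2.2 h5
    · exact h3 h5
  set φ : (P → SL(2, ℝ)) → Mat := fun g => ‖tl (g i : Mat)‖⁻¹ • tl (g i : Mat) with hφ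
  have hsph : ∀ᶠ g in l, φ g ∈ Metric.sphere (0 : Mat) 1 := by
    filter_upwards [hne0] with g h4
    simp only [mem_sphere_iff_norm, sub_zero, hφ, norm_smul, norm_inv, norm_norm]
    exact inv_mul_cancel₀ (norm_ne_zero_iff.2 h4)
  have : ProperSpace Mat := FiniteDimensional.proper ℝ Mat
  have hcomp : IsCompact (Metric.sphere (0 : Mat) 1) := isCompact_sphere _ _
  obtain ⟨X, hX, hcl⟩ := hcomp (f := Filter.map φ l) (by
    rw [Filter.le_principal_iff]; exact hsph)
  have hX0 : X ≠ 0 := by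
    intro h0
    rw [h0] at hX
    simp at hX
  have key : ∀ h ∈ H, Par ((h i : Mat) * X * (((h i)⁻¹ : SL(2, ℝ)) : Mat)) X ∧ X.trace = 0 := by
    intro h hh
    have h5 : ∀ᶠ g in l, φ g ∈ {X : Mat | Par ((h i : Mat) * X * (((h i)⁻¹ : SL(2, ℝ)) : Mat)) X ∧
        X.trace = 0} := by
      filter_upwards [hle (hc h hh), hmem] with g h6 h7
      refine ⟨?_, ?_⟩
      · have h8 := h6 h7.1 i
        have := h8.smul (‖tl (g i : Mat)‖⁻¹) (‖tl (g i : Mat)‖⁻¹)
        simpa only [hφ, Matrix.mul_smul, Matrix.smul_mul] using this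
      · simp only [hφ, Matrix.trace_smul, trace_tl, smul_zero]
    have h6 : X ∈ closure {X : Mat | Par ((h i : Mat) * X * (((h i)⁻¹ : SL(2, ℝ)) : Mat)) X ∧
        X.trace = 0} := by
      rw [mem_closure_iff_clusterPt]
      exact hcl.mono (Filter.le_principal_iff.2 h5)
    rwa [(isClosed_par (h i)).closure_eq] at h6
  have htr : X.trace = 0 := by
    have h5 : ∀ᶠ g in l, φ g ∈ {X : Mat | X.trace = 0} := by
      filter_upwards with g
      simp only [hφ, Matrix.trace_smul, trace_tl, smul_zero]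
    have h6 : X ∈ closure {X : Mat | X.trace = 0} := by
      rw [mem_closure_iff_clusterPt]
      exact hcl.mono (Filter.le_principal_iff.2 h5)
    have h7 : IsClosed {X : Mat | X.trace = 0} :=
      isClosed_eq (Continuous.matrix_trace continuous_id) continuous_const
    rwa [h7.closure_eq] at h6
  exact ⟨X, hX0, htr, fun h hh => (key h hh).1⟩

/-- the commutator -/
def cm {G : Type*} [Group G] (g h : G) : G := g * h * g⁻¹ * h⁻¹

theorem cm_eq_one {G : Type*} [Group G] {g h : G} (hc : cm g h = 1) : g * h = h * g := by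
  unfold cm at hc
  rw [mul_inv_eq_one, mul_inv_eq_iff_eq_mul] at hc
  exact hc

theorem par_of_commutator_eq_one {g h : SL(2, ℝ)} (hc : cm (g) (h) = 1) :
    Par (tl (g : Mat)) (tl (h : Mat)) := by
  apply par_of_commute
  have : g * h = h * g := cm_eq_one hc
  have h2 := congrArg (fun x : SL(2, ℝ) => (x : Mat)) this
  simpa using h2

/-- A discreteness criterion for subgroups of `SL(2,ℝ)^P`. -/
theorem discrete_of (H H1 H2 : Set (P → SL(2, ℝ)))
    (c1 : ∀ h ∈ H, ∀ x ∈ H1, cm (h * x * h⁻¹) (x) ∈ H2)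
    (c2 : ∀ h ∈ H, ∀ x ∈ H, cm (h) (x) ∈ H1)
    (c3 : ∀ᶠ g in 𝓝 (1 : P → SL(2, ℝ)), g ∈ H2 → g = 1)
    (c4 : ∀ i, ¬ ∃ X : Mat, X ≠ 0 ∧ X.trace = 0 ∧
      ∀ h ∈ H, Par ((h i : Mat) * X * (((h i)⁻¹ : SL(2, ℝ)) : Mat)) X) :
    ∀ᶠ g in 𝓝 (1 : P → SL(2, ℝ)), g ∈ H → g = 1 := by
  have hH1 : ∀ᶠ g in 𝓝 (1 : P → SL(2, ℝ)), g ∈ H1 → g = 1 := by
    by_contra hcon
    obtain ⟨i, hi⟩ := exists_line H H1 hcon (by
      intro h hh
      have hcont : Continuous fun x : P → SL(2, ℝ) => cm (h * x * h⁻¹) (x) := by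
        unfold cm
        fun_prop
      have h1 : (fun x : P → SL(2, ℝ) => cm (h * x * h⁻¹) (x)) 1 = 1 := by simp [cm]
      have h2 : ∀ᶠ x in 𝓝 (1 : P → SL(2, ℝ)), cm (h * x * h⁻¹) (x) ∈ H2 → cm (h * x * h⁻¹) (x) = 1 := by
        have := hcont.continuousAt (x := 1)
        unfold ContinuousAt at this
        rw [h1] at this
        exact this.eventually c3
      filter_upwards [h2] with x h3 hx i
      have h4 := h3 (c1 h hh x hx)
      have h5 := congrFun h4 i
      have h6 : cm (h i * x i * (h i)⁻¹) (x i) = 1 := by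
        simpa [cm] using h5
      have h7 := par_of_commutator_eq_one h6
      have h8 : ((h i * x i * (h i)⁻¹ : SL(2, ℝ)) : Mat) =
          (h i : Mat) * (x i : Mat) * (((h i)⁻¹ : SL(2, ℝ)) : Mat) := by simp
      rw [h8, tl_conj] at h7
      exact h7)
    exact c4 i hi
  by_contra hcon
  obtain ⟨i, hi⟩ := exists_line H H hcon (by
    intro h hh
    have hcont : Continuous fun x : P → SL(2, ℝ) => cm (h) (x) := by
      unfold cm
      fun_prop
    have h1 : (fun x : P → SL(2, ℝ) => cm (h) (x)) 1 = 1 := by simp [cm]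
    have h2 : ∀ᶠ x in 𝓝 (1 : P → SL(2, ℝ)), cm (h) (x) ∈ H1 → cm (h) (x) = 1 := by
      have := hcont.continuousAt (x := 1)
      unfold ContinuousAt at this
      rw [h1] at this
      exact this.eventually hH1
    filter_upwards [h2] with x h3 hx i
    have h4 := h3 (c2 h hh x hx)
    have h5 := congrFun h4 i
    have h6 : h i * x i = x i * h i := by
      apply cm_eq_one
      simpa [cm] using h5
    have h7 : h i * x i * (h i)⁻¹ = x i := by rw [h6]; group
    have h8 : (h i : Mat) * (x i : Mat) * (((h i)⁻¹ : SL(2, ℝ)) : Mat) = (x i : Mat) := by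
      have := congrArg (fun x : SL(2, ℝ) => (x : Mat)) h7
      simpa using this
    rw [← tl_conj, h8]
    intro a b c d
    ring)
  exact c4 i hi

end Pool.Agent.H906.PC
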