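import Pool.Agent.H906.PC.Disc

/-! # The kernel of the projection to the hyperbolic factors acts cocompactly on the slices -/

open Filter Topology Matrix
open scoped MatrixGroups

namespace Pool.Agent.H906.PC

attribute [local instance] Matrix.normedAddCommGroup Matrix.normedSpace

variable {A B : Type*}

theorem isCompact_mob_preimage {L : Set ℂ} (hL : IsCompact L) (hpos : ∀ z ∈ L, 0 < z.im) :
    IsCompact {g : SL(2, ℝ) | mob g Complex.I ∈ L} := by
  rcases L.eq_empty_or_nonempty with rfl | hne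
  · simp
  obtain ⟨z0, hz0, hmin⟩ := hL.exists_isMinOn hne Complex.continuous_im.continuousOn
  obtain ⟨M, hM⟩ := hL.isBounded.exists_norm_le
  have hI : (0 : ℝ) < Complex.I.im := by simp
  have hclosed : IsClosed {g : SL(2, ℝ) | mob g Complex.I ∈ L} :=
    hL.isClosed.preimage (continuous_mob hI)
  have hemb := Matrix.SpecialLinearGroup.isClosedEmbedding_val (n := Fin 2) (R := ℝ)
  set T := (1 + M ^ 2) * (1 / z0.im) with hT
  have hcomp : IsCompact ((fun g : SL(2, ℝ) => g.1) ⁻¹' (Metric.closedBall (0 : Mat) (T + 1))) :=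
    hemb.isCompact_preimage (isCompact_closedBall _ _)
  refine hcomp.of_isClosed_subset hclosed fun g hg => ?_
  have hz0' : 0 < z0.im := hpos z0 hz0
  have h1 : z0.im ≤ (mob g Complex.I).im := hmin hg
  have h2 : ‖mob g Complex.I‖ ≤ M := hM _ hg
  rw [mob_im g hI] at h1
  have hden : Complex.normSq (den g Complex.I) = g.1 1 0 ^ 2 + g.1 1 1 ^ 2 := by
    unfold den
    rw [Complex.normSq_apply]
    simp
    ring
  have hdpos : 0 < Complex.normSq (den g Complex.I) := Complex.normSq_pos.2 (den_ne_zero g hI)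
  have h3 : Complex.normSq (den g Complex.I) ≤ 1 / z0.im := by
    rw [le_div_iff₀ hz0']
    rw [le_div_iff₀ hdpos] at h1
    simpa [mul_comm] using h1
  have hnum : ‖(g.1 0 0 : ℂ) * Complex.I + (g.1 0 1 : ℂ)‖ ^ 2 = g.1 0 0 ^ 2 + g.1 0 1 ^ 2 := by
    rw [← Complex.normSq_eq_norm_sq, Complex.normSq_apply]
    simp
    ring
  have h4 : g.1 0 0 ^ 2 + g.1 0 1 ^ 2 ≤ M ^ 2 * (1 / z0.im) := by
    have e : (g.1 0 0 : ℂ) * Complex.I + (g.1 0 1 : ℂ) = mob g Complex.I * den g Complex.I := by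
      have := den_ne_zero g hI
      unfold mob; field_simp
    rw [← hnum, e, norm_mul, mul_pow, ← Complex.normSq_eq_norm_sq (den g Complex.I)]
    apply mul_le_mul _ h3 hdpos.le (sq_nonneg _)
    exact pow_le_pow_left₀ (norm_nonneg _) h2 2
  have hTpos : 0 ≤ T := by positivity
  have h5 : g.1 1 0 ^ 2 + g.1 1 1 ^ 2 ≤ 1 / z0.im := hden ▸ h3
  have hM2 : 0 ≤ M ^ 2 * (1 / z0.im) := by positivity
  have hz1 : 0 ≤ 1 / z0.im := by positivity
  have hTe : T = 1 / z0.im + M ^ 2 * (1 / z0.im) := by rw [hT]; ring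
  have key : ∀ t : ℝ, t ^ 2 ≤ T → |t| ≤ T + 1 := by
    intro t ht
    rw [← sq_abs] at ht
    nlinarith [abs_nonneg t, sq_nonneg (|t| - 1)]
  change g.1 ∈ Metric.closedBall (0 : Mat) (T + 1)
  rw [mem_closedBall_zero_iff, Matrix.norm_le_iff (by linarith)]
  intro i j
  rw [Real.norm_eq_abs]
  apply key
  fin_cases i <;> fin_cases j
  · change g.1 0 0 ^ 2 ≤ T
    nlinarith [sq_nonneg (g.1 0 1)]
  · change g.1 0 1 ^ 2 ≤ T
    nlinarith [sq_nonneg (g.1 0 0)]
  · change g.1 1 0 ^ 2 ≤ T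
    nlinarith [sq_nonneg (g.1 1 1)]
  · change g.1 1 1 ^ 2 ≤ T
    nlinarith [sq_nonneg (g.1 1 0)]

theorem finite_of_disc {G : Type*} [Group G] [TopologicalSpace G] [IsTopologicalGroup G]
    [T2Space G] (H : Subgroup G) (hd : ∀ᶠ g in 𝓝 (1 : G), g ∈ H → g = 1) {C : Set G}
    (hC : IsCompact C) : ((H : Set G) ∩ C).Finite := by
  have hone : IsOpen ({1} : Set H) := by
    obtain ⟨U, hU1, hU2, hU3⟩ := eventually_nhds_iff.1 hd
    have : ({1} : Set H) = Subtype.val ⁻¹' U := by
      ext ⟨g, hg⟩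
      simp only [Set.mem_singleton_iff, Set.mem_preimage]
      constructor
      · intro h
        have := congrArg Subtype.val h
        simp only [OneMemClass.coe_one] at this
        rw [this]; exact hU3
      · intro h
        exact Subtype.ext (hU1 g h hg)
    rw [this]
    exact hU2.preimage continuous_subtype_val
  have : DiscreteTopology H := discreteTopology_of_isOpen_singleton_one hone
  have hcl : IsClosed (H : Set G) := Subgroup.isClosed_of_discrete
  have hemb : IsClosedEmbedding (Subtype.val : H → G) := hcl.isClosedEmbedding_subtypeVal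
  have hc := hemb.isCompact_preimage hC
  have hf : (Subtype.val ⁻¹' C : Set H).Finite := isCompact_iff_finite.1 hc
  have := hf.image Subtype.val
  refine this.subset ?_
  rintro g ⟨hg, hgC⟩
  exact ⟨⟨g, hg⟩, hgC, rfl⟩

theorem continuousOn_act (γ : Grp A B) : ContinuousOn (act γ) (Dom A B) := by
  refine continuousOn_pi.2 fun k => ?_
  rcases k with i | j
  · intro x hx
    have h1 : ContinuousAt (mob (γ.1 i)) (x (Sum.inl i)) := (hasDerivAt_mob (γ.1 i) (hx i)).continuousAt
    have h2 : ContinuousAt (fun y : Pt A B => y (Sum.inl i)) x := (continuous_apply _).continuousAt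
    exact (ContinuousAt.comp (g := mob (γ.1 i)) (f := fun y : Pt A B => y (Sum.inl i)) h1
      h2).continuousWithinAt
  · have : (fun x : Pt A B => act γ x (Sum.inr j)) =
        fun x => lin (γ.2 j) * x (Sum.inr j) + γ.2 j 0 := by
      funext x; exact aff_apply _ _
    rw [this]
    fun_prop

/-- the kernel of the projection to the factors without `R` -/
noncomputable def Ker (R : A → Prop) (Γ : Subgroup (Grp A B)) : Subgroup (Grp A B) := Γ ⊓ (res R).ker

theorem slice_cocompact [Fintype A] [Fintype B] {Γ : Subgroup (Grp A B)} {R : A → Prop}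
    (hG : Good Γ R) :
    ∃ K ⊆ Dom A B, IsCompact K ∧ ∀ x ∈ Dom A B, (∀ i, ¬ R i → x (Sum.inl i) = Complex.I) →
      ∃ ν ∈ Ker R Γ, act ν x ∈ K := by
  classical
  obtain ⟨K, hK, hKc, hcov⟩ := hG.cc
  set C : Set ({i : A // ¬ R i} → SL(2, ℝ)) :=
    Set.univ.pi fun p => {g : SL(2, ℝ) | mob g Complex.I ∈ (fun x : Pt A B => x (Sum.inl p.1)) '' K}
    with hC
  have hCc : IsCompact C := isCompact_univ_pi fun p => isCompact_mob_preimage
    (hKc.image (continuous_apply _)) (by rintro _ ⟨x, hx, rfl⟩; exact hK hx _)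
  have hfin := finite_of_disc (Γ.map (res R)) (by
    have := disc hG
    simpa using this) hCc
  have hsel : ∀ g : {i : A // ¬ R i} → SL(2, ℝ), ∃ δ : Grp A B,
      g ∈ Γ.map (res R) → δ ∈ Γ ∧ res R δ = g := by
    intro g
    by_cases h : g ∈ Γ.map (res R)
    · obtain ⟨δ, hδ, hδ2⟩ := h
      exact ⟨δ, fun _ => ⟨hδ, hδ2⟩⟩
    · exact ⟨1, fun h' => absurd h' h⟩
  choose δ hδ using hsel
  refine ⟨⋃ g ∈ ((Γ.map (res R) : Subgroup _) : Set _) ∩ C, act (δ g)⁻¹ '' K, ?_, ?_, ?_⟩
  · refine Set.iUnion₂_subset fun g _ => ?_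
    rintro _ ⟨x, hx, rfl⟩
    exact act_mem _ (hK hx)
  · exact hfin.isCompact_biUnion fun g _ => hKc.image_of_continuousOn
      ((continuousOn_act _).mono hK)
  · intro x hx hxI
    obtain ⟨γ, hγ, hγK⟩ := hcov x hx
    have hmem : res R γ ∈ Γ.map (res R) := ⟨γ, hγ, rfl⟩
    have hC' : res R γ ∈ C := by
      intro p _
      refine ⟨act γ x, hγK, ?_⟩
      change mob (γ.1 p.1) (x (Sum.inl p.1)) = mob (γ.1 p.1) Complex.I
      rw [hxI p.1 p.2]
    obtain ⟨h1, h2⟩ := hδ _ hmem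
    refine ⟨(δ (res R γ))⁻¹ * γ, Subgroup.mem_inf.2 ⟨Γ.mul_mem (Γ.inv_mem h1) hγ, ?_⟩, ?_⟩
    · rw [MonoidHom.mem_ker, map_mul, map_inv, h2, inv_mul_cancel]
    · refine Set.mem_iUnion₂.2 ⟨res R γ, ⟨hmem, hC'⟩, ⟨act γ x, hγK, ?_⟩⟩
      rw [act_mul _ _ hx]

end Pool.Agent.H906.PC
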