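import Pool.Agent.H906.PC.Avg

/-! # Kähler metrics make the characters unitary -/

open Filter Topology Matrix MeasureTheory
open scoped MatrixGroups Classical ComplexOrder

namespace Pool.Agent.H906.PC

variable {A B : Type*} [Fintype A] [Fintype B]

omit [Fintype A] [Fintype B] in
theorem convex_dom : Convex ℝ (Dom A B) := by
  intro x hx y hy a b ha hb hab i
  simp only [Pi.add_apply, Pi.smul_apply, Complex.add_im, Complex.smul_im, smul_eq_mul]
  have h1 := hx i
  have h2 := hy i
  rcases ha.eq_or_lt with h | h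
  · rw [← h] at hab ⊢
    rw [zero_add] at hab
    rw [hab]; simpa using h2
  · have : 0 ≤ b * (y (Sum.inl i)).im := mul_nonneg hb h2.le
    have : 0 < a * (x (Sum.inl i)).im := mul_pos h h1
    linarith

/-- A real linear map with real values and vanishing `∂`-parts vanishes. -/
theorem clm_eq_zero (D : Pt A B →L[ℝ] ℂ) (him : ∀ v, (D v).im = 0)
    (h : ∀ k, (D (Pi.single k 1) - Complex.I * D (Pi.single k Complex.I)) / 2 = 0) : D = 0 := by
  have h1 : ∀ k, D (Pi.single k 1) = 0 ∧ D (Pi.single k Complex.I) = 0 := by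
    intro k
    have h2 := h k
    have h3 : D (Pi.single k 1) - Complex.I * D (Pi.single k Complex.I) = 0 := by
      have := (div_eq_zero_iff.1 h2).resolve_right two_ne_zero
      exact this
    have hre := congrArg Complex.re h3
    have him' := congrArg Complex.im h3
    simp [him] at hre him'
    exact ⟨Complex.ext hre (him _), Complex.ext him' (him _)⟩
  have h2 : ∀ k (c : ℂ), D (Pi.single k c) = 0 := by
    intro k c
    have : (Pi.single k c : Pt A B) = c.re • (Pi.single k 1 : Pt A B) +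
        c.im • (Pi.single k Complex.I : Pt A B) := by
      rw [← Pi.single_smul, ← Pi.single_smul, ← Pi.single_add]
      congr 1
      apply Complex.ext <;> simp
    rw [this, map_add, map_smul, map_smul, (h1 k).1, (h1 k).2]
    simp
  ext v
  have : v = ∑ k, Pi.single k (v k) := (Finset.univ_sum_single v).symm
  rw [this, map_sum]
  simp [h2]

theorem act_add {Γ : Subgroup (Grp A B)} {R : A → Prop} (hG : Good Γ R)
    {γ : Grp A B} (hγ : γ ∈ Γ) (x : Pt A B) {t : Pt A B} (ht : t ∈ TT R B) :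
    act γ (x + t) = act γ x + dd R γ * t := by
  funext k
  by_cases hk : ∀ i, k = Sum.inl i → R i
  · have h1 := act_aff hG hγ (x + t) k hk
    have h2 := act_aff hG hγ x k hk
    simp only [Pi.add_apply, Pi.mul_apply] at h1 ⊢
    rw [h1, h2]
    ring
  · push Not at hk
    obtain ⟨i, rfl, hi⟩ := hk
    have h0 := (ht i).2 hi
    simp only [Pi.add_apply, Pi.mul_apply, act_inl, h0, add_zero, mul_zero]

theorem der_eq_one {Γ : Subgroup (Grp A B)} {R : A → Prop} (hG : Good Γ R)
    {lam : Grp A B} (hlam : lam ∈ Ker R Γ) (h1 : dd R lam = 1) (x : Pt A B) (k : A ⊕ B) :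
    der lam x k = 1 := by
  rcases k with i | j
  · by_cases hi : R i
    · have h2 := congrFun h1 (Sum.inl i)
      have htri := hG.tri i hi lam (ker_le hlam)
      simp only [dd, Sum.elim_inl, hi, if_true, Pi.one_apply] at h2
      have d := det_eq (lam.1 i)
      rw [htri] at d
      have h3 : ((lam.1 i).1 0 0 : ℂ) * (lam.1 i).1 1 1 = 1 := by
        have : (lam.1 i).1 0 0 * (lam.1 i).1 1 1 = 1 := by linarith
        exact_mod_cast this
      have h4 : ((lam.1 i).1 1 1 : ℂ) ^ 2 = 1 := by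
        calc ((lam.1 i).1 1 1 : ℂ) ^ 2 = ((lam.1 i).1 0 0 : ℂ) ^ 2 * ((lam.1 i).1 1 1 : ℂ) ^ 2 := by
              rw [h2, one_mul]
          _ = (((lam.1 i).1 0 0 : ℂ) * (lam.1 i).1 1 1) ^ 2 := by ring
          _ = 1 := by rw [h3]; norm_num
      simp only [der, Sum.elim_inl, den, htri, Complex.ofReal_zero, zero_mul, zero_add, h4, div_one]
    · simp only [der, Sum.elim_inl, (mem_ker hlam).2 i hi, den_one]
      norm_num
  · exact congrFun h1 (Sum.inr j)

/-- If `X` is Kähler, then the characters of those flat directions which are contained in the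
span of the lattice are unitary. -/
theorem unitary {Γ : Subgroup (Grp A B)} {R : A → Prop} (hG : Good Γ R)
    {g : Pt A B → Matrix (A ⊕ B) (A ⊕ B) ℂ} (hg : IsKahler Γ g) (j : B)
    (hj : ∀ c : ℂ, (Pi.single (Sum.inr j) c : Pt A B) ∈ VV hG) {γ : Grp A B} (hγ : γ ∈ Γ) :
    ‖lin (γ.2 j)‖ = 1 := by
  obtain ⟨s, hs1, hs2⟩ := exists_spanning hG
  obtain ⟨rL, hrL, hred⟩ := exists_reduce hG
  set l := s.toList with hl
  have hlL : ∀ μ ∈ l, μ ∈ LL hG := fun μ hμ => hs1 μ (by simpa [hl] using hμ)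
  have hlV : ∀ μ ∈ l, μ ∈ VV hG := fun μ hμ => LL_le_VV hG (hlL μ hμ)
  have hlT : ∀ μ ∈ l, μ ∈ TT R B := fun μ hμ => VV_le_TT hG (hlV μ hμ)
  have hspan : Submodule.span ℝ {μ | μ ∈ l} = VV hG := by
    rw [← hs2]; congr 1; ext μ; simp [hl]
  have hD1 : ∀ k m, D1 (fun x => g x k m) := fun k m => D1.of_contDiffOn (hg.smooth k m)
  have hper : ∀ k m, ∀ μ ∈ LL hG, ∀ x ∈ Dom A B, g (x + μ) k m = g x k m := by
    rintro k m _ ⟨lam, hlam, hlam1, rfl⟩ x hx
    have h1 := hg.inv lam (ker_le hlam) x hx k m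
    rw [der_eq_one hG hlam hlam1, der_eq_one hG hlam hlam1, act_ker hG hlam, hlam1, one_mul] at h1
    simpa using h1
  set f : Pt A B → ℂ := fun x => g x (Sum.inr j) (Sum.inr j) with hf
  have hfim : ∀ x ∈ Dom A B, (f x).im = 0 ∧ 0 < (f x).re := by
    intro x hx
    have hpos := (hg.pos x hx).diag_pos (i := Sum.inr j)
    rw [Complex.lt_def] at hpos
    simp at hpos
    exact ⟨hpos.2.symm, hpos.1⟩
  -- the average is constant
  have hD1f : D1 f := hD1 _ _
  have hD1W : D1 (avgL l f) := avgL_D1 hD1f hlT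
  have hWim : ∀ x ∈ Dom A B, (avgL l f x).im = 0 := by
    intro x hx
    obtain ⟨m, M, hmM⟩ : ∃ m M : ℝ, ∀ v ∈ VV hG, m ≤ (f (x + v)).re ∧ (f (x + v)).re ≤ M := by
      set K := (fun v : Pt A B => x + v) '' ((VV hG : Set (Pt A B)) ∩ Metric.closedBall 0 rL)
      have hKc : IsCompact K := (((isCompact_closedBall _ _).inter_left
        (VV hG).closed_of_finiteDimensional)).image (by fun_prop)
      have hKD : K ⊆ Dom A B := by
        rintro _ ⟨v, ⟨hv, _⟩, rfl⟩
        exact add_mem_dom hx (VV_le_TT hG hv)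
      obtain ⟨M, hM⟩ := hKc.exists_bound_of_continuousOn (hD1f.continuousOn.mono hKD)
      refine ⟨-M, M, fun v hv => ?_⟩
      obtain ⟨lam, hlam, hlam1, hlam2⟩ := hred v hv
      have hmemL : tt R lam ∈ LL hG := ⟨lam, hlam, hlam1, rfl⟩
      have h1 : f (x + v) = f (x + (v + tt R lam)) := by
        rw [← add_assoc]
        exact (hper _ _ _ hmemL _ (add_mem_dom hx (VV_le_TT hG hv))).symm
      have h2 := hM (x + (v + tt R lam)) ⟨v + tt R lam, ⟨(VV hG).add_mem hv (LL_le_VV hG hmemL),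
        by rwa [mem_closedBall_zero_iff]⟩, rfl⟩
      rw [h1]
      exact abs_le.1 ((Complex.abs_re_le_norm _).trans h2)
    exact (avgL_bound hD1f.continuousOn (VV hG) (VV_le_TT hG) hlV x hx fun v hv =>
      ⟨(hfim _ (add_mem_dom hx (VV_le_TT hG hv))).1, hmM v hv⟩).1
  have hWd : ∀ x ∈ Dom A B, fderiv ℝ (avgL l f) x = 0 := by
    intro x hx
    apply clm_eq_zero
    · intro v
      have h1 : HasFDerivAt (fun y => (avgL l f y).im)
          (Complex.imCLM.comp (fderiv ℝ (avgL l f) x)) x :=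
        Complex.imCLM.hasFDerivAt.comp x (hD1W.diff x hx).hasFDerivAt
      have h2 : HasFDerivAt (fun y => (avgL l f y).im) (0 : Pt A B →L[ℝ] ℝ) x := by
        refine (hasFDerivAt_const (0 : ℝ) x).congr_of_eventuallyEq ?_
        filter_upwards [isOpen_dom.mem_nhds hx] with y hy
        exact hWim y hy
      have h3 := h1.unique h2
      have h4 := congrArg (fun D : Pt A B →L[ℝ] ℝ => D v) h3
      simpa using h4
    · intro k
      have h1 : wd k (avgL l f) x = avgL l (wd k f) x := wd_avgL hD1f k hlT x hx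
      have h2 : avgL l (wd k f) x = avgL l (wd (Sum.inr j) (fun y => g y k (Sum.inr j))) x :=
        avgL_congr (fun y hy => hg.closed y hy k (Sum.inr j) (Sum.inr j)) hlT x hx
      have h3 : avgL l (wd (Sum.inr j) (fun y => g y k (Sum.inr j))) x =
          wd (Sum.inr j) (avgL l fun y => g y k (Sum.inr j)) x :=
        (wd_avgL (hD1 _ _) _ hlT x hx).symm
      have h4 : ∀ c : ℂ, fderiv ℝ (avgL l fun y => g y k (Sum.inr j)) x
          (Pi.single (Sum.inr j) c) = 0 := by
        intro c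
        have hv : (Pi.single (Sum.inr j) c : Pt A B) ∈ Submodule.span ℝ {μ | μ ∈ l} := by
          rw [hspan]; exact hj c
        have hd := ((avgL_D1 (hD1 k (Sum.inr j)) hlT).diff x hx).hasFDerivAt
        have h5 : HasDerivAt (fun t : ℝ => (avgL l fun y => g y k (Sum.inr j))
            (x + t • (Pi.single (Sum.inr j) c : Pt A B)))
            (fderiv ℝ (avgL l fun y => g y k (Sum.inr j)) x (Pi.single (Sum.inr j) c)) 0 := by
          have h6 : HasDerivAt (fun t : ℝ => x + t • (Pi.single (Sum.inr j) c : Pt A B))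
              (Pi.single (Sum.inr j) c) 0 := by
            simpa using ((hasDerivAt_id (0 : ℝ)).smul_const
              (Pi.single (Sum.inr j) c : Pt A B)).const_add x
          have hd' : HasFDerivAt (avgL l fun y => g y k (Sum.inr j))
              (fderiv ℝ (avgL l fun y => g y k (Sum.inr j)) x)
              (x + (0 : ℝ) • (Pi.single (Sum.inr j) c : Pt A B)) := by
            rw [zero_smul, add_zero]; exact hd
          exact hd'.comp_hasDerivAt 0 h6
        have h7 : HasDerivAt (fun t : ℝ => (avgL l fun y => g y k (Sum.inr j))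
            (x + t • (Pi.single (Sum.inr j) c : Pt A B))) 0 0 := by
          have h8 : (fun t : ℝ => (avgL l fun y => g y k (Sum.inr j))
              (x + t • (Pi.single (Sum.inr j) c : Pt A B))) =
              fun _ => avgL l (fun y => g y k (Sum.inr j)) x := by
            funext t
            exact (avgL_span hlT (fun μ hμ y hy => hper k _ μ (hlL μ hμ) y hy)
              (Submodule.smul_mem _ t hv)).2 x hx
          rw [h8]
          exact hasDerivAt_const _ _
        exact h5.unique h7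
      change wd k (avgL l f) x = 0
      rw [h1, h2, h3]
      unfold wd
      rw [h4, h4]
      simp
  have hWconst : ∀ x ∈ Dom A B, ∀ y ∈ Dom A B, avgL l f x = avgL l f y := by
    intro x hx y hy
    refine convex_dom.is_const_of_fderivWithin_eq_zero (𝕜 := ℝ)
      (fun z hz => (hD1W.diff z hz).differentiableWithinAt) (fun z hz => ?_) hx hy
    rw [fderivWithin_of_isOpen isOpen_dom hz, hWd z hz]
  -- bounds on the orbit of the base point
  obtain ⟨m, M, hm0, hmM⟩ : ∃ m M : ℝ, 0 < m ∧ ∀ v ∈ VV hG,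
      (f (base A B + v)).im = 0 ∧ m ≤ (f (base A B + v)).re ∧ (f (base A B + v)).re ≤ M := by
    set K := (fun v : Pt A B => base A B + v) '' ((VV hG : Set (Pt A B)) ∩ Metric.closedBall 0 rL)
      with hK
    have hKc : IsCompact K := (((isCompact_closedBall _ _).inter_left
      (VV hG).closed_of_finiteDimensional)).image (by fun_prop)
    have hKD : K ⊆ Dom A B := by
      rintro _ ⟨v, ⟨hv, _⟩, rfl⟩
      exact add_mem_dom base_mem (VV_le_TT hG hv)
    have hKne : K.Nonempty := ⟨base A B + 0, 0, ⟨(VV hG).zero_mem, by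
      rw [mem_closedBall_zero_iff, norm_zero]; exact hrL⟩, rfl⟩
    have hre : ContinuousOn (fun x => (f x).re) K :=
      Complex.continuous_re.comp_continuousOn (hD1f.continuousOn.mono hKD)
    obtain ⟨x1, hx1, hmin⟩ := hKc.exists_isMinOn hKne hre
    obtain ⟨x2, hx2, hmax⟩ := hKc.exists_isMaxOn hKne hre
    refine ⟨(f x1).re, (f x2).re, (hfim x1 (hKD hx1)).2, fun v hv => ?_⟩
    obtain ⟨lam, hlam, hlam1, hlam2⟩ := hred v hv
    have hmemL : tt R lam ∈ LL hG := ⟨lam, hlam, hlam1, rfl⟩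
    have h1 : f (base A B + v) = f (base A B + (v + tt R lam)) := by
      rw [← add_assoc]
      exact (hper _ _ _ hmemL _ (add_mem_dom base_mem (VV_le_TT hG hv))).symm
    have hmem : base A B + (v + tt R lam) ∈ K :=
      ⟨v + tt R lam, ⟨(VV hG).add_mem hv (LL_le_VV hG hmemL), by rwa [mem_closedBall_zero_iff]⟩, rfl⟩
    refine ⟨(hfim _ (add_mem_dom base_mem (VV_le_TT hG hv))).1, ?_, ?_⟩
    · rw [h1]; exact hmin hmem
    · rw [h1]; exact hmax hmem
  -- transformation of the averages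
  have htrans : ∀ δ ∈ Γ, ∀ l' : List (Pt A B), (∀ μ ∈ l', μ ∈ VV hG) → ∀ x ∈ Dom A B,
      avgL l' f (act δ x) * (lin (δ.2 j) * star (lin (δ.2 j))) =
        avgL (l'.map fun μ => dd R δ⁻¹ * μ) f x := by
    intro δ hδ l'
    induction l' with
    | nil =>
      intro _ x hx
      have := hg.inv δ hδ x hx (Sum.inr j) (Sum.inr j)
      change f (act δ x) * (lin (δ.2 j) * star (lin (δ.2 j))) = f x
      rw [← mul_assoc]
      exact this
    | cons μ l' ih =>
      intro h x hx
      have hμ := h μ List.mem_cons_self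
      have hl' : ∀ ν ∈ l', ν ∈ VV hG := fun ν hν => h ν (List.mem_cons_of_mem _ hν)
      change (∫ c in (0 : ℝ)..1, avgL l' f (act δ x + c • μ)) * _ =
        ∫ c in (0 : ℝ)..1, avgL (l'.map fun μ => dd R δ⁻¹ * μ) f (x + c • (dd R δ⁻¹ * μ))
      rw [← intervalIntegral.integral_mul_const]
      refine intervalIntegral.integral_congr fun c _ => ?_
      have hmem : c • (dd R δ⁻¹ * μ) ∈ TT R B :=
        (TT R B).smul_mem c ((dd_mem_SS hG (Γ.inv_mem hδ)).2 _ (VV_le_TT hG hμ))
      have h1 : act δ x + c • μ = act δ (x + c • (dd R δ⁻¹ * μ)) := by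
        rw [act_add hG hδ x hmem, mul_smul_comm, ← mul_assoc]
        have h2 := dd_inv_mul hG (Γ.inv_mem hδ)
        rw [inv_inv] at h2
        rw [h2, one_mul]
      rw [h1]
      exact ih hl' _ (add_mem_dom hx hmem)
  set C := (avgL l f (base A B)).re with hC
  have hCpos : 0 < C := by
    have := avgL_bound hD1f.continuousOn (VV hG) (VV_le_TT hG) hlV _ base_mem hmM
    linarith [this.2.1]
  have hkey : ∀ δ ∈ Γ, m ≤ C * ‖lin (δ.2 j)‖ ^ 2 ∧ C * ‖lin (δ.2 j)‖ ^ 2 ≤ M := by
    intro δ hδ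
    have h1 := htrans δ hδ l hlV (base A B) base_mem
    have h2 := hWconst _ (act_mem δ base_mem) _ (base_mem (A := A) (B := B))
    rw [h2] at h1
    have h3 := avgL_bound hD1f.continuousOn (VV hG) (VV_le_TT hG)
      (l := l.map fun μ => dd R δ⁻¹ * μ) (by
        intro μ hμ
        obtain ⟨μ', hμ', rfl⟩ := List.mem_map.1 hμ
        exact (dd_mem_SS hG (Γ.inv_mem hδ)).1 _ (hlV μ' hμ')) _ base_mem hmM
    rw [← h1] at h3
    have h4 : (lin (δ.2 j) * star (lin (δ.2 j)) : ℂ) = ((‖lin (δ.2 j)‖ ^ 2 : ℝ) : ℂ) := by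
      have := Complex.mul_conj (lin (δ.2 j))
      rw [Complex.normSq_eq_norm_sq] at this
      exact this
    rw [h4, Complex.re_mul_ofReal] at h3
    exact h3.2
  have hpow : ∀ n : ℕ, lin ((γ ^ n).2 j) = lin (γ.2 j) ^ n := by
    intro n
    induction n with
    | zero => simp [lin_one]
    | succ n ih =>
      rw [pow_succ, pow_succ, ← ih]
      exact lin_mul _ _
  have hinvl : lin ((γ⁻¹).2 j) = (lin (γ.2 j))⁻¹ := lin_inv _
  have hpow' : ∀ n : ℕ, lin ((γ⁻¹ ^ n).2 j) = (lin (γ.2 j))⁻¹ ^ n := by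
    intro n
    induction n with
    | zero => simp [lin_one]
    | succ n ih =>
      rw [pow_succ, pow_succ, ← ih, ← hinvl]
      exact lin_mul _ _
  have hpos : 0 < ‖lin (γ.2 j)‖ := norm_pos_iff.2 (lin_ne_zero _)
  rcases lt_trichotomy ‖lin (γ.2 j)‖ 1 with h | h | h
  · exfalso
    have h1 : Tendsto (fun n : ℕ => C * (‖lin (γ.2 j)‖ ^ n) ^ 2) atTop (𝓝 (C * 0 ^ 2)) :=
      ((tendsto_pow_atTop_nhds_zero_of_lt_one hpos.le h).pow 2).const_mul C
    have h2 := h1.eventually_lt_const (show C * 0 ^ 2 < m by simpa using hm0)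
    obtain ⟨n, hn⟩ := h2.exists
    have h3 := (hkey (γ ^ n) (Γ.pow_mem hγ n)).1
    rw [hpow, norm_pow] at h3
    linarith
  · exact h
  · exfalso
    have h0 : ‖lin (γ.2 j)‖⁻¹ < 1 := inv_lt_one_of_one_lt₀ h
    have h1 : Tendsto (fun n : ℕ => C * (‖lin (γ.2 j)‖⁻¹ ^ n) ^ 2) atTop (𝓝 (C * 0 ^ 2)) :=
      ((tendsto_pow_atTop_nhds_zero_of_lt_one (inv_nonneg.2 hpos.le) h0).pow 2).const_mul C
    have h2 := h1.eventually_lt_const (show C * 0 ^ 2 < m by simpa using hm0)
    obtain ⟨n, hn⟩ := h2.exists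
    have h3 := (hkey (γ⁻¹ ^ n) (Γ.pow_mem (Γ.inv_mem hγ) n)).1
    rw [hpow', norm_pow, norm_inv] at h3
    linarith

/-- the characters of those flat directions which are contained in the span of the lattice are
unitary -/
def Uni (Γ : Subgroup (Grp A B)) : Prop :=
  ∀ (R : A → Prop) (hG : Good Γ R) (j : B),
    (∀ c : ℂ, (Pi.single (Sum.inr j) c : Pt A B) ∈ VV hG) → ∀ γ ∈ Γ, ‖lin (γ.2 j)‖ = 1

theorem uni_of_kahler {Γ : Subgroup (Grp A B)} {g : Pt A B → Matrix (A ⊕ B) (A ⊕ B) ℂ}
    (hg : IsKahler Γ g) : Uni Γ := fun _ hG j hj _ hγ => unitary hG hg j hj hγ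

end Pool.Agent.H906.PC
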