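import Pool.Agent.H906.PC.Main

/-! # Change of variables -/

set_option linter.unusedSectionVars false

open Filter Topology Matrix MeasureTheory
open scoped MatrixGroups Classical ComplexOrder

namespace Pool.Agent.H906.PC

variable {A B : Type*} [Fintype A] [Fintype B]

/-- the real derivative of `act h` -/
noncomputable def dact (h : Grp A B) (x : Pt A B) : Pt A B →L[ℝ] Pt A B :=
  ContinuousLinearMap.pi fun k =>
    ((ContinuousLinearMap.mul ℝ ℂ (der h x k)).comp (ContinuousLinearMap.proj k))

theorem det_dact (h : Grp A B) (x : Pt A B) : (dact h x).det = ‖jac h x‖ ^ 2 := by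
  have e : ((dact h x : Pt A B →L[ℝ] Pt A B) : Pt A B →ₗ[ℝ] Pt A B) =
      (Matrix.toLin' (Matrix.diagonal (der h x))).restrictScalars ℝ := by
    ext v k
    simp [dact, Matrix.mulVec_diagonal]
  rw [ContinuousLinearMap.det, e, LinearMap.det_restrictScalars, LinearMap.det_toLin',
    Matrix.det_diagonal, Algebra.norm_complex_apply, Complex.normSq_eq_norm_sq]
  rfl

theorem image_act (h : Grp A B) : act h '' Dom A B = Dom A B := by
  ext y
  constructor
  · rintro ⟨x, hx, rfl⟩
    exact act_mem h hx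
  · intro hy
    exact ⟨act h⁻¹ y, act_mem _ hy, act_act_inv h hy⟩

theorem injOn_act (h : Grp A B) : Set.InjOn (act h) (Dom A B) := by
  intro x hx y hy hxy
  rw [← act_inv_act h hx, hxy, act_inv_act h hy]

theorem measurableSet_dom : MeasurableSet (Dom A B) := isOpen_dom.measurableSet

theorem cv {F : Type*} [NormedAddCommGroup F] [NormedSpace ℝ F] (h : Grp A B) (G : Pt A B → F) :
    ∫ x in Dom A B, G x = ∫ y in Dom A B, ‖jac h y‖ ^ 2 • G (act h y) := by
  have := integral_image_eq_integral_abs_det_fderiv_smul (volume : Measure (Pt A B))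
    (f := act h) (f' := dact h) measurableSet_dom
    (fun x hx => (hasFDerivAt_act h hx).hasFDerivWithinAt) (injOn_act h) G
  rw [image_act] at this
  rw [this]
  refine setIntegral_congr_fun measurableSet_dom fun y _ => ?_
  rw [det_dact, abs_of_nonneg (sq_nonneg ‖jac h y‖)]

theorem ae_act (h : Grp A B) {p : Pt A B → Prop} (hp : ∀ᵐ x, x ∈ Dom A B → p x) :
    ∀ᵐ x, x ∈ Dom A B → p (act h x) := by
  rw [ae_iff] at hp ⊢
  have e : {x | ¬ (x ∈ Dom A B → p (act h x))} = act h⁻¹ '' {x | ¬ (x ∈ Dom A B → p x)} := by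
    ext x
    simp only [Set.mem_ofPred_eq, not_forall, Set.mem_image]
    constructor
    · rintro ⟨hx, hp⟩
      exact ⟨act h x, ⟨act_mem h hx, hp⟩, act_inv_act h hx⟩
    · rintro ⟨y, ⟨hy, hp⟩, rfl⟩
      refine ⟨act_mem _ hy, ?_⟩
      rwa [act_act_inv h hy]
  rw [e]
  refine addHaar_image_eq_zero_of_differentiableOn_of_addHaar_eq_zero _ ?_ hp
  intro x hx
  simp only [Set.mem_ofPred_eq, not_forall] at hx
  exact (hasFDerivAt_act h⁻¹ hx.1).differentiableAt.differentiableWithinAt

theorem integrableOn_act (h : Grp A B) {s : Set (Pt A B)} (hs : MeasurableSet s)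
    (hsD : s ⊆ Dom A B) {F : Type*} [NormedAddCommGroup F] [NormedSpace ℝ F] (G : Pt A B → F) :
    IntegrableOn G (act h '' s) ↔ IntegrableOn (fun y => ‖jac h y‖ ^ 2 • G (act h y)) s := by
  have := integrableOn_image_iff_integrableOn_abs_det_fderiv_smul (volume : Measure (Pt A B))
    (f := act h) (f' := dact h) hs
    (fun x hx => (hasFDerivAt_act h (hsD hx)).hasFDerivWithinAt) ((injOn_act h).mono hsD) G
  rw [this]
  refine integrableOn_congr_fun (fun y _ => ?_) hs
  rw [det_dact, abs_of_nonneg (sq_nonneg ‖jac h y‖)]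

end Pool.Agent.H906.PC
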