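import Pool.Agent.H906.PC.Weak1

/-! # Closed positive currents and conjugation -/

set_option linter.unusedSectionVars false

open Filter Topology Matrix MeasureTheory
open scoped MatrixGroups Classical ComplexOrder ContDiff

namespace Pool.Agent.H906.PC

variable {A B : Type*} [Fintype A] [Fintype B]

/-- smooth functions with compact support in `Dom` -/
structure IsTest (χ : Pt A B → ℂ) : Prop where
  smooth : ContDiff ℝ ∞ χ
  compact : HasCompactSupport χ
  supp : tsupport χ ⊆ Dom A B

/-- `i ∑ T_{jk} d x_j ∧ d \bar x_k` is a closed positive current with locally integrable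
coefficients which is invariant under `Γ` and positive definite almost everywhere -/
structure IsCurrent (Γ : Subgroup (Grp A B)) (T : Pt A B → Matrix (A ⊕ B) (A ⊕ B) ℂ) : Prop where
  int : ∀ K ⊆ Dom A B, IsCompact K → ∀ i j, IntegrableOn (fun x => T x i j) K
  pos : ∀ᵐ x, x ∈ Dom A B → (T x).PosDef
  closed : ∀ χ, IsTest χ → ∀ i j k, ∫ x, T x j k * wd i χ x = ∫ x, T x i k * wd j χ x
  inv : ∀ γ ∈ Γ, ∀ᵐ x, x ∈ Dom A B → ∀ i j,
    T (act γ x) i j * der γ x i * star (der γ x j) = T x i j

theorem cdo_den (h : Grp A B) (i : A) :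
    ContDiffOn ℝ ∞ (fun x : Pt A B => (den (h.1 i) (x (Sum.inl i)))⁻¹) (Dom A B) := by
  have h1 : ContDiff ℝ ∞ fun x : Pt A B => x (Sum.inl i) := contDiff_apply _ _ _
  have h2 : ContDiffOn ℝ ∞ (fun x : Pt A B => den (h.1 i) (x (Sum.inl i))) (Dom A B) := by
    unfold den
    exact ((contDiff_const.mul h1).add contDiff_const).contDiffOn
  exact h2.inv fun x hx => den_ne_zero _ (hx i)

theorem cdo_act (h : Grp A B) : ContDiffOn ℝ ∞ (act h) (Dom A B) := by
  rw [contDiffOn_pi]
  intro k
  rcases k with i | j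
  · have h1 : ContDiff ℝ ∞ fun x : Pt A B => x (Sum.inl i) := contDiff_apply _ _ _
    have h2 : ContDiffOn ℝ ∞ (fun x : Pt A B =>
        (((h.1 i).1 0 0 : ℂ) * x (Sum.inl i) + (h.1 i).1 0 1) * (den (h.1 i) (x (Sum.inl i)))⁻¹)
        (Dom A B) :=
      ((contDiff_const.mul h1).add contDiff_const).contDiffOn.mul (cdo_den h i)
    refine h2.congr fun x _ => ?_
    rw [act_inl, mob, div_eq_mul_inv]
  · have : (fun x : Pt A B => act h x (Sum.inr j)) =
        fun x => lin (h.2 j) * x (Sum.inr j) + h.2 j 0 := by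
      funext x; exact aff_apply _ _
    rw [this]
    exact ((contDiff_const.mul (contDiff_apply _ _ _)).add contDiff_const).contDiffOn

theorem cdo_der (h : Grp A B) (k : A ⊕ B) :
    ContDiffOn ℝ ∞ (fun x => der h x k) (Dom A B) := by
  rcases k with i | j
  · refine ((cdo_den h i).pow 2).congr fun x _ => ?_
    change 1 / (den (h.1 i) (x (Sum.inl i))) ^ 2 = ((den (h.1 i) (x (Sum.inl i)))⁻¹) ^ 2
    rw [one_div, inv_pow]
  · exact contDiffOn_const

theorem cdo_star_der (h : Grp A B) (k : A ⊕ B) :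
    ContDiffOn ℝ ∞ (fun x => star (der h x k)) (Dom A B) :=
  Complex.conjCLE.contDiff.comp_contDiffOn (cdo_der h k)

theorem cdo_prod {ι : Type*} (s : Finset ι) {f : ι → Pt A B → ℂ}
    (h : ∀ i, ContDiffOn ℝ ∞ (f i) (Dom A B)) :
    ContDiffOn ℝ ∞ (fun x => ∏ i ∈ s, f i x) (Dom A B) := by
  induction s using Finset.induction_on with
  | empty => simp only [Finset.prod_empty]; exact contDiffOn_const
  | insert a s ha ih =>
    simp only [Finset.prod_insert ha]
    exact (h a).mul ih

/-- a smooth function on `Dom` with compact support, extended by zero -/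
theorem isTest_indicator {ψ : Pt A B → ℂ} (hψ : ContDiffOn ℝ ∞ ψ (Dom A B)) {K : Set (Pt A B)}
    (hK : IsCompact K) (hKD : K ⊆ Dom A B) (h0 : ∀ x ∈ Dom A B, x ∉ K → ψ x = 0) :
    IsTest ((Dom A B).indicator ψ) := by
  have hzero : ∀ x, x ∉ K → (Dom A B).indicator ψ x = 0 := by
    intro x hx
    by_cases hxD : x ∈ Dom A B
    · rw [Set.indicator_of_mem hxD, h0 x hxD hx]
    · rw [Set.indicator_of_notMem hxD]
  have hsupp : Function.support ((Dom A B).indicator ψ) ⊆ K := by
    intro x hx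
    by_contra h
    exact hx (hzero x h)
  have hts : tsupport ((Dom A B).indicator ψ) ⊆ K := closure_minimal hsupp hK.isClosed
  refine ⟨?_, HasCompactSupport.of_support_subset_isCompact hK hsupp, hts.trans hKD⟩
  rw [contDiff_iff_contDiffAt]
  intro x
  by_cases hx : x ∈ Dom A B
  · refine (hψ.contDiffAt (isOpen_dom.mem_nhds hx)).congr_of_eventuallyEq ?_
    filter_upwards [isOpen_dom.mem_nhds hx] with y hy
    rw [Set.indicator_of_mem hy]
  · have : (Dom A B).indicator ψ =ᶠ[𝓝 x] fun _ => 0 := by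
      filter_upwards [hK.isClosed.isOpen_compl.mem_nhds fun h => hx (hKD h)] with y hy
      exact hzero y hy
    exact contDiffAt_const.congr_of_eventuallyEq this

theorem wd_eq_zero_of_notMem {χ : Pt A B → ℂ} {x : Pt A B} (hx : x ∉ tsupport χ) (k : A ⊕ B) :
    wd k χ x = 0 := by
  have : fderiv ℝ χ x = 0 := by
    have h1 : χ =ᶠ[𝓝 x] fun _ => 0 := by
      rw [notMem_tsupport_iff_eventuallyEq] at hx
      exact hx
    rw [h1.fderiv_eq]; simp
  unfold wd
  rw [this]; simp

theorem wd_congr {f g : Pt A B → ℂ} {x : Pt A B} (h : f =ᶠ[𝓝 x] g) (k : A ⊕ B) :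
    wd k f x = wd k g x := by
  unfold wd
  rw [h.fderiv_eq]

theorem wd_prod_zero {ι : Type*} (s : Finset ι) {f : ι → Pt A B → ℂ} {x : Pt A B}
    (hd : ∀ m ∈ s, DifferentiableAt ℝ (f m) x) {i : A ⊕ B} (h0 : ∀ m ∈ s, wd i (f m) x = 0) :
    DifferentiableAt ℝ (fun y => ∏ m ∈ s, f m y) x ∧ wd i (fun y => ∏ m ∈ s, f m y) x = 0 := by
  induction s using Finset.induction_on with
  | empty =>
    simp only [Finset.prod_empty]
    refine ⟨differentiableAt_const _, ?_⟩
    unfold wd
    simp
  | insert a s ha ih =>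
    simp only [Finset.prod_insert ha]
    obtain ⟨h1, h2⟩ := ih (fun m hm => hd m (Finset.mem_insert_of_mem hm))
      (fun m hm => h0 m (Finset.mem_insert_of_mem hm))
    have h3 := hd a (Finset.mem_insert_self a s)
    refine ⟨h3.mul h1, ?_⟩
    rw [wd_mul h3 h1, h0 a (Finset.mem_insert_self a s), h2]
    simp

theorem integral_eq_dom {f : Pt A B → ℂ} (h : ∀ x, x ∉ Dom A B → f x = 0) :
    ∫ x, f x = ∫ x in Dom A B, f x := by
  rw [← integral_indicator measurableSet_dom]
  congr 1
  funext x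
  by_cases hx : x ∈ Dom A B
  · rw [Set.indicator_of_mem hx]
  · rw [Set.indicator_of_notMem hx, h x hx]

/-- the holomorphic part of the weight -/
noncomputable def wP (h : Grp A B) (i j : A ⊕ B) (x : Pt A B) : ℂ :=
  ∏ m ∈ (Finset.univ.erase i).erase j, der h x m

/-- the antiholomorphic part of the weight -/
noncomputable def wQ (h : Grp A B) (k : A ⊕ B) (x : Pt A B) : ℂ :=
  ∏ m ∈ Finset.univ.erase k, star (der h x m)

theorem wP_eq (h : Grp A B) {i j : A ⊕ B} (hij : i ≠ j) (x : Pt A B) :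
    jac h x = der h x i * (der h x j * wP h i j x) := by
  unfold jac wP
  rw [Finset.mul_prod_erase _ _ (Finset.mem_erase.2 ⟨hij.symm, Finset.mem_univ _⟩),
    Finset.mul_prod_erase _ _ (Finset.mem_univ _)]

theorem wQ_eq (h : Grp A B) (k : A ⊕ B) (x : Pt A B) :
    star (jac h x) = star (der h x k) * wQ h k x := by
  have := Finset.mul_prod_erase Finset.univ (fun m => star (der h x m)) (Finset.mem_univ k)
  unfold jac wQ
  rw [this, star_prod]

theorem wP_symm (h : Grp A B) (i j : A ⊕ B) (x : Pt A B) : wP h i j x = wP h j i x := by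
  unfold wP
  rw [Finset.erase_right_comm]

theorem wd_weight (h : Grp A B) {i j : A ⊕ B} (k : A ⊕ B) {x : Pt A B}
    (hx : x ∈ Dom A B) : DifferentiableAt ℝ (fun y => wP h i j y * wQ h k y) x ∧
      wd i (fun y => wP h i j y * wQ h k y) x = 0 := by
  obtain ⟨h1, h2⟩ := wd_prod_zero ((Finset.univ.erase i).erase j)
    (f := fun m y => der h y m) (x := x) (i := i)
    (fun m _ => differentiableAt_der h hx m) (fun m hm => wd_der h hx
      (Finset.ne_of_mem_erase (Finset.mem_of_mem_erase hm)).symm)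
  obtain ⟨h3, h4⟩ := wd_prod_zero (Finset.univ.erase k)
    (f := fun m y => star (der h y m)) (x := x) (i := i)
    (fun m _ => differentiableAt_star_der h hx m) (fun m _ => wd_star_der h hx i m)
  refine ⟨h1.mul h3, ?_⟩
  have := wd_mul h1 h3 i
  change wd i (fun y => wP h i j y * wQ h k y) x = wd i (fun y => wP h i j y) x * wQ h k x +
    wP h i j x * wd i (fun y => wQ h k y) x at this
  rw [this]
  have h2' : wd i (fun y => wP h i j y) x = 0 := h2
  have h4' : wd i (fun y => wQ h k y) x = 0 := h4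
  rw [h2', h4']; simp

theorem der_inv_mul (h : Grp A B) {x : Pt A B} (hx : x ∈ Dom A B) (k : A ⊕ B) :
    der h⁻¹ (act h x) k * der h x k = 1 := by
  rw [← der_mul _ _ hx, inv_mul_cancel]
  rcases k with i | j
  · simp [der, den_one]
  · simp [der, lin_one]

/-- the pulled back test function -/
theorem test_pull (h : Grp A B) {χ : Pt A B → ℂ} (hχ : IsTest χ) (i j k : A ⊕ B) :
    IsTest ((Dom A B).indicator fun y => wP h i j y * wQ h k y * χ (act h y)) := by
  have hK : IsCompact (act h⁻¹ '' tsupport χ) := by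
    refine IsCompact.image_of_continuousOn hχ.compact ?_
    exact ((cdo_act h⁻¹).continuousOn).mono hχ.supp
  refine isTest_indicator ?_ hK ?_ ?_
  · refine ContDiffOn.mul (ContDiffOn.mul (cdo_prod _ fun m => cdo_der h m)
      (cdo_prod _ fun m => cdo_star_der h m)) ?_
    exact hχ.smooth.comp_contDiffOn (cdo_act h)
  · rintro _ ⟨x, hx, rfl⟩
    exact act_mem _ (hχ.supp hx)
  · intro x hx hxK
    have : act h x ∉ tsupport χ := by
      intro hmem
      exact hxK ⟨act h x, hmem, act_inv_act h hx⟩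
    rw [image_eq_zero_of_notMem_tsupport this, mul_zero]

theorem closed_cj {T : Pt A B → Matrix (A ⊕ B) (A ⊕ B) ℂ}
    (hT : ∀ χ, IsTest χ → ∀ i j k, ∫ x, T x j k * wd i χ x = ∫ x, T x i k * wd j χ x)
    (h : Grp A B) {χ : Pt A B → ℂ} (hχ : IsTest χ) (i j k : A ⊕ B) :
    ∫ x, gcj h T x j k * wd i χ x = ∫ x, gcj h T x i k * wd j χ x := by
  by_cases hij : i = j
  · rw [hij]
  have key : ∀ i j : A ⊕ B, i ≠ j → ∫ x, gcj h T x j k * wd i χ x =
      ∫ x, T x j k * wd i ((Dom A B).indicator fun y => wP h i j y * wQ h k y * χ (act h y)) x := by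
    intro i j hij
    have hψ := test_pull h hχ i j k
    rw [integral_eq_dom (f := fun x => gcj h T x j k * wd i χ x) (fun x hx => by
        rw [wd_eq_zero_of_notMem (fun h' => hx (hχ.supp h')), mul_zero]),
      integral_eq_dom (f := fun x => T x j k * wd i ((Dom A B).indicator
        fun y => wP h i j y * wQ h k y * χ (act h y)) x) (fun x hx => by
        rw [wd_eq_zero_of_notMem (fun h' => hx (hψ.supp h')), mul_zero]),
      cv h]
    refine setIntegral_congr_fun measurableSet_dom fun y hy => ?_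
    have hw1 : wd i ((Dom A B).indicator fun y => wP h i j y * wQ h k y * χ (act h y)) y =
        wP h i j y * wQ h k y * (wd i χ (act h y) * der h y i) := by
      have e1 : ((Dom A B).indicator fun y => wP h i j y * wQ h k y * χ (act h y)) =ᶠ[𝓝 y]
          fun y => wP h i j y * wQ h k y * χ (act h y) := by
        filter_upwards [isOpen_dom.mem_nhds hy] with z hz
        rw [Set.indicator_of_mem hz]
      rw [wd_congr e1]
      obtain ⟨d1, d2⟩ := wd_weight h (i := i) (j := j) k hy
      have d3 : DifferentiableAt ℝ χ (act h y) := hχ.smooth.differentiable (by simp) _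
      have d4 : DifferentiableAt ℝ (fun y => χ (act h y)) y :=
        d3.comp y (hasFDerivAt_act h hy).differentiableAt
      rw [wd_mul d1 d4, d2, wd_comp_act h hy d3, zero_mul, zero_add]
    change ‖jac h y‖ ^ 2 • (T (act h⁻¹ (act h y)) j k * der h⁻¹ (act h y) j *
      star (der h⁻¹ (act h y) k) * wd i χ (act h y)) = T y j k * wd i _ y
    rw [hw1, act_inv_act h hy]
    have e2 : ((‖jac h y‖ ^ 2 : ℝ) : ℂ) = jac h y * star (jac h y) := by
      rw [Complex.star_def, Complex.mul_conj, Complex.normSq_eq_norm_sq]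
    rw [Complex.real_smul, e2, wQ_eq h k, wP_eq h hij]
    have e3 := der_inv_mul h hy j
    have e4 := congrArg star (der_inv_mul h hy k)
    rw [star_mul', star_one] at e4
    linear_combination (T y j k * der h y i * wP h i j y * star (der h y k) * wQ h k y *
      star (der h⁻¹ (act h y) k) * wd i χ (act h y)) * e3 + (T y j k * der h y i * wP h i j y *
      wQ h k y * wd i χ (act h y)) * e4
  have e : (fun y => wP h i j y * wQ h k y * χ (act h y)) =
      fun y => wP h j i y * wQ h k y * χ (act h y) := by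
    funext y; rw [wP_symm]
  rw [key i j hij, key j i (Ne.symm hij), hT _ (test_pull h hχ i j k) i j k, e]

theorem posDef_gcj (h : Grp A B) {g : Pt A B → Matrix (A ⊕ B) (A ⊕ B) ℂ} {x : Pt A B}
    (hx : x ∈ Dom A B) (h1 : (g (act h⁻¹ x)).PosDef) : (gcj h g x).PosDef := by
  have h2 : gcj h g x = (Matrix.diagonal (der h⁻¹ x)) * g (act h⁻¹ x) *
      (Matrix.diagonal (der h⁻¹ x))ᴴ := by
    ext i j
    simp only [gcj, Matrix.of_apply, Matrix.diagonal_conjTranspose, Matrix.mul_diagonal,
      Matrix.diagonal_mul, Pi.star_apply]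
    ring
  rw [h2]
  refine h1.mul_mul_conjTranspose_same ?_
  intro v w hvw
  funext k
  have := congrFun hvw k
  simp only [Matrix.vecMul_diagonal] at this
  exact mul_right_cancel₀ (der_ne_zero _ hx k) this

theorem inv_gcj (h δ : Grp A B) {g : Pt A B → Matrix (A ⊕ B) (A ⊕ B) ℂ} {x : Pt A B}
    (hx : x ∈ Dom A B) (i j : A ⊕ B)
    (h1 : g (act δ (act h⁻¹ x)) i j * der δ (act h⁻¹ x) i * star (der δ (act h⁻¹ x) j) =
      g (act h⁻¹ x) i j) :
    gcj h g (act (h * δ * h⁻¹) x) i j * der (h * δ * h⁻¹) x i * star (der (h * δ * h⁻¹) x j) =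
      gcj h g x i j := by
  have hy : act h⁻¹ (act (h * δ * h⁻¹) x) = act δ (act h⁻¹ x) := by
    rw [act_conj h δ hx, act_inv_act _ (act_mem _ (act_mem _ hx))]
  have hder : ∀ k, der h⁻¹ (act (h * δ * h⁻¹) x) k * der (h * δ * h⁻¹) x k =
      der δ (act h⁻¹ x) k * der h⁻¹ x k := by
    intro k
    have e3 : h⁻¹ * (h * δ * h⁻¹) = δ * h⁻¹ := by group
    rw [← der_mul _ _ hx, ← der_mul _ _ hx, e3]
  have e1 := hder i
  have e2 := congrArg star (hder j)
  rw [star_mul', star_mul'] at e2
  change g (act h⁻¹ (act (h * δ * h⁻¹) x)) i j * der h⁻¹ (act (h * δ * h⁻¹) x) i *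
    star (der h⁻¹ (act (h * δ * h⁻¹) x) j) * der (h * δ * h⁻¹) x i *
    star (der (h * δ * h⁻¹) x j) = g (act h⁻¹ x) i j * der h⁻¹ x i * star (der h⁻¹ x j)
  rw [hy, ← h1]
  linear_combination (g (act δ (act h⁻¹ x)) i j * star (der h⁻¹ (act (h * δ * h⁻¹) x) j) *
    star (der (h * δ * h⁻¹) x j)) * e1 + (g (act δ (act h⁻¹ x)) i j * der δ (act h⁻¹ x) i *
    der h⁻¹ x i) * e2

/-- currents can be transported -/
theorem current_cj {Γ : Subgroup (Grp A B)} {T : Pt A B → Matrix (A ⊕ B) (A ⊕ B) ℂ}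
    (hT : IsCurrent Γ T) (h : Grp A B) : IsCurrent (cj h Γ) (gcj h T) := by
  refine ⟨fun K hK hKc i j => ?_, ?_, fun χ hχ i j k => closed_cj hT.closed h hχ i j k, ?_⟩
  · have hK' : act h⁻¹ '' K ⊆ Dom A B := by rintro _ ⟨x, hx, rfl⟩; exact act_mem _ (hK hx)
    have hKc' : IsCompact (act h⁻¹ '' K) :=
      hKc.image_of_continuousOn ((continuousOn_act _).mono hK)
    have e : K = act h '' (act h⁻¹ '' K) := by
      ext x
      constructor
      · intro hx
        exact ⟨act h⁻¹ x, ⟨x, hx, rfl⟩, act_act_inv h (hK hx)⟩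
      · rintro ⟨_, ⟨y, hy, rfl⟩, rfl⟩
        rwa [act_act_inv h (hK hy)]
    rw [e, integrableOn_act h hKc'.measurableSet hK']
    have h1 := hT.int _ hK' hKc' i j
    have h2 : ContinuousOn (fun y => (‖jac h y‖ ^ 2 : ℝ) • (der h⁻¹ (act h y) i *
        star (der h⁻¹ (act h y) j))) (act h⁻¹ '' K) := by
      have c1 : ContinuousOn (act h) (act h⁻¹ '' K) := (continuousOn_act _).mono hK'
      have c2 : ∀ l, ContinuousOn (fun y => der h⁻¹ (act h y) l) (act h⁻¹ '' K) := fun l =>
        ((cdo_der h⁻¹ l).continuousOn).comp c1 fun y hy => act_mem _ (hK' hy)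
      have c3 : ContinuousOn (fun y => jac h y) (act h⁻¹ '' K) := by
        unfold jac
        exact ((cdo_prod _ fun m => cdo_der h m).continuousOn).mono hK'
      exact (c3.norm.pow 2).smul ((c2 i).mul (Complex.continuous_conj.comp_continuousOn (c2 j)))
    have h3 := h1.mul_continuousOn h2 hKc'
    refine h3.congr_fun (fun y hy => ?_) hKc'.measurableSet
    change T y i j * ((‖jac h y‖ ^ 2 : ℝ) • (der h⁻¹ (act h y) i * star (der h⁻¹ (act h y) j))) =
      (‖jac h y‖ ^ 2 : ℝ) • (T (act h⁻¹ (act h y)) i j * der h⁻¹ (act h y) i *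
        star (der h⁻¹ (act h y) j))
    rw [act_inv_act h (hK' hy), Complex.real_smul, Complex.real_smul]
    ring
  · filter_upwards [ae_act h⁻¹ hT.pos] with x hx hxD
    exact posDef_gcj h hxD (hx hxD)
  · intro γ hγ
    obtain ⟨δ, hδ, rfl⟩ := mem_cj.1 hγ
    filter_upwards [ae_act h⁻¹ (hT.inv δ hδ)] with x hx hxD i j
    exact inv_gcj h δ hxD i j (hx hxD i j)

end Pool.Agent.H906.PC
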