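import Pool.Agent.H906.PC.Weak2

/-! # Regularisation of closed currents -/

set_option linter.unusedSectionVars false

open Filter Topology Matrix MeasureTheory
open scoped MatrixGroups Classical ComplexOrder ContDiff

namespace Pool.Agent.H906.PC

variable {A B : Type*} [Fintype A] [Fintype B]

/-- regularising kernels: `η` is supported in the ball of radius `r`, and the shift `s` moves
`Dom` away from its boundary by more than `r` -/
structure IsKernel (η : Pt A B → ℂ) (s : Pt A B) (r : ℝ) : Prop where
  smooth : ContDiff ℝ ∞ η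
  supp : ∀ x, r < ‖x‖ → η x = 0
  shift : ∀ i : A, r < (s (Sum.inl i)).im

/-- the regularisation -/
noncomputable def mol (η : Pt A B → ℂ) (s : Pt A B) (f : Pt A B → ℂ) (x : Pt A B) : ℂ :=
  ∫ z, f z * η (x + s - z)

theorem IsKernel.mem {η : Pt A B → ℂ} {s : Pt A B} {r : ℝ} (hη : IsKernel η s r) {x : Pt A B}
    (hx : ∀ i : A, 0 ≤ (x (Sum.inl i)).im) : Metric.closedBall (x + s) r ⊆ Dom A B := by
  intro z hz i
  rw [Metric.mem_closedBall, dist_eq_norm] at hz
  have h1 : ‖z (Sum.inl i) - (x + s) (Sum.inl i)‖ ≤ r :=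
    (norm_le_pi_norm (z - (x + s)) (Sum.inl i)).trans hz
  have h2 := (Complex.abs_im_le_norm _).trans h1
  rw [abs_le, Complex.sub_im] at h2
  have h3 := hη.shift i
  have h4 := hx i
  simp only [Pi.add_apply, Complex.add_im] at h2
  linarith [h2.1]

theorem IsKernel.hasCompactSupport {η : Pt A B → ℂ} {s : Pt A B} {r : ℝ} (hη : IsKernel η s r) :
    HasCompactSupport η := by
  refine HasCompactSupport.of_support_subset_isCompact (isCompact_closedBall (0 : Pt A B) r) ?_
  intro x hx
  rw [mem_closedBall_zero_iff]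
  by_contra h
  push Not at h
  exact hx (hη.supp x h)

theorem IsKernel.zero_of {η : Pt A B → ℂ} {s : Pt A B} {r : ℝ} (hη : IsKernel η s r)
    {x z : Pt A B} (hz : z ∉ Metric.closedBall (x + s) r) : η (x + s - z) = 0 := by
  apply hη.supp
  rw [Metric.mem_closedBall, not_le, dist_comm, dist_eq_norm] at hz
  exact hz

theorem IsKernel.isTest {η : Pt A B → ℂ} {s : Pt A B} {r : ℝ} (hη : IsKernel η s r) {x : Pt A B}
    (hx : x ∈ Dom A B) : IsTest fun z => η (x + s - z) := by
  have hsupp : Function.support (fun z => η (x + s - z)) ⊆ Metric.closedBall (x + s) r := by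
    intro z hz
    by_contra h
    exact hz (hη.zero_of h)
  have hts : tsupport (fun z => η (x + s - z)) ⊆ Metric.closedBall (x + s) r :=
    closure_minimal hsupp Metric.isClosed_closedBall
  refine ⟨hη.smooth.comp (contDiff_const.sub contDiff_id), ?_,
    hts.trans (hη.mem fun i => (hx i).le)⟩
  exact HasCompactSupport.of_support_subset_isCompact (isCompact_closedBall _ _) hsupp

theorem integrable_mul {f : Pt A B → ℂ} {K : Set (Pt A B)} (hK : IsCompact K)
    (hf : IntegrableOn f K) {φ : Pt A B → ℂ} (hφ : ContinuousOn φ K) (h0 : ∀ z, z ∉ K → φ z = 0) :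
    Integrable fun z => f z * φ z := by
  refine (hf.mul_continuousOn hφ hK).integrable_of_forall_notMem_eq_zero fun z hz => ?_
  rw [h0 z hz, mul_zero]

theorem integrable_smul' {G : Type*} [NormedAddCommGroup G] [NormedSpace ℂ G]
    [SecondCountableTopologyEither (Pt A B) G] {f : Pt A B → ℂ} {K : Set (Pt A B)}
    (hK : IsCompact K) (hf : IntegrableOn f K) {φ : Pt A B → G} (hφ : ContinuousOn φ K)
    (h0 : ∀ z, z ∉ K → φ z = 0) : Integrable fun z => f z • φ z := by
  refine (hf.smul_continuousOn hφ hK).integrable_of_forall_notMem_eq_zero fun z hz => ?_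
  rw [h0 z hz, smul_zero]

section
variable {f : Pt A B → ℂ} (hf : ∀ K ⊆ Dom A B, IsCompact K → IntegrableOn f K)
  {η : Pt A B → ℂ} {s : Pt A B} {r : ℝ} (hη : IsKernel η s r)

/-- a compact neighbourhood -/
theorem exists_nhd {x0 : Pt A B} (hx0 : x0 ∈ Dom A B) (s : Pt A B) {r : ℝ}
    (hs : ∀ i : A, r < (s (Sum.inl i)).im) : ∃ ε > 0, Metric.ball x0 ε ⊆ Dom A B ∧
      Metric.closedBall (x0 + s) (r + ε) ⊆ Dom A B := by
  obtain ⟨ε, hε, hball⟩ := Metric.isOpen_iff.1 (isOpen_dom (A := A) (B := B)) x0 hx0
  have h1 : ∀ᶠ t in 𝓝 (0 : ℝ), ∀ i : A, r + t < ((x0 + s) (Sum.inl i)).im := by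
    rw [eventually_all]
    intro i
    have : Tendsto (fun t : ℝ => r + t) (𝓝 0) (𝓝 (r + 0)) := by
      exact (continuous_const.add continuous_id).tendsto 0
    rw [add_zero] at this
    refine this.eventually (gt_mem_nhds ?_)
    simp only [Pi.add_apply, Complex.add_im]
    linarith [hx0 i, hs i]
  obtain ⟨ε', hε', h2⟩ := Metric.eventually_nhds_iff_ball.1 h1
  refine ⟨min ε (ε' / 2), by positivity, (Metric.ball_subset_ball (min_le_left _ _)).trans hball,
    ?_⟩
  intro z hz i
  rw [Metric.mem_closedBall, dist_eq_norm] at hz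
  have h3 : ‖z (Sum.inl i) - (x0 + s) (Sum.inl i)‖ ≤ r + min ε (ε' / 2) :=
    (norm_le_pi_norm (z - (x0 + s)) (Sum.inl i)).trans hz
  have h4 := (Complex.abs_im_le_norm _).trans h3
  rw [abs_le, Complex.sub_im] at h4
  have h5 := h2 (min ε (ε' / 2)) (by
    rw [mem_ball_zero_iff, Real.norm_of_nonneg (by positivity)]
    exact (min_le_right _ _).trans_lt (by linarith)) i
  linarith [h4.1]

include hf hη in
theorem hasFDerivAt_mol {x0 : Pt A B} (hx0 : x0 ∈ Dom A B) :
    HasFDerivAt (mol η s f) (∫ z, f z • fderiv ℝ η (x0 + s - z)) x0 := by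
  obtain ⟨ε, hε, hεD, hK⟩ := exists_nhd hx0 s hη.shift
  set K := Metric.closedBall (x0 + s) (r + ε) with hKdef
  have hKc : IsCompact K := isCompact_closedBall _ _
  have hfK := hf K hK hKc
  have hmem : ∀ x ∈ Metric.ball x0 ε, ∀ z, z ∉ K → r < ‖x + s - z‖ := by
    intro x hx z hz
    by_contra h
    push Not at h
    apply hz
    rw [hKdef, Metric.mem_closedBall, dist_comm, dist_eq_norm]
    rw [Metric.mem_ball, dist_comm, dist_eq_norm] at hx
    have e : x0 + s - z = (x + s - z) + (x0 - x) := by abel
    rw [e]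
    exact (norm_add_le _ _).trans (by linarith)
  have hdc : HasCompactSupport (fderiv ℝ η) := hη.hasCompactSupport.fderiv (𝕜 := ℝ)
  have hdcont : Continuous (fderiv ℝ η) := hη.smooth.continuous_fderiv (by simp)
  obtain ⟨M, hM⟩ := hdcont.bounded_above_of_compact_support hdc
  have hd0 : ∀ y, r < ‖y‖ → fderiv ℝ η y = 0 := by
    intro y hy
    have : η =ᶠ[𝓝 y] fun _ => 0 := by
      filter_upwards [(isOpen_lt continuous_const continuous_norm).mem_nhds hy] with w hw
      exact hη.supp w hw
    rw [this.fderiv_eq]; simp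
  refine hasFDerivAt_integral_of_dominated_of_fderiv_le
    (F := fun x z => f z * η (x + s - z)) (F' := fun x z => f z • fderiv ℝ η (x + s - z))
    (bound := K.indicator fun z => ‖f z‖ * M) (Metric.ball_mem_nhds x0 hε) ?_ ?_ ?_ ?_ ?_ ?_
  · filter_upwards [Metric.ball_mem_nhds x0 hε] with x hx
    refine (integrable_mul hKc hfK (φ := fun z => η (x + s - z)) ?_ ?_).aestronglyMeasurable
    · exact (hη.smooth.continuous.comp (continuous_const.sub continuous_id)).continuousOn
    · intro z hz
      exact hη.supp _ (hmem x hx z hz)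
  · refine integrable_mul hKc hfK (φ := fun z => η (x0 + s - z)) ?_ ?_
    · exact (hη.smooth.continuous.comp (continuous_const.sub continuous_id)).continuousOn
    · intro z hz
      exact hη.supp _ (hmem x0 (Metric.mem_ball_self hε) z hz)
  · refine (integrable_smul' hKc hfK (φ := fun z => fderiv ℝ η (x0 + s - z)) ?_ ?_).aestronglyMeasurable
    · exact (hdcont.comp (continuous_const.sub continuous_id)).continuousOn
    · intro z hz
      exact hd0 _ (hmem x0 (Metric.mem_ball_self hε) z hz)
  · refine Eventually.of_forall fun z x hx => ?_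
    by_cases hz : z ∈ K
    · rw [Set.indicator_of_mem hz, norm_smul]
      exact mul_le_mul_of_nonneg_left (hM _) (norm_nonneg _)
    · rw [Set.indicator_of_notMem hz, hd0 _ (hmem x hx z hz), norm_smul, norm_zero, mul_zero]
  · exact IntegrableOn.integrable_indicator (hfK.norm.mul_const M) hKc.measurableSet
  · refine Eventually.of_forall fun z x hx => ?_
    have h1 : HasFDerivAt η (fderiv ℝ η (x + s - z)) (x + s - z) :=
      (hη.smooth.differentiable (by simp) _).hasFDerivAt
    have h2 := h1.comp x (((hasFDerivAt_id x).add_const s).sub_const z)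
    have h3 := h2.const_smul (f z)
    rw [ContinuousLinearMap.comp_id] at h3
    exact h3

include hf hη in
theorem continuousOn_fderiv_mol : ContinuousOn (fderiv ℝ (mol η s f)) (Dom A B) := by
  have e : Set.EqOn (fderiv ℝ (mol η s f)) (fun x => ∫ z, f z • fderiv ℝ η (x + s - z))
      (Dom A B) := fun x hx => (hasFDerivAt_mol hf hη hx).fderiv
  refine ContinuousOn.congr ?_ e
  intro x0 hx0
  refine ContinuousAt.continuousWithinAt ?_
  obtain ⟨ε, hε, hεD, hK⟩ := exists_nhd hx0 s hη.shift
  set K := Metric.closedBall (x0 + s) (r + ε) with hKdef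
  have hKc : IsCompact K := isCompact_closedBall _ _
  have hfK := hf K hK hKc
  have hmem : ∀ x ∈ Metric.ball x0 ε, ∀ z, z ∉ K → r < ‖x + s - z‖ := by
    intro x hx z hz
    by_contra h
    push Not at h
    apply hz
    rw [hKdef, Metric.mem_closedBall, dist_comm, dist_eq_norm]
    rw [Metric.mem_ball, dist_comm, dist_eq_norm] at hx
    have e : x0 + s - z = (x + s - z) + (x0 - x) := by abel
    rw [e]
    exact (norm_add_le _ _).trans (by linarith)
  have hdc : HasCompactSupport (fderiv ℝ η) := hη.hasCompactSupport.fderiv (𝕜 := ℝ)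
  have hdcont : Continuous (fderiv ℝ η) := hη.smooth.continuous_fderiv (by simp)
  obtain ⟨M, hM⟩ := hdcont.bounded_above_of_compact_support hdc
  have hd0 : ∀ y, r < ‖y‖ → fderiv ℝ η y = 0 := by
    intro y hy
    have : η =ᶠ[𝓝 y] fun _ => 0 := by
      filter_upwards [(isOpen_lt continuous_const continuous_norm).mem_nhds hy] with w hw
      exact hη.supp w hw
    rw [this.fderiv_eq]; simp
  refine continuousAt_of_dominated (bound := K.indicator fun z => ‖f z‖ * M) ?_ ?_ ?_ ?_
  · filter_upwards [Metric.ball_mem_nhds x0 hε] with x hx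
    refine (integrable_smul' hKc hfK (φ := fun z => fderiv ℝ η (x + s - z)) ?_ ?_).aestronglyMeasurable
    · exact (hdcont.comp (continuous_const.sub continuous_id)).continuousOn
    · intro z hz
      exact hd0 _ (hmem x hx z hz)
  · filter_upwards [Metric.ball_mem_nhds x0 hε] with x hx
    refine Eventually.of_forall fun z => ?_
    by_cases hz : z ∈ K
    · rw [Set.indicator_of_mem hz, norm_smul]
      exact mul_le_mul_of_nonneg_left (hM _) (norm_nonneg _)
    · rw [Set.indicator_of_notMem hz, hd0 _ (hmem x hx z hz), norm_smul, norm_zero, mul_zero]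
  · exact IntegrableOn.integrable_indicator (hfK.norm.mul_const M) hKc.measurableSet
  · refine Eventually.of_forall fun z => ?_
    exact ((hdcont.comp ((continuous_id.add continuous_const).sub
      continuous_const)).const_smul (f z)).continuousAt

include hf hη in
theorem D1_mol : D1 (mol η s f) :=
  ⟨fun _ hx => (hasFDerivAt_mol hf hη hx).differentiableAt, continuousOn_fderiv_mol hf hη⟩

include hf hη in
theorem wd_mol {x : Pt A B} (hx : x ∈ Dom A B) (k : A ⊕ B) :
    wd k (mol η s f) x = - ∫ z, f z * wd k (fun z => η (x + s - z)) z := by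
  have h1 := (hasFDerivAt_mol hf hη hx).fderiv
  obtain ⟨ε, hε, hεD, hK⟩ := exists_nhd hx s hη.shift
  set K := Metric.closedBall (x + s) (r + ε) with hKdef
  have hKc : IsCompact K := isCompact_closedBall _ _
  have hfK := hf K hK hKc
  have hdc : HasCompactSupport (fderiv ℝ η) := hη.hasCompactSupport.fderiv (𝕜 := ℝ)
  have hdcont : Continuous (fderiv ℝ η) := hη.smooth.continuous_fderiv (by simp)
  have hd0 : ∀ y, r < ‖y‖ → fderiv ℝ η y = 0 := by
    intro y hy
    have : η =ᶠ[𝓝 y] fun _ => 0 := by
      filter_upwards [(isOpen_lt continuous_const continuous_norm).mem_nhds hy] with w hw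
      exact hη.supp w hw
    rw [this.fderiv_eq]; simp
  have hint : Integrable fun z => f z • fderiv ℝ η (x + s - z) := by
    refine integrable_smul' hKc hfK (φ := fun z => fderiv ℝ η (x + s - z)) ?_ ?_
    · exact (hdcont.comp (continuous_const.sub continuous_id)).continuousOn
    · intro z hz
      apply hd0
      by_contra h
      push Not at h
      apply hz
      rw [hKdef, Metric.mem_closedBall, dist_comm, dist_eq_norm]
      linarith
  have happ : ∀ v : Pt A B, (∫ z, f z • fderiv ℝ η (x + s - z)) v =
      ∫ z, f z * fderiv ℝ η (x + s - z) v := by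
    intro v
    rw [ContinuousLinearMap.integral_apply hint]
    rfl
  have hintv : ∀ v : Pt A B, Integrable fun z => f z * fderiv ℝ η (x + s - z) v := by
    intro v
    exact (ContinuousLinearMap.apply ℝ ℂ v).integrable_comp hint
  have hw : ∀ z, wd k (fun z => η (x + s - z)) z = - wd k η (x + s - z) := by
    intro z
    have h2 : HasFDerivAt η (fderiv ℝ η (x + s - z)) (x + s - z) :=
      (hη.smooth.differentiable (by simp) _).hasFDerivAt
    have h3 := h2.comp z ((hasFDerivAt_id z).const_sub (x + s))
    have h4 : HasFDerivAt (fun z => η (x + s - z)) (-fderiv ℝ η (x + s - z)) z := by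
      have e : (fderiv ℝ η (x + s - z)).comp (-ContinuousLinearMap.id ℝ (Pt A B)) =
          -fderiv ℝ η (x + s - z) := by
        ext v; simp
      rw [← e]
      exact h3
    unfold wd
    rw [h4.fderiv]
    simp only [_root_.neg_apply]
    ring
  have e : ∫ z, f z * wd k (fun z => η (x + s - z)) z = - ∫ z, f z * wd k η (x + s - z) := by
    rw [← integral_neg]
    congr 1
    funext z
    rw [hw z]; ring
  rw [e, neg_neg]
  unfold wd
  rw [h1, happ, happ, ← integral_const_mul, ← integral_sub (hintv _) ((hintv _).const_mul _),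
    ← integral_div]
  congr 1
  funext z
  ring

/-- the regularisation of a periodic function is periodic -/
theorem mol_add {μ : Pt A B}
    (hper : ∀ᵐ z, z ∈ Dom A B → f (z + μ) = f z) (hη : IsKernel η s r) {x : Pt A B}
    (hx : x ∈ Dom A B) : mol η s f (x + μ) = mol η s f x := by
  unfold mol
  rw [← integral_add_right_eq_self (fun z => f z * η (x + μ + s - z)) μ]
  refine integral_congr_ae ?_
  filter_upwards [hper] with z hz
  have e : x + μ + s - (z + μ) = x + s - z := by abel
  rw [e]
  by_cases hzD : z ∈ Dom A B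
  · rw [hz hzD]
  · have : η (x + s - z) = 0 := hη.zero_of fun h => hzD (hη.mem (fun i => (hx i).le) h)
    rw [this, mul_zero, mul_zero]

end

/-- averages of real functions are real -/
theorem avgL_im {R : A → Prop} {f : Pt A B → ℂ} (hf : ∀ x ∈ Dom A B, (f x).im = 0) :
    ∀ {l : List (Pt A B)}, (∀ μ ∈ l, μ ∈ TT R B) → ∀ x ∈ Dom A B, (avgL l f x).im = 0
  | [], _, x, hx => hf x hx
  | μ :: l, h, x, hx => by
    have hl : ∀ ν ∈ l, ν ∈ TT R B := fun ν hν => h ν (List.mem_cons_of_mem _ hν)
    have hμ := h μ List.mem_cons_self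
    have e : avgL (μ :: l) f x = ((∫ c in (0 : ℝ)..1, (avgL l f (x + c • μ)).re : ℝ) : ℂ) := by
      rw [← intervalIntegral.integral_ofReal]
      refine intervalIntegral.integral_congr fun c _ => ?_
      have := avgL_im hf hl _ (add_mem_dom hx ((TT R B).smul_mem c hμ))
      apply Complex.ext
      · simp
      · simp [this]
    rw [e, Complex.ofReal_im]

/-- The averages of the coefficients of a closed form are constant. -/
theorem avg_const {R : A → Prop} {g : Pt A B → Matrix (A ⊕ B) (A ⊕ B) ℂ}
    (hD1 : ∀ i k, D1 fun x => g x i k)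
    (hcl : ∀ x ∈ Dom A B, ∀ i j k, wd i (fun y => g y j k) x = wd j (fun y => g y i k) x)
    {j : A ⊕ B} (him : ∀ x ∈ Dom A B, (g x j j).im = 0) {l : List (Pt A B)}
    (hlT : ∀ μ ∈ l, μ ∈ TT R B)
    (hper : ∀ i k, ∀ μ ∈ l, ∀ x ∈ Dom A B, g (x + μ) i k = g x i k)
    (hj : ∀ c : ℂ, (Pi.single j c : Pt A B) ∈ Submodule.span ℝ {μ | μ ∈ l}) :
    ∀ x ∈ Dom A B, ∀ y ∈ Dom A B,
      avgL l (fun x => g x j j) x = avgL l (fun x => g x j j) y := by
  set f : Pt A B → ℂ := fun x => g x j j with hf
  have hD1f : D1 f := hD1 _ _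
  have hD1W : D1 (avgL l f) := avgL_D1 hD1f hlT
  have hWim : ∀ x ∈ Dom A B, (avgL l f x).im = 0 := avgL_im him hlT
  have hWd : ∀ x ∈ Dom A B, fderiv ℝ (avgL l f) x = 0 := by
    intro x hx
    apply clm_eq_zero
    · intro v
      have h1 : HasFDerivAt (fun y => (avgL l f y).im)
          (Complex.imCLM.comp (fderiv ℝ (avgL l f) x)) x :=
        Complex.imCLM.hasFDerivAt.comp x (hD1W.diff x hx).hasFDerivAt
      have h2 : HasFDerivAt (fun y => (avgL l f y).im) (0 : Pt A B →L[ℝ] ℝ) x := by
        refine (hasFDerivAt_const (0 : ℝ) x).congr_of_eventuallyEq ?_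
        filter_upwards [isOpen_dom.mem_nhds hx] with y hy
        exact hWim y hy
      have h3 := h1.unique h2
      have h4 := congrArg (fun D : Pt A B →L[ℝ] ℝ => D v) h3
      simpa using h4
    · intro k
      have h1 : wd k (avgL l f) x = avgL l (wd k f) x := wd_avgL hD1f k hlT x hx
      have h2 : avgL l (wd k f) x = avgL l (wd j (fun y => g y k j)) x :=
        avgL_congr (fun y hy => hcl y hy k j j) hlT x hx
      have h3 : avgL l (wd j (fun y => g y k j)) x = wd j (avgL l fun y => g y k j) x :=
        (wd_avgL (hD1 _ _) _ hlT x hx).symm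
      have h4 : ∀ c : ℂ, fderiv ℝ (avgL l fun y => g y k j) x (Pi.single j c) = 0 := by
        intro c
        have hv : (Pi.single j c : Pt A B) ∈ Submodule.span ℝ {μ | μ ∈ l} := hj c
        have hd := ((avgL_D1 (hD1 k j) hlT).diff x hx).hasFDerivAt
        have h5 : HasDerivAt (fun t : ℝ => (avgL l fun y => g y k j)
            (x + t • (Pi.single j c : Pt A B)))
            (fderiv ℝ (avgL l fun y => g y k j) x (Pi.single j c)) 0 := by
          have h6 : HasDerivAt (fun t : ℝ => x + t • (Pi.single j c : Pt A B))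
              (Pi.single j c) 0 := by
            simpa using ((hasDerivAt_id (0 : ℝ)).smul_const (Pi.single j c : Pt A B)).const_add x
          have hd' : HasFDerivAt (avgL l fun y => g y k j)
              (fderiv ℝ (avgL l fun y => g y k j) x)
              (x + (0 : ℝ) • (Pi.single j c : Pt A B)) := by
            rw [zero_smul, add_zero]; exact hd
          exact hd'.comp_hasDerivAt 0 h6
        have h7 : HasDerivAt (fun t : ℝ => (avgL l fun y => g y k j)
            (x + t • (Pi.single j c : Pt A B))) 0 0 := by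
          have h8 : (fun t : ℝ => (avgL l fun y => g y k j)
              (x + t • (Pi.single j c : Pt A B))) =
              fun _ => avgL l (fun y => g y k j) x := by
            funext t
            exact (avgL_span hlT (fun μ hμ y hy => hper k _ μ hμ y hy)
              (Submodule.smul_mem _ t hv)).2 x hx
          rw [h8]
          exact hasDerivAt_const _ _
        exact h5.unique h7
      change wd k (avgL l f) x = 0
      rw [h1, h2, h3]
      unfold wd
      rw [h4, h4]
      simp
  intro x hx y hy
  refine convex_dom.is_const_of_fderivWithin_eq_zero (𝕜 := ℝ)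
    (fun z hz => (hD1W.diff z hz).differentiableWithinAt) (fun z hz => ?_) hx hy
  rw [fderivWithin_of_isOpen isOpen_dom hz, hWd z hz]

end Pool.Agent.H906.PC
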