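import Pool.Agent.H906.PC.Weak3

/-! # Averages of functionals -/

set_option linter.unusedSectionVars false

open Filter Topology Matrix MeasureTheory
open scoped MatrixGroups Classical ComplexOrder ContDiff

namespace Pool.Agent.H906.PC

variable {A B : Type*} [Fintype A] [Fintype B]

section W
variable {W : Submodule ℝ (Pt A B)}

theorem avg1_contW {F : Pt A B → ℂ} (hF : ContinuousOn F W) {μ : Pt A B} (hμ : μ ∈ W) :
    ContinuousOn (avg1 μ F) W := by
  rw [continuousOn_iff_continuous_domRestrict] at hF ⊢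
  have h1 : Continuous (Function.uncurry fun (w : W) (c : ℝ) =>
      (Set.domRestrict (W : Set (Pt A B)) F) (w + c • (⟨μ, hμ⟩ : W))) := by
    refine hF.comp ?_
    fun_prop
  exact intervalIntegral.continuous_parametric_intervalIntegral_of_continuous' h1 0 1

theorem avgL_contW {F : Pt A B → ℂ} (hF : ContinuousOn F W) :
    ∀ {l : List (Pt A B)}, (∀ μ ∈ l, μ ∈ W) → ContinuousOn (avgL l F) W
  | [], _ => hF
  | _ :: _, h => avg1_contW (avgL_contW hF fun ν hν => h ν (List.mem_cons_of_mem _ hν))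
      (h _ List.mem_cons_self)

theorem lineW {F : Pt A B → ℂ} (hF : ContinuousOn F W) {μ w : Pt A B} (hμ : μ ∈ W) (hw : w ∈ W) :
    Continuous fun c : ℝ => F (w + c • μ) := by
  rw [← continuousOn_univ]
  exact hF.comp (by fun_prop) fun c _ => W.add_mem hw (W.smul_mem c hμ)

theorem avgL_congrW {F G : Pt A B → ℂ} (hFG : ∀ w ∈ W, F w = G w) :
    ∀ {l : List (Pt A B)}, (∀ μ ∈ l, μ ∈ W) → ∀ w ∈ W, avgL l F w = avgL l G w
  | [], _, w, hw => hFG w hw
  | μ :: l, h, w, hw => by
    unfold avgL avg1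
    refine intervalIntegral.integral_congr fun c _ => ?_
    exact avgL_congrW hFG (fun ν hν => h ν (List.mem_cons_of_mem _ hν)) _
      (W.add_mem hw (W.smul_mem c (h μ List.mem_cons_self)))

theorem avgL_boundW {F : Pt A B → ℂ} (hF : ContinuousOn F W) {m M : ℝ}
    (hb : ∀ v ∈ W, (F v).im = 0 ∧ m ≤ (F v).re ∧ (F v).re ≤ M) :
    ∀ {l : List (Pt A B)}, (∀ μ ∈ l, μ ∈ W) → ∀ w ∈ W,
      (avgL l F w).im = 0 ∧ m ≤ (avgL l F w).re ∧ (avgL l F w).re ≤ M
  | [], _, w, hw => hb w hw
  | μ :: l, h, w, hw => by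
    have hl : ∀ ν ∈ l, ν ∈ W := fun ν hν => h ν (List.mem_cons_of_mem _ hν)
    have hμ := h μ List.mem_cons_self
    have ih : ∀ c : ℝ, (avgL l F (w + c • μ)).im = 0 ∧ m ≤ (avgL l F (w + c • μ)).re ∧
        (avgL l F (w + c • μ)).re ≤ M := fun c =>
      avgL_boundW hF hb hl _ (W.add_mem hw (W.smul_mem c hμ))
    have hline : Continuous fun c : ℝ => avgL l F (w + c • μ) := lineW (avgL_contW hF hl) hμ hw
    have hint : IntervalIntegrable (fun c : ℝ => avgL l F (w + c • μ)) volume 0 1 :=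
      hline.intervalIntegrable _ _
    change (∫ c in (0 : ℝ)..1, avgL l F (w + c • μ)).im = 0 ∧
      m ≤ (∫ c in (0 : ℝ)..1, avgL l F (w + c • μ)).re ∧
      (∫ c in (0 : ℝ)..1, avgL l F (w + c • μ)).re ≤ M
    have him : (∫ c in (0 : ℝ)..1, avgL l F (w + c • μ)).im =
        ∫ c in (0 : ℝ)..1, (avgL l F (w + c • μ)).im := by
      have := Complex.imCLM.intervalIntegral_comp_comm hint
      exact this.symm
    have hre : (∫ c in (0 : ℝ)..1, avgL l F (w + c • μ)).re =
        ∫ c in (0 : ℝ)..1, (avgL l F (w + c • μ)).re := by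
      have := Complex.reCLM.intervalIntegral_comp_comm hint
      exact this.symm
    have hrint : IntervalIntegrable (fun c : ℝ => (avgL l F (w + c • μ)).re) volume 0 1 :=
      (Complex.continuous_re.comp hline).intervalIntegrable _ _
    rw [him, hre]
    refine ⟨?_, ?_, ?_⟩
    · rw [intervalIntegral.integral_congr (g := fun _ => (0 : ℝ)) fun c _ => (ih c).1]
      simp
    · have := intervalIntegral.integral_mono_on (zero_le_one) (intervalIntegrable_const (c := m))
        hrint fun c _ => (ih c).2.1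
      simpa using this
    · have := intervalIntegral.integral_mono_on (zero_le_one) hrint
        (intervalIntegrable_const (c := M)) fun c _ => (ih c).2.2
      simpa using this

theorem avgL_closeW {F G : Pt A B → ℂ} (hF : ContinuousOn F W) (hG : ContinuousOn G W) {δ : ℝ} :
    ∀ {l : List (Pt A B)}, (∀ μ ∈ l, μ ∈ W) → ∀ w ∈ W,
      (∀ v ∈ W, ‖v - w‖ ≤ (l.map fun μ => ‖μ‖).sum → ‖F v - G v‖ ≤ δ) →
      ‖avgL l F w - avgL l G w‖ ≤ δ
  | [], _, w, hw, h => h w hw (by simp)
  | μ :: l, h, w, hw, hb => by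
    have hl : ∀ ν ∈ l, ν ∈ W := fun ν hν => h ν (List.mem_cons_of_mem _ hν)
    have hμ := h μ List.mem_cons_self
    have i1 : IntervalIntegrable (fun c : ℝ => avgL l F (w + c • μ)) volume 0 1 :=
      (lineW (avgL_contW hF hl) hμ hw).intervalIntegrable _ _
    have i2 : IntervalIntegrable (fun c : ℝ => avgL l G (w + c • μ)) volume 0 1 :=
      (lineW (avgL_contW hG hl) hμ hw).intervalIntegrable _ _
    change ‖(∫ c in (0 : ℝ)..1, avgL l F (w + c • μ)) -
      ∫ c in (0 : ℝ)..1, avgL l G (w + c • μ)‖ ≤ δ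
    rw [← intervalIntegral.integral_sub i1 i2]
    have := intervalIntegral.norm_integral_le_of_norm_le_const (a := (0 : ℝ)) (b := 1) (C := δ)
      (f := fun c : ℝ => avgL l F (w + c • μ) - avgL l G (w + c • μ)) (fun c hc => by
        rw [Set.uIoc_of_le zero_le_one] at hc
        refine avgL_closeW hF hG hl _ (W.add_mem hw (W.smul_mem c hμ)) fun v hv hvn => ?_
        refine hb v hv ?_
        rw [List.map_cons, List.sum_cons]
        have e : v - w = (v - (w + c • μ)) + c • μ := by abel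
        rw [e]
        refine (norm_add_le _ _).trans ?_
        have h1 : ‖c • μ‖ ≤ ‖μ‖ := by
          rw [norm_smul, Real.norm_of_nonneg hc.1.le]
          exact mul_le_of_le_one_left (norm_nonneg _) hc.2
        linarith)
    simpa using this

end W

/-- continuous functions with compact support in `Dom` -/
structure IsCC (χ : Pt A B → ℂ) : Prop where
  cont : Continuous χ
  compact : HasCompactSupport χ
  supp : tsupport χ ⊆ Dom A B

theorem IsTest.isCC {χ : Pt A B → ℂ} (h : IsTest χ) : IsCC χ :=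
  ⟨h.smooth.continuous, h.compact, h.supp⟩

/-- the functional -/
noncomputable def AA (f χ : Pt A B → ℂ) (v : Pt A B) : ℂ := ∫ z, f z * χ (z - v)

theorem exists_KK {R : A → Prop} {K0 : Set (Pt A B)} (hK0 : IsCompact K0) (hK0D : K0 ⊆ Dom A B)
    (ρ : ℝ) : ∃ K ⊆ Dom A B, IsCompact K ∧ ∀ v ∈ TT R B, ‖v‖ ≤ ρ → ∀ z, z - v ∈ K0 → z ∈ K := by
  refine ⟨(fun p : Pt A B × Pt A B => p.1 + p.2) '' (K0 ×ˢ ((TT R B : Set (Pt A B)) ∩
    Metric.closedBall 0 ρ)), ?_, ?_, ?_⟩
  · rintro _ ⟨⟨x, v⟩, ⟨hx, hv, _⟩, rfl⟩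
    exact add_mem_dom (hK0D hx) hv
  · exact (hK0.prod ((isCompact_closedBall _ _).inter_left
      (TT R B).closed_of_finiteDimensional)).image (by fun_prop)
  · intro v hv hvn z hz
    exact ⟨(z - v, v), ⟨hz, hv, by rwa [mem_closedBall_zero_iff]⟩, by simp⟩

section
variable {f : Pt A B → ℂ} (hf : ∀ K ⊆ Dom A B, IsCompact K → IntegrableOn f K)
  {R : A → Prop}

include hf in
theorem AA_cont {χ : Pt A B → ℂ} (hχ : IsCC χ) : ContinuousOn (AA f χ) (TT R B) := by
  intro v0 hv0
  obtain ⟨K, hKD, hK, hKv⟩ := exists_KK (R := R) hχ.compact hχ.supp (‖v0‖ + 1)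
  obtain ⟨M, hM⟩ := hχ.cont.bounded_above_of_compact_support hχ.compact
  have hnhd : ∀ᶠ v in 𝓝[(TT R B : Set (Pt A B))] v0, ∀ z, z ∉ K → χ (z - v) = 0 := by
    have h1 : ∀ᶠ v in 𝓝[(TT R B : Set (Pt A B))] v0, v ∈ Metric.ball v0 1 :=
      mem_nhdsWithin_of_mem_nhds (Metric.ball_mem_nhds v0 one_pos)
    filter_upwards [h1, self_mem_nhdsWithin] with v hv hvT z hz
    apply image_eq_zero_of_notMem_tsupport
    intro h
    refine hz (hKv v hvT ?_ z h)
    rw [Metric.mem_ball, dist_eq_norm] at hv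
    have e : v = v0 + (v - v0) := by abel
    rw [e]
    exact (norm_add_le _ _).trans (by linarith)
  refine continuousWithinAt_of_dominated (bound := K.indicator fun z => ‖f z‖ * M) ?_ ?_ ?_ ?_
  · filter_upwards [hnhd] with v hv
    exact (integrable_mul hK (hf K hKD hK) (φ := fun z => χ (z - v))
      (hχ.cont.comp (continuous_id.sub continuous_const)).continuousOn hv).aestronglyMeasurable
  · filter_upwards [hnhd] with v hv
    refine Eventually.of_forall fun z => ?_
    by_cases hz : z ∈ K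
    · rw [Set.indicator_of_mem hz, norm_mul]
      exact mul_le_mul_of_nonneg_left (hM _) (norm_nonneg _)
    · rw [Set.indicator_of_notMem hz, hv z hz, mul_zero, norm_zero]
  · exact IntegrableOn.integrable_indicator ((hf K hKD hK).norm.mul_const M) hK.measurableSet
  · refine Eventually.of_forall fun z => ?_
    refine ContinuousAt.continuousWithinAt ?_
    exact (continuous_const.mul (hχ.cont.comp (continuous_const.sub continuous_id))).continuousAt

include hf in
theorem AA_close {χ χ' : Pt A B → ℂ} {K0 : Set (Pt A B)} {ρ : ℝ} {K : Set (Pt A B)} (hKD : K ⊆ Dom A B) (hK : IsCompact K)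
    (hKv : ∀ v ∈ TT R B, ‖v‖ ≤ ρ → ∀ z, z - v ∈ K0 → z ∈ K)
    (hχ : Continuous χ) (hχ0 : ∀ z, z ∉ K0 → χ z = 0) (hχ' : Continuous χ')
    (hχ0' : ∀ z, z ∉ K0 → χ' z = 0) {om : ℝ} (hom : ∀ z, ‖χ z - χ' z‖ ≤ om) {v : Pt A B}
    (hv : v ∈ TT R B) (hvn : ‖v‖ ≤ ρ) :
    ‖AA f χ v - AA f χ' v‖ ≤ (∫ z in K, ‖f z‖) * om := by
  have h0 : ∀ z, z ∉ K → χ (z - v) = 0 := fun z hz => hχ0 _ fun h => hz (hKv v hv hvn z h)
  have h0' : ∀ z, z ∉ K → χ' (z - v) = 0 := fun z hz => hχ0' _ fun h => hz (hKv v hv hvn z h)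
  have i1 := integrable_mul hK (hf K hKD hK) (φ := fun z => χ (z - v))
    (hχ.comp (continuous_id.sub continuous_const)).continuousOn h0
  have i2 := integrable_mul hK (hf K hKD hK) (φ := fun z => χ' (z - v))
    (hχ'.comp (continuous_id.sub continuous_const)).continuousOn h0'
  unfold AA
  rw [← integral_sub i1 i2, ← integral_mul_const, ← integral_indicator hK.measurableSet]
  refine norm_integral_le_of_norm_le
    (IntegrableOn.integrable_indicator ((hf K hKD hK).norm.mul_const om) hK.measurableSet) ?_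
  refine Eventually.of_forall fun z => ?_
  by_cases hz : z ∈ K
  · rw [Set.indicator_of_mem hz, ← mul_sub, norm_mul]
    exact mul_le_mul_of_nonneg_left (hom _) (norm_nonneg _)
  · rw [Set.indicator_of_notMem hz, h0 z hz, h0' z hz]
    simp

end

end Pool.Agent.H906.PC
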