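import Pool.Agent.H906.PC.Weak4

/-! # Fubini theorems for averages -/

set_option linter.unusedSectionVars false

open Filter Topology Matrix MeasureTheory
open scoped MatrixGroups Classical ComplexOrder ContDiff

namespace Pool.Agent.H906.PC

variable {A B : Type*} [Fintype A] [Fintype B]

theorem avgL_contD {R : A → Prop} {F : Pt A B → ℂ} (hF : ContinuousOn F (Dom A B)) :
    ∀ {l : List (Pt A B)}, (∀ μ ∈ l, μ ∈ TT R B) → ContinuousOn (avgL l F) (Dom A B)
  | [], _ => hF
  | _ :: _, h => continuousOn_avg (avgL_contD hF fun ν hν => h ν (List.mem_cons_of_mem _ hν))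
      (h _ List.mem_cons_self)

/-- integration against a test function commutes with averages -/
theorem swap_avg {R : A → Prop} {F : Pt A B → ℂ} (hF : ContinuousOn F (Dom A B))
    {χ : Pt A B → ℂ} (hχ : IsCC χ) :
    ∀ {l : List (Pt A B)}, (∀ μ ∈ l, μ ∈ TT R B) → ∀ w ∈ TT R B,
      ∫ x, χ x * avgL l F (x + w) = avgL l (fun v => ∫ x, χ x * F (x + v)) w
  | [], _, _, _ => rfl
  | μ :: l, h, w, hw => by
    have hl : ∀ ν ∈ l, ν ∈ TT R B := fun ν hν => h ν (List.mem_cons_of_mem _ hν)
    have hμ := h μ List.mem_cons_self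
    set G := avgL l F with hG
    have hGc : ContinuousOn G (Dom A B) := avgL_contD hF hl
    set K := tsupport χ with hK
    have h1 : ∀ x, χ x * avgL (μ :: l) F (x + w) =
        ∫ c in (0 : ℝ)..1, χ x * G (x + w + c • μ) := by
      intro x
      rw [intervalIntegral.integral_const_mul]
      rfl
    have hcont : ContinuousOn (fun p : ℝ × Pt A B => χ p.2 * G (p.2 + w + p.1 • μ))
        (Set.Icc (0 : ℝ) 1 ×ˢ K) := by
      refine ContinuousOn.mul (hχ.cont.comp continuous_snd).continuousOn ?_
      refine hGc.comp (by fun_prop) ?_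
      rintro ⟨c, x⟩ ⟨_, hx⟩
      exact add_mem_dom (add_mem_dom (hχ.supp hx) hw) ((TT R B).smul_mem c hμ)
    have hint : Integrable (Function.uncurry fun (c : ℝ) (x : Pt A B) =>
        χ x * G (x + w + c • μ)) ((volume.restrict (Set.uIoc (0 : ℝ) 1)).prod volume) := by
      have h2 : IntegrableOn (fun p : ℝ × Pt A B => χ p.2 * G (p.2 + w + p.1 • μ))
          (Set.Icc (0 : ℝ) 1 ×ˢ K) (volume.prod volume) :=
        hcont.integrableOn_compact (isCompact_Icc.prod hχ.compact)
      have h3 : IntegrableOn (fun p : ℝ × Pt A B => χ p.2 * G (p.2 + w + p.1 • μ))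
          (Set.uIoc (0 : ℝ) 1 ×ˢ Set.univ) (volume.prod volume) := by
        refine h2.of_forall_sdiff_eq_zero (measurableSet_uIoc.prod MeasurableSet.univ) ?_
        rintro ⟨c, x⟩ ⟨⟨hc, _⟩, hn⟩
        have hx : x ∉ K := by
          intro hx
          refine hn ⟨?_, hx⟩
          rw [Set.uIoc_of_le zero_le_one] at hc
          exact ⟨hc.1.le, hc.2⟩
        change χ x * _ = 0
        rw [image_eq_zero_of_notMem_tsupport hx, zero_mul]
      have e : ((volume : Measure ℝ).restrict (Set.uIoc (0 : ℝ) 1)).prod (volume : Measure (Pt A B)) =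
          ((volume : Measure ℝ).prod (volume : Measure (Pt A B))).restrict
            (Set.uIoc (0 : ℝ) 1 ×ˢ Set.univ) := by
        rw [← Measure.prod_restrict, Measure.restrict_univ]
      rw [e]
      exact h3
    have h4 := intervalIntegral_integral_swap (μ := (volume : Measure (Pt A B))) hint
    rw [integral_congr_ae (Eventually.of_forall h1), ← h4]
    change _ = ∫ c in (0 : ℝ)..1, avgL l (fun v => ∫ x, χ x * F (x + v)) (w + c • μ)
    refine intervalIntegral.integral_congr fun c _ => ?_
    have ih := swap_avg hF hχ hl (w + c • μ) ((TT R B).add_mem hw ((TT R B).smul_mem c hμ))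
    rw [← ih]
    congr 1
    funext x
    rw [← add_assoc]

/-- the convolution of a test function with a kernel -/
noncomputable def cv' (η : Pt A B → ℂ) (s : Pt A B) (χ : Pt A B → ℂ) (z : Pt A B) : ℂ :=
  ∫ x, χ x * η (x + s - z)

theorem conv_swap {R : A → Prop} {f : Pt A B → ℂ}
    (hf : ∀ K ⊆ Dom A B, IsCompact K → IntegrableOn f K)
    {η : Pt A B → ℂ} {s : Pt A B} {r : ℝ} (hη : IsKernel η s r) {χ : Pt A B → ℂ} (hχ : IsCC χ)
    {v : Pt A B} (hv : v ∈ TT R B) :
    ∫ x, χ x * mol η s f (x + v) = AA f (cv' η s χ) v := by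
  set K1 := tsupport χ with hK1
  set K2 := (fun p : Pt A B × Pt A B => p.1 + v + s + p.2) '' (K1 ×ˢ Metric.closedBall 0 r)
    with hK2
  have hK2c : IsCompact K2 := (IsCompact.prod hχ.compact (isCompact_closedBall _ _)).image
    (by fun_prop)
  have hK2D : K2 ⊆ Dom A B := by
    rintro _ ⟨⟨x, y⟩, ⟨hx, hy⟩, rfl⟩
    have h1 : x + v ∈ Dom A B := add_mem_dom (hχ.supp hx) hv
    refine hη.mem (fun i => (h1 i).le) ?_
    rw [mem_closedBall_zero_iff] at hy
    rw [Metric.mem_closedBall, dist_eq_norm]
    simpa using hy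
  have hχi : Integrable χ := hχ.cont.integrable_of_hasCompactSupport hχ.compact
  have hfi : Integrable (K2.indicator f) := (hf K2 hK2D hK2c).integrable_indicator
    hK2c.measurableSet
  obtain ⟨M, hM⟩ := hη.smooth.continuous.bounded_above_of_compact_support hη.hasCompactSupport
  have hprod : Integrable (fun p : Pt A B × Pt A B => χ p.1 * K2.indicator f p.2 *
      η (p.1 + v + s - p.2)) (volume.prod volume) := by
    refine (hχi.mul_prod hfi).mul_bdd (c := M) ?_ (Eventually.of_forall fun p => hM _)
    exact (hη.smooth.continuous.comp (((continuous_fst.add continuous_const).add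
      continuous_const).sub continuous_snd)).aestronglyMeasurable
  have hswap := integral_integral_swap (f := fun x z => χ x * K2.indicator f z *
    η (x + v + s - z)) hprod
  have hzero : ∀ x z, χ x * K2.indicator f z * η (x + v + s - z) =
      χ x * (f z * η (x + v + s - z)) := by
    intro x z
    by_cases hx : x ∈ K1
    · by_cases hz : z ∈ K2
      · rw [Set.indicator_of_mem hz]; ring
      · have : η (x + v + s - z) = 0 := by
          apply hη.supp
          by_contra h
          push Not at h
          apply hz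
          refine ⟨(x, z - (x + v + s)), ⟨hx, ?_⟩, by simp⟩
          rw [mem_closedBall_zero_iff, ← norm_neg]
          simpa using h
        rw [this]; ring
    · rw [image_eq_zero_of_notMem_tsupport hx]; ring
  simp only [hzero] at hswap
  have e1 : ∀ x, ∫ z, χ x * (f z * η (x + v + s - z)) = χ x * mol η s f (x + v) := by
    intro x
    rw [integral_const_mul]
    rfl
  simp only [e1] at hswap
  rw [hswap]
  unfold AA cv'
  congr 1
  funext z
  rw [← integral_const_mul]
  congr 1
  funext x
  have e2 : x + v + s - z = x + s - (z - v) := by abel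
  rw [e2]; ring

end Pool.Agent.H906.PC
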