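import Pool.Agent.H906.PC.Weak5

/-! # Averages of closed positive currents -/

set_option linter.unusedSectionVars false

open Filter Topology Matrix MeasureTheory
open scoped MatrixGroups Classical ComplexOrder ContDiff

namespace Pool.Agent.H906.PC

variable {A B : Type*} [Fintype A] [Fintype B]

theorem exists_kernel {ε : ℝ} (hε : 0 < ε) : ∃ (η : Pt A B → ℂ) (s : Pt A B),
    IsKernel η s ε ∧ ‖s‖ ≤ 2 * ε ∧ (∀ x, (η x).im = 0) ∧ ∫ x, η x = 1 ∧ ∫ x, ‖η x‖ = 1 := by
  let φ : ContDiffBump (0 : Pt A B) := ⟨ε / 2, ε, by positivity, by linarith⟩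
  have hi : ∫ x, φ.normed volume x = 1 := φ.integral_normed
  refine ⟨fun x => ((φ.normed volume x : ℝ) : ℂ),
    Sum.elim (fun _ => ((2 * ε : ℝ) : ℂ) * Complex.I) (fun _ => 0), ⟨?_, ?_, ?_⟩, ?_, ?_, ?_, ?_⟩
  · exact Complex.ofRealCLM.contDiff.comp φ.contDiff_normed
  · intro x hx
    have h1 : x ∉ Function.support (φ.normed volume) := by
      rw [φ.support_normed_eq, mem_ball_zero_iff]
      exact not_lt.2 hx.le
    rw [Function.notMem_support] at h1
    rw [h1, Complex.ofReal_zero]
  · intro i
    simp only [Sum.elim_inl, Complex.mul_im, Complex.ofReal_re, Complex.I_im, mul_one,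
      Complex.ofReal_im, Complex.I_re, mul_zero, add_zero]
    linarith
  · rw [pi_norm_le_iff_of_nonneg (by positivity)]
    rintro (i | j)
    · simp only [Sum.elim_inl, norm_mul, Complex.norm_real, Complex.norm_I, mul_one]
      rw [Real.norm_of_nonneg (by positivity), Real.norm_of_nonneg hε.le]
    · simp only [Sum.elim_inr, norm_zero]; positivity
  · intro x; exact Complex.ofReal_im _
  · rw [integral_complex_ofReal, hi]; simp
  · rw [← hi]
    congr 1
    funext x
    rw [Complex.norm_real, Real.norm_of_nonneg (φ.nonneg_normed x)]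

theorem cv'_cont {η : Pt A B → ℂ} {s : Pt A B} {r : ℝ} (hη : IsKernel η s r) {χ : Pt A B → ℂ}
    (hχ : IsCC χ) : Continuous (cv' η s χ) := by
  obtain ⟨M, hM⟩ := hη.smooth.continuous.bounded_above_of_compact_support hη.hasCompactSupport
  have hχi : Integrable χ := hχ.cont.integrable_of_hasCompactSupport hχ.compact
  refine continuous_of_dominated (bound := fun x => ‖χ x‖ * M) ?_ ?_ (hχi.norm.mul_const M) ?_
  · intro z
    exact (hχ.cont.mul (hη.smooth.continuous.comp ((continuous_id.add continuous_const).sub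
      continuous_const))).aestronglyMeasurable
  · intro z
    refine Eventually.of_forall fun x => ?_
    rw [norm_mul]
    exact mul_le_mul_of_nonneg_left (hM _) (norm_nonneg _)
  · refine Eventually.of_forall fun x => ?_
    exact continuous_const.mul (hη.smooth.continuous.comp (continuous_const.sub continuous_id))

theorem cv'_close {η : Pt A B → ℂ} {s : Pt A B} {r : ℝ} (hη : IsKernel η s r)
    (h1 : ∫ x, η x = 1) (h2 : ∫ x, ‖η x‖ = 1) {χ : Pt A B → ℂ}
    (hχ : IsCC χ) {om : ℝ} {z : Pt A B} (hom : ∀ x, ‖x + s - z‖ ≤ r → ‖χ x - χ z‖ ≤ om) :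
    ‖χ z - cv' η s χ z‖ ≤ om := by
  have hηi : Integrable η := hη.smooth.continuous.integrable_of_hasCompactSupport
    hη.hasCompactSupport
  have hηc : Continuous fun x => η (x + s - z) :=
    hη.smooth.continuous.comp ((continuous_id.add continuous_const).sub continuous_const)
  have he : ∀ {E : Type} [NormedAddCommGroup E] [NormedSpace ℝ E] (F : Pt A B → E),
      ∫ x, F (x + s - z) = ∫ x, F x := by
    intro E _ _ F
    have := integral_add_right_eq_self (μ := (volume : Measure (Pt A B))) F (s - z)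
    rw [← this]
    congr 1
    funext x
    rw [add_sub_assoc]
  have hηi' : Integrable fun x => η (x + s - z) := by
    have := hηi.comp_add_right (s - z)
    refine this.congr (Eventually.of_forall fun x => ?_)
    change η (x + (s - z)) = η (x + s - z)
    rw [add_sub_assoc]
  obtain ⟨M, hM⟩ := hχ.cont.bounded_above_of_compact_support hχ.compact
  have hprod : Integrable fun x => χ x * η (x + s - z) :=
    hηi'.bdd_mul (c := M) hχ.cont.aestronglyMeasurable (Eventually.of_forall hM)
  have e : cv' η s χ z - χ z = ∫ x, (χ x - χ z) * η (x + s - z) := by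
    have : χ z = ∫ x, χ z * η (x + s - z) := by
      rw [integral_const_mul, he η, h1, mul_one]
    unfold cv'
    nth_rewrite 1 [this]
    rw [← integral_sub hprod (hηi'.const_mul _)]
    congr 1
    funext x
    ring
  rw [norm_sub_rev, e]
  have hb : ∫ x, om * ‖η (x + s - z)‖ = om := by
    rw [integral_const_mul, he (fun x => ‖η x‖), h2, mul_one]
  rw [← hb]
  refine norm_integral_le_of_norm_le (hηi'.norm.const_mul om) (Eventually.of_forall fun x => ?_)
  rw [norm_mul]
  by_cases hx : ‖x + s - z‖ ≤ r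
  · exact mul_le_mul_of_nonneg_right (hom x hx) (norm_nonneg _)
  · rw [hη.supp _ (not_le.1 hx), norm_zero, mul_zero, mul_zero]

theorem approx {R : A → Prop} {f : Pt A B → ℂ}
    (hf : ∀ K ⊆ Dom A B, IsCompact K → IntegrableOn f K) {χ : Pt A B → ℂ} (hχ : IsCC χ)
    {l : List (Pt A B)} (hl : ∀ μ ∈ l, μ ∈ TT R B) {δ : ℝ} (hδ : 0 < δ) :
    ∃ ε0 > 0, ∀ (η : Pt A B → ℂ) (s : Pt A B) (ε : ℝ), ε ≤ ε0 → IsKernel η s ε →
      ‖s‖ ≤ 2 * ε → ∫ x, η x = 1 → ∫ x, ‖η x‖ = 1 →
      ‖avgL l (AA f χ) 0 - avgL l (AA f (cv' η s χ)) 0‖ ≤ δ := by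
  obtain ⟨δ0, hδ0, hthick⟩ := hχ.compact.isCompact.exists_cthickening_subset_open isOpen_dom
    hχ.supp
  set K0 := Metric.cthickening δ0 (tsupport χ) with hK0
  have hK0c : IsCompact K0 := hχ.compact.isCompact.cthickening
  set ρ := (l.map fun μ => ‖μ‖).sum with hρ
  obtain ⟨K, hKD, hK, hKv⟩ := exists_KK (R := R) hK0c hthick ρ
  set I := ∫ z in K, ‖f z‖ with hI
  have hI0 : 0 ≤ I := integral_nonneg fun _ => norm_nonneg _
  set om := δ / (I + 1) with hom
  have hom0 : 0 < om := by positivity
  have huc : UniformContinuous χ := hχ.cont.uniformContinuous_of_tendsto_cocompact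
    (x := 0) (by
      have := hχ.compact.is_zero_at_infty
      exact this)
  obtain ⟨δ1, hδ1, hu⟩ := Metric.uniformContinuous_iff.1 huc om hom0
  refine ⟨min (δ0 / 4) (δ1 / 4), by positivity, ?_⟩
  intro η s ε hε hη hs h1 h2
  have hε0 : 4 * ε ≤ δ0 := by
    have := hε.trans (min_le_left _ _)
    linarith
  have hε1 : 4 * ε ≤ δ1 := by
    have := hε.trans (min_le_right _ _)
    linarith
  have hεs : 0 ≤ ε := by
    have := norm_nonneg s
    linarith
  have hε' : 0 < ε ∨ ε = 0 := hεs.lt_or_eq.imp id Eq.symm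
  have hdist : ∀ x z : Pt A B, ‖x + s - z‖ ≤ ε → ‖x - z‖ ≤ 3 * ε := by
    intro x z hx
    have e : x - z = (x + s - z) - s := by abel
    rw [e]
    exact (norm_sub_le _ _).trans (by linarith)
  have hclose : ∀ z, ‖χ z - cv' η s χ z‖ ≤ om := by
    intro z
    refine cv'_close hη h1 h2 hχ fun x hx => ?_
    have h3 := hdist x z hx
    have h4 : dist x z < δ1 := by
      rw [dist_eq_norm]
      rcases hε' with h | h
      · linarith
      · rw [h] at h3; linarith
    have := hu h4
    rw [dist_eq_norm] at this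
    exact this.le
  have hχ0 : ∀ z, z ∉ K0 → χ z = 0 := by
    intro z hz
    apply image_eq_zero_of_notMem_tsupport
    intro h
    exact hz (Metric.self_subset_cthickening _ h)
  have hcv0 : ∀ z, z ∉ K0 → cv' η s χ z = 0 := by
    intro z hz
    have : ∀ x, χ x * η (x + s - z) = 0 := by
      intro x
      by_cases hx : x ∈ tsupport χ
      · have : η (x + s - z) = 0 := by
          apply hη.supp
          by_contra h
          push Not at h
          apply hz
          refine Metric.mem_cthickening_of_dist_le z x δ0 _ hx ?_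
          rw [dist_comm, dist_eq_norm]
          exact (hdist x z h).trans (by linarith)
        rw [this, mul_zero]
      · rw [image_eq_zero_of_notMem_tsupport hx, zero_mul]
    unfold cv'
    simp only [this, integral_zero]
  have hcvc : Continuous (cv' η s χ) := cv'_cont hη hχ
  have hcvts : tsupport (cv' η s χ) ⊆ K0 := by
    refine closure_minimal (fun z hz => ?_) hK0c.isClosed
    by_contra h
    exact hz (hcv0 z h)
  have hcv : IsCC (cv' η s χ) := by
    refine ⟨hcvc, HasCompactSupport.of_support_subset_isCompact hK0c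
      ((subset_tsupport _).trans hcvts), hcvts.trans hthick⟩
  refine avgL_closeW (W := TT R B) (AA_cont hf hχ) (AA_cont hf hcv) hl 0 (TT R B).zero_mem ?_
  intro v hv hvn
  rw [sub_zero] at hvn
  have h5 := AA_close hf hKD hK hKv hχ.cont hχ0 hcvc hcv0 hclose hv hvn
  refine h5.trans ?_
  rw [hom, mul_div_assoc', div_le_iff₀ (by positivity)]
  nlinarith

theorem mol_im {f : Pt A B → ℂ} (hf : ∀ᵐ z, z ∈ Dom A B → (f z).im = 0) {η : Pt A B → ℂ}
    {s : Pt A B} {r : ℝ} (hη : IsKernel η s r) (hη0 : ∀ x, (η x).im = 0) {x : Pt A B}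
    (hx : x ∈ Dom A B) : (mol η s f x).im = 0 := by
  have e : mol η s f x = ∫ z, (((f z).re * (η (x + s - z)).re : ℝ) : ℂ) := by
    unfold mol
    refine integral_congr_ae ?_
    filter_upwards [hf] with z hz
    by_cases hzD : z ∈ Dom A B
    · apply Complex.ext
      · simp [hz hzD, hη0]
      · simp [hz hzD, hη0]
    · have : η (x + s - z) = 0 := hη.zero_of fun h => hzD (hη.mem (fun i => (hx i).le) h)
      rw [this]; simp
  rw [e, integral_complex_ofReal, Complex.ofReal_im]

/-- The average of the functional given by a diagonal coefficient of a closed positive current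
depends only on the integral of the test function. -/
theorem avg_pair {Γ : Subgroup (Grp A B)} {R : A → Prop} (hG : Good Γ R)
    {T : Pt A B → Matrix (A ⊕ B) (A ⊕ B) ℂ} (hT : IsCurrent Γ T) {j : A ⊕ B}
    {l : List (Pt A B)} (hl : ∀ μ ∈ l, μ ∈ LL hG)
    (hj : ∀ c : ℂ, (Pi.single j c : Pt A B) ∈ Submodule.span ℝ {μ | μ ∈ l})
    {χ1 χ2 : Pt A B → ℂ} (h1 : IsCC χ1) (h2 : IsCC χ2) (h12 : ∫ x, χ1 x = ∫ x, χ2 x) :
    avgL l (AA (fun x => T x j j) χ1) 0 = avgL l (AA (fun x => T x j j) χ2) 0 := by
  have hlT : ∀ μ ∈ l, μ ∈ TT R B := fun μ hμ => VV_le_TT hG (LL_le_VV hG (hl μ hμ))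
  set f : Pt A B → ℂ := fun x => T x j j with hf
  have hfint : ∀ K ⊆ Dom A B, IsCompact K → IntegrableOn f K := fun K hK hKc =>
    hT.int K hK hKc j j
  have hfim : ∀ᵐ z, z ∈ Dom A B → (f z).im = 0 := by
    filter_upwards [hT.pos] with z hz hzD
    have := (hz hzD).diag_pos (i := j)
    rw [Complex.lt_def] at this
    simp at this
    exact this.2.symm
  have hkey : ∀ (η : Pt A B → ℂ) (s : Pt A B) (ε : ℝ), IsKernel η s ε → (∀ x, (η x).im = 0) →
      avgL l (AA f (cv' η s χ1)) 0 = avgL l (AA f (cv' η s χ2)) 0 := by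
    intro η s ε hη hη0
    have hconst := avg_const (g := fun x i k => mol η s (fun z => T z i k) x) (j := j) (l := l)
      (R := R) (fun i k => D1_mol (fun K hK hKc => hT.int K hK hKc i k) hη)
      (fun x hx i j k => by
        have e1 := wd_mol (f := fun z => T z j k) (fun K hK hKc => hT.int K hK hKc j k) hη hx i
        have e2 := wd_mol (f := fun z => T z i k) (fun K hK hKc => hT.int K hK hKc i k) hη hx j
        change wd i (mol η s fun z => T z j k) x = wd j (mol η s fun z => T z i k) x
        rw [e1, e2]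
        congr 1
        exact hT.closed _ (hη.isTest hx) i j k)
      (fun x hx => mol_im hfim hη hη0 hx) hlT (fun i k μ hμ x hx => by
        refine mol_add (f := fun z => T z i k) ?_ hη hx
        obtain ⟨lam, hlam, hlam1, rfl⟩ := hl μ hμ
        filter_upwards [hT.inv lam (ker_le hlam)] with z hz hzD
        have h1 := hz hzD i k
        rw [der_eq_one hG hlam hlam1, der_eq_one hG hlam hlam1, act_ker hG hlam, hlam1,
          one_mul] at h1
        simpa using h1) hj
    have hpair : ∀ χ : Pt A B → ℂ, IsCC χ → avgL l (AA f (cv' η s χ)) 0 =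
        (∫ x, χ x) * avgL l (mol η s f) (base A B) := by
      intro χ hχ
      have hmc : ContinuousOn (mol η s f) (Dom A B) := (D1_mol hfint hη).continuousOn
      have e1 := swap_avg hmc hχ hlT 0 (TT R B).zero_mem
      have e2 : avgL l (fun v => ∫ x, χ x * mol η s f (x + v)) 0 =
          avgL l (AA f (cv' η s χ)) 0 :=
        avgL_congrW (W := TT R B) (fun v hv => conv_swap hfint hη hχ hv) hlT 0
          (TT R B).zero_mem
      rw [← e2, ← e1, ← integral_mul_const]
      congr 1
      funext x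
      by_cases hx : x ∈ Dom A B
      · have := hconst x hx (base A B) base_mem
        change avgL l (mol η s f) x = avgL l (mol η s f) (base A B) at this
        rw [add_zero, this]
      · rw [image_eq_zero_of_notMem_tsupport fun h => hx (hχ.supp h)]
        simp
    rw [hpair χ1 h1, hpair χ2 h2, h12]
  have hlim : ∀ δ : ℝ, 0 < δ → ‖avgL l (AA f χ1) 0 - avgL l (AA f χ2) 0‖ ≤ 2 * δ := by
    intro δ hδ
    obtain ⟨ε1, hε1, hε1'⟩ := approx hfint h1 hlT hδ
    obtain ⟨ε2, hε2, hε2'⟩ := approx hfint h2 hlT hδ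
    obtain ⟨η, s, hη, hs, hη0, hη1, hη2⟩ := exists_kernel (A := A) (B := B)
      (ε := min ε1 ε2) (by positivity)
    have a1 := hε1' η s _ (min_le_left _ _) hη hs hη1 hη2
    have a2 := hε2' η s _ (min_le_right _ _) hη hs hη1 hη2
    have a3 := hkey η s _ hη hη0
    rw [a3] at a1
    rw [norm_sub_rev] at a2
    have e : avgL l (AA f χ1) 0 - avgL l (AA f χ2) 0 =
        (avgL l (AA f χ1) 0 - avgL l (AA f (cv' η s χ2)) 0) +
        (avgL l (AA f (cv' η s χ2)) 0 - avgL l (AA f χ2) 0) := by ring
    rw [e]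
    exact (norm_add_le _ _).trans (by linarith)
  by_contra hne
  have hpos : 0 < ‖avgL l (AA f χ1) 0 - avgL l (AA f χ2) 0‖ := norm_pos_iff.2 (sub_ne_zero.2 hne)
  have := hlim _ (show 0 < ‖avgL l (AA f χ1) 0 - avgL l (AA f χ2) 0‖ / 4 by positivity)
  linarith

end Pool.Agent.H906.PC
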