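import Pool.Agent.H906.PC.Weak6

/-! # Closed positive currents make the characters unitary -/

set_option linter.unusedSectionVars false

open Filter Topology Matrix MeasureTheory
open scoped MatrixGroups Classical ComplexOrder ContDiff

namespace Pool.Agent.H906.PC

variable {A B : Type*} [Fintype A] [Fintype B]

theorem der_add {Γ : Subgroup (Grp A B)} {R : A → Prop} (hG : Good Γ R)
    {γ : Grp A B} (hγ : γ ∈ Γ) (x : Pt A B) {t : Pt A B} (ht : t ∈ TT R B) :
    der γ (x + t) = der γ x := by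
  funext k
  rcases k with i | j
  · by_cases hi : R i
    · have htri := hG.tri i hi γ hγ
      simp [der, den, htri]
    · have h0 := (ht i).2 hi
      simp [der, h0]
  · rfl

theorem jac_add {Γ : Subgroup (Grp A B)} {R : A → Prop} (hG : Good Γ R)
    {γ : Grp A B} (hγ : γ ∈ Γ) (x : Pt A B) {t : Pt A B} (ht : t ∈ TT R B) :
    jac γ (x + t) = jac γ x := by
  unfold jac
  rw [der_add hG hγ x ht]

theorem jac_inv_mul (h : Grp A B) {x : Pt A B} (hx : x ∈ Dom A B) :
    jac h⁻¹ (act h x) * jac h x = 1 := by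
  unfold jac
  rw [← Finset.prod_mul_distrib]
  exact Finset.prod_eq_one fun k _ => der_inv_mul h hx k

/-- the push forward of a test function -/
noncomputable def pf (δ : Grp A B) (χ : Pt A B → ℂ) : Pt A B → ℂ :=
  (Dom A B).indicator fun y => ((‖jac δ⁻¹ y‖ ^ 2 : ℝ) : ℂ) * χ (act δ⁻¹ y)

theorem pf_isTest (δ : Grp A B) {χ : Pt A B → ℂ} (hχ : IsTest χ) : IsTest (pf δ χ) := by
  have hK : IsCompact (act δ '' tsupport χ) :=
    hχ.compact.isCompact.image_of_continuousOn ((cdo_act δ).continuousOn.mono hχ.supp)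
  refine isTest_indicator ?_ hK ?_ ?_
  · refine ContDiffOn.mul ?_ ?_
    · have e : (fun y : Pt A B => ((‖jac δ⁻¹ y‖ ^ 2 : ℝ) : ℂ)) =
          fun y => (∏ k, der δ⁻¹ y k) * ∏ k, star (der δ⁻¹ y k) := by
        funext y
        have := Complex.mul_conj (jac δ⁻¹ y)
        rw [Complex.normSq_eq_norm_sq] at this
        rw [← this]
        unfold jac
        rw [map_prod]
        rfl
      rw [e]
      exact (cdo_prod _ fun k => cdo_der δ⁻¹ k).mul (cdo_prod _ fun k => cdo_star_der δ⁻¹ k)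
    · exact hχ.smooth.comp_contDiffOn (cdo_act δ⁻¹)
  · rintro _ ⟨x, hx, rfl⟩
    exact act_mem δ (hχ.supp hx)
  · intro y hy hyK
    have : act δ⁻¹ y ∉ tsupport χ := fun h => hyK ⟨act δ⁻¹ y, h, act_act_inv δ hy⟩
    rw [image_eq_zero_of_notMem_tsupport this, mul_zero]

theorem pf_integral (δ : Grp A B) {χ : Pt A B → ℂ} (hχ : IsTest χ) :
    ∫ x, pf δ χ x = ∫ x, χ x := by
  unfold pf
  rw [integral_indicator measurableSet_dom, integral_eq_dom (f := χ) (fun x hx =>
    image_eq_zero_of_notMem_tsupport fun h => hx (hχ.supp h)), cv δ⁻¹ χ]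
  refine setIntegral_congr_fun measurableSet_dom fun y _ => ?_
  rw [Complex.real_smul]

theorem sub_mem_dom {R : A → Prop} {x t : Pt A B} (hx : x ∈ Dom A B) (ht : t ∈ TT R B) :
    x - t ∈ Dom A B := by
  rw [sub_eq_add_neg]; exact add_mem_dom hx ((TT R B).neg_mem ht)

theorem mem_dom_of_sub {R : A → Prop} {x t : Pt A B} (hx : x - t ∈ Dom A B) (ht : t ∈ TT R B) :
    x ∈ Dom A B := by
  have := add_mem_dom hx ht
  rwa [sub_add_cancel] at this

theorem AA_pf {Γ : Subgroup (Grp A B)} {R : A → Prop} (hG : Good Γ R)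
    {T : Pt A B → Matrix (A ⊕ B) (A ⊕ B) ℂ} (hT : IsCurrent Γ T) {χ : Pt A B → ℂ}
    (hχ : IsTest χ) (j : B) {δ : Grp A B} (hδ : δ ∈ Γ) {v : Pt A B} (hv : v ∈ TT R B) :
    AA (fun x => T x (Sum.inr j) (Sum.inr j)) (pf δ χ) v * ((‖lin (δ.2 j)‖ ^ 2 : ℝ) : ℂ) =
      AA (fun x => T x (Sum.inr j) (Sum.inr j)) χ (dd R δ⁻¹ * v) := by
  have hdv : dd R δ⁻¹ * v ∈ TT R B := (dd_mem_SS hG (Γ.inv_mem hδ)).2 v hv
  unfold AA
  rw [integral_eq_dom (f := fun z => T z (Sum.inr j) (Sum.inr j) * pf δ χ (z - v)) (by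
    intro z hz
    have : z - v ∉ Dom A B := fun h => hz (mem_dom_of_sub h hv)
    unfold pf
    rw [Set.indicator_of_notMem this, mul_zero]),
    integral_eq_dom (f := fun z => T z (Sum.inr j) (Sum.inr j) * χ (z - dd R δ⁻¹ * v)) (by
    intro z hz
    have : z - dd R δ⁻¹ * v ∉ Dom A B := fun h => hz (mem_dom_of_sub h hdv)
    rw [image_eq_zero_of_notMem_tsupport fun h => this (hχ.supp h), mul_zero]),
    cv δ, ← integral_mul_const]
  refine setIntegral_congr_ae measurableSet_dom ?_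
  filter_upwards [hT.inv δ hδ] with w hw hwD
  have h1 := hw hwD (Sum.inr j) (Sum.inr j)
  have h2 : act δ w - v ∈ Dom A B := sub_mem_dom (act_mem δ hwD) hv
  have h3 : act δ⁻¹ (act δ w - v) = w - dd R δ⁻¹ * v := by
    rw [sub_eq_add_neg, act_add hG (Γ.inv_mem hδ) _ ((TT R B).neg_mem hv), act_inv_act δ hwD,
      mul_neg, ← sub_eq_add_neg]
  have h4 : jac δ⁻¹ (act δ w - v) = jac δ⁻¹ (act δ w) := by
    rw [sub_eq_add_neg, jac_add hG (Γ.inv_mem hδ) _ ((TT R B).neg_mem hv)]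
  have h5 : ‖jac δ w‖ ^ 2 * ‖jac δ⁻¹ (act δ w)‖ ^ 2 = 1 := by
    rw [← mul_pow, mul_comm, ← norm_mul, jac_inv_mul δ hwD, norm_one, one_pow]
  have h5' : ((‖jac δ w‖ ^ 2 : ℝ) : ℂ) * ((‖jac δ⁻¹ (act δ w)‖ ^ 2 : ℝ) : ℂ) = 1 := by
    rw [← Complex.ofReal_mul, h5, Complex.ofReal_one]
  have h6 : (lin (δ.2 j) * star (lin (δ.2 j)) : ℂ) = ((‖lin (δ.2 j)‖ ^ 2 : ℝ) : ℂ) := by
    have := Complex.mul_conj (lin (δ.2 j))
    rw [Complex.normSq_eq_norm_sq] at this
    exact this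
  have h7 : pf δ χ (act δ w - v) = ((‖jac δ⁻¹ (act δ w)‖ ^ 2 : ℝ) : ℂ) *
      χ (w - dd R δ⁻¹ * v) := by
    unfold pf
    rw [Set.indicator_of_mem h2, h3, h4]
  change T (act δ w) (Sum.inr j) (Sum.inr j) * lin (δ.2 j) * star (lin (δ.2 j)) = _ at h1
  rw [mul_assoc, h6] at h1
  rw [h7, Complex.real_smul, ← h1]
  linear_combination (T (act δ w) (Sum.inr j) (Sum.inr j) * χ (w - dd R δ⁻¹ * v) *
    ((‖lin (δ.2 j)‖ ^ 2 : ℝ) : ℂ)) * h5'

/-- a nonnegative test function -/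
theorem exists_bump : ∃ φ : Pt A B → ℝ, IsTest (fun x => (φ x : ℂ)) ∧ (∀ x, 0 ≤ φ x) ∧
    ∀ x ∈ Metric.ball (base A B) (1 / 2), 0 < φ x := by
  let φ : ContDiffBump (base A B) := ⟨1 / 4, 1 / 2, by norm_num, by norm_num⟩
  refine ⟨φ, ⟨?_, ?_, ?_⟩, fun x => φ.nonneg, ?_⟩
  · exact Complex.ofRealCLM.contDiff.comp φ.contDiff
  · exact φ.hasCompactSupport.comp_left (g := fun r : ℝ => (r : ℂ)) Complex.ofReal_zero
  · refine (closure_minimal (fun x hx => ?_) Metric.isClosed_closedBall).trans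
      (closedBall_subset (A := A) (B := B))
    by_contra h
    rw [Metric.mem_closedBall, not_le] at h
    have : φ x = 0 := φ.zero_of_le_dist h.le
    exact hx (by simp [this])
  · intro x hx
    exact φ.pos_of_mem_ball hx

theorem AA_pos {Γ : Subgroup (Grp A B)} {R : A → Prop}
    {T : Pt A B → Matrix (A ⊕ B) (A ⊕ B) ℂ} (hT : IsCurrent Γ T) {φ : Pt A B → ℝ}
    (hφ : IsTest fun x => (φ x : ℂ)) (hφ0 : ∀ x, 0 ≤ φ x)
    (hφ1 : ∀ x ∈ Metric.ball (base A B) (1 / 2), 0 < φ x) (j : A ⊕ B) {v : Pt A B}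
    (hv : v ∈ TT R B) :
    (AA (fun x => T x j j) (fun x => (φ x : ℂ)) v).im = 0 ∧
      0 < (AA (fun x => T x j j) (fun x => (φ x : ℂ)) v).re := by
  have hfpos : ∀ᵐ z, z ∈ Dom A B → (T z j j).im = 0 ∧ 0 < (T z j j).re := by
    filter_upwards [hT.pos] with z hz hzD
    have := (hz hzD).diag_pos (i := j)
    rw [Complex.lt_def] at this
    simp at this
    exact ⟨this.2.symm, this.1⟩
  have hz0 : ∀ z, z ∉ Dom A B → φ (z - v) = 0 := by
    intro z hz
    have h1 : z - v ∉ Dom A B := fun h => hz (mem_dom_of_sub h hv)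
    have h2 := image_eq_zero_of_notMem_tsupport
      (f := fun x => (φ x : ℂ)) (x := z - v) fun h => h1 (hφ.supp h)
    exact_mod_cast h2
  have hint : Integrable fun z => T z j j * (φ (z - v) : ℂ) := by
    obtain ⟨K, hKD, hK, hKv⟩ := exists_KK (R := R) hφ.compact hφ.supp ‖v‖
    refine integrable_mul hK (hT.int K hKD hK j j) (φ := fun z => (φ (z - v) : ℂ)) ?_ ?_
    · exact (hφ.smooth.continuous.comp (continuous_id.sub continuous_const)).continuousOn
    · intro z hz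
      exact image_eq_zero_of_notMem_tsupport (f := fun x => (φ x : ℂ)) (x := z - v)
        fun h => hz (hKv v hv le_rfl z h)
  have e : (fun z => T z j j * (φ (z - v) : ℂ)) =ᵐ[volume]
      fun z => (((T z j j).re * φ (z - v) : ℝ) : ℂ) := by
    filter_upwards [hfpos] with z hz
    by_cases hzD : z ∈ Dom A B
    · apply Complex.ext
      · simp
      · simp [(hz hzD).1]
    · rw [hz0 z hzD]; simp
  have hintr : Integrable fun z => (T z j j).re * φ (z - v) := by
    have := hint.re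
    refine this.congr ?_
    filter_upwards [e] with z hz
    change (T z j j * (φ (z - v) : ℂ)).re = _
    rw [hz, Complex.ofReal_re]
  have e2 : AA (fun x => T x j j) (fun x => (φ x : ℂ)) v =
      ((∫ z, (T z j j).re * φ (z - v) : ℝ) : ℂ) := by
    unfold AA
    rw [integral_congr_ae e, integral_complex_ofReal]
  rw [e2]
  refine ⟨Complex.ofReal_im _, ?_⟩
  rw [Complex.ofReal_re]
  have hnn : 0 ≤ᵐ[volume] fun z => (T z j j).re * φ (z - v) := by
    filter_upwards [hfpos] with z hz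
    by_cases hzD : z ∈ Dom A B
    · exact mul_nonneg (hz hzD).2.le (hφ0 _)
    · rw [hz0 z hzD]; simp
  rw [integral_pos_iff_support_of_nonneg_ae hnn hintr]
  have hball : (0 : ENNReal) < volume (Metric.ball (base A B + v) (1 / 2)) :=
    Metric.measure_ball_pos _ _ (by norm_num)
  refine hball.trans_le (measure_mono_ae ?_)
  filter_upwards [hfpos] with z hz hzb'
  have hzb : z ∈ Metric.ball (base A B + v) (1 / 2) := hzb'
  have h1 : z - v ∈ Metric.ball (base A B) (1 / 2) := by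
    rw [Metric.mem_ball, dist_eq_norm] at hzb ⊢
    have e : z - v - base A B = z - (base A B + v) := by abel
    rw [e]; exact hzb
  have h2 : z ∈ Dom A B := mem_dom_of_sub (closedBall_subset (Metric.ball_subset_closedBall h1)) hv
  exact (mul_pos (hz h2).2 (hφ1 _ h1)).ne'

/-- If `X` carries a closed positive current which is positive definite almost everywhere, then
the characters of those flat directions which are contained in the span of the lattice are
unitary. -/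
theorem unitary_of_current {Γ : Subgroup (Grp A B)} {R : A → Prop} (hG : Good Γ R)
    {T : Pt A B → Matrix (A ⊕ B) (A ⊕ B) ℂ} (hT : IsCurrent Γ T) (j : B)
    (hj : ∀ c : ℂ, (Pi.single (Sum.inr j) c : Pt A B) ∈ VV hG) {γ : Grp A B} (hγ : γ ∈ Γ) :
    ‖lin (γ.2 j)‖ = 1 := by
  obtain ⟨s, hs1, hs2⟩ := exists_spanning hG
  obtain ⟨rL, hrL, hred⟩ := exists_reduce hG
  set l := s.toList with hl
  have hlL : ∀ μ ∈ l, μ ∈ LL hG := fun μ hμ => hs1 μ (by simpa [hl] using hμ)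
  have hlV : ∀ μ ∈ l, μ ∈ VV hG := fun μ hμ => LL_le_VV hG (hlL μ hμ)
  have hlT : ∀ μ ∈ l, μ ∈ TT R B := fun μ hμ => VV_le_TT hG (hlV μ hμ)
  have hspan : Submodule.span ℝ {μ | μ ∈ l} = VV hG := by
    rw [← hs2]; congr 1; ext μ; simp [hl]
  obtain ⟨φ, hφ, hφ0, hφ1⟩ := exists_bump (A := A) (B := B)
  set χ : Pt A B → ℂ := fun x => (φ x : ℂ) with hχ
  set f : Pt A B → ℂ := fun x => T x (Sum.inr j) (Sum.inr j) with hf
  have hfint : ∀ K ⊆ Dom A B, IsCompact K → IntegrableOn f K := fun K hK hKc =>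
    hT.int K hK hKc _ _
  have hpos := fun (v : Pt A B) (hv : v ∈ TT R B) =>
    AA_pos hT hφ hφ0 hφ1 (Sum.inr j) hv
  have hac : ContinuousOn (AA f χ) (TT R B) := AA_cont hfint hφ.isCC
  have haV : ContinuousOn (AA f χ) (VV hG) := hac.mono (VV_le_TT hG)
  have hper : ∀ μ ∈ LL hG, ∀ v, v ∈ TT R B → AA f χ (v + μ) = AA f χ v := by
    rintro _ ⟨lam, hlam, hlam1, rfl⟩ v hv
    unfold AA
    rw [← integral_add_right_eq_self (fun z => f z * χ (z - (v + tt R lam))) (tt R lam)]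
    refine integral_congr_ae ?_
    filter_upwards [hT.inv lam (ker_le hlam)] with z hz
    have e : z + tt R lam - (v + tt R lam) = z - v := by abel
    rw [e]
    by_cases hzD : z ∈ Dom A B
    · have h1 := hz hzD (Sum.inr j) (Sum.inr j)
      rw [der_eq_one hG hlam hlam1, act_ker hG hlam, hlam1, one_mul] at h1
      have h2 : f (z + tt R lam) = f z := by simpa using h1
      rw [h2]
    · have h1 : z - v ∉ Dom A B := fun h => hzD (mem_dom_of_sub h hv)
      rw [image_eq_zero_of_notMem_tsupport (f := χ) fun h => h1 (hφ.supp h)]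
      simp
  obtain ⟨m, M, hm0, hmM⟩ : ∃ m M : ℝ, 0 < m ∧ ∀ v ∈ VV hG,
      (AA f χ v).im = 0 ∧ m ≤ (AA f χ v).re ∧ (AA f χ v).re ≤ M := by
    set K := (VV hG : Set (Pt A B)) ∩ Metric.closedBall 0 rL with hK
    have hKc : IsCompact K := (isCompact_closedBall _ _).inter_left
      (VV hG).closed_of_finiteDimensional
    have hKne : K.Nonempty := ⟨0, (VV hG).zero_mem, by
      rw [mem_closedBall_zero_iff, norm_zero]; exact hrL⟩
    have hre : ContinuousOn (fun x => (AA f χ x).re) K :=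
      Complex.continuous_re.comp_continuousOn (haV.mono Set.inter_subset_left)
    obtain ⟨x1, hx1, hmin⟩ := hKc.exists_isMinOn hKne hre
    obtain ⟨x2, hx2, hmax⟩ := hKc.exists_isMaxOn hKne hre
    refine ⟨(AA f χ x1).re, (AA f χ x2).re, (hpos x1 (VV_le_TT hG hx1.1)).2, fun v hv => ?_⟩
    obtain ⟨lam, hlam, hlam1, hlam2⟩ := hred v hv
    have hmemL : tt R lam ∈ LL hG := ⟨lam, hlam, hlam1, rfl⟩
    have h1 : AA f χ v = AA f χ (v + tt R lam) := (hper _ hmemL v (VV_le_TT hG hv)).symm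
    have hmem : v + tt R lam ∈ K :=
      ⟨(VV hG).add_mem hv (LL_le_VV hG hmemL), by rwa [mem_closedBall_zero_iff]⟩
    refine ⟨(hpos v (VV_le_TT hG hv)).1, ?_, ?_⟩
    · rw [h1]; exact hmin hmem
    · rw [h1]; exact hmax hmem
  set C := (avgL l (AA f χ) 0).re with hC
  have hCpos : 0 < C := by
    have := avgL_boundW haV hmM hlV 0 (VV hG).zero_mem
    linarith [this.2.1]
  have hkey : ∀ δ ∈ Γ, m ≤ C * ‖lin (δ.2 j)‖ ^ 2 ∧ C * ‖lin (δ.2 j)‖ ^ 2 ≤ M := by
    intro δ hδ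
    have h1 : avgL l (AA f χ) 0 = avgL l (AA f (pf δ χ)) 0 :=
      avg_pair hG hT hlL (by rw [hspan]; exact hj) hφ.isCC (pf_isTest δ hφ).isCC
        (pf_integral δ hφ).symm
    have hDV : ∀ v ∈ VV hG, dd R δ⁻¹ * v ∈ VV hG := (dd_mem_SS hG (Γ.inv_mem hδ)).1
    have hDc : ContinuousOn (fun v => AA f χ (dd R δ⁻¹ * v)) (VV hG) := by
      refine haV.comp ?_ hDV
      exact (continuous_const.mul continuous_id).continuousOn
    have h2 := avgL_boundW hDc (fun v hv => hmM _ (hDV v hv)) hlV 0 (VV hG).zero_mem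
    have hne : ((‖lin (δ.2 j)‖ ^ 2 : ℝ) : ℂ) ≠ 0 := by
      rw [Complex.ofReal_ne_zero]
      exact pow_ne_zero 2 (norm_ne_zero_iff.2 (lin_ne_zero _))
    have hmul : ∀ (l' : List (Pt A B)), (∀ μ ∈ l', μ ∈ VV hG) → ∀ w ∈ VV hG,
        avgL l' (AA f (pf δ χ)) w * ((‖lin (δ.2 j)‖ ^ 2 : ℝ) : ℂ) =
          avgL l' (fun v => AA f χ (dd R δ⁻¹ * v)) w := by
      intro l'
      induction l' with
      | nil =>
        intro _ w hw
        exact AA_pf hG hT hφ j hδ (VV_le_TT hG hw)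
      | cons μ l' ih =>
        intro h w hw
        change (∫ c in (0 : ℝ)..1, avgL l' (AA f (pf δ χ)) (w + c • μ)) * _ =
          ∫ c in (0 : ℝ)..1, avgL l' (fun v => AA f χ (dd R δ⁻¹ * v)) (w + c • μ)
        rw [← intervalIntegral.integral_mul_const]
        refine intervalIntegral.integral_congr fun c _ => ?_
        exact ih (fun ν hν => h ν (List.mem_cons_of_mem _ hν)) _
          ((VV hG).add_mem hw ((VV hG).smul_mem c (h μ List.mem_cons_self)))
    have h3 := hmul l hlV 0 (VV hG).zero_mem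
    rw [← h1] at h3
    rw [← h3, Complex.re_mul_ofReal] at h2
    exact h2.2
  have hpow : ∀ n : ℕ, lin ((γ ^ n).2 j) = lin (γ.2 j) ^ n := by
    intro n
    induction n with
    | zero => simp [lin_one]
    | succ n ih =>
      rw [pow_succ, pow_succ, ← ih]
      exact lin_mul _ _
  have hinvl : lin ((γ⁻¹).2 j) = (lin (γ.2 j))⁻¹ := lin_inv _
  have hpow' : ∀ n : ℕ, lin ((γ⁻¹ ^ n).2 j) = (lin (γ.2 j))⁻¹ ^ n := by
    intro n
    induction n with
    | zero => simp [lin_one]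
    | succ n ih =>
      rw [pow_succ, pow_succ, ← ih, ← hinvl]
      exact lin_mul _ _
  have hpos : 0 < ‖lin (γ.2 j)‖ := norm_pos_iff.2 (lin_ne_zero _)
  rcases lt_trichotomy ‖lin (γ.2 j)‖ 1 with h | h | h
  · exfalso
    have h1 : Tendsto (fun n : ℕ => C * (‖lin (γ.2 j)‖ ^ n) ^ 2) atTop (𝓝 (C * 0 ^ 2)) :=
      ((tendsto_pow_atTop_nhds_zero_of_lt_one hpos.le h).pow 2).const_mul C
    have h2 := h1.eventually_lt_const (show C * 0 ^ 2 < m by simpa using hm0)
    obtain ⟨n, hn⟩ := h2.exists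
    have h3 := (hkey (γ ^ n) (Γ.pow_mem hγ n)).1
    rw [hpow, norm_pow] at h3
    linarith
  · exact h
  · exfalso
    have h0 : ‖lin (γ.2 j)‖⁻¹ < 1 := inv_lt_one_of_one_lt₀ h
    have h1 : Tendsto (fun n : ℕ => C * (‖lin (γ.2 j)‖⁻¹ ^ n) ^ 2) atTop (𝓝 (C * 0 ^ 2)) :=
      ((tendsto_pow_atTop_nhds_zero_of_lt_one (inv_nonneg.2 hpos.le) h0).pow 2).const_mul C
    have h2 := h1.eventually_lt_const (show C * 0 ^ 2 < m by simpa using hm0)
    obtain ⟨n, hn⟩ := h2.exists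
    have h3 := (hkey (γ⁻¹ ^ n) (Γ.pow_mem (Γ.inv_mem hγ) n)).1
    rw [hpow', norm_pow, norm_inv] at h3
    linarith

theorem uni_of_current {Γ : Subgroup (Grp A B)} {T : Pt A B → Matrix (A ⊕ B) (A ⊕ B) ℂ}
    (hT : IsCurrent Γ T) : Uni Γ := fun _ hG j hj _ hγ => unitary_of_current hG hT j hj hγ

end Pool.Agent.H906.PC
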